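import Mathlib.Topology.Sheaves.Presheaf
import Mathlib.RingTheory.Flat.TorsionFree
import Mathlib.Analysis.Calculus.SmoothSeries
import Mathlib.RingTheory.SimpleRing.Principal
import Pool.Agent.MP_1ba41f_an.K3.Newton
import Mathlib.LinearAlgebra.Complex.FiniteDimensional
import Mathlib.Analysis.Calculus.Deriv.Pi

-- ======== part 0: formerly Pool.Agent.MP_1ba41f_an.K3.Model0
section MrgPart0

/-! PROJECT KAM3: shared library for the Fourier model. -/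

noncomputable section
open Finset Complex

namespace Pool.Agent.MP_1ba41f_an.K3

section Grad
variable {J E : Type} [Fintype J] [NormedAddCommGroup E] [NormedSpace ℝ E]

theorem grad_single [DecidableEq J] (w : J → E) (j : J) : grad w (Pi.single j 1) = w j := by
  rw [grad_apply, sum_eq_single j] <;> simp +contextual
theorem grad_inj {w w' : J → E} (h : grad w = grad w') : w = w' := by
  classical
  funext j; rw [← grad_single w j, h, grad_single]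
theorem grad_zero : grad (fun _ : J => (0 : E)) = 0 := by ext h; simp [grad_apply]
theorem norm_grad_le (w : J → E) : ‖grad w‖ ≤ ∑ j, ‖w j‖ :=
  ContinuousLinearMap.opNorm_le_bound _ (sum_nonneg fun _ _ => norm_nonneg _) fun h => by
    rw [grad_apply, sum_mul]
    refine (norm_sum_le _ _).trans (sum_le_sum fun j _ => ?_)
    rw [norm_smul, mul_comm]
    exact mul_le_mul_of_nonneg_left (norm_le_pi_norm h j) (norm_nonneg _)
theorem hasSum_grad {I : Type} {w : I → J → E} {W : J → E} (h : ∀ j, HasSum (fun i => w i j) (W j)) :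
    HasSum (fun i => grad (w i)) (grad W) :=
  hasSum_sum fun j _ => (ContinuousLinearMap.smulRightL ℝ (J → ℝ) E
    (ContinuousLinearMap.proj j)).hasSum (h j)
/-- derivative along a line -/
theorem hasDerivAt_line {f : (J → ℝ) → E} {w : J → E} {θ v : J → ℝ} {t : ℝ}
    (h : HasFDerivAt f (grad w) (θ + t • v)) :
    HasDerivAt (fun t : ℝ => f (θ + t • v)) (∑ j, v j • w j) t := by
  have h1 : HasDerivAt (fun t : ℝ => θ + t • v) v t := by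
    simpa using ((hasDerivAt_id t).smul_const v).const_add θ
  rw [← grad_apply]; exact h.comp_hasDerivAt t h1
theorem hasDerivAt_one {f : (Fin 1 → ℝ) → E} {w : Fin 1 → E} {t : ℝ}
    (h : HasFDerivAt f (grad w) fun _ => t) : HasDerivAt (fun t : ℝ => f fun _ => t) (w 0) t := by
  have h1 : HasDerivAt (fun (t : ℝ) (_ : Fin 1) => t) (fun _ => 1) t :=
    hasDerivAt_pi.2 fun _ => hasDerivAt_id t
  simpa [grad_apply, Function.comp_def] using h.comp_hasDerivAt t h1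
/-- a function of one coordinate -/
theorem hasFDerivAt_coord [DecidableEq J] {f : ℝ → E} {f' : E} {θ : J → ℝ} (j : J)
    (h : HasDerivAt f f' (θ j)) :
    HasFDerivAt (fun θ : J → ℝ => f (θ j)) (grad (Pi.single j f')) θ := by
  have := HasFDerivAt.comp (f := fun θ : J → ℝ => θ j) θ h.hasFDerivAt
    (hasFDerivAt_apply (𝕜 := ℝ) j θ)
  refine this.congr_fderiv ?_
  ext v; rw [grad_apply, sum_eq_single j] <;> simp +contextual

end Grad

section BdF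
variable {Y : Type} [TopologicalSpace Y] {J : Type} [Fintype J] {s c : ℝ}
  {F G : Y → (J → ℝ) → ℂ}

/-- a representation by modes -/
structure IsRep (s c : ℝ) (F : Y → (J → ℝ) → ℂ) {I : Type} (k : I → J → ℤ) (a : I → C(Y, ℂ))
    (b : I → ℝ) : Prop where
  b0 : ∀ i, 0 ≤ b i
  ab : ∀ i y, ‖a i y‖ ≤ b i
  sm : Summable fun i => b i * Real.exp (max s 0 * sz (k i))
  le : ∑' i, b i * Real.exp (max s 0 * sz (k i)) ≤ c
  hs : ∀ y θ, HasSum (fun i => a i y * ph (k i) θ) (F y θ)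

theorem BdF.rep (h : BdF s F c) : ∃ (I : Type) (k : I → J → ℤ) (a : I → C(Y, ℂ)) (b : I → ℝ),
    IsRep s c F k a b :=
  let ⟨I, k, a, b, h0, h1, h2, h3, h4⟩ := h; ⟨I, k, a, b, h0, h1, h2, h3, h4⟩
theorem IsRep.bdF {I : Type} {k : I → J → ℤ} {a : I → C(Y, ℂ)} {b : I → ℝ}
    (h : IsRep s c F k a b) : BdF s F c := ⟨I, k, a, b, h.b0, h.ab, h.sm, h.le, h.hs⟩
theorem IsRep.smb {I : Type} {k : I → J → ℤ} {a : I → C(Y, ℂ)} {b : I → ℝ}
    (h : IsRep s c F k a b) : Summable b :=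
  Summable.of_nonneg_of_le h.b0 (fun i => le_mul_of_one_le_right (h.b0 i) (one_le_wt _ _)) h.sm

/-- Fourier multipliers -/
theorem IsRep.mult {I : Type} {k : I → J → ℤ} {a : I → C(Y, ℂ)} {b : I → ℝ}
    (h : IsRep s c F k a b) (s' : ℝ) (n : I → C(Y, ℂ)) (m : I → ℝ) {M : ℝ} (hM : 0 ≤ M)
    (m0 : ∀ i, 0 ≤ m i) (hn : ∀ i y, ‖n i y‖ ≤ m i)
    (hm : ∀ i, m i * Real.exp (max s' 0 * sz (k i)) ≤ M * Real.exp (max s 0 * sz (k i))) :
    IsRep s' (M * c) (fun y θ => ∑' i, n i y * a i y * ph (k i) θ) k (fun i => n i * a i)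
      fun i => m i * b i := by
  have hle : ∀ i, m i * b i * Real.exp (max s' 0 * sz (k i)) ≤
      M * (b i * Real.exp (max s 0 * sz (k i))) := fun i => by
    have := mul_le_mul_of_nonneg_left (hm i) (h.b0 i); linarith
  have b0 : ∀ i, 0 ≤ m i * b i := fun i => mul_nonneg (m0 i) (h.b0 i)
  have ab : ∀ i y, ‖(n i * a i) y‖ ≤ m i * b i := fun i y => by
    rw [ContinuousMap.mul_apply, norm_mul]
    exact mul_le_mul (hn i y) (h.ab i y) (norm_nonneg _) (m0 i)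
  have sm : Summable fun i => m i * b i * Real.exp (max s' 0 * sz (k i)) :=
    Summable.of_nonneg_of_le (fun i => mul_nonneg (b0 i) (Real.exp_pos _).le) hle (h.sm.mul_left M)
  refine ⟨b0, ab, sm, (sm.tsum_le_tsum hle (h.sm.mul_left M)).trans ?_, fun y θ =>
    (summable_norm_of b0 ab sm y θ).of_norm.hasSum⟩
  rw [tsum_mul_left]; exact mul_le_mul_of_nonneg_left h.le hM

theorem abs_le_sz (k : J → ℤ) (j : J) : |(k j : ℝ)| ≤ sz k :=
  single_le_sum (f := fun j => |(k j : ℝ)|) (fun _ _ => abs_nonneg _) (mem_univ j)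

/-- `x e^{(s-d) x} ≤ e^{s x} / d` -/
theorem sz_wt {d : ℝ} (h0 : 0 < d) (h1 : d < s) (k : J → ℤ) :
    sz k * Real.exp (max (s - d) 0 * sz k) ≤ 1 / d * Real.exp (max s 0 * sz k) := by
  rw [max_eq_left (by linarith), max_eq_left (by linarith), sub_mul, Real.exp_sub,
    ← mul_div_assoc, div_le_iff₀ (Real.exp_pos _)]
  have := Real.add_one_le_exp (d * sz k)
  have h2 : sz k ≤ 1 / d * Real.exp (d * sz k) := by
    rw [one_div, ← div_eq_inv_mul, le_div_iff₀ h0]; linarith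
  nlinarith [Real.exp_pos (s * sz k)]

theorem hasFDerivAt_ph (k : J → ℤ) (z : ℂ) (θ : J → ℝ) :
    HasFDerivAt (fun θ => z * ph k θ) (grad fun j => I * (k j : ℂ) * z * ph k θ) θ := by
  have h1 : HasFDerivAt (fun θ : J → ℝ => ∑ j, (k j : ℝ) * θ j) (grad fun j => (k j : ℝ)) θ := by
    have := HasFDerivAt.fun_sum (u := univ) fun j _ =>
      (hasFDerivAt_apply (𝕜 := ℝ) j θ).const_mul (k j : ℝ)
    refine this.congr_fderiv ?_
    ext v; simp [grad_apply, mul_comm]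
  have h2 := (((Complex.ofRealCLM.hasFDerivAt.comp θ h1).const_mul I).cexp).const_mul z
  refine h2.congr_fderiv ?_
  ext v
  simp only [grad_apply, ph, smul_apply, ContinuousLinearMap.comp_apply,
    ofRealCLM_apply, smul_eq_mul, Function.comp_apply, real_smul, ofReal_sum, ofReal_mul, mul_sum,
    ofReal_intCast]
  exact sum_congr rfl fun j _ => by ring

/-- termwise derivative -/
theorem IsRep.der {I : Type} {k : I → J → ℤ} {a : I → C(Y, ℂ)} {b : I → ℝ}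
    (h : IsRep s c F k a b) (hs : 0 < s) (y : Y) (θ : J → ℝ) :
    (∀ j, Summable fun i => Complex.I * (k i j : ℂ) * a i y * ph (k i) θ) ∧
    HasFDerivAt (F y) (grad fun j => ∑' i, Complex.I * (k i j : ℂ) * a i y * ph (k i) θ) θ := by
  have hu : Summable fun i => sz (k i) * b i :=
    Summable.of_nonneg_of_le (fun i => mul_nonneg (sz_nonneg _) (h.b0 i)) (fun i => by
      have h1 := mul_le_mul_of_nonneg_left (sz_wt (half_pos hs) (half_lt_self hs) (k i)) (h.b0 i)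
      have h2 := mul_le_mul_of_nonneg_left (one_le_wt (s - s / 2) (k i))
        (mul_nonneg (sz_nonneg (k i)) (h.b0 i))
      linarith) (h.sm.mul_left (1 / (s / 2)))
  have hn : ∀ i j θ, ‖Complex.I * (k i j : ℂ) * a i y * ph (k i) θ‖ ≤ |(k i j : ℝ)| * b i :=
    fun i j θ => by
      rw [norm_mul, norm_mul, norm_mul, norm_I, norm_ph, one_mul, mul_one, norm_intCast]
      exact mul_le_mul_of_nonneg_left (h.ab i y) (abs_nonneg _)
  have hsm : ∀ j, Summable fun i => Complex.I * (k i j : ℂ) * a i y * ph (k i) θ := fun j =>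
    Summable.of_norm_bounded hu fun i =>
      (hn i j θ).trans (mul_le_mul_of_nonneg_right (abs_le_sz _ _) (h.b0 i))
  refine ⟨hsm, ?_⟩
  have := hasFDerivAt_tsum hu (fun i θ => hasFDerivAt_ph (k i) (a i y) θ)
    (fun i θ => (norm_grad_le _).trans ((sum_le_sum fun j _ => hn i j θ).trans
      (le_of_eq (by rw [← sum_mul]; rfl)))) (h.hs y θ).summable θ
  rw [(hasSum_grad fun j => (hsm j).hasSum).tsum_eq] at this
  have e : F y = fun θ => ∑' i, a i y * ph (k i) θ := funext fun θ => (h.hs y θ).tsum_eq.symm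
  rw [e]; exact this

/-- Cauchy estimate -/
theorem BdF.der {d : ℝ} (h : BdF s F c) (h0 : 0 < d) (h1 : d < s) :
    ∃ G : J → Y → (J → ℝ) → ℂ, (∀ j, BdF (s - d) (G j) (c / d)) ∧
      ∀ y θ, HasFDerivAt (F y) (grad fun j => G j y θ) θ := by
  obtain ⟨I, k, a, b, h⟩ := h.rep
  refine ⟨fun j y θ => ∑' i, Complex.I * (k i j : ℂ) * a i y * ph (k i) θ, fun j => ?_,
    fun y θ => (h.der (h0.trans h1) y θ).2⟩
  have := (h.mult (s - d) (fun i => ContinuousMap.const Y (Complex.I * (k i j : ℂ)))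
    (fun i => sz (k i)) (M := 1 / d) (by positivity) (fun i => sz_nonneg _)
    (fun i y => by simpa using abs_le_sz (k i) j) fun i => sz_wt h0 h1 _).bdF
  exact this.mono le_rfl (le_of_eq (by ring))

theorem BdF.congr (h : BdF s F c) (e : ∀ y θ, F y θ = G y θ) : BdF s G c := by
  rwa [show G = F from funext fun y => funext fun θ => (e y θ).symm]
theorem BdF.nonneg (h : BdF s F c) : 0 ≤ c :=
  let ⟨_, _, _, _, h⟩ := h.rep
  (tsum_nonneg fun i => mul_nonneg (h.b0 i) (Real.exp_pos _).le).trans h.le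
theorem BdF.norm_le (h : BdF s F c) (y θ) : ‖F y θ‖ ≤ c := by
  obtain ⟨_, k, a, b, h⟩ := h.rep
  refine le_trans (HasSum.norm_le_of_bounded (h.hs y θ) h.sm.hasSum fun i => ?_) h.le
  rw [norm_mul, norm_ph, mul_one]
  exact (h.ab i y).trans (le_mul_of_one_le_right (h.b0 i) (one_le_wt _ _))
theorem continuous_ph (k : J → ℤ) : Continuous (ph k) := by unfold ph; fun_prop
theorem BdF.continuous (h : BdF s F c) : Continuous (Function.uncurry F) := by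
  obtain ⟨_, k, a, b, h⟩ := h.rep
  have e : Function.uncurry F = fun x => ∑' i, a i x.1 * ph (k i) x.2 :=
    funext fun x => (h.hs x.1 x.2).tsum_eq.symm
  rw [e]
  exact continuous_tsum (fun i => ((a i).continuous.comp continuous_fst).mul
    ((continuous_ph _).comp continuous_snd)) h.smb fun i x => by
      rw [norm_mul, norm_ph, mul_one]; exact h.ab i _
theorem ph_periodic [DecidableEq J] (k : J → ℤ) (θ : J → ℝ) (j : J) :
    ph k (θ + Pi.single j (2 * Real.pi)) = ph k θ := by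
  have : ∑ i, (k i : ℝ) * (θ + Pi.single j (2 * Real.pi) : J → ℝ) i =
      ∑ i, (k i : ℝ) * θ i + k j * (2 * Real.pi) := by
    simp only [Pi.add_apply, mul_add, sum_add_distrib]
    rw [sum_eq_single j (f := fun i => (k i : ℝ) * (Pi.single j (2 * Real.pi) : J → ℝ) i)] <;>
      simp +contextual
  unfold ph
  rw [this, ofReal_add, mul_add, Complex.exp_add]
  have := Complex.exp_int_mul_two_pi_mul_I (k j)
  rw [show I * (((k j : ℝ) * (2 * Real.pi) : ℝ) : ℂ) = k j * (2 * Real.pi * I) by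
    push_cast; ring, this, mul_one]
theorem BdF.periodic [DecidableEq J] (h : BdF s F c) (y θ) (j : J) :
    F y (θ + Pi.single j (2 * Real.pi)) = F y θ := by
  obtain ⟨_, k, a, b, h⟩ := h.rep
  have := h.hs y (θ + Pi.single j (2 * Real.pi))
  simp only [ph_periodic] at this
  exact this.unique (h.hs y θ)
theorem BdF.cmul (z : ℂ) (h : BdF s F c) : BdF s (fun y θ => z * F y θ) (‖z‖ * c) :=
  (BdF.const s z).mul h
theorem BdF.neg (h : BdF s F c) : BdF s (fun y θ => -F y θ) c := by simpa using h.cmul (-1)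
theorem BdF.sub {c'} (h : BdF s F c) (h' : BdF s G c') :
    BdF s (fun y θ => F y θ - G y θ) (c + c') := by simpa [sub_eq_add_neg] using h.add h'.neg
theorem ph_neg (k : J → ℤ) (θ : J → ℝ) : ph (-k) θ = ph k (-θ) := by simp [ph]
theorem conj_ph (k : J → ℤ) (θ : J → ℝ) : (starRingEnd ℂ) (ph k θ) = ph (-k) θ := by
  simp [ph, ← Complex.exp_conj]
theorem BdF.refl (h : BdF s F c) : BdF s (fun y θ => F y (-θ)) c := by
  obtain ⟨_, k, a, b, h⟩ := h.rep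
  exact ⟨_, fun i => -k i, a, b, h.b0, h.ab, by simpa only [sz_neg] using h.sm,
    by simpa only [sz_neg] using h.le, fun y θ => by simpa only [ph_neg] using h.hs y (-θ)⟩
theorem BdF.conj (h : BdF s F c) : BdF s (fun y θ => (starRingEnd ℂ) (F y θ)) c := by
  obtain ⟨_, k, a, b, h⟩ := h.rep
  refine ⟨_, fun i => -k i, fun i => star (a i), b, h.b0, fun i y => by simpa using h.ab i y,
    by simpa only [sz_neg] using h.sm, by simpa only [sz_neg] using h.le, fun y θ => ?_⟩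
  simpa [conj_ph] using Complex.hasSum_conj'.2 (h.hs y θ)
theorem BdF.re (h : BdF s F c) : BdF s (fun y θ => ((F y θ).re : ℂ)) c :=
  (((h.add h.conj).cmul (1 / 2)).congr fun y θ => by rw [Complex.add_conj]; push_cast; ring).mono
    le_rfl (le_of_eq (by simp; ring))
theorem BdF.im (h : BdF s F c) : BdF s (fun y θ => ((F y θ).im : ℂ)) c :=
  ((h.cmul (-I)).re.congr fun y θ => by simp).mono le_rfl (le_of_eq (by simp))
/-- change of parameter -/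
theorem BdF.comp {Y' : Type} [TopologicalSpace Y'] (φ : C(Y', Y)) (h : BdF s F c) :
    BdF s (fun y θ => F (φ y) θ) c := by
  obtain ⟨_, k, a, b, h⟩ := h.rep
  exact ⟨_, k, fun i => (a i).comp φ, b, h.b0, fun i y => h.ab i _, h.sm, h.le,
    fun y θ => h.hs _ θ⟩
/-- a function of one angle as a function on a torus -/
theorem BdF.lift [DecidableEq J] {F : Y → (Fin 1 → ℝ) → ℂ} (j : J) (h : BdF s F c) :
    BdF s (fun y (θ : J → ℝ) => F y fun _ => θ j) c := by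
  obtain ⟨_, k, a, b, h⟩ := h.rep
  have e1 : ∀ n : Fin 1 → ℤ, sz (Pi.single j (n 0) : J → ℤ) = sz n := fun n => by
    unfold sz; rw [sum_eq_single j] <;> simp +contextual
  have e2 : ∀ (n : Fin 1 → ℤ) (θ : J → ℝ), ph (Pi.single j (n 0) : J → ℤ) θ = ph n fun _ => θ j :=
    fun n θ => by unfold ph; rw [sum_eq_single j] <;> simp +contextual
  exact ⟨_, fun i => Pi.single j (k i 0), a, b, h.b0, h.ab, by simpa only [e1] using h.sm,
    by simpa only [e1] using h.le, fun y θ => by simpa only [e2] using h.hs y _⟩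
theorem BdF.expI [DecidableEq J] (s : ℝ) (j : J) (n : ℤ) :
    BdF s (fun (_ : Y) (θ : J → ℝ) => exp (I * (n * θ j))) (Real.exp (max s 0 * |(n : ℝ)|)) := by
  have e1 : sz (Pi.single j n : J → ℤ) = |(n : ℝ)| := by
    unfold sz; rw [sum_eq_single j] <;> simp +contextual
  have := BdF.mode s (Pi.single j n : J → ℤ) (1 : C(Y, ℂ)) zero_le_one fun _ => by simp
  rw [e1, one_mul] at this
  refine this.congr fun y θ => ?_
  unfold ph; rw [sum_eq_single j] <;> simp +contextual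
theorem BdF.cos [DecidableEq J] (s : ℝ) (j : J) :
    BdF s (fun (_ : Y) (θ : J → ℝ) => ((Real.cos (θ j) : ℝ) : ℂ)) (Real.exp (max s 0)) := by
  have := (BdF.expI (Y := Y) s j 1).re
  simp only [Int.cast_one, abs_one, mul_one, one_mul] at this
  exact this.congr fun y θ => by rw [mul_comm, exp_ofReal_mul_I_re]
theorem BdF.an1 {F : Y → (Fin 1 → ℝ) → ℂ} (h : BdF s F c) (y : Y) :
    An1 s fun t => F y fun _ => t :=
  ⟨c, (h.comp (ContinuousMap.const Unit y)).congr fun _ θ => by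
    simp only [ContinuousMap.const_apply]; congr 1; funext i; rw [Subsingleton.elim i 0]⟩

end BdF

namespace An1
variable {s : ℝ} {f g : ℝ → ℂ}

theorem lift (Y : Type) [TopologicalSpace Y] {J : Type} [Fintype J] [DecidableEq J] (j : J)
    (h : An1 s f) : ∃ c, BdF s (fun (_ : Y) (θ : J → ℝ) => f (θ j)) c :=
  let ⟨c, h⟩ := h; ⟨c, (h.comp (ContinuousMap.const Y ())).lift j⟩
theorem const (s : ℝ) (z : ℂ) : An1 s fun _ => z := ⟨_, BdF.const s z⟩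
theorem add (h : An1 s f) (h' : An1 s g) : An1 s fun t => f t + g t :=
  let ⟨_, h⟩ := h; let ⟨_, h'⟩ := h'; ⟨_, h.add h'⟩
theorem sub (h : An1 s f) (h' : An1 s g) : An1 s fun t => f t - g t :=
  let ⟨_, h⟩ := h; let ⟨_, h'⟩ := h'; ⟨_, h.sub h'⟩
theorem mul (h : An1 s f) (h' : An1 s g) : An1 s fun t => f t * g t :=
  let ⟨_, h⟩ := h; let ⟨_, h'⟩ := h'; ⟨_, h.mul h'⟩
theorem conj (h : An1 s f) : An1 s fun t => (starRingEnd ℂ) (f t) := let ⟨_, h⟩ := h; ⟨_, h.conj⟩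
theorem refl (h : An1 s f) : An1 s fun t => f (-t) := let ⟨_, h⟩ := h; ⟨_, h.refl⟩
theorem periodic (h : An1 s f) (t : ℝ) : f (t + 2 * Real.pi) = f t := by
  obtain ⟨_, h⟩ := h; simpa using h.periodic () (fun _ => t) 0
theorem bounded (h : An1 s f) : ∃ c, ∀ t, ‖f t‖ ≤ c :=
  let ⟨c, h⟩ := h; ⟨c, fun t => h.norm_le () fun _ => t⟩
theorem continuous (h : An1 s f) : Continuous f :=
  let ⟨_, h⟩ := h
  h.continuous.comp (f := fun t : ℝ => ((), fun _ : Fin 1 => t)) (by fun_prop)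

end An1

section Mod
variable {Y : Type} [TopologicalSpace Y] {J : Type} [Fintype J]

/-- element of `AlgC` from a bound -/
def mkC {s c : ℝ} (F : Y → (J → ℝ) → ℂ) (hs : 0 < s) (h : BdF s F c) : AlgC Y J := ⟨F, s, hs, c, h⟩
/-- element of `AlgR` from a bound -/
def mkR {s c : ℝ} (F : Y → (J → ℝ) → ℝ) (hs : 0 < s) (h : BdF s (fun y θ => (F y θ : ℂ)) c) :
    AlgR Y J := ⟨F, s, hs, c, h⟩
theorem extC {f g : AlgC Y J} (h : ∀ y θ, f.1 y θ = g.1 y θ) : f = g :=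
  Subtype.ext (funext fun y => funext (h y))
theorem extR {f g : AlgR Y J} (h : ∀ y θ, f.1 y θ = g.1 y θ) : f = g :=
  Subtype.ext (funext fun y => funext (h y))
/-- evaluation at a point -/
def evC (y : Y) (θ : J → ℝ) : AlgC Y J →ₐ[ℝ] ℂ :=
  ((Pi.evalAlgHom ℝ (fun _ : J → ℝ => ℂ) θ).comp
    (Pi.evalAlgHom ℝ (fun _ : Y => (J → ℝ) → ℂ) y)).comp (AlgC Y J).val
/-- evaluation at a point -/
def evR (y : Y) (θ : J → ℝ) : AlgR Y J →ₐ[ℝ] ℝ :=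
  ((Pi.evalAlgHom ℝ (fun _ : J → ℝ => ℝ) θ).comp
    (Pi.evalAlgHom ℝ (fun _ : Y => (J → ℝ) → ℝ) y)).comp (AlgR Y J).val
theorem evC_apply (y : Y) (θ : J → ℝ) (f : AlgC Y J) : evC y θ f = f.1 y θ := rfl
theorem evR_apply (y : Y) (θ : J → ℝ) (f : AlgR Y J) : evR y θ f = f.1 y θ := rfl
theorem contC (f : AlgC Y J) : Continuous (Function.uncurry f.1) :=
  let ⟨_, _, _, h⟩ := f.2; h.continuous
theorem contR (f : AlgR Y J) : Continuous (Function.uncurry f.1) :=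
  let ⟨_, _, _, h⟩ := f.2; Complex.continuous_re.comp h.continuous
theorem perC [DecidableEq J] (f : AlgC Y J) (y θ) (j : J) :
    f.1 y (θ + Pi.single j (2 * Real.pi)) = f.1 y θ := let ⟨_, _, _, h⟩ := f.2; h.periodic y θ j
theorem perR [DecidableEq J] (f : AlgR Y J) (y θ) (j : J) :
    f.1 y (θ + Pi.single j (2 * Real.pi)) = f.1 y θ :=
  let ⟨_, _, _, h⟩ := f.2; Complex.ofReal_injective (h.periodic y θ j)

namespace IsModC
variable {S : Scale (AlgC Y J) J} (hS : IsModC S)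
include hS
theorem norm_le {s f c} (h : S.Bd s f c) (y θ) : ‖f.1 y θ‖ ≤ c := ((hS.bd _ _ _).1 h).norm_le y θ
theorem D_eq {f : AlgC Y J} {y θ} {w : J → ℂ} (h : HasFDerivAt (f.1 y) (grad w) θ) (j : J) :
    (S.D j f).1 y θ = w j := congrFun (grad_inj ((hS.der f y θ).unique h)) j
theorem cst_apply {f} (h : S.Cst f) (y θ) : f.1 y θ = f.1 y 0 :=
  is_const_of_fderiv_eq_zero (𝕜 := ℝ) (fun θ => (hS.der f y θ).differentiableAt) (fun θ => by
    rw [(hS.der f y θ).fderiv]; simp only [h _]; exact grad_zero) θ 0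
theorem cst_of {f : AlgC Y J} (h : ∀ y θ, f.1 y θ = f.1 y 0) : S.Cst f := fun j =>
  extC fun y θ => hS.D_eq (w := fun _ => 0) (by
    rw [grad_zero, show f.1 y = fun _ => f.1 y 0 from funext (h y)]; exact hasFDerivAt_const _ _) j
end IsModC

namespace IsModR
variable {S : Scale (AlgR Y J) J} (hS : IsModR S)
include hS
theorem abs_le {s f c} (h : S.Bd s f c) (y θ) : |f.1 y θ| ≤ c := by
  simpa using ((hS.bd _ _ _).1 h).norm_le y θ
theorem D_eq {f : AlgR Y J} {y θ} {w : J → ℝ} (h : HasFDerivAt (f.1 y) (grad w) θ) (j : J) :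
    (S.D j f).1 y θ = w j := congrFun (grad_inj ((hS.der f y θ).unique h)) j
theorem cst_apply {f} (h : S.Cst f) (y θ) : f.1 y θ = f.1 y 0 :=
  is_const_of_fderiv_eq_zero (𝕜 := ℝ) (fun θ => (hS.der f y θ).differentiableAt) (fun θ => by
    rw [(hS.der f y θ).fderiv]; simp only [h _]; exact grad_zero) θ 0
theorem cst_of {f : AlgR Y J} (h : ∀ y θ, f.1 y θ = f.1 y 0) : S.Cst f := fun j =>
  extR fun y θ => hS.D_eq (w := fun _ => 0) (by
    rw [grad_zero, show f.1 y = fun _ => f.1 y 0 from funext (h y)]; exact hasFDerivAt_const _ _) j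
end IsModR

end Mod

end Pool.Agent.MP_1ba41f_an.K3

end
end MrgPart0

-- ======== part 1: formerly Pool.Agent.MP_1ba41f_an.K4.Defs
section MrgPart1

/-! PROJECT LUNAR: definitions. -/

noncomputable section
open Finset

namespace Pool.Agent.MP_1ba41f_an.K4
open K3

/-! ### Brackets and homomorphisms in a scale -/

/-- three angles and three actions -/
abbrev V6 : Type := Fin 3 ⊕ Fin 3
abbrev th (j : Fin 3) : V6 := Sum.inl j
abbrev ac (j : Fin 3) : V6 := Sum.inr j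

section Abstract
variable {A : Type} [CommRing A] [Algebra ℝ A]

/-- weighted symplectic pairing of two gradients -/
def brv (w : Fin 3 → ℝ) (a b : V6 → A) : A :=
  ∑ j, w j • (a (th j) * b (ac j) - a (ac j) * b (th j))

variable (S : Scale A V6)

/-- weighted Poisson bracket -/
def br (w : Fin 3 → ℝ) (f g : A) : A := brv w (fun i => S.D i f) (fun i => S.D i g)
/-- independent of the angles in `T` -/
def Ina (T : Finset (Fin 3)) (f : A) : Prop := ∀ j ∈ T, S.D (th j) f = 0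
/-- independent of all angles -/
def Ang (f : A) : Prop := ∀ j, S.D (th j) f = 0
/-- derivative along the frequency vector -/
def L3 (ω : Fin 3 → ℝ) : Derivation ℝ A A := ∑ j, ω j • S.D (th j)
/-- vanishing to second order on the zero section -/
def J2 (z0 : A →ₐ[ℝ] A) (Q : A) : Prop := z0 Q = 0 ∧ ∀ i, z0 (S.D (ac i) Q) = 0
/-- the linear Hamiltonian with frequency vector `ω` -/
def NN (w ω : Fin 3 → ℝ) (x : Fin 3 → A) : A := ∑ j, (ω j / w j) • x j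

/-- actions, restriction to the zero section, averaging over one angle -/
structure Ext (x : Fin 3 → A) (z0 : A →ₐ[ℝ] A) : Prop where
  Dx : ∀ i j, S.D (ac i) (x j) = if i = j then 1 else 0
  Tx : ∀ i j, S.D (th i) (x j) = 0
  bx : ∀ j, S.Bd 1 (x j) 3
  zb : ∀ {s f c}, S.Bd s f c → S.Bd s (z0 f) c
  zth : ∀ i f, S.D (th i) (z0 f) = z0 (S.D (th i) f)
  zac : ∀ i f, S.D (ac i) (z0 f) = 0
  zx : ∀ j, z0 (x j) = 0
  zid : ∀ {f}, (∀ i, S.D (ac i) f = 0) → z0 f = f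
  avg : ∀ (j) {s f c}, 0 < s → S.Bd s f c → ∃ g m g', S.D (th j) g = f - m ∧ S.D (th j) m = 0 ∧
    S.D (th j) g' = g ∧ S.Bd s g c ∧ S.Bd s m c
  auniq : ∀ (j) {m g}, S.D (th j) m = 0 → S.D (th j) g = m → m = 0

/-- small divisor solver -/
structure Solv3 (ω : Fin 3 → ℝ) (γ : ℝ) : Prop where
  pos : 0 < γ
  solve : ∀ {s f c}, 0 < s → S.Bd s f c → ∃ g m, Ang S m ∧ S.Bd s m c ∧ L3 S ω g = f - m ∧
    ∀ d, 0 < d → d < s → S.Bd (s - d) g (c / (γ * d ^ 2))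
  muniq : ∀ {m g}, Ang S m → L3 S ω g = m → m = 0

/-- a near-identity canonical transformation, acting on elements of finite norm at level `s0` -/
structure Hom (w : Fin 3 → ℝ) (s0 s1 η : ℝ) (Ψ : A → A) : Prop where
  add : ∀ {f g}, S.An s0 f → S.An s0 g → Ψ (f + g) = Ψ f + Ψ g
  mul : ∀ {f g}, S.An s0 f → S.An s0 g → Ψ (f * g) = Ψ f * Ψ g
  cst : ∀ {f}, S.An s0 f → S.Cst f → Ψ f = f
  brk : ∀ {f g}, S.An s0 f → S.An s0 g → S.An s0 (br S w f g) →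
    Ψ (br S w f g) = br S w (Ψ f) (Ψ g)
  bd : ∀ {f c}, S.Bd s0 f c → S.Bd s1 (Ψ f - f) (η * c)

/-- input of the multi-scale normal form -/
structure NfData (w : Fin 3 → ℝ) (ε C : ℝ) (h0 P0 P1 m0 Fq F1 Fb : A) : Prop where
  w_pos : ∀ j, 0 < w j
  w0 : w 0 ≤ C / ε ^ 2
  w1 : w 1 ≤ C / ε ^ 3
  w2 : w 2 ≤ C / ε ^ 2
  w2' : 1 ≤ C * w 2
  an0 : S.An 1 h0
  ang0 : Ang S h0
  fr0 : w 0 • S.D (ac 0) h0 = algebraMap ℝ A (1 / 2)
  fr1 : S.D (ac 1) h0 = 0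
  fr2 : S.D (ac 2) h0 = 0
  inaP : Ina S {1, 2} P0
  bP : S.Bd 1 P0 (C * ε ^ 9)
  angm : Ang S m0
  bm : S.Bd 1 m0 (C * ε ^ 9)
  prm : ∃ a, S.D (th 0) a = P0 - m0
  m2 : S.D (ac 2) m0 = 0
  inv1 : ∃ u, (w 1 • S.D (ac 1) m0) * u = 1 ∧ S.Bd 1 u (C / ε ^ 6)
  oct : S.Bd 1 (P1 - Fq) (C * ε ^ 18)
  bq : S.Bd 1 Fq (C * ε ^ 14)
  F10 : S.D (th 0) F1 = 0
  pr1 : ∃ a, S.D (th 0) a = Fq - F1
  angb : Ang S Fb
  bb : S.Bd 1 Fb (C * ε ^ 14)
  prb : ∃ a, S.D (th 1) a = F1 - Fb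
  inv2 : ∃ u, S.D (ac 2) Fb * u = 1 ∧ S.Bd 1 u (C / ε ^ 14)

end Abstract

/-! ### The model -/

abbrev B4 : Type := Metric.closedBall (0 : Fin 4 → ℝ) 1
/-- the family parameter and the four adjustable parameters -/
abbrev YY : Type := I01 × B4

def Dioph3 (ω : Fin 3 → ℝ) (γ : ℝ) : Prop :=
  0 < γ ∧ ∀ k : Fin 3 → ℤ, k ≠ 0 → γ ≤ |∑ j, (k j : ℝ) * ω j| * sz k ^ 2

/-- an algebra of functions of parameters, angles and actions, with its scale of norms -/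
structure Mdl (A : Type) [CommRing A] [Algebra ℝ A] where
  S : Scale A V6
  x : Fin 3 → A
  z0 : A →ₐ[ℝ] A
  Z : Type
  ev : YY → Z → A →ₐ[ℝ] ℝ
  pt : (Fin 3 → ℝ) → Z
  cY : C(I01, ℝ) →ₐ[ℝ] A
  par : Fin 4 → A
  co : Fin 3 → A
  si : Fin 3 → A
  ext : Ext S x z0
  solv : ∀ ω γ, Dioph3 ω γ → Solv3 S ω γ
  inj : ∀ f, (∀ y z, ev y z f = 0) → f = 0
  abs_le : ∀ {s f c}, S.Bd s f c → ∀ y z, |ev y z f| ≤ c
  lip : ∀ {s f c}, S.Bd s f c → ∀ y p p' z, |ev (y, p) z f - ev (y, p') z f| ≤ c * dist p p'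
  cont : ∀ f, Continuous fun q : YY × (Fin 3 → ℝ) => ev q.1 (pt q.2) f
  per : ∀ f y θ j, ev y (pt (θ + Pi.single j (2 * Real.pi))) f = ev y (pt θ) f
  der : ∀ f y θ, HasFDerivAt (fun θ => ev y (pt θ) f)
    (grad fun j => ev y (pt θ) (S.D (th j) f)) θ
  evz : ∀ f y θ, ev y (pt θ) (z0 f) = ev y (pt θ) f
  cY_cst : ∀ φ, S.Cst (cY φ)
  cY_bd : ∀ s φ, S.Bd s (cY φ) ‖φ‖
  cY_ev : ∀ φ y z, ev y z (cY φ) = φ y.1
  par_cst : ∀ i, S.Cst (par i)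
  par_bd : ∀ s i, S.Bd s (par i) 2
  par_ev : ∀ i y z, ev y z (par i) = y.2.1 i
  co_bd : ∀ j, S.Bd 1 (co j) 3
  si_bd : ∀ j, S.Bd 1 (si j) 3
  co_ev : ∀ j y θ, ev y (pt θ) (co j) = Real.cos (θ j)
  si_ev : ∀ j y θ, ev y (pt θ) (si j) = Real.sin (θ j)
  cs : ∀ j, co j * co j + si j * si j = 1
  Dco : ∀ i j, S.D i (co j) = if i = th j then -si j else 0
  Dsi : ∀ i j, S.D i (si j) = if i = th j then co j else 0

/-! ### The reduced lunar problem -/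

/-- mass fractions `s1, s2`, third mass `mu`, small parameter `ep`, eccentricity scale `et` -/
structure Cfg where
  s1 : ℝ
  s2 : ℝ
  mu : ℝ
  ep : ℝ
  et : ℝ

namespace Cfg
variable (c : Cfg)
def M : ℝ := 1 + c.mu
def mm : ℝ := c.mu / (c.M * c.s1 * c.s2)
def n : ℝ := √c.M * c.ep ^ 6
def dl : ℝ := c.ep ^ 4
def ka : ℝ := c.mm * √c.M / c.ep ^ 2
def lam : ℝ := c.ka / (1 + c.ka)
def r0 : ℝ := c.et ^ 3
def n2 : ℝ := c.n * c.dl ^ 2 * (c.s1 * c.s2)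
def w : Fin 3 → ℝ := ![c.ka / (2 * c.r0), 1 / (2 * c.ep ^ 3), (1 + c.ka) / (2 * c.r0)]
/-- scale of the shape coordinate -/
def sc : ℝ := √c.mm / c.ep ^ 4

structure Ok : Prop where
  s1 : 0 < c.s1
  s2 : 0 < c.s2
  sum : c.s1 + c.s2 = 1
  mu : 0 < c.mu
  mu1 : c.mu ≤ 1
  ep : 0 < c.ep
  et : 0 < c.et

/-- the parameters belong to the masses `m` -/
structure Mass (m : Fin 3 → ℝ) : Prop where
  pos : ∀ i, 0 < m i
  s1 : c.s1 = m 0 / (m 0 + m 1)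
  s2 : c.s2 = m 1 / (m 0 + m 1)
  mu : c.mu = m 2 / (m 0 + m 1)
end Cfg

/-- phase variables: Levi-Civita pair `z, w`, outer distance and momentum, three inverses -/
structure Ph (A : Type) where
  z1 : A
  z2 : A
  w1 : A
  w2 : A
  R : A
  P : A
  Ri : A
  Y1 : A
  Y2 : A

namespace Ph
variable {A : Type} [CommRing A] [Algebra ℝ A] (c : Cfg) (cc hs : A) (p : Ph A)

def map {B : Type} (φ : A → B) : Ph B :=
  ⟨φ p.z1, φ p.z2, φ p.w1, φ p.w2, φ p.R, φ p.P, φ p.Ri, φ p.Y1, φ p.Y2⟩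
def All (Q : A → Prop) : Prop :=
  Q p.z1 ∧ Q p.z2 ∧ Q p.w1 ∧ Q p.w2 ∧ Q p.R ∧ Q p.P ∧ Q p.Ri ∧ Q p.Y1 ∧ Q p.Y2
def co : Fin 6 → A := ![p.z1, p.z2, p.w1, p.w2, p.R, p.P]
def r : A := p.z1 * p.z1 + p.z2 * p.z2
def X1 : A := p.z1 * p.z1 - p.z2 * p.z2
def X2 : A := 2 * (p.z1 * p.z2)
def a1 : A := p.R + (c.s2 * c.dl) • p.X1
def b1 : A := (c.s2 * c.dl) • p.X2
def a2 : A := p.R - (c.s1 * c.dl) • p.X1
def b2 : A := -((c.s1 * c.dl) • p.X2)
def gam : A := c.ka⁻¹ • (cc - (1 / 2 : ℝ) • (p.z1 * p.w2 - p.z2 * p.w1))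
def UU : A := (1 / 2 : ℝ) • (p.P * p.P + (gam c cc p * p.Ri) ^ 2) - c.s1 • p.Y1 - c.s2 • p.Y2 - hs
def KK : A := c.ka⁻¹ • ((1 / 8 : ℝ) • (p.w1 * p.w1 + p.w2 * p.w2) + (1 / 2 : ℝ) • p.r - 1) +
  c.n • (p.r * UU c cc hs p)
def Om : A := (c.n / 2) • (p.r * gam c cc p * p.Ri ^ 2)
def T1 : A := a1 c p * p.Y1 ^ 3 - a2 c p * p.Y2 ^ 3
def T2 : A := b1 c p * p.Y1 ^ 3 - b2 c p * p.Y2 ^ 3
def XX : Fin 6 → A :=
  ![(1 / 4 : ℝ) • p.w1 + Om c cc p * p.z2, (1 / 4 : ℝ) • p.w2 - Om c cc p * p.z1,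
    -p.z1 - (2 * c.ka * c.n) • (p.z1 * UU c cc hs p) + Om c cc p * p.w2 -
      (2 * c.ka * c.n * (c.s1 * c.s2) * c.dl) • (p.r * (p.z1 * T1 c p + p.z2 * T2 c p)),
    -p.z2 - (2 * c.ka * c.n) • (p.z2 * UU c cc hs p) - Om c cc p * p.w1 -
      (2 * c.ka * c.n * (c.s1 * c.s2) * c.dl) • (p.r * (p.z1 * T2 c p - p.z2 * T1 c p)),
    c.n • (p.r * p.P),
    c.n • (p.r * (gam c cc p ^ 2 * p.Ri ^ 3 - c.s1 • (a1 c p * p.Y1 ^ 3) -
      c.s2 • (a2 c p * p.Y2 ^ 3)))]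

structure Rel : Prop where
  R : p.R * p.Ri = 1
  Y1 : p.Y1 * p.Y1 * (a1 c p ^ 2 + b1 c p ^ 2) = 1
  Y2 : p.Y2 * p.Y2 * (a2 c p ^ 2 + b2 c p ^ 2) = 1

/-- the quadrupole term without its coefficient -/
def quad : A := p.Ri ^ 3 * (4 * p.X1 ^ 2 + -(2 * p.X2 ^ 2))

/-- the Levi-Civita position as a complex number -/
def zc (p : Ph ℝ) : ℂ := ⟨p.z1, p.z2⟩
end Ph

/-- the canonical brackets -/
def Jm (κ : ℝ) : Matrix (Fin 6) (Fin 6) ℝ :=
  !![0, 0, κ, 0, 0, 0; 0, 0, 0, κ, 0, 0; -κ, 0, 0, 0, 0, 0; 0, -κ, 0, 0, 0, 0;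
    0, 0, 0, 0, 0, 1; 0, 0, 0, 0, -1, 0]

def Can {A : Type} [CommRing A] [Algebra ℝ A] (S : Scale A V6) (w : Fin 3 → ℝ) (κ : ℝ)
    (p : Ph A) : Prop :=
  ∀ i j, br S w (p.co i) (p.co j) = algebraMap ℝ A (Jm κ i j)

/-! ### Families -/

/-- normalised secular frequency -/
def nu0 (l G g : ℝ) : ℝ := 3 / 8 * (2 * l * G / g ^ 3 - (1 - l) * (5 - 3 * G ^ 2) / g ^ 4)

/-- a path of inner and outer angular momenta with an adjustment direction -/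
structure Fam where
  g : C(I01, ℝ)
  ga : C(I01, ℝ)
  v1 : ℝ
  v2 : ℝ
  d : ℝ
  be : ℝ

def Fam.nf (F : Fam) (l : ℝ) (y : I01) (t : ℝ) : ℝ := nu0 l (F.g y + F.v1 * t) (F.ga y + F.v2 * t)

structure Fam.Ok (F : Fam) (l η : ℝ) : Prop where
  g : ∀ y, |F.g y| ≤ 3 / 4
  ga : ∀ y, 0 < F.ga y
  lo : ∀ y, η ^ 2 ≤ 1 - F.ga y ^ 2
  hi : ∀ y, 1 - F.ga y ^ 2 ≤ 4 * η ^ 2
  v1 : |F.v1| ≤ η
  v2 : |F.v2| ≤ η ^ 3
  nz : ∀ y, 1 / 100 ≤ |F.nf l y 0|
  d : η ^ 4 ≤ |F.d|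
  mis : ∀ y, |F.nf l y 0 - F.be| ≤ |F.d| / 8
  lip : ∀ y t t', |t| ≤ 1 → |t'| ≤ 1 →
    |F.nf l y t - F.nf l y t' - F.d * (t - t')| ≤ |F.d| / 4 * |t - t'|

/-! ### Action-angle coordinates in the model -/

section Coord
variable {A : Type} [CommRing A] [Algebra ℝ A] (M : Mdl A) (c : Cfg) (F : Fam)

def eI : A := 1 + c.ep • M.par 1 + c.r0 • M.x 0
def eL0 : A := 1 + c.ep • M.par 2
def eL : A := eL0 M c + c.ep ^ 3 • M.x 1
def eG0 : A := M.cY F.g + F.v1 • M.par 3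
def eg0 : A := M.cY F.ga + F.v2 • M.par 3
def eG : A := eG0 M F + (c.r0 * c.lam) • M.x 2
def eg : A := eg0 M F - (c.r0 * (1 - c.lam)) • M.x 2
/-- total angular momentum -/
def ecc : A := eG0 M F + c.ka • eg0 M F

/-- inverses and roots of functions of the actions -/
structure Act (A : Type) where
  Ii : A
  L0i : A
  Li : A
  gi : A
  a : A
  ai : A
  b : A
  bi : A
  e : A
  ei : A
  nui : A

def enu (t : Act A) : A := (3 / 8 : ℝ) • (eI M c * t.Li ^ 3 * ((2 * c.lam) • (eG M c F * t.gi ^ 3) -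
  (1 - c.lam) • ((5 * eI M c ^ 2 - 3 * eG M c F ^ 2) * t.gi ^ 4)))

structure IsAct (C : ℝ) (t : Act A) : Prop where
  Ii : eI M c * t.Ii = 1
  L0i : eL0 M c * t.L0i = 1
  Li : eL M c * t.Li = 1
  gi : eg M c F * t.gi = 1
  aa : 2 * (t.a * t.a) = eI M c + eG M c F
  ai : t.a * t.ai = 1
  bb : 2 * (t.b * t.b) = eI M c - eG M c F
  bi : t.b * t.bi = 1
  ee : t.e * t.e = 1 - (eg M c F * t.Li) ^ 2
  ei : t.e * t.ei = 1
  nui : enu M c F t * t.nui = 1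
  small : ∀ f ∈ [eI M c - 1, t.Ii - 1, eL0 M c - 1, t.L0i - 1, eL M c - 1, t.Li - 1,
    eg M c F - 1, t.gi - 1, t.e], M.S.Bd 1 f (C * c.et)
  bdd : ∀ f ∈ [eG M c F, t.a, t.b, t.nui], M.S.Bd 1 f C
  pos : ∀ y z, 0 ≤ M.ev y z t.a ∧ 0 ≤ M.ev y z t.b ∧ 0 ≤ M.ev y z t.e

/-- outer Kepler motion: rotation `U`, distance, radial momentum, cosine of the eccentric
anomaly, gradient of the rotation angle -/
structure Out (A : Type) where
  U1 : A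
  U2 : A
  R : A
  P : A
  Ri : A
  cE : A
  al : V6 → A

def Out.u4 (o : Out A) : A := o.U1 ^ 4 - 6 * (o.U1 ^ 2 * o.U2 ^ 2) + o.U2 ^ 4

/-- algebraic properties of the outer motion -/
structure OutAlg (S : Scale A V6) (w : Fin 3 → ℝ) (Li g gi : A) (o : Out A) : Prop where
  UU : o.U1 * o.U1 + o.U2 * o.U2 = 1
  DU1 : ∀ i, S.D i o.U1 = -(o.U2 * o.al i)
  DU2 : ∀ i, S.D i o.U2 = o.U1 * o.al i
  al0 : o.al (th 0) = 0
  al0' : o.al (ac 0) = 0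
  al2 : o.al (th 2) = 1
  DR : S.D (th 0) o.R = 0 ∧ S.D (ac 0) o.R = 0 ∧ S.D (th 2) o.R = 0
  DP : S.D (th 0) o.P = 0 ∧ S.D (ac 0) o.P = 0 ∧ S.D (th 2) o.P = 0
  RP : br S w o.R o.P = 1
  aR : brv w o.al (fun i => S.D i o.R) = 0
  aP : brv w o.al (fun i => S.D i o.P) = 0
  Ri : o.R * o.Ri = 1
  en : o.P * o.P + (g * o.Ri) ^ 2 - 2 * o.Ri = -(Li * Li)
  pr0 : ∃ a, S.D (th 1) a = o.Ri ^ 3 - (Li * gi) ^ 3
  pr4 : ∃ a, S.D (th 1) a = o.Ri ^ 3 * o.u4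

structure IsOut (w : Fin 3 → ℝ) (C : ℝ) (L Li g gi e : A) (o : Out A) : Prop where
  alg : OutAlg M.S w Li g gi o
  bdd : ∀ f ∈ [o.U1, o.U2, o.R, o.P, o.Ri], M.S.Bd 1 f C
  val : o.R = L * L * (1 - e * o.cE)
  cE : ∀ y θ, |M.ev y (M.pt θ) o.cE| ≤ 1
  cE0 : ∀ y θ, θ 1 = 0 → M.ev y (M.pt θ) o.cE = 1
  cE1 : ∀ y θ, θ 1 = Real.pi / 2 → M.ev y (M.pt θ) o.cE = -1

/-- the phase variables in action-angle form -/
def mkPh (a b c0 s0 : A) (o : Out A) (Y1 Y2 : A) : Ph A where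
  z1 := o.U1 * ((a + b) * c0) - o.U2 * ((a - b) * s0)
  z2 := o.U2 * ((a + b) * c0) + o.U1 * ((a - b) * s0)
  w1 := -(2 * (o.U1 * ((a + b) * s0) + o.U2 * ((a - b) * c0)))
  w2 := 2 * (o.U1 * ((a - b) * c0) - o.U2 * ((a + b) * s0))
  R := o.R
  P := o.P
  Ri := o.Ri
  Y1 := Y1
  Y2 := Y2

/-- the Hamiltonian and its pieces -/
structure Dat (A : Type) where
  p : Ph A
  cc : A
  hs : A
  P0 : A
  P1 : A
  m0 : A
  Fq : A
  F1 : A
  Fb : A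
  nuf : A

def eh0 : A := c.ka⁻¹ • (c.ep • M.par 1 + c.r0 • M.x 0)

/-- what the counterterm theorem needs -/
structure DatAlg (C : ℝ) (d : Dat A) : Prop where
  nf : NfData M.S c.w c.ep C (eh0 M c) d.P0 d.P1 d.m0 d.Fq d.F1 d.Fb
  K : d.p.KK c d.cc d.hs = eh0 M c + d.P0 + d.P1
  zm : M.z0 d.m0 = 0
  zm0 : M.z0 (M.S.D (ac 0) d.m0) = 0
  zm1 : M.S.Bd 1 (c.w 1 • M.z0 (M.S.D (ac 1) d.m0) -
    (c.n / 2) • (1 + c.ep • (M.par 1 - 3 * M.par 2))) (C * c.ep ^ 8)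
  zb2 : M.S.Bd 1 ((c.n2 * c.r0)⁻¹ • M.z0 (M.S.D (ac 2) d.Fb) - d.nuf) (C * c.ep)
  bnu : M.S.Bd 1 d.nuf C

structure IsDat (C : ℝ) (d : Dat A) : Prop where
  alg : DatAlg M c C d
  bdd : d.p.All fun f => M.S.Bd 1 f C
  cc : M.S.Cst d.cc ∧ M.S.An 1 d.cc
  hs : M.S.Cst d.hs ∧ M.S.An 1 d.hs
  rel : d.p.Rel c
  ham : ∀ i, br M.S c.w (d.p.co i) (d.p.KK c d.cc d.hs) = d.p.XX c d.cc d.hs i
  rot : M.S.D (th 2) d.p.z1 = -d.p.z2 ∧ M.S.D (th 2) d.p.z2 = d.p.z1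
  nuf : ∀ y θ, M.ev y (M.pt θ) d.nuf = F.nf c.lam y.1 (y.2.1 3)
  pos : ∀ y θ, 1 / 4 ≤ M.ev y (M.pt θ) d.p.R ∧ 1 / 4 ≤ M.ev y (M.pt θ) d.p.Y1 ∧
    1 / 4 ≤ M.ev y (M.pt θ) d.p.Y2
  vr : ∀ y θ, |M.ev y (M.pt θ) d.p.r -
    (1 + √(1 - (F.g y.1 + F.v1 * y.2.1 3) ^ 2) * Real.cos (2 * θ 0))| ≤ C * c.ep
  vR : ∀ y θ, ∃ t, |t| ≤ 1 ∧ (θ 1 = 0 → t = 1) ∧ (θ 1 = Real.pi / 2 → t = -1) ∧
    |M.ev y (M.pt θ) d.p.R - (1 - √(1 - (F.ga y.1 + F.v2 * y.2.1 3) ^ 2) * t)| ≤ C * c.ep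

end Coord

/-! ### The tori in pointwise form -/

structure TorDat where
  om : Fin 3 → ℝ
  p : I01 → (Fin 3 → ℝ) → Ph ℝ
  a : I01 → ℝ
  cc : I01 → ℝ
  hs : I01 → ℝ
  t : I01 → ℝ
  z' : I01 → (Fin 3 → ℝ) → ℂ

structure Tor (c : Cfg) (F : Fam) (C : ℝ) (T : TorDat) : Prop where
  ind : ∀ k : Fin 3 → ℤ, k ≠ 0 → ∑ j, (k j : ℝ) * T.om j ≠ 0
  cz : Continuous fun q : I01 × (Fin 3 → ℝ) => (T.p q.1 q.2).zc
  cR : Continuous fun q : I01 × (Fin 3 → ℝ) => (T.p q.1 q.2).R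
  per : ∀ y θ j, T.p y (θ + Pi.single j (2 * Real.pi)) = T.p y θ
  apos : ∀ y, 0 < T.a y
  ode : ∀ y (τ : ℝ) i, HasDerivAt (fun τ : ℝ => (T.p y (τ • T.om)).co i)
    (T.a y * (T.p y (τ • T.om)).XX c (T.cc y) (T.hs y) i) τ
  rel : ∀ y θ, (T.p y θ).Rel c
  pos : ∀ y θ, 0 < (T.p y θ).R ∧ 0 < (T.p y θ).Y1 ∧ 0 < (T.p y θ).Y2
  en : ∀ y θ, (T.p y θ).KK c (T.cc y) (T.hs y) = 0
  dz : ∀ y θ, HasDerivAt (fun s => (T.p y (Function.update θ 2 s)).zc) (T.z' y θ) (θ 2)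
  rot : ∀ y θ, ‖T.z' y θ - Complex.I * (T.p y θ).zc‖ ≤ C * c.ep
  t : ∀ y, |T.t y| ≤ 1
  vr : ∀ y θ, |‖(T.p y θ).zc‖ ^ 2 -
    (1 + √(1 - (F.g y + F.v1 * T.t y) ^ 2) * Real.cos (2 * θ 0))| ≤ C * c.ep
  vR : ∀ y θ, ∃ t, |t| ≤ 1 ∧ (θ 1 = 0 → t = 1) ∧ (θ 1 = Real.pi / 2 → t = -1) ∧
    |(T.p y θ).R - (1 - √(1 - (F.ga y + F.v2 * T.t y) ^ 2) * t)| ≤ C * c.ep

/-- modulus of the shape coordinate, times the scale -/
def TorDat.rad (T : TorDat) (y : I01) (θ : Fin 3 → ℝ) : ℝ := ‖(T.p y θ).zc‖ ^ 2 / (T.p y θ).R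

/-- shape as a function of the ratio of the Jacobi vectors -/
def sh2 (ζ : ℂ) : EuclideanSpace ℝ (Fin 3) := (2 * ‖wv ζ 1‖)⁻¹ • wv ζ 1

/-- the area `A0` is attained -/
def Att (m : Fin 3 → ℝ) (A0 : ℝ) : Prop :=
  ∃ q, IsSol m q ∧ area (closure (Set.range fun t => shape m (q t))) = A0

end Pool.Agent.MP_1ba41f_an.K4

end
end MrgPart1

-- ======== part 2: formerly Pool.Agent.MP_1ba41f_an.K4.Spec
section MrgPart2

/-! PROJECT LUNAR: module statements. -/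

noncomputable section
open Finset MeasureTheory Filter Topology

namespace Pool.Agent.MP_1ba41f_an.K4
open K3

/-! ### Model and arithmetic -/

def ModStmt : Prop := ∃ (A : Type) (_ : CommRing A) (_ : Algebra ℝ A), Nonempty (Mdl A)

def Dio3Stmt : Prop := ∃ c : ℝ, 0 < c ∧ ∀ τ t1 t2 : ℝ, 0 < τ → τ ≤ 1 →
  ∃ ω : Fin 3 → ℝ, ω 0 = 1 / 2 ∧ |ω 1 - t1| ≤ τ ∧ |ω 2 - t2| ≤ τ ∧ Dioph3 ω (c * τ)

def Kron3Stmt : Prop := ∀ (ω : Fin 3 → ℝ) (X : Type) [TopologicalSpace X] (F : (Fin 3 → ℝ) → X),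
  (∀ k : Fin 3 → ℤ, k ≠ 0 → ∑ j, (k j : ℝ) * ω j ≠ 0) → Continuous F →
  (∀ θ j, F (θ + Pi.single j (2 * Real.pi)) = F θ) →
  Set.range F ⊆ closure (Set.range fun t : ℝ => F (t • ω))

def ParamStmt : Prop := ∀ (E : Fin 4 → I01 → B4 → ℝ) (ν : I01 → ℝ → ℝ) (β d e0 : ℝ),
  d ≠ 0 → 0 ≤ e0 → e0 ≤ 1 / 100 → e0 ≤ |d| / 100 →
  (∀ i p, Continuous fun y => E i y p) → (∀ t, |t| ≤ 1 → Continuous fun y => ν y t) →
  (∀ i y p, |E i y p| ≤ e0) → (∀ i y p p', |E i y p - E i y p'| ≤ e0 * dist p p') →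
  (∀ y, |ν y 0 - β| ≤ |d| / 4) →
  (∀ y t t', |t| ≤ 1 → |t'| ≤ 1 → |ν y t - ν y t' - d * (t - t')| ≤ |d| / 4 * |t - t'|) →
  ∃ p : I01 → B4, Continuous p ∧ ∀ y, E 0 y (p y) = (p y).1 0 / 2 ∧ E 1 y (p y) = -(p y).1 1 ∧
    E 2 y (p y) = ((p y).1 0 + (p y).1 1 - 3 * (p y).1 2) / 2 ∧ E 3 y (p y) = ν y ((p y).1 3) - β

/-! ### Lie transforms, averaging, normal form -/

def LieStmt : Prop := ∀ (A : Type) [CommRing A] [Algebra ℝ A] (S : Scale A V6)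
  (w : Fin 3 → ℝ) (χ : A) (s0 d b v v' : ℝ) (T : Finset (Fin 3)), 0 < d → d < s0 →
  (∀ j, 0 ≤ w j) → (∀ i, S.Bd s0 (S.D i χ) b) → (∀ j, w j * b ≤ v) → (∀ j ∉ T, w j * b ≤ v') →
  0 ≤ v' → v' ≤ v → 40 * v ≤ d → Ina S T χ →
  ∃ Φ, Hom S w s0 (s0 - d) (40 * v / d) Φ ∧
    (∀ f c, Ina S T f → S.Bd s0 f c → Ina S T (Φ f) ∧ S.Bd (s0 - d) (Φ f - f) (40 * v' / d * c)) ∧
    (∀ f c, S.An s0 f → Ina S T f → S.Bd s0 (br S w f χ) c →
      S.Bd (s0 - d) (Φ f - f - br S w f χ) (40 * v' / d * c))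

/-- hypotheses of the averaging lemma over the angle `j`, away from the angles in `T` -/
structure AvgData {A : Type} [CommRing A] [Algebra ℝ A] (S : Scale A V6) (s0 C0 : ℝ)
    (w : Fin 3 → ℝ) (T : Finset (Fin 3)) (j : Fin 3) (h P u : A) (ϖ π g v : ℝ) : Prop where
  w0 : ∀ i, 0 ≤ w i
  jT : j ∉ T
  fr : 0 < ϖ
  g0 : 0 ≤ g
  gv : g ≤ v
  anh : S.An s0 h
  ang : Ang S h
  ina : Ina S T P
  bP : S.Bd s0 P π
  inv : (w j • S.D (ac j) h) * u = 1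
  bu : S.Bd s0 u (C0 / ϖ)
  oth : ∀ i ∉ T, i ≠ j → S.Bd s0 (w i • S.D (ac i) h) (C0 * ϖ * g)
  act : ∀ i ∉ T, w i * π ≤ C0 * ϖ * g
  all : ∀ i, w i * π ≤ C0 * ϖ * v

def AvgStmt : Prop := ∀ (A : Type) [CommRing A] [Algebra ℝ A] (S : Scale A V6) (x : Fin 3 → A)
  (z0 : A →ₐ[ℝ] A), Ext S x z0 → ∀ (N : ℕ) (s0 s1 C0 : ℝ), 0 < s1 → s1 < s0 →
  ∃ C ε0 : ℝ, 0 ≤ C ∧ 0 < ε0 ∧ ∀ w T j h P u ϖ π g v, AvgData S s0 C0 w T j h P u ϖ π g v → v ≤ ε0 →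
    ∃ Ψ Z R, Hom S w s0 s1 (C * v) Ψ ∧ Ψ (h + P) = h + Z + R ∧ Ina S (insert j T) Z ∧ Ina S T R ∧
      S.Bd s1 Z (C * π) ∧ S.Bd s1 R (C * π * g ^ N) ∧
      ∀ m a, S.D (th j) m = 0 → S.D (th j) a = P - m → S.Bd s1 (Z - m) (C * π * g)

def NfStmt : Prop := ∀ (A : Type) [CommRing A] [Algebra ℝ A] (S : Scale A V6) (x : Fin 3 → A)
  (z0 : A →ₐ[ℝ] A), Ext S x z0 → ∀ (N : ℕ) (C0 : ℝ),
  ∃ C ε0 : ℝ, 0 ≤ C ∧ 0 < ε0 ∧ ∀ w ε h0 P0 P1 m0 Fq F1 Fb, 0 < ε → ε ≤ ε0 →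
    NfData S w ε C0 h0 P0 P1 m0 Fq F1 Fb →
    ∃ Ψ Z R, Hom S w 1 (1 / 2) (C * ε) Ψ ∧ Ψ (h0 + P0 + P1) = h0 + m0 + Fb + Z + R ∧ Ang S Z ∧
      S.Bd (1 / 2) Z (C * ε ^ 16) ∧ S.Bd (1 / 2) R (C * ε ^ N)

/-! ### The counterterm theorem -/

def HstepStmt : Prop := ∀ (A : Type) [CommRing A] [Algebra ℝ A] (S : Scale A V6) (x : Fin 3 → A)
  (z0 : A →ₐ[ℝ] A), Ext S x z0 → ∀ s0 : ℝ, 0 < s0 → s0 ≤ 1 →
  ∃ C c0 : ℝ, 0 ≤ C ∧ 0 < c0 ∧ ∀ (w ω : Fin 3 → ℝ) (γ M s d ε b : ℝ) (Q P : A) (Y : Fin 3 → A),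
    Solv3 S ω γ → (∀ j, 0 < w j) → (∀ j, w j ≤ M * γ) → 1 ≤ M → 0 < d → s ≤ s0 →
    s0 / 2 ≤ s - 5 * d → J2 S z0 Q → S.Bd s Q 2 → S.Bd s P ε → (∀ j, S.Bd s (Y j) b) →
    b * M ≤ c0 → ε * M ^ 2 ≤ c0 * d ^ 9 →
    ∃ (Φ : A → A) (δ : Fin 3 → A) (e Q' P' : A),
      Hom S w s (s - 5 * d) (C * (ε * M ^ 2 / d ^ 9)) Φ ∧
      (∀ j, S.Cst (δ j)) ∧ (∀ j, S.Bd s0 (δ j) (C * (ε * M))) ∧ S.Cst e ∧ S.Bd s0 e (C * (ε * M)) ∧
      J2 S z0 Q' ∧ S.Bd (s - 5 * d) (Q' - Q) (C * (ε * M ^ 2 / d ^ 10)) ∧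
      S.Bd (s - 5 * d) P' (C * (ε ^ 2 * M ^ 4 / d ^ 18)) ∧
      Φ (NN w ω x + Q + P + ∑ j, δ j * (x j + Y j)) = NN w ω x + Q' + e + P'

def HiterStmt : Prop := ∀ (A : Type) [CommRing A] [Algebra ℝ A] (S : Scale A V6) (x : Fin 3 → A)
  (z0 : A →ₐ[ℝ] A), Ext S x z0 → ∀ s0 : ℝ, 0 < s0 → s0 ≤ 1 →
  ∃ C c0 : ℝ, 0 ≤ C ∧ 0 < c0 ∧ ∀ (w ω : Fin 3 → ℝ) (γ M ε : ℝ) (Q P : A),
    Solv3 S ω γ → (∀ j, 0 < w j) → (∀ j, w j ≤ M * γ) → 1 ≤ M →
    J2 S z0 Q → S.Bd s0 Q 1 → S.Bd s0 P ε → ε * M ^ 4 ≤ c0 →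
    ∃ (Ψ : A → A) (δ : Fin 3 → A) (e Q' : A), Hom S w s0 (s0 / 2) (C * (ε * M ^ 2)) Ψ ∧
      (∀ j, S.Cst (δ j)) ∧ (∀ j, S.Bd s0 (δ j) (C * (ε * M))) ∧ S.Cst e ∧ S.Bd s0 e (C * (ε * M)) ∧
      J2 S z0 Q' ∧ Ψ (NN w ω x + Q + P + ∑ j, δ j * x j) = NN w ω x + Q' + e

def CtrStmt : Prop := ∀ (A : Type) [CommRing A] [Algebra ℝ A] (M : Mdl A) (s1 s2 η C0 c1 : ℝ),
  0 < s1 → 0 < s2 → 0 < η → 0 < c1 →
  ∃ C ε0 : ℝ, 0 ≤ C ∧ 0 < ε0 ∧ ∀ (c : Cfg) (d : Dat A) (ω : Fin 3 → ℝ) (γ : ℝ), c.Ok → c.s1 = s1 →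
    c.s2 = s2 → c.et = η → c.ep ≤ ε0 → DatAlg M c C0 d → Solv3 M.S ω γ → c1 * c.ep ^ 15 ≤ γ →
    ω 0 = 1 / 2 → |ω 1 - c.n / 2| ≤ c.ep ^ 15 →
    ∃ (Ψ : A → A) (Q e : A) (l X : Fin 3 → A), Hom M.S c.w 1 (1 / 8) (C * c.ep) Ψ ∧
      Ψ ((1 + c.ep • M.par 0) * d.p.KK c d.cc d.hs) = NN c.w ω M.x + Q + e - ∑ j, l j * X j ∧
      J2 M.S M.z0 Q ∧ M.S.Cst e ∧ (∀ j, M.S.Cst (l j)) ∧
      M.S.Bd 1 ((c.w 0 / c.ep) • l 0 + (1 / 2 : ℝ) • M.par 0) (C * c.ep) ∧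
      M.S.Bd 1 ((c.ka / c.ep) • e - M.par 1) (C * c.ep) ∧
      M.S.Bd 1 ((c.w 1 / (c.n * c.ep)) • l 1 + (1 / 2 : ℝ) • (M.par 0 + M.par 1 - 3 * M.par 2))
        (C * c.ep) ∧
      M.S.Bd 1 ((c.n2 * c.r0)⁻¹ • l 2 -
        (algebraMap ℝ A (ω 2 / (c.w 2 * (c.n2 * c.r0))) - d.nuf)) (C * c.ep)

/-! ### Coordinates -/

def TrigStmt : Prop := ∀ (A : Type) [CommRing A] [Algebra ℝ A] (M : Mdl A) (s c : ℝ) (f : A),
  0 < s → M.S.Bd s f c → c ≤ 1 → ∃ C S : A, (∀ y z, M.ev y z C = Real.cos (M.ev y z f)) ∧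
    (∀ y z, M.ev y z S = Real.sin (M.ev y z f)) ∧ M.S.Bd s (C - 1) (c ^ 2) ∧
    M.S.Bd s (S - f) (c ^ 2) ∧ ∀ i, M.S.D i C = -(S * M.S.D i f) ∧ M.S.D i S = C * M.S.D i f

/-- Kepler equation for the half eccentric anomaly -/
def KepStmt : Prop := ∀ (A : Type) [CommRing A] [Algebra ℝ A] (M : Mdl A),
  ∃ C c0 : ℝ, 0 ≤ C ∧ 0 < c0 ∧ ∀ e : A, M.S.Bd 1 e c0 → ∃ ch sh u : A,
    M.S.Bd 1 ch C ∧ M.S.Bd 1 sh C ∧ M.S.Bd 1 u C ∧ ch * ch + sh * sh = 1 ∧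
    u * (1 - e * (ch * ch - sh * sh)) = 1 ∧
    (∀ i, M.S.D i ch = -(sh * (u * ((if i = th 1 then 1 else 0) + ch * sh * M.S.D i e)))) ∧
    (∀ i, M.S.D i sh = ch * (u * ((if i = th 1 then 1 else 0) + ch * sh * M.S.D i e))) ∧
    (∀ y θ, θ 1 = 0 → M.ev y (M.pt θ) sh = 0) ∧
    (∀ y θ, θ 1 = Real.pi / 2 → M.ev y (M.pt θ) ch = 0)

def ArgStmt : Prop := ∀ (A : Type) [CommRing A] [Algebra ℝ A] (M : Mdl A),
  ∃ c0 : ℝ, 0 < c0 ∧ ∀ X1 X2 : A, M.S.Bd 1 (X1 - 1) c0 → M.S.Bd 1 X2 c0 → X1 * X1 + X2 * X2 = 1 →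
    ∃ a, ∀ i, M.S.D i a = X1 * M.S.D i X2 - X2 * M.S.D i X1

def OutStmt : Prop := ∀ (A : Type) [CommRing A] [Algebra ℝ A] (M : Mdl A),
  ∃ C c0 : ℝ, 0 ≤ C ∧ 0 < c0 ∧ ∀ (w : Fin 3 → ℝ) (a1 a2 : ℝ) (L Li g gi e ei : A),
    w 1 * a1 = 1 / 2 → w 2 * a2 = 1 / 2 →
    (∀ i, M.S.D i L = if i = ac 1 then algebraMap ℝ A a1 else 0) →
    (∀ i, M.S.D i g = if i = ac 2 then algebraMap ℝ A (-a2) else 0) →
    L * Li = 1 → g * gi = 1 → e * ei = 1 → e * e = 1 - (g * Li) ^ 2 →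
    (∀ f ∈ [L - 1, Li - 1, g - 1, gi - 1, e], M.S.Bd 1 f c0) →
    ∃ o, IsOut M w C L Li g gi e o

def CanStmt : Prop := ∀ (A : Type) [CommRing A] [Algebra ℝ A] (S : Scale A V6) (w : Fin 3 → ℝ)
  (κ ρ0 ρ2 : ℝ) (I G a ai b bi c0 s0 Li g gi Y1 Y2 : A) (o : Out A),
  w 0 * ρ0 = κ / 2 → w 2 * ρ2 = κ / 2 →
  (∀ i, S.D i I = if i = ac 0 then algebraMap ℝ A ρ0 else 0) →
  (∀ i, S.D i G = if i = ac 2 then algebraMap ℝ A ρ2 else 0) →
  2 * (a * a) = I + G → a * ai = 1 → 2 * (b * b) = I - G → b * bi = 1 → c0 * c0 + s0 * s0 = 1 →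
  (∀ i, S.D i c0 = if i = th 0 then -s0 else 0) → (∀ i, S.D i s0 = if i = th 0 then c0 else 0) →
  OutAlg S w Li g gi o → Can S w κ (mkPh a b c0 s0 o Y1 Y2)

def HameqStmt : Prop := ∀ (A : Type) [CommRing A] [Algebra ℝ A] (S : Scale A V6) (w : Fin 3 → ℝ)
  (c : Cfg) (cc hs : A) (p : Ph A), c.ka ≠ 0 → S.Cst cc → S.Cst hs → p.Rel c → Can S w c.ka p →
  ∀ i, br S w (p.co i) (p.KK c cc hs) = p.XX c cc hs i

def ActStmt : Prop := ∀ (A : Type) [CommRing A] [Algebra ℝ A] (M : Mdl A),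
  ∃ C η0 : ℝ, 0 ≤ C ∧ 0 < η0 ∧ ∀ (c : Cfg) (F : Fam), c.Ok → c.et ≤ η0 → c.ep ≤ c.et ^ 3 →
    F.Ok c.lam c.et → ∃ t, IsAct M c F C t

def QuadStmt : Prop := ∀ (A : Type) [CommRing A] [Algebra ℝ A] (S : Scale A V6) (C0 : ℝ),
  ∃ C ε0 : ℝ, 0 ≤ C ∧ 0 < ε0 ∧ ∀ (c : Cfg) (p : Ph A), c.Ok → c.ep ≤ ε0 → S.Bd 1 p.z1 C0 →
    S.Bd 1 p.z2 C0 → S.Bd 1 p.Ri C0 → p.R * p.Ri = 1 →
    ∃ y1 y2 : A, S.Bd 1 (y1 - 1) (1 / 2) ∧ S.Bd 1 (y2 - 1) (1 / 2) ∧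
      Ph.Rel c { p with Y1 := p.Ri * y1, Y2 := p.Ri * y2 } ∧
      S.Bd 1 (p.Ri - c.s1 • (p.Ri * y1) - c.s2 • (p.Ri * y2) +
        (c.dl ^ 2 * (c.s1 * c.s2) / 4) • p.quad) (C * c.ep ^ 12)

def MeanStmt : Prop := ∀ (A : Type) [CommRing A] [Algebra ℝ A] (S : Scale A V6) (w : Fin 3 → ℝ)
  (I G a b c0 s0 Li g gi Y1 Y2 : A) (o : Out A) (p : Ph A), p = mkPh a b c0 s0 o Y1 Y2 →
  2 * (a * a) = I + G → 2 * (b * b) = I - G → Ang S a → Ang S b → c0 * c0 + s0 * s0 = 1 →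
  (∀ i, S.D i c0 = if i = th 0 then -s0 else 0) → (∀ i, S.D i s0 = if i = th 0 then c0 else 0) →
  OutAlg S w Li g gi o →
  p.r = I + 2 * (a * b) * (c0 * c0 - s0 * s0) ∧
  (1 / 8 : ℝ) • (p.w1 * p.w1 + p.w2 * p.w2) + (1 / 2 : ℝ) • p.r = I ∧
  (1 / 2 : ℝ) • (p.z1 * p.w2 - p.z2 * p.w1) = G ∧
  (S.D (th 2) p.z1 = -p.z2 ∧ S.D (th 2) p.z2 = p.z1) ∧
  (∃ q, S.D (th 0) q = p.r - I) ∧
  ∃ q, S.D (th 0) q = 2 * (p.r * p.quad) -
    o.Ri ^ 3 * (I * (5 * I ^ 2 - 3 * G ^ 2) + 15 * (I * (I ^ 2 - G ^ 2)) * o.u4)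

def DatStmt : Prop := ∀ (A : Type) [CommRing A] [Algebra ℝ A] (M : Mdl A) (s1 s2 : ℝ),
  0 < s1 → 0 < s2 → ∃ η0 : ℝ, 0 < η0 ∧ ∀ η, 0 < η → η ≤ η0 → ∃ C ε0 : ℝ, 0 ≤ C ∧ 0 < ε0 ∧
    ∀ (c : Cfg) (F : Fam), c.Ok → c.s1 = s1 → c.s2 = s2 → c.et = η → c.ep ≤ ε0 →
      F.Ok c.lam η → ∃ d, IsDat M c F C d

def ToriStmt : Prop := ∀ s1 s2 : ℝ, 0 < s1 → 0 < s2 → ∃ η0 : ℝ, 0 < η0 ∧ ∀ η, 0 < η → η ≤ η0 →
  ∃ C ε0 : ℝ, 0 < ε0 ∧ ∀ (c : Cfg) (F : Fam), c.Ok → c.s1 = s1 → c.s2 = s2 → c.et = η →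
    c.ep ≤ ε0 → F.Ok c.lam η → ∃ T, Tor c F C T

/-! ### Back to the three-body problem, areas -/

def ReconStmt : Prop := ∀ (m : Fin 3 → ℝ) (c : Cfg) (a cc hs : ℝ) (p : ℝ → Ph ℝ),
  c.Ok → c.Mass m → 0 < a →
  (∀ τ i, HasDerivAt (fun τ => (p τ).co i) (a * (p τ).XX c cc hs i) τ) → (∀ τ, (p τ).Rel c) →
  (∀ τ, 0 < (p τ).R ∧ 0 < (p τ).Y1 ∧ 0 < (p τ).Y2) → (∀ τ, (p τ).KK c cc hs = 0) →
  (∃ b, 0 < b ∧ ∀ τ, b ≤ ‖(p τ).zc‖) →
  ∃ (q : ℝ → Fin 3 → ℂ) (σ : ℝ → ℝ), IsSol m q ∧ Function.Surjective σ ∧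
    ∀ t, shape m (q t) = sh2 ((((c.sc * (p (σ t)).R)⁻¹ : ℝ) : ℂ) * (p (σ t)).zc ^ 2)

def PolarStmt : Prop := ∀ (ν : Measure ℂ) [IsFiniteMeasure ν], ν ≪ volume →
  ∀ (W W' : I01 → (Fin 3 → ℝ) → ℂ) (k : I01 → (Fin 3 → ℝ) → ℝ),
  Continuous (fun q : I01 × (Fin 3 → ℝ) => W q.1 q.2) →
  Continuous (fun q : I01 × (Fin 3 → ℝ) => k q.1 q.2) → (∀ y θ, 0 < k y θ) → (∀ y θ, W y θ ≠ 0) →
  (∀ y θ j, W y (θ + Pi.single j (2 * Real.pi)) = W y θ) →
  (∀ y θ j, k y (θ + Pi.single j (2 * Real.pi)) = k y θ) →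
  (∀ y θ, HasDerivAt (fun s => W y (Function.update θ 2 s)) (W' y θ) (θ 2)) →
  (∀ y θ, ‖W' y θ - Complex.I * W y θ‖ ≤ ‖W y θ‖ / 2) →
  (∀ y, IsCompact (Set.range fun θ => (k y θ : ℂ) * W y θ ^ 2)) ∧
  Continuous (fun y => (ν (Set.range fun θ => (k y θ : ℂ) * W y θ ^ 2)).toReal) ∧
  ∀ y (a b : ℝ) (θa θb : Fin 3 → ℝ),
    (∀ s, k y (Function.update θa 2 s) * ‖W y (Function.update θa 2 s)‖ ^ 2 ≤ a) →
    (∀ s, b ≤ k y (Function.update θb 2 s) * ‖W y (Function.update θb 2 s)‖ ^ 2) →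
    {ζ : ℂ | a ≤ ‖ζ‖ ∧ ‖ζ‖ ≤ b} ⊆ Set.range fun θ => (k y θ : ℂ) * W y θ ^ 2

/-- area of a cap as a function of the radius -/
structure CapFn (Φ : ℝ → ℝ) : Prop where
  cont : Continuous Φ
  mono : StrictMonoOn Φ (Set.Ici 0)
  zero : Φ 0 = 0
  lim : Tendsto Φ atTop (𝓝 Real.pi)

def CapStmt : Prop := ∃ (ν : Measure ℂ) (Φ : ℝ → ℝ), IsFiniteMeasure ν ∧ ν ≪ volume ∧
  Continuous sh2 ∧ (∀ E, IsCompact E → area (sh2 '' E) = (ν E).toReal) ∧ CapFn Φ ∧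
  ∀ a b, 0 ≤ a → a ≤ b → (ν {ζ : ℂ | a ≤ ‖ζ‖ ∧ ‖ζ‖ ≤ b}).toReal = Φ b - Φ a

def BandStmt : Prop := ∃ Φ : ℝ → ℝ, CapFn Φ ∧
  ∀ (m : Fin 3 → ℝ) (c : Cfg) (F : Fam) (C : ℝ) (T : TorDat), c.Ok → c.Mass m → Tor c F C T →
    (∀ y θ, 2 * (C * c.ep) < ‖(T.p y θ).zc‖) →
    ∀ (y0 y1 : I01) (a b a' b' : ℝ) (θa θb : Fin 3 → ℝ), 0 ≤ a → a ≤ b → 0 ≤ a' → a' ≤ b' →
      (∀ θ, a ≤ T.rad y0 θ ∧ T.rad y0 θ ≤ b) →
      (∀ s, T.rad y1 (Function.update θa 2 s) ≤ a') →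
      (∀ s, b' ≤ T.rad y1 (Function.update θb 2 s)) →
      ∀ A0, Φ (b / c.sc) - Φ (a / c.sc) ≤ A0 → A0 ≤ Φ (b' / c.sc) - Φ (a' / c.sc) → Att m A0

/-- first family: the inner angular momentum runs from almost zero to `η ^ 2` -/
def Cov1Stmt : Prop := ∃ η1 : ℝ, 0 < η1 ∧ ∀ η, 0 < η → η ≤ η1 → ∀ C a b : ℝ, 0 < a → 0 < b →
  ∃ ε1 : ℝ, 0 < ε1 ∧ ∀ c : Cfg, c.Ok → c.et = η → c.ep ≤ ε1 → c.mm = c.ep ^ 9 →
    ∃ F : Fam, F.Ok c.lam η ∧ ∀ T, Tor c F C T → (∀ y θ, 2 * (C * c.ep) < ‖(T.p y θ).zc‖) ∧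
      (∃ b', ∀ θ, b * c.sc ≤ T.rad 1 θ ∧ T.rad 1 θ ≤ b') ∧
      (∃ θa, ∀ s, T.rad 0 (Function.update θa 2 s) ≤ a * c.sc) ∧
      (∃ θb, ∀ s, b * c.sc ≤ T.rad 0 (Function.update θb 2 s))

def aS (η : ℝ) : ℝ := (1 - √3 / 2) / (1 + 3 / 2 * η)
def bS (η : ℝ) : ℝ := (1 + √3 / 2) / (1 - 3 / 2 * η)

/-- second family: the outer eccentricity runs from `η` to `2 η` -/
def Cov2Stmt : Prop := ∃ η1 : ℝ, 0 < η1 ∧ ∀ η, 0 < η → η ≤ η1 → 0 < aS η ∧ aS η < bS η ∧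
  ∀ C : ℝ, ∃ ε1 : ℝ, 0 < ε1 ∧ ∀ c : Cfg, c.Ok → c.et = η → c.ep ≤ ε1 →
    ∃ F : Fam, F.Ok c.lam η ∧ ∀ T, Tor c F C T → (∀ y θ, 2 * (C * c.ep) < ‖(T.p y θ).zc‖) ∧
      (∀ θ, aS η ≤ T.rad 0 θ ∧ T.rad 0 θ ≤ bS η) ∧
      (∃ θa, ∀ s, T.rad 1 (Function.update θa 2 s) ≤ aS η) ∧
      (∃ θb, ∀ s, bS η ≤ T.rad 1 (Function.update θb 2 s))

def MainStmt : Prop := ∀ m0 m1 ε : ℝ, 0 < m0 → 0 < m1 → 0 < ε → ∃ μ0 : ℝ, 0 < μ0 ∧
  ∀ m2, 0 < m2 → m2 ≤ μ0 → ∀ A0, 0 < A0 → A0 ≤ Real.pi - ε → Att ![m0, m1, m2] A0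

end Pool.Agent.MP_1ba41f_an.K4

end
end MrgPart2

-- ======== part 3: formerly Pool.Agent.MP_1ba41f_an.K4.Basic
section MrgPart3

/-! PROJECT LUNAR: shared library. -/

noncomputable section
open Finset

namespace Pool.Agent.MP_1ba41f_an.K4
open K3

section Bracket
variable {A : Type} [CommRing A] [Algebra ℝ A] {S : Scale A V6} {w : Fin 3 → ℝ}

theorem br_def (f g : A) : br S w f g =
    ∑ j, w j • (S.D (th j) f * S.D (ac j) g - S.D (ac j) f * S.D (th j) g) := rfl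
theorem brv_anti (a b : V6 → A) : brv w a b = -brv w b a := by
  unfold brv; rw [← sum_neg_distrib]
  exact sum_congr rfl fun j _ => by rw [← smul_neg]; congr 1; ring
theorem br_anti (f g : A) : br S w f g = -br S w g f := brv_anti _ _

variable (S w) in
/-- the bracket as a derivation in the second argument -/
def brD (f : A) : Derivation ℝ A A :=
  ∑ j, w j • (S.D (th j) f • S.D (ac j) - S.D (ac j) f • S.D (th j))
theorem der_sum_apply {ι : Type} (t : Finset ι) (δ : ι → Derivation ℝ A A) (g : A) :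
    (∑ j ∈ t, δ j) g = ∑ j ∈ t, δ j g := by
  classical
  induction t using Finset.induction_on with
  | empty => simp
  | insert a t ha ih => rw [sum_insert ha, sum_insert ha, Derivation.add_apply, ih]
theorem brD_apply (f g : A) : brD S w f g = br S w f g := by
  unfold brD; rw [der_sum_apply, br_def]; rfl
theorem br_add_right (f g h : A) : br S w f (g + h) = br S w f g + br S w f h := by
  simp only [← brD_apply, map_add]
theorem br_sub_right (f g h : A) : br S w f (g - h) = br S w f g - br S w f h := by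
  simp only [← brD_apply, map_sub]
theorem br_smul_right (a : ℝ) (f g : A) : br S w f (a • g) = a • br S w f g := by
  simp only [← brD_apply, Derivation.map_smul]
theorem br_mul_right (f g h : A) : br S w f (g * h) = g * br S w f h + h * br S w f g := by
  simp only [← brD_apply, Derivation.leibniz, smul_eq_mul]
theorem br_sum_right {ι : Type} (t : Finset ι) (f : A) (g : ι → A) :
    br S w f (∑ i ∈ t, g i) = ∑ i ∈ t, br S w f (g i) := by simp only [← brD_apply, map_sum]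
theorem br_cst_right (f : A) {g : A} (h : S.Cst g) : br S w f g = 0 := by simp [br_def, h _]
theorem br_cst_left {f : A} (h : S.Cst f) (g : A) : br S w f g = 0 := by simp [br_def, h _]
theorem br_add_left (f g h : A) : br S w (f + g) h = br S w f h + br S w g h := by
  rw [br_anti, br_add_right, br_anti h f, br_anti h g]; ring
theorem br_sub_left (f g h : A) : br S w (f - g) h = br S w f h - br S w g h := by
  rw [br_anti, br_sub_right, br_anti h f, br_anti h g]; ring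
theorem br_smul_left (a : ℝ) (f g : A) : br S w (a • f) g = a • br S w f g := by
  rw [br_anti, br_smul_right, br_anti g f, smul_neg, neg_neg]
theorem br_mul_left (f g h : A) : br S w (f * g) h = f * br S w g h + g * br S w f h := by
  rw [br_anti, br_mul_right, br_anti h f, br_anti h g]; ring
theorem D_br (i : V6) (f g : A) :
    S.D i (br S w f g) = br S w (S.D i f) g + br S w f (S.D i g) := by
  simp only [br_def, map_sum, Derivation.map_smul, map_sub, Derivation.leibniz, smul_eq_mul,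
    ← sum_add_distrib, ← smul_add]
  refine sum_congr rfl fun j _ => ?_
  rw [S.comm i (th j) f, S.comm i (ac j) f, S.comm i (th j) g, S.comm i (ac j) g]
  congr 1; ring

/-- bound for the bracket; only the indices outside `T` count -/
theorem br_bdT {T : Finset (Fin 3)} {s a b v : ℝ} {f g : A} (hw : ∀ j, 0 ≤ w j) (hv0 : 0 ≤ v)
    (hf : ∀ i, S.Bd s (S.D i f) a) (hg : ∀ i, S.Bd s (S.D i g) b) (hv : ∀ j ∉ T, w j * b ≤ v)
    (tf : Ina S T f) (tg : Ina S T g) : S.Bd s (br S w f g) (6 * a * v) := by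
  have a0 := S.nonneg (hf (th 0))
  rw [br_def]
  refine Scale.le (Scale.sum_card (c := 2 * a * v) fun j => ?_) (le_of_eq (by simp; ring))
  by_cases hj : j ∈ T
  · rw [tf j hj, tg j hj]; simpa using S.zero' s (by positivity)
  · refine Scale.le (S.smul _ (Scale.sub (S.mul (hf _) (hg _)) (S.mul (hf _) (hg _)))) ?_
    rw [abs_of_nonneg (hw j)]
    nlinarith [mul_le_mul_of_nonneg_left (hv j hj) a0]
theorem br_bd {s a b v : ℝ} {f g : A} (hw : ∀ j, 0 ≤ w j)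
    (hf : ∀ i, S.Bd s (S.D i f) a) (hg : ∀ i, S.Bd s (S.D i g) b) (hv : ∀ j, w j * b ≤ v) :
    S.Bd s (br S w f g) (6 * a * v) :=
  br_bdT (T := ∅) hw ((mul_nonneg (hw 0) (S.nonneg (hg (th 0)))).trans (hv 0)) hf hg
    (fun j _ => hv j) (fun _ h => by simp at h) (fun _ h => by simp at h)

theorem L3_apply (ω : Fin 3 → ℝ) (f : A) : L3 S ω f = ∑ j, ω j • S.D (th j) f := by
  unfold L3; rw [der_sum_apply]; rfl
theorem D_L3 (ω : Fin 3 → ℝ) (i : V6) (f : A) : S.D i (L3 S ω f) = L3 S ω (S.D i f) := by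
  simp only [L3_apply, map_sum, Derivation.map_smul, S.comm i]

theorem Ina.empty (f : A) : Ina S ∅ f := fun _ h => by simp at h
theorem Ang.ina {f : A} (h : Ang S f) (T : Finset (Fin 3)) : Ina S T f := fun j _ => h j
theorem Ina.mono {T T' : Finset (Fin 3)} {f : A} (h : Ina S T f) (hT : T' ⊆ T) : Ina S T' f :=
  fun j hj => h j (hT hj)
theorem Ina.ang {T : Finset (Fin 3)} {f : A} (h : Ina S T f) (hT : ∀ j, j ∈ T) : Ang S f :=
  fun j => h j (hT j)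
theorem Ina.add {T} {f g : A} (h : Ina S T f) (h' : Ina S T g) : Ina S T (f + g) :=
  fun j hj => by rw [map_add, h j hj, h' j hj, add_zero]
theorem Ina.sub {T} {f g : A} (h : Ina S T f) (h' : Ina S T g) : Ina S T (f - g) :=
  fun j hj => by rw [map_sub, h j hj, h' j hj, sub_zero]
theorem Ina.mul {T} {f g : A} (h : Ina S T f) (h' : Ina S T g) : Ina S T (f * g) :=
  fun j hj => by rw [Derivation.leibniz, h j hj, h' j hj]; simp
theorem Ina.smul {T} {f : A} (a : ℝ) (h : Ina S T f) : Ina S T (a • f) :=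
  fun j hj => by rw [Derivation.map_smul, h j hj, smul_zero]
theorem Ina.der {T} {f : A} (i : V6) (h : Ina S T f) : Ina S T (S.D i f) :=
  fun j hj => by rw [S.comm, h j hj, map_zero]
theorem Ina.br {T} {f g : A} (h : Ina S T f) (h' : Ina S T g) : Ina S T (br S w f g) :=
  fun j hj => by rw [D_br, h j hj, h' j hj]; simp [br_def]
theorem Ina.inv {T} {f g : A} (h : Ina S T f) (e : f * g = 1) : Ina S T g :=
  fun j hj => by rw [der_inv _ e, h j hj]; simp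
theorem Ang.add {f g : A} (h : Ang S f) (h' : Ang S g) : Ang S (f + g) :=
  fun j => by rw [map_add, h j, h' j, add_zero]
theorem Ang.sub {f g : A} (h : Ang S f) (h' : Ang S g) : Ang S (f - g) :=
  fun j => by rw [map_sub, h j, h' j, sub_zero]
theorem Ang.mul {f g : A} (h : Ang S f) (h' : Ang S g) : Ang S (f * g) :=
  fun j => by rw [Derivation.leibniz, h j, h' j]; simp
theorem Ang.smul {f : A} (a : ℝ) (h : Ang S f) : Ang S (a • f) :=
  fun j => by rw [Derivation.map_smul, h j, smul_zero]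
theorem Ang.der {f : A} (i : V6) (h : Ang S f) : Ang S (S.D i f) :=
  fun j => by rw [S.comm, h j, map_zero]
theorem Ang.inv {f g : A} (h : Ang S f) (e : f * g = 1) : Ang S g :=
  fun j => by rw [der_inv _ e, h j]; simp
theorem Ang.of_cst {f : A} (h : S.Cst f) : Ang S f := fun _ => h _
theorem cst_of {f : A} (h : Ang S f) (h' : ∀ i, S.D (ac i) f = 0) : S.Cst f := by
  rintro (j | j); exacts [h j, h' j]

end Bracket

/-! ### Homomorphisms -/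

namespace Hom
variable {A : Type} [CommRing A] [Algebra ℝ A] {S : Scale A V6} {w : Fin 3 → ℝ}
  {s0 s1 s2 η η' : ℝ} {Ψ Φ : A → A}

theorem nonneg (h : Hom S w s0 s1 η Ψ) : 0 ≤ η := by simpa using S.nonneg (h.bd (S.one s0))
theorem bd' (h : Hom S w s0 s1 η Ψ) (hs : s1 ≤ s0) {f c} (hf : S.Bd s0 f c) :
    S.Bd s1 (Ψ f) ((1 + η) * c) :=
  Scale.le (Scale.cong (S.add (Scale.lev hf hs) (h.bd hf)) (by ring)) (le_of_eq (by ring))
theorem an (h : Hom S w s0 s1 η Ψ) (hs : s1 ≤ s0) {f} (hf : S.An s0 f) : S.An s1 (Ψ f) :=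
  let ⟨_, hf⟩ := hf; ⟨_, h.bd' hs hf⟩
theorem alg (h : Hom S w s0 s1 η Ψ) (a : ℝ) : Ψ (algebraMap ℝ A a) = algebraMap ℝ A a :=
  h.cst (.alg _ _) (.alg _)
theorem one (h : Hom S w s0 s1 η Ψ) : Ψ 1 = 1 := h.cst (.one _) .one
theorem zero (h : Hom S w s0 s1 η Ψ) : Ψ 0 = 0 := h.cst (.zero _) .zero
theorem smul (h : Hom S w s0 s1 η Ψ) (a : ℝ) {f} (hf : S.An s0 f) : Ψ (a • f) = a • Ψ f := by
  rw [Algebra.smul_def, h.mul (.alg _ _) hf, h.alg, Algebra.smul_def]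
theorem neg (h : Hom S w s0 s1 η Ψ) {f} (hf : S.An s0 f) : Ψ (-f) = -Ψ f := by
  simpa using h.smul (-1) hf
theorem sub (h : Hom S w s0 s1 η Ψ) {f g} (hf : S.An s0 f) (hg : S.An s0 g) :
    Ψ (f - g) = Ψ f - Ψ g := by rw [sub_eq_add_neg, h.add hf hg.neg, h.neg hg, sub_eq_add_neg]
theorem sum (h : Hom S w s0 s1 η Ψ) {ι : Type} (t : Finset ι) {f : ι → A}
    (hf : ∀ i ∈ t, S.An s0 (f i)) : Ψ (∑ i ∈ t, f i) = ∑ i ∈ t, Ψ (f i) := by
  classical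
  induction t using Finset.induction_on with
  | empty => simpa using h.zero
  | insert a t ha ih =>
    have h2 : ∀ i ∈ t, S.An s0 (f i) := fun i hi => hf i (mem_insert_of_mem hi)
    rw [sum_insert ha, sum_insert ha, h.add (hf a (mem_insert_self _ _)) (.sum _ h2), ih h2]
theorem cmul (h : Hom S w s0 s1 η Ψ) {f g} (hf : S.An s0 f) (hc : S.Cst f) (hg : S.An s0 g) :
    Ψ (f * g) = f * Ψ g := by rw [h.mul hf hg, h.cst hf hc]
theorem mono (h : Hom S w s0 s1 η Ψ) {s0' s1' η' : ℝ} (h0 : s0 ≤ s0') (h1 : s1' ≤ s1)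
    (he : η ≤ η') : Hom S w s0' s1' η' Ψ where
  add a b := h.add (a.mono h0) (b.mono h0)
  mul a b := h.mul (a.mono h0) (b.mono h0)
  cst a b := h.cst (a.mono h0) b
  brk a b c := h.brk (a.mono h0) (b.mono h0) (c.mono h0)
  bd a := S.mono (h.bd (Scale.lev a h0)) h1 (mul_le_mul_of_nonneg_right he (S.nonneg a))
theorem id (S : Scale A V6) (w : Fin 3 → ℝ) (s0 s1 : ℝ) : Hom S w s0 s1 0 fun f => f where
  add _ _ := rfl
  mul _ _ := rfl
  cst _ _ := rfl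
  brk _ _ _ := rfl
  bd _ := by simpa using S.zero' _ le_rfl
theorem comp (h : Hom S w s0 s1 η Ψ) (h' : Hom S w s1 s2 η' Φ) (h1 : s1 ≤ s0) (h2 : s2 ≤ s1) :
    Hom S w s0 s2 (η + η' * (1 + η)) fun f => Φ (Ψ f) where
  add a b := by rw [h.add a b, h'.add (h.an h1 a) (h.an h1 b)]
  mul a b := by rw [h.mul a b, h'.mul (h.an h1 a) (h.an h1 b)]
  cst a b := by rw [h.cst a b, h'.cst (a.mono h1) b]
  brk a b c := by rw [h.brk a b c, h'.brk (h.an h1 a) (h.an h1 b) (h.brk a b c ▸ h.an h1 c)]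
  bd a := Scale.le (Scale.cong (S.add (Scale.lev (h.bd a) h2) (h'.bd (h.bd' h1 a))) (by ring))
    (le_of_eq (by ring))

end Hom

/-- the elements of finite norm at level `s` -/
def anAlg {A : Type} [CommRing A] [Algebra ℝ A] (S : Scale A V6) (s : ℝ) : Subalgebra ℝ A where
  carrier := {f | S.An s f}
  add_mem' := Scale.An.add
  mul_mem' := Scale.An.mul
  algebraMap_mem' := Scale.An.alg s

/-- a transformation as an algebra homomorphism -/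
def Hom.algHom {A : Type} [CommRing A] [Algebra ℝ A] {S : Scale A V6} {w : Fin 3 → ℝ}
    {s0 s1 η : ℝ} {Ψ : A → A} (h : Hom S w s0 s1 η Ψ) : anAlg S s0 →ₐ[ℝ] A where
  toFun f := Ψ f.1
  map_one' := h.one
  map_mul' f g := h.mul f.2 g.2
  map_zero' := h.zero
  map_add' f g := h.add f.2 g.2
  commutes' := h.alg

/-! ### Zero section, averages, small divisors -/

namespace Ext
variable {A : Type} [CommRing A] [Algebra ℝ A] {S : Scale A V6} {x : Fin 3 → A}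
  {z0 : A →ₐ[ℝ] A} (h : Ext S x z0)
include h

theorem bx' {s : ℝ} (hs : s ≤ 1) (j) : S.Bd s (x j) 3 := Scale.lev (h.bx j) hs
theorem z_cst {f} (hf : S.Cst f) : z0 f = f := h.zid fun _ => hf _
theorem zz (f) : z0 (z0 f) = z0 f := h.zid fun i => h.zac i f
theorem cst_z {f} (hf : Ang S f) : S.Cst (z0 f) :=
  cst_of (fun j => by rw [h.zth, hf j, map_zero]) fun i => h.zac i f
theorem zL (ω : Fin 3 → ℝ) (f) : L3 S ω (z0 f) = z0 (L3 S ω f) := by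
  simp only [L3_apply, map_sum, map_smul, h.zth]
theorem D_NN_th (w ω : Fin 3 → ℝ) (i) : S.D (th i) (NN w ω x) = 0 := by
  simp [NN, map_sum, h.Tx]
theorem D_NN_ac (w ω : Fin 3 → ℝ) (i) :
    S.D (ac i) (NN w ω x) = algebraMap ℝ A (ω i / w i) := by
  simp only [NN, map_sum, Derivation.map_smul, h.Dx]
  rw [sum_eq_single i] <;> simp +contextual [Algebra.algebraMap_eq_smul_one, eq_comm]
theorem an_NN {s : ℝ} (hs : s ≤ 1) (w ω : Fin 3 → ℝ) : S.An s (NN w ω x) :=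
  .sum _ fun j _ => .smul _ ⟨_, h.bx' hs j⟩
theorem z_NN (w ω : Fin 3 → ℝ) : z0 (NN w ω x) = 0 := by simp [NN, map_sum, h.zx]
theorem br_NN {w : Fin 3 → ℝ} (hw : ∀ j, w j ≠ 0) (ω : Fin 3 → ℝ) (f) :
    br S w f (NN w ω x) = L3 S ω f := by
  rw [br_def, L3_apply]
  refine sum_congr rfl fun j _ => ?_
  rw [h.D_NN_th, h.D_NN_ac, mul_zero, sub_zero, mul_comm, ← Algebra.smul_def, smul_smul,
    mul_div_cancel₀ _ (hw j)]
theorem z_br_J2 (w : Fin 3 → ℝ) {Q} (hQ : J2 S z0 Q) (f) : z0 (br S w f Q) = 0 := by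
  simp [br_def, map_sum, hQ.2, ← h.zth, hQ.1]
/-- the mean over an angle is unique -/
theorem mean_eq (j) {f a a' m m'} (e : S.D (th j) a = f - m) (e' : S.D (th j) a' = f - m')
    (hm : S.D (th j) m = 0) (hm' : S.D (th j) m' = 0) : m = m' :=
  sub_eq_zero.1 (h.auniq j (g := a' - a) (by rw [map_sub, hm, hm', sub_zero])
    (by rw [map_sub, e, e']; ring))
/-- averaging keeps every invariance -/
theorem avg' (j) {s f c} (hs : 0 < s) (hf : S.Bd s f c) : ∃ g m, S.D (th j) g = f - m ∧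
    S.D (th j) m = 0 ∧ S.Bd s g c ∧ S.Bd s m c ∧ ∀ i, S.D i f = 0 → S.D i g = 0 ∧ S.D i m = 0 := by
  obtain ⟨g, m, g', e1, e2, e3, b1, b2⟩ := h.avg j hs hf
  refine ⟨g, m, e1, e2, b1, b2, fun i hi => ?_⟩
  have hm : S.D i m = 0 := h.auniq j (g := -S.D i g) (by rw [S.comm, e2, map_zero])
    (by rw [map_neg, S.comm, e1, map_sub, hi]; ring)
  exact ⟨h.auniq j (g := S.D i g') (by rw [S.comm, e1, map_sub, hi, hm, sub_zero])
    (by rw [S.comm, e3]), hm⟩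
/-- solving the small divisor equation on the zero section -/
theorem solve0 {ω γ} (hS : Solv3 S ω γ) {s f c} (hs : 0 < s) (hf : S.Bd s f c)
    (h0 : ∀ i, S.D (ac i) f = 0) : ∃ g m, S.Cst m ∧ (∀ i, S.D (ac i) g = 0) ∧ L3 S ω g = f - m ∧
      (∀ d, 0 < d → d < s → S.Bd (s - d) g (c / (γ * d ^ 2))) ∧
      ∀ s' c' s'', 0 < s' → S.Bd s' f c' → S.Bd s'' m c' := by
  obtain ⟨g, m, a1, -, a3, a4⟩ := hS.solve hs hf
  have e : L3 S ω (z0 g) = f - z0 m := by rw [h.zL, a3, map_sub, h.zid h0]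
  refine ⟨z0 g, z0 m, h.cst_z a1, fun i => h.zac i g, e, fun d d0 d1 => h.zb (a4 d d0 d1),
    fun s' c' s'' hs' hf' => ?_⟩
  obtain ⟨g', m', b1, b2, b3, -⟩ := hS.solve hs' hf'
  have : m' - z0 m = 0 := hS.muniq (g := z0 g - g') (b1.sub (.of_cst (h.cst_z a1)))
    (by rw [map_sub, e, b3]; ring)
  exact (h.cst_z a1).bd s'' (sub_eq_zero.1 this ▸ b2)

end Ext

/-! ### Evaluation -/

namespace Mdl
variable {A : Type} [CommRing A] [Algebra ℝ A] (M : Mdl A)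

theorem ext' {f g : A} (h : ∀ y z, M.ev y z f = M.ev y z g) : f = g :=
  sub_eq_zero.1 (M.inj _ fun y z => by rw [map_sub, h, sub_self])
theorem ev_x (j y θ) : M.ev y (M.pt θ) (M.x j) = 0 := by rw [← M.evz, M.ext.zx, map_zero]
theorem ev_ang {f : A} (h : Ang M.S f) (y θ θ') : M.ev y (M.pt θ) f = M.ev y (M.pt θ') f :=
  is_const_of_fderiv_eq_zero (𝕜 := ℝ) (f := fun θ => M.ev y (M.pt θ) f)
    (fun θ => (M.der f y θ).differentiableAt)
    (fun θ => by rw [(M.der f y θ).fderiv]; simp only [h _, map_zero]; exact grad_zero) θ θ'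
theorem ev_near {s c : ℝ} {f g : A} (h : M.S.Bd s (f - g) c) (y z) :
    |M.ev y z f - M.ev y z g| ≤ c := by rw [← map_sub]; exact M.abs_le h y z
theorem ev_line (f : A) (y) (ω : Fin 3 → ℝ) (τ : ℝ) :
    HasDerivAt (fun τ : ℝ => M.ev y (M.pt (τ • ω)) f) (M.ev y (M.pt (τ • ω)) (L3 M.S ω f)) τ := by
  have := hasDerivAt_line (θ := 0) (v := ω) (t := τ) (M.der f y _)
  simpa [L3_apply, map_sum] using this
theorem ev_coord (f : A) (y) (θ : Fin 3 → ℝ) (j) :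
    HasDerivAt (fun s => M.ev y (M.pt (Function.update θ j s)) f)
      (M.ev y (M.pt θ) (M.S.D (th j) f)) (θ j) := by
  have h := M.der f y (Function.update θ j (θ j))
  have := h.comp_hasDerivAt (θ j) (hasDerivAt_update θ j (θ j))
  simpa [grad_single, Function.comp_def] using this

end Mdl

/-! ### Phase variables under algebra homomorphisms -/

namespace Ph
variable {A B : Type} [CommRing A] [Algebra ℝ A] [CommRing B] [Algebra ℝ B] (φ : A →ₐ[ℝ] B)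
  (c : Cfg) (cc hs : A) (p : Ph A)

omit [CommRing A] [Algebra ℝ A] in
theorem map_co {B : Type} (φ : A → B) (i) : (p.map φ).co i = φ (p.co i) := by
  fin_cases i <;> rfl
theorem map_r : (p.map φ).r = φ p.r := by simp [map, r]
theorem map_KK : (p.map φ).KK c (φ cc) (φ hs) = φ (p.KK c cc hs) := by
  simp [map, KK, UU, gam, r]
theorem map_XX (i) : (p.map φ).XX c (φ cc) (φ hs) i = φ (p.XX c cc hs i) := by
  fin_cases i <;> simp [map, XX, UU, gam, r, Om, T1, T2, a1, a2, b1, b2, X1, X2, map_ofNat]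
theorem Rel.map {p : Ph A} (h : p.Rel c) : (p.map φ).Rel c := by
  refine ⟨?_, ?_, ?_⟩
  · simpa [Ph.map] using congrArg φ h.R
  · simpa [Ph.map, a1, b1, X1, X2, map_ofNat] using congrArg φ h.Y1
  · simpa [Ph.map, a2, b2, X1, X2, map_ofNat] using congrArg φ h.Y2
theorem norm_zc (p : Ph ℝ) : ‖p.zc‖ ^ 2 = p.r := by
  rw [Complex.sq_norm, Complex.normSq_apply]; rfl

end Ph

/-! ### The constants -/

namespace Cfg.Ok
variable {c : Cfg} (h : c.Ok)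
include h

theorem M1 : 1 ≤ c.M := by unfold M; linarith [h.mu]
theorem M2 : c.M ≤ 2 := by unfold M; linarith [h.mu1]
theorem sM1 : 1 ≤ √c.M := Real.one_le_sqrt.2 h.M1
theorem sM2 : √c.M ≤ 2 := Real.sqrt_le_iff.2 ⟨by norm_num, by linarith [h.M2]⟩
theorem s1le : c.s1 ≤ 1 := by linarith [h.sum, h.s2]
theorem s2le : c.s2 ≤ 1 := by linarith [h.sum, h.s1]
theorem mm : 0 < c.mm := div_pos h.mu (mul_pos (mul_pos (by linarith [h.M1]) h.s1) h.s2)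
theorem n1 : c.ep ^ 6 ≤ c.n := le_mul_of_one_le_left (pow_pos h.ep 6).le h.sM1
theorem n2' : c.n ≤ 2 * c.ep ^ 6 := mul_le_mul_of_nonneg_right h.sM2 (pow_pos h.ep 6).le
theorem n : 0 < c.n := (pow_pos h.ep 6).trans_le h.n1
theorem dl : 0 < c.dl := pow_pos h.ep 4
theorem ka : 0 < c.ka := div_pos (mul_pos h.mm (by linarith [h.sM1])) (pow_pos h.ep 2)
theorem lam : 0 < c.lam := div_pos h.ka (by linarith [h.ka])
theorem lam1 : c.lam < 1 := (div_lt_one (by linarith [h.ka])).2 (by linarith)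
theorem lam_le : c.lam ≤ c.ka := div_le_self h.ka.le (by linarith [h.ka])
theorem ka_lam : c.ka * (1 - c.lam) = c.lam := by
  have := h.ka; unfold Cfg.lam; field_simp; ring
theorem r0 : 0 < c.r0 := pow_pos h.et 3
theorem n2 : 0 < c.n2 := mul_pos (mul_pos h.n (pow_pos h.dl 2)) (mul_pos h.s1 h.s2)
theorem n2_ge : c.s1 * c.s2 * c.ep ^ 14 ≤ c.n2 := by
  have := mul_le_mul_of_nonneg_right h.n1 (mul_pos (pow_pos h.dl 2) (mul_pos h.s1 h.s2)).le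
  unfold Cfg.n2; unfold Cfg.dl at *; nlinarith
theorem n2_le : c.n2 ≤ 2 * c.ep ^ 14 := by
  have h1 : c.s1 * c.s2 ≤ 1 := mul_le_one₀ h.s1le h.s2.le h.s2le
  have h2 := mul_le_mul_of_nonneg_right h.n2' (pow_pos h.dl 2).le
  have h3 := mul_le_mul_of_nonneg_left h1 (mul_pos h.n (pow_pos h.dl 2)).le
  unfold Cfg.n2; unfold Cfg.dl at *; nlinarith
theorem ka_le : c.ka ≤ (c.s1 * c.s2)⁻¹ / c.ep ^ 2 := by
  refine div_le_div_of_nonneg_right ?_ (pow_pos h.ep 2).le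
  have h1 := h.s1; have h2 := h.s2; have h3 := h.M1
  have h4 : √c.M ≤ c.M := Real.sqrt_le_iff.2 ⟨by linarith, by nlinarith⟩
  calc c.mm * √c.M ≤ c.mm * c.M := mul_le_mul_of_nonneg_left h4 h.mm.le
    _ = c.mu * (c.s1 * c.s2)⁻¹ := by unfold Cfg.mm; field_simp
    _ ≤ _ := mul_le_of_le_one_left (by positivity) h.mu1
theorem w (j) : 0 < c.w j := by
  have := h.ka; have := h.r0; have := h.ep
  fin_cases j <;> simp only [Cfg.w] <;> simp <;> positivity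
theorem sc : 0 < c.sc := div_pos (Real.sqrt_pos.2 h.mm) (pow_pos h.ep 4)

end Cfg.Ok

end Pool.Agent.MP_1ba41f_an.K4

end
end MrgPart3

-- ======== part 4: formerly Pool.Agent.MP_1ba41f_an.K4.Nf
section MrgPart4

/-! PROJECT LUNAR, row NF: the four-stage normal form from the averaging lemma. -/

noncomputable section
open Finset Filter Topology

namespace Pool.Agent.MP_1ba41f_an.K4
open K3

namespace Nf
variable {A : Type} [CommRing A] [Algebra ℝ A] {S : Scale A V6} {x : Fin 3 → A}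
  {z0 : A →ₐ[ℝ] A} {ι : Type} {F : Filter ι}

/-- bounds at a fixed level -/
abbrev OO (S : Scale A V6) (F : Filter ι) (s : ℝ) (f : ι → A) (p : ι → ℝ) : Prop :=
  O S F (fun _ => s) f p

/-- a family of near-identity transformations -/
def HomO (S : Scale A V6) (F : Filter ι) (w : ι → Fin 3 → ℝ) (s0 s1 : ℝ) (v : ι → ℝ)
    (Ψ : ι → A → A) : Prop :=
  ∃ C, 0 ≤ C ∧ ∀ᶠ i in F, Hom S (w i) s0 s1 (C * v i) (Ψ i)

variable {w : ι → Fin 3 → ℝ} {s s' s0 s1 s2 : ℝ} {v v' p q t : ι → ℝ} {Ψ Φ : ι → A → A}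
  {f g u r : ι → A}

theorem OO.lv (h : OO S F s f p) (hs : s' ≤ s) : OO S F s' f p := h.lev (.of_forall fun _ => hs)

theorem OO.an (h : OO S F s f p) : ∀ᶠ i in F, S.An s (f i) :=
  let ⟨_, _, h⟩ := h; h.mono fun _ h => ⟨_, h⟩

theorem OO.D (h : OO S F s f p) (j : V6) (h0 : 0 < s') (h1 : s' < s) :
    OO S F s' (fun i => S.D j (f i)) p := by
  obtain ⟨C, c0, h⟩ := h
  have hd : 0 < s - s' := by linarith
  refine ⟨C / (s - s'), by positivity, h.mono fun i h => ?_⟩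
  have := S.der j hd (by linarith) h
  rw [sub_sub_cancel] at this
  exact Scale.le this (le_of_eq (by ring))

theorem OO.vsmul (h : OO S F s f p) {a b : ι → ℝ} {K : ℝ} (hK : 0 ≤ K)
    (ha : ∀ᶠ i in F, |a i| ≤ K * b i) : OO S F s (fun i => a i • f i) fun i => b i * p i := by
  obtain ⟨C, c0, h⟩ := h
  refine ⟨K * C, mul_nonneg hK c0, ?_⟩
  filter_upwards [h, ha] with i h ha
  exact Scale.le (S.smul _ h) ((mul_le_mul_of_nonneg_right ha (S.nonneg h)).trans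
    (le_of_eq (by ring)))

theorem HomO.mono (h : HomO S F w s0 s1 v Ψ) (hs : s2 ≤ s1) (hv : ∀ᶠ i in F, v i ≤ v' i) :
    HomO S F w s0 s2 v' Ψ := by
  obtain ⟨C, c0, h⟩ := h
  refine ⟨C, c0, ?_⟩
  filter_upwards [h, hv] with i h hv
  exact h.mono le_rfl hs (mul_le_mul_of_nonneg_left hv c0)

theorem HomO.diff (h : HomO S F w s0 s1 v Ψ) (hf : OO S F s0 f p) :
    OO S F s1 (fun i => Ψ i (f i) - f i) fun i => v i * p i := by
  obtain ⟨C, c0, h⟩ := h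
  obtain ⟨C', c0', hf⟩ := hf
  refine ⟨C * C', mul_nonneg c0 c0', ?_⟩
  filter_upwards [h, hf] with i h hf
  exact Scale.le (h.bd hf) (le_of_eq (by ring))

theorem HomO.app (h : HomO S F w s0 s1 v Ψ) (hs : s1 ≤ s0) (hv : Tendsto v F (𝓝 0))
    (hf : OO S F s0 f p) : OO S F s1 (fun i => Ψ i (f i)) p := by
  obtain ⟨C, c0, h⟩ := h
  obtain ⟨C', c0', hf⟩ := hf
  refine ⟨2 * C', by positivity, ?_⟩
  filter_upwards [h, hf, ev_le hv C one_pos] with i h hf hc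
  refine Scale.le (h.bd' hs hf) ?_
  nlinarith [S.nonneg hf]

theorem HomO.comp (h : HomO S F w s0 s1 v Ψ) (h' : HomO S F w s1 s2 v Φ) (h1 : s1 ≤ s0)
    (h2 : s2 ≤ s1) (hv : Tendsto v F (𝓝 0)) :
    HomO S F w s0 s2 v fun i f => Φ i (Ψ i f) := by
  obtain ⟨C, c0, h⟩ := h
  obtain ⟨C', c0', h'⟩ := h'
  refine ⟨C + 2 * C', by positivity, ?_⟩
  filter_upwards [h, h', ev_le hv C one_pos] with i h h' hc
  refine (h.comp h' h1 h2).mono le_rfl le_rfl ?_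
  nlinarith [h'.nonneg]

/-- perturbation of an invertible family -/
theorem invO (hs : 0 < s) (h0 : ∀ᶠ i in F, f i * u i = 1) (hu : OO S F s u q)
    (hr : OO S F s (fun i => r i * u i) t) (ht : Tendsto t F (𝓝 0)) :
    ∃ u' : ι → A, (∀ᶠ i in F, (f i + r i) * u' i = 1) ∧ OO S F s u' q := by
  have key : ∀ᶠ i in F, ∃ g, (1 + r i * u i) * g = 1 ∧ S.Bd s (g - 1) (2 * (1 / 2)) :=
    (hr.small ht (half_pos one_pos)).mono fun i h =>
      Scale.exists_inv hs (Scale.cong h (by ring)) le_rfl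
  obtain ⟨g, hg⟩ := ev_choice key
  refine ⟨fun i => u i * g i, ?_, hu.mul1 ⟨2, by norm_num, hg.mono fun i h => ?_⟩⟩
  · filter_upwards [h0, hg] with i h0 hg
    linear_combination hg.1 + g i * h0
  · exact Scale.le (Scale.of_sub_one h.2) (by norm_num)

/-- the mean of a family over one angle -/
theorem meanO (E : Ext S x z0) (j : Fin 3) (hs : 0 < s) (hf : OO S F s f p) :
    ∃ m : ι → A, OO S F s m p ∧ ∀ᶠ i in F, S.D (th j) (m i) = 0 ∧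
      ∃ a, S.D (th j) a = f i - m i := by
  obtain ⟨C, c0, hf⟩ := hf
  have key : ∀ᶠ i in F, ∃ m, S.Bd s m (C * p i) ∧ S.D (th j) m = 0 ∧
      ∃ a, S.D (th j) a = f i - m := hf.mono fun i h =>
    let ⟨a, m, e1, e2, _, b, _⟩ := E.avg' j hs h; ⟨m, b, e2, a, e1⟩
  obtain ⟨m, hm⟩ := ev_choice key
  exact ⟨m, ⟨C, c0, hm.mono fun _ h => h.1⟩, hm.mono fun _ h => h.2⟩

/-- the averaging lemma for families -/
theorem avgO (hA : AvgStmt) (E : Ext S x z0) (N : ℕ) (h1 : 0 < s1) (h2 : s1 < s0)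
    (T : Finset (Fin 3)) (j : Fin 3) (jT : j ∉ T) {h P : ι → A} {ϖ π γ : ι → ℝ} {K : ℝ}
    (hK : 0 ≤ K)
    (hal : ∀ᶠ i in F, (∀ k, 0 ≤ w i k) ∧ 0 < ϖ i ∧ 0 ≤ γ i ∧ γ i ≤ v i ∧ S.An s0 (h i) ∧
      Ang S (h i) ∧ Ina S T (P i) ∧ (w i j • S.D (ac j) (h i)) * u i = 1 ∧
      (∀ k ∉ T, w i k * π i ≤ K * (ϖ i * γ i)) ∧ ∀ k, w i k * π i ≤ K * (ϖ i * v i))
    (hP : OO S F s0 P π) (hu : OO S F s0 u fun i => (ϖ i)⁻¹)
    (hoth : ∀ k ∉ T, k ≠ j → OO S F s0 (fun i => w i k • S.D (ac k) (h i)) fun i => ϖ i * γ i)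
    (hv : Tendsto v F (𝓝 0)) :
    ∃ (Ψ : ι → A → A) (Z R : ι → A), HomO S F w s0 s1 v Ψ ∧
      (∀ᶠ i in F, Ψ i (h i + P i) = h i + Z i + R i ∧ Ina S (insert j T) (Z i)) ∧
      OO S F s1 Z π ∧ OO S F s1 R (fun i => π i * γ i ^ N) ∧
      ∀ m : ι → A, (∀ᶠ i in F, S.D (th j) (m i) = 0 ∧ ∃ a, S.D (th j) a = P i - m i) →
        OO S F s1 (fun i => Z i - m i) fun i => π i * γ i := by
  obtain ⟨c1, p1, hP⟩ := hP
  obtain ⟨c2, p2, hu⟩ := hu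
  obtain ⟨c3, p3, ho⟩ := O.uniform (κ := {k // k ∉ T ∧ k ≠ j}) (fun k => hoth k.1 k.2.1 k.2.2)
    fun _ => hal.mono fun i h => mul_nonneg h.2.1.le h.2.2.1
  have p4 : 0 ≤ c1 * K := mul_nonneg p1 hK
  obtain ⟨C, ε0, c0, e0, H⟩ := hA A S x z0 E N s0 s1 (c2 + c3 + c1 * K) h1 h2
  have key : ∀ᶠ i in F, ∃ t : (A → A) × A × A, Hom S (w i) s0 s1 (C * v i) t.1 ∧
      t.1 (h i + P i) = h i + t.2.1 + t.2.2 ∧ Ina S (insert j T) t.2.1 ∧
      S.Bd s1 t.2.1 (C * (c1 * π i)) ∧ S.Bd s1 t.2.2 (C * (c1 * π i) * γ i ^ N) ∧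
      ∀ m a, S.D (th j) m = 0 → S.D (th j) a = P i - m →
        S.Bd s1 (t.2.1 - m) (C * (c1 * π i) * γ i) := by
    filter_upwards [hal, hP, hu, ho, ev_le hv 1 e0] with i hal hP hu ho hv
    obtain ⟨a1, a2, a3, a4, a5, a6, a7, a8, a9, a10⟩ := hal
    have q1 : 0 ≤ ϖ i * γ i := mul_nonneg a2.le a3
    have q2 : 0 ≤ ϖ i * v i := mul_nonneg a2.le (a3.trans a4)
    obtain ⟨Ψ, Z, R, b1, b2, b3, -, b5, b6, b7⟩ := H (w i) T j (h i) (P i) (u i) (ϖ i)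
      (c1 * π i) (γ i) (v i)
      { w0 := a1, jT := jT, fr := a2, g0 := a3, gv := a4, anh := a5, ang := a6, ina := a7
        bP := hP, inv := a8
        bu := Scale.le hu (by
          rw [div_eq_mul_inv]
          exact mul_le_mul_of_nonneg_right (by linarith) (inv_nonneg.2 a2.le))
        oth := fun k k1 k2 => Scale.le (ho ⟨k, k1, k2⟩) (by
          rw [mul_assoc]; exact mul_le_mul_of_nonneg_right (by linarith) q1)
        act := fun k k1 => by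
          have := mul_le_mul_of_nonneg_left (a9 k k1) p1
          nlinarith [mul_nonneg (add_nonneg p2 p3) q1]
        all := fun k => by
          have := mul_le_mul_of_nonneg_left (a10 k) p1
          nlinarith [mul_nonneg (add_nonneg p2 p3) q2] } (by linarith)
    exact ⟨(Ψ, Z, R), b1, b2, b3, b5, b6, b7⟩
  obtain ⟨t, ht⟩ := ev_choice key
  have p5 : 0 ≤ C * c1 := mul_nonneg c0 p1
  refine ⟨fun i => (t i).1, fun i => (t i).2.1, fun i => (t i).2.2,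
    ⟨C, c0, ht.mono fun _ h => h.1⟩, ht.mono fun _ h => ⟨h.2.1, h.2.2.1⟩,
    ⟨C * c1, p5, ht.mono fun _ h => Scale.le h.2.2.2.1 (le_of_eq (by ring))⟩,
    ⟨C * c1, p5, ht.mono fun _ h => Scale.le h.2.2.2.2.1 (le_of_eq (by ring))⟩,
    fun m hm => ⟨C * c1, p5, ?_⟩⟩
  filter_upwards [ht, hm] with i h hm
  obtain ⟨m1, a, m2⟩ := hm
  exact Scale.le (h.2.2.2.2.2 _ a m1 m2) (le_of_eq (by ring))

/-! ### Powers of the small parameter -/

section Pow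
variable {ε : ι → ℝ} (e0 : ∀ i, 0 < ε i) (hε : Tendsto ε F (𝓝 0))
include hε

theorem le1 : ∀ᶠ i in F, ε i ≤ 1 := (ev_le hε 1 one_pos).mono fun _ h => by linarith

theorem tpow (n : ℕ) (hn : n ≠ 0) : Tendsto (fun i => ε i ^ n) F (𝓝 0) := by
  simpa [hn] using hε.pow n

include e0

theorem powle {a b : ℕ} (h : b ≤ a) : ∀ᶠ i in F, ε i ^ a ≤ ε i ^ b :=
  (le1 hε).mono fun i h1 => pow_le_pow_of_le_one (e0 i).le h1 h

theorem pw {a b : ℕ} (h : OO S F s f fun i => ε i ^ a) (hb : b ≤ a) :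
    OO S F s f fun i => ε i ^ b := h.wt (powle e0 hε hb)

theorem pw2 {a b c : ℕ} (h : OO S F s f fun i => ε i ^ a * ε i ^ b) (hb : c ≤ a + b) :
    OO S F s f fun i => ε i ^ c := pw e0 hε (h.wt' fun _ => (pow_add _ _ _).symm) hb

theorem pw3 {a b N : ℕ} (h : OO S F s f fun i => ε i ^ a * (ε i ^ b) ^ N) {c : ℕ}
    (hb : c ≤ a + b * N) : OO S F s f fun i => ε i ^ c :=
  pw2 e0 hε (h.wt' fun _ => by rw [pow_mul]) hb

omit hε in
theorem wsm {a : ι → ℝ} {C : ℝ} {n m : ℕ} (hC : 0 ≤ C) (a0 : ∀ i, 0 ≤ a i)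
    (ha : ∀ᶠ i in F, a i ≤ C / ε i ^ n) (h : OO S F s f fun i => ε i ^ (m + n)) :
    OO S F s (fun i => a i • f i) fun i => ε i ^ m :=
  (h.vsmul (b := fun i => (ε i ^ n)⁻¹) hC (ha.mono fun i h => by
    rw [abs_of_nonneg (a0 i), ← div_eq_mul_inv]; exact h)).wt' fun i => by
      have := e0 i; rw [pow_add]; field_simp

omit hε in
theorem wle {a C : ℝ} {n m : ℕ} (i : ι) (ha : a ≤ C / ε i ^ n) :
    a * ε i ^ (m + n) ≤ C * ε i ^ m := by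
  have := e0 i
  refine (mul_le_mul_of_nonneg_right ha (by positivity)).trans (le_of_eq ?_)
  rw [pow_add]; field_simp

end Pow

/-- the normal form for families -/
theorem nfO (hA : AvgStmt) (E : Ext S x z0) (N : ℕ) {C0 : ℝ} {ε : ι → ℝ}
    {h0 P0 P1 m0 Fq F1 Fb : ι → A} (e0 : ∀ i, 0 < ε i) (hε : Tendsto ε F (𝓝 0)) (c0 : 0 ≤ C0)
    (D : ∀ i, NfData S (w i) (ε i) C0 (h0 i) (P0 i) (P1 i) (m0 i) (Fq i) (F1 i) (Fb i)) :
    ∃ (Ψ : ι → A → A) (Z R : ι → A), HomO S F w 1 (1 / 2) ε Ψ ∧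
      (∀ᶠ i in F, Ψ i (h0 i + P0 i + P1 i) = h0 i + m0 i + Fb i + Z i + R i ∧ Ang S (Z i)) ∧
      OO S F (1 / 2) Z (fun i => ε i ^ 16) ∧ OO S F (1 / 2) R fun i => ε i ^ N := by
  have w0 : ∀ k i, 0 ≤ w i k := fun k i => ((D i).w_pos k).le
  have w3 : ∀ᶠ i in F, ∀ k, w i k ≤ C0 / ε i ^ 3 := by
    filter_upwards [powle e0 hε (show 2 ≤ 3 by norm_num)] with i h k
    have h2 : C0 / ε i ^ 2 ≤ C0 / ε i ^ 3 :=
      div_le_div_of_nonneg_left c0 (pow_pos (e0 i) 3) h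
    fin_cases k
    exacts [(D i).w0.trans h2, (D i).w1, (D i).w2.trans h2]
  have w3' : ∀ k, ∀ᶠ i in F, w i k ≤ C0 / ε i ^ 3 := fun k => w3.mono fun _ h => h k
  have oP0 : OO S F 1 P0 fun i => ε i ^ 9 := ⟨C0, c0, .of_forall fun i => (D i).bP⟩
  have om0 : OO S F 1 m0 fun i => ε i ^ 9 := ⟨C0, c0, .of_forall fun i => (D i).bm⟩
  have oq : OO S F 1 Fq fun i => ε i ^ 14 := ⟨C0, c0, .of_forall fun i => (D i).bq⟩
  have ob : OO S F 1 Fb fun i => ε i ^ 14 := ⟨C0, c0, .of_forall fun i => (D i).bb⟩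
  have oc : OO S F 1 (fun i => P1 i - Fq i) fun i => ε i ^ 18 :=
    ⟨C0, c0, .of_forall fun i => (D i).oct⟩
  have oP1 : OO S F 1 P1 fun i => ε i ^ 14 :=
    ((pw e0 hε oc (by norm_num)).add oq).congr' fun _ => sub_add_cancel _ _
  have h2 : algebraMap ℝ A (1 / 2) * 2 = 1 := by
    rw [show (2 : A) = algebraMap ℝ A 2 from (map_ofNat _ 2).symm, ← map_mul]; norm_num
  have o2 : ∀ s, OO S F s (fun _ => (2 : A)) fun _ => 1 := fun s =>
    O.of_an (Scale.An.ofNat s 2) (.of_forall fun _ => le_rfl)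
  -- stage 1
  obtain ⟨Ψ1, Z1, R1, H1, E1, oZ1, oR1, M1⟩ := avgO (w := w) (s0 := 1) (s1 := 15 / 16)
    (u := fun _ => 2) (h := h0) (P := P0) (ϖ := fun _ => 1) (γ := fun i => ε i ^ 7)
    (v := fun i => ε i ^ 6) hA E 2 (by norm_num) (by norm_num) {1, 2} 0 (by decide) c0
    (by
      filter_upwards [w3, powle e0 hε (show 6 ≤ 7 by norm_num)] with i w3 h67
      refine ⟨fun k => w0 k i, one_pos, (pow_pos (e0 i) 7).le, h67, (D i).an0, (D i).ang0,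
        (D i).inaP, by rw [(D i).fr0, h2], fun k hk => ?_, fun k => ?_⟩
      · obtain rfl : k = 0 := by revert k; decide
        rw [one_mul]; exact wle e0 i (D i).w0
      · rw [one_mul]; exact wle e0 i (w3 k))
    oP0 ((o2 1).wt' fun _ => inv_one.symm)
    (fun k k1 k2 => absurd k1 (by revert k; decide)) (tpow hε 6 (by norm_num))
  have aZ1 : ∀ᶠ i in F, Ang S (Z1 i) := E1.mono fun i h => h.2.ang (by decide)
  have oY : OO S F (15 / 16) (fun i => Z1 i - m0 i) fun i => ε i ^ 16 :=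
    pw2 e0 hε (M1 m0 (.of_forall fun i => ⟨(D i).angm 0, (D i).prm⟩)) le_rfl
  have oDZ : ∀ k, OO S F (7 / 8) (fun i => w i k • S.D (ac k) (Z1 i)) fun i => ε i ^ 6 :=
    fun k => wsm e0 c0 (w0 k) (w3' k) (oZ1.D _ (by norm_num) (by norm_num))
  have oDY : ∀ k, OO S F (7 / 8) (fun i => S.D (ac k) (Z1 i - m0 i)) fun i => ε i ^ 16 :=
    fun k => oY.D _ (by norm_num) (by norm_num)
  have anh : ∀ᶠ i in F, S.An (15 / 16) (h0 i + Z1 i) ∧ Ang S (h0 i + Z1 i) := by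
    filter_upwards [oZ1.an, aZ1] with i a b
    exact ⟨((D i).an0.mono (by norm_num)).add a, (D i).ang0.add b⟩
  -- stage 2
  obtain ⟨u2, iu2, ou2⟩ := invO (s := 7 / 8) (f := fun _ => algebraMap ℝ A (1 / 2))
    (u := fun _ => 2) (r := fun i => w i 0 • S.D (ac 0) (Z1 i)) (by norm_num)
    (.of_forall fun _ => h2) (o2 _) ((oDZ 0).mul1 (o2 _)) (tpow hε 6 (by norm_num))
  have oE : OO S F (15 / 16) (fun i => Ψ1 i (P1 i) + R1 i - Fq i) fun i => ε i ^ 18 :=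
    (((pw2 e0 hε (H1.diff oP1) (by norm_num)).add (oc.lv (by norm_num))).add
      (pw3 e0 hε oR1 (by norm_num))).congr' fun _ => by ring
  have oP2 : OO S F (7 / 8) (fun i => Ψ1 i (P1 i) + R1 i) fun i => ε i ^ 14 :=
    (((pw e0 hε oE (by norm_num)).lv (by norm_num)).add (oq.lv (by norm_num))).congr'
      fun _ => sub_add_cancel _ _
  obtain ⟨Ψ2, Z2, R2, H2, E2, oZ2, oR2, M2⟩ := avgO (w := w) (s0 := 7 / 8) (s1 := 13 / 16)
    (u := u2) (h := fun i => h0 i + Z1 i) (ϖ := fun _ => 1) (γ := fun i => ε i ^ 6)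
    (v := fun i => ε i ^ 6) hA E N (by norm_num) (by norm_num) ∅ 0 (by decide) c0
    (by
      filter_upwards [w3, anh, iu2, powle e0 hε (show 6 ≤ 11 by norm_num)] with i w3 anh iu h
      have : ∀ k, w i k * ε i ^ 14 ≤ C0 * (1 * ε i ^ 6) := fun k => by
        rw [one_mul]
        exact (wle (m := 11) e0 i (w3 k)).trans (mul_le_mul_of_nonneg_left h c0)
      exact ⟨fun k => w0 k i, one_pos, (pow_pos (e0 i) 6).le, le_rfl, anh.1.mono (by norm_num),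
        anh.2, Ina.empty _, by rw [map_add, smul_add, (D i).fr0, iu], fun k _ => this k, this⟩)
    oP2 (ou2.wt' fun _ => inv_one.symm)
    (fun k _ k2 => ((oDZ k).wt' fun _ => (one_mul _).symm).congr' fun i => by
      have : S.D (ac k) (h0 i) = 0 := by
        fin_cases k
        exacts [absurd rfl k2, (D i).fr1, (D i).fr2]
      rw [map_add, this, zero_add])
    (tpow hε 6 (by norm_num))
  obtain ⟨m2, om2, em2⟩ := meanO E 0 (by norm_num) oE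
  have oZF : OO S F (13 / 16) (fun i => Z2 i - F1 i) fun i => ε i ^ 18 :=
    ((pw2 e0 hε (M2 (fun i => F1 i + m2 i) (em2.mono fun i h => by
      obtain ⟨a, ha⟩ := (D i).pr1
      obtain ⟨h1, a', ha'⟩ := h
      exact ⟨by rw [map_add, (D i).F10, h1, add_zero], a + a', by
        rw [map_add, ha, ha']; ring⟩)) (by norm_num)).add (om2.lv (by norm_num))).congr'
      fun _ => by ring
  -- stage 3
  choose u1 iu1 bu1 using fun i => (D i).inv1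
  have ou1 : OO S F (13 / 16) u1 fun i => (ε i ^ 6)⁻¹ :=
    OO.lv ⟨C0, c0, .of_forall fun i => by rw [← div_eq_mul_inv]; exact bu1 i⟩ (by norm_num)
  obtain ⟨u3, iu3, ou3⟩ := invO (s := 13 / 16) (t := fun i => ε i ^ 7)
    (r := fun i => w i 1 • S.D (ac 1) (Z1 i - m0 i)) (by norm_num) (.of_forall iu1) ou1
    ((((wsm (m := 13) e0 c0 (w0 1) (w3' 1) (oDY 1)).lv (by norm_num)).mul ou1).wt' fun i => by
      have := e0 i; field_simp) (tpow hε 7 (by norm_num))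
  obtain ⟨Ψ3, Z3, R3, H3, E3, oZ3, oR3, M3⟩ := avgO (w := w) (s0 := 13 / 16) (s1 := 3 / 4)
    (u := u3) (h := fun i => h0 i + Z1 i) (ϖ := fun i => ε i ^ 6) (γ := fun i => ε i ^ 5)
    (v := fun i => ε i ^ 5) hA E N (by norm_num) (by norm_num) {0} 1 (by decide) c0
    (by
      filter_upwards [w3, anh, iu3, E2] with i w3 anh iu E2
      have : ∀ k, w i k * ε i ^ 14 ≤ C0 * (ε i ^ 6 * ε i ^ 5) := fun k => by
        rw [← pow_add]; exact wle (m := 11) e0 i (w3 k)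
      refine ⟨fun k => w0 k i, pow_pos (e0 i) 6, (pow_pos (e0 i) 5).le, le_rfl,
        anh.1.mono (by norm_num), anh.2, E2.2.mono (by decide), ?_, fun k _ => this k, this⟩
      rw [← iu, map_add, map_sub, (D i).fr1, ← smul_add]; congr 2; ring)
    oZ2 ou3
    (fun k k1 k2 => by
      obtain rfl : k = 2 := by revert k; decide
      refine (((pw e0 hε (wsm (m := 13) e0 c0 (w0 2) (w3' 2) (oDY 2))
        (show 11 ≤ 13 by norm_num)).lv (by norm_num)).wt' fun i => pow_add _ 6 5).congr'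
          fun i => ?_
      rw [map_add, map_sub, (D i).fr2, (D i).m2, zero_add, sub_zero])
    (tpow hε 5 (by norm_num))
  obtain ⟨m3, om3, em3⟩ := meanO E 1 (by norm_num) oZF
  have oP4 : OO S F (3 / 4) (fun i => Z3 i - Fb i) fun i => ε i ^ 18 :=
    ((pw2 e0 hε (M3 (fun i => Fb i + m3 i) (em3.mono fun i h => by
      obtain ⟨a, ha⟩ := (D i).prb
      obtain ⟨h1, a', ha'⟩ := h
      exact ⟨by rw [map_add, (D i).angb 1, h1, add_zero], a + a', by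
        rw [map_add, ha, ha']; ring⟩)) (by norm_num)).add (om3.lv (by norm_num))).congr'
      fun _ => by ring
  -- stage 4
  choose ub iub bub using fun i => (D i).inv2
  have oub : OO S F (3 / 4) ub fun i => (ε i ^ 14)⁻¹ :=
    OO.lv ⟨C0, c0, .of_forall fun i => by rw [← div_eq_mul_inv]; exact bub i⟩ (by norm_num)
  obtain ⟨u4, iu4, ou4⟩ := invO (s := 3 / 4) (t := fun i => ε i ^ 2)
    (r := fun i => S.D (ac 2) (Z1 i - m0 i)) (by norm_num) (.of_forall iub) oub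
    ((((oDY 2).lv (by norm_num)).mul oub).wt' fun i => by
      have := e0 i; field_simp) (tpow hε 2 (by norm_num))
  obtain ⟨Ψ4, Z4, R4, H4, E4, oZ4, oR4, -⟩ := avgO (w := w) (s0 := 3 / 4) (s1 := 1 / 2)
    (u := fun i => (w i 2)⁻¹ • u4 i) (h := fun i => h0 i + Z1 i + Fb i)
    (ϖ := fun i => w i 2 * ε i ^ 14) (γ := fun i => ε i ^ 4) (v := ε) (K := C0 * C0 + 1)
    hA E N (by norm_num) (by norm_num) {0, 1} 2 (by decide) (by positivity)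
    (by
      filter_upwards [w3, anh, iu4, E3, ob.an, powle e0 hε (show 1 ≤ 4 by norm_num)]
        with i w3 anh iu E3 anb h14
      have ep := e0 i
      have wp := (D i).w_pos 2
      refine ⟨fun k => w0 k i, by positivity, by positivity, by simpa using h14,
        (anh.1.mono (by norm_num)).add (anb.mono (by norm_num)), anh.2.add (D i).angb,
        (E3.2.mono (by decide)).sub ((D i).angb.ina _), ?_, fun k hk => ?_, fun k => ?_⟩
      · rw [smul_mul_smul_comm, mul_inv_cancel₀ wp.ne', one_smul, ← iu, map_add, map_add, map_sub,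
          (D i).fr2, (D i).m2]
        ring
      · obtain rfl : k = 2 := by revert k; decide
        have : 0 ≤ C0 * C0 * (w i 2 * ε i ^ 14 * ε i ^ 4) := by positivity
        nlinarith
      · have a1 := wle (m := 15) e0 i (w3 k)
        have a2 := mul_le_mul_of_nonneg_left (D i).w2' (show 0 ≤ C0 * ε i ^ 15 by positivity)
        have : 0 ≤ w i 2 * ε i ^ 14 * ε i := by positivity
        norm_num at a1
        nlinarith)
    oP4
    ((ou4.vsmul (b := fun i => (w i 2)⁻¹) zero_le_one (.of_forall fun i => by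
      rw [abs_of_nonneg (inv_nonneg.2 (w0 2 i)), one_mul])).wt' fun i => (mul_inv _ _).symm)
    (fun k k1 k2 => absurd k1 (by revert k; decide)) hε
  -- assembly
  have pe : ∀ n, n ≠ 0 → ∀ᶠ i in F, ε i ^ n ≤ ε i := fun n hn =>
    (powle e0 hε (Nat.one_le_iff_ne_zero.2 hn)).mono fun i h => by simpa using h
  have G1 := H1.mono (s2 := 7 / 8) (by norm_num) (pe 6 (by norm_num))
  have G2 := H2.mono le_rfl (pe 6 (by norm_num))
  have G3 := H3.mono le_rfl (pe 5 (by norm_num))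
  have oR2' : OO S F (13 / 16) R2 fun i => ε i ^ N := pw3 e0 hε oR2 (by omega)
  have oR3' : OO S F (3 / 4) (fun i => R3 i + Ψ3 i (R2 i)) fun i => ε i ^ N :=
    (pw3 e0 hε oR3 (by omega)).add (G3.app (by norm_num) hε oR2')
  refine ⟨_, fun i => Z1 i - m0 i + Z4 i, fun i => R4 i + Ψ4 i (R3 i + Ψ3 i (R2 i)),
    ((G1.comp G2 (by norm_num) (by norm_num) hε).comp G3 (by norm_num) (by norm_num) hε).comp H4
      (by norm_num) (by norm_num) hε, ?_,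
    (oY.lv (by norm_num)).add (pw e0 hε oZ4 (by norm_num)),
    (pw3 e0 hε oR4 (by omega)).add (H4.app (by norm_num) hε oR3')⟩
  obtain ⟨_, -, H1⟩ := H1
  obtain ⟨_, -, H3⟩ := H3
  obtain ⟨_, -, H4⟩ := H4
  filter_upwards [H1, H3, H4, E1, E2, E3, E4, aZ1, anh, oP0.an, oP1.an, oZ2.an, oR2.an, oZ3.an,
    oR3'.an] with i H1 H3 H4 E1 E2 E3 E4 aZ1 anh a0 a1 a2 a3 a4 a5
  refine ⟨?_, (aZ1.sub (D i).angm).add (E4.2.ang (by decide))⟩
  have e1 : Ψ1 i (h0 i + P0 i + P1 i) = h0 i + Z1 i + (Ψ1 i (P1 i) + R1 i) := by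
    rw [H1.add ((D i).an0.add a0) a1, E1.1]; ring
  have e3 : Ψ3 i (h0 i + Z1 i + Z2 i + R2 i) =
      h0 i + Z1 i + Fb i + (Z3 i - Fb i) + (R3 i + Ψ3 i (R2 i)) := by
    rw [H3.add ((anh.1.mono (by norm_num)).add a2) a3, E3.1]; ring
  have a6 : S.An (3 / 4) (h0 i + Z1 i + Fb i + (Z3 i - Fb i)) := by
    rw [show h0 i + Z1 i + Fb i + (Z3 i - Fb i) = h0 i + Z1 i + Z3 i by ring]
    exact (anh.1.mono (by norm_num)).add a4
  show Ψ4 i (Ψ3 i (Ψ2 i (Ψ1 i _))) = _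
  rw [e1, E2.1, e3, H4.add a6 a5, E4.1]; ring

/-- index set of all admissible data -/
structure Ix (S : Scale A V6) (C0 : ℝ) where
  w : Fin 3 → ℝ
  ε : ℝ
  h0 : A
  P0 : A
  P1 : A
  m0 : A
  Fq : A
  F1 : A
  Fb : A
  pos : 0 < ε
  dat : NfData S w ε C0 h0 P0 P1 m0 Fq F1 Fb

end Nf

theorem nf4 : AvgStmt → NfStmt := by
  intro hA A _ _ S x z0 E N C0
  by_cases c0 : 0 ≤ C0
  swap
  · refine ⟨0, 1, le_rfl, one_pos, fun w ε h0 P0 P1 m0 Fq F1 Fb _ _ D => absurd ?_ c0⟩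
    nlinarith [D.w2', D.w_pos 2]
  obtain ⟨Ψ, Z, R, ⟨c1, p1, H⟩, e, ⟨c2, p2, hZ⟩, c3, p3, hR⟩ :=
    Nf.nfO (ι := Nf.Ix S C0) (F := comap Nf.Ix.ε (𝓝 0)) hA E N (fun i => i.pos) tendsto_comap c0
      fun i => i.dat
  obtain ⟨ε0, e0, h⟩ := ev_comap (H.and (e.and (hZ.and hR)))
  refine ⟨c1 + c2 + c3, ε0, by positivity, e0, fun w ε h0 P0 P1 m0 Fq F1 Fb ep hε D => ?_⟩
  obtain ⟨b1, b2, b3, b4⟩ := h ⟨w, ε, h0, P0, P1, m0, Fq, F1, Fb, ep, D⟩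
    (by rwa [abs_of_pos ep])
  exact ⟨_, _, _, b1.mono le_rfl le_rfl (mul_le_mul_of_nonneg_right (by linarith) ep.le),
    b2.1, b2.2, Scale.le b3 (mul_le_mul_of_nonneg_right (by linarith) (pow_pos ep 16).le),
    Scale.le b4 (mul_le_mul_of_nonneg_right (by linarith) (pow_pos ep N).le)⟩

end Pool.Agent.MP_1ba41f_an.K4

end
end MrgPart4

-- marker of a merged file
example : 731051 + 270375 = 731051 + 270375 := rfl
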