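import Mathlib.Analysis.Complex.Polynomial.Basic
import Mathlib.Analysis.Convex.Contractible
import Mathlib.Analysis.Complex.CoveringMap
import Mathlib.Topology.Homotopy.Lifting
import Mathlib.MeasureTheory.Integral.Indicator
import Pool.Agent.MP_1ba41f_an.K4.Nf
import Pool.Agent.MP_1ba41f_an.K3.Newton

-- ======== part 0: formerly Pool.Agent.MP_1ba41f_an.K4.Act
section MrgPart0

/-! PROJECT LUNAR: roots and inverses of functions of the actions, quadrupole expansion. -/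

noncomputable section
open Finset Filter Topology

namespace Pool.Agent.MP_1ba41f_an.K4
open K3

namespace ActM

section Calc
variable {A : Type} [CommRing A] [Algebra ℝ A] {J ι : Type} {S : Scale A J} {F : Filter ι}
  {l : ι → ℝ} {f g f' g' : ι → A} {w w' : ι → ℝ}

theorem vsmul {a : ι → ℝ} (ha : ∀ᶠ i in F, |a i| ≤ w' i) (h : O S F l f w) :
    O S F l (fun i => a i • f i) fun i => w' i * w i := by
  obtain ⟨C, c0, h⟩ := h
  refine ⟨C, c0, ?_⟩
  filter_upwards [ha, h] with i ha h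
  refine Scale.le (S.smul (a i) h) ?_
  nlinarith [mul_le_mul_of_nonneg_right ha (S.nonneg h)]

theorem vsmul1 {a : ι → ℝ} (ha : ∀ᶠ i in F, |a i| ≤ w' i) (h : O S F l f fun _ => 1) :
    O S F l (fun i => a i • f i) w' := (vsmul ha h).wt' fun _ => mul_one _

theorem vsmul2 {a : ι → ℝ} (ha : ∀ᶠ i in F, |a i| ≤ 1) (h : O S F l f w) :
    O S F l (fun i => a i • f i) w := (vsmul (w' := fun _ => 1) ha h).wt' fun _ => one_mul _

theorem two (h : O S F l f w) : O S F l (fun i => 2 * f i) w :=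
  (h.add h).congr' fun _ => (two_mul _).symm

theorem evb (h : O S F l f w) (hw : ∀ᶠ i in F, 0 ≤ w i) :
    ∀ᶠ C in atTop, ∀ᶠ i in F, S.Bd (l i) (f i) (C * w i) :=
  let ⟨C0, h⟩ := h.bound hw
  (eventually_ge_atTop C0).mono h

variable (S F l w) in
/-- `f` is near the bounded family `g` -/
structure Nr (f g : ι → A) : Prop where
  lim : Tendsto w F (𝓝 0)
  near : O S F l (fun i => f i - g i) w
  bd : O S F l g fun _ => 1

theorem Nr.bd' (h : Nr S F l w f g) : O S F l f fun _ => 1 := h.near.near h.lim h.bd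

theorem Nr.add (h : Nr S F l w f g) (h' : Nr S F l w f' g') :
    Nr S F l w (fun i => f i + f' i) fun i => g i + g' i :=
  ⟨h.lim, (h.near.add h'.near).congr' fun _ => by ring, h.bd.add h'.bd⟩

theorem Nr.sub (h : Nr S F l w f g) (h' : Nr S F l w f' g') :
    Nr S F l w (fun i => f i - f' i) fun i => g i - g' i :=
  ⟨h.lim, (h.near.sub h'.near).congr' fun _ => by ring, h.bd.sub h'.bd⟩

theorem Nr.mul (h : Nr S F l w f g) (h' : Nr S F l w f' g') :
    Nr S F l w (fun i => f i * f' i) fun i => g i * g' i :=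
  ⟨h.lim, ((h.near.mul1 h'.bd').add (h.bd.mul1' h'.near)).congr' fun _ => by ring,
    h.bd.mul1 h'.bd⟩

theorem Nr.vsmul {a : ι → ℝ} (ha : ∀ᶠ i in F, |a i| ≤ 1) (h : Nr S F l w f g) :
    Nr S F l w (fun i => a i • f i) fun i => a i • g i :=
  ⟨h.lim, (vsmul2 ha h.near).congr' fun _ => smul_sub _ _ _, vsmul2 ha h.bd⟩

theorem Nr.smul (a : ℝ) (h : Nr S F l w f g) :
    Nr S F l w (fun i => a • f i) fun i => a • g i :=
  ⟨h.lim, (h.near.smul a).congr' fun _ => smul_sub _ _ _, h.bd.smul a⟩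

theorem Nr.congr (h : Nr S F l w f g) (e : ∀ i, f i = f' i) (e' : ∀ i, g i = g' i) :
    Nr S F l w f' g' := by
  rwa [← funext e, ← funext e']

theorem Nr.wt (h : Nr S F l w f g) (hw' : Tendsto w' F (𝓝 0)) (hw : ∀ᶠ i in F, w i ≤ w' i) :
    Nr S F l w' f g := ⟨hw', h.near.wt hw, h.bd⟩

theorem Nr.inv1 (h : Nr S F l w f fun _ => 1) (hl : ∀ᶠ i in F, 0 < l i) :
    (∀ᶠ i in F, f i * Ring.inverse (f i) = 1) ∧
      Nr S F l w (fun i => Ring.inverse (f i)) fun _ => 1 :=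
  let ⟨a, b⟩ := h.near.inv (g0 := fun _ => 1) h.lim hl (.of_forall fun _ => one_mul _) O.one
  ⟨a, h.lim, b, O.one⟩

theorem half_two : algebraMap ℝ A (1 / 2) * 2 = 1 := by
  rw [show (2 : A) = algebraMap ℝ A 2 from (map_ofNat _ 2).symm, ← map_mul]; norm_num

/-- second order expansion of the inverse distance -/
theorem expand {U V : ι → A} (hw : Tendsto w F (𝓝 0)) (hw0 : ∀ᶠ i in F, 0 ≤ w i)
    (hl : ∀ᶠ i in F, 0 < l i) (hU : O S F l U w) (hV : O S F l V w) :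
    ∃ y : ι → A, (∀ᶠ i in F, y i * y i * ((1 + U i) ^ 2 + V i ^ 2) = 1) ∧
      O S F l (fun i => y i - 1) w ∧
      O S F l (fun i => y i - (1 - U i + U i * U i - (1 / 2 : ℝ) • (V i * V i)))
        fun i => w i ^ 3 := by
  have hw1 : ∀ᶠ i in F, w i * w i ≤ w i := by
    filter_upwards [hw0, hw.eventually (gt_mem_nhds one_pos)] with i a b
    exact mul_le_of_le_one_right a b.le
  set H : ι → A := fun i => (1 / 2 : ℝ) • (V i * V i) with hH
  have eH : ∀ i, V i ^ 2 = 2 * H i := fun i => by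
    simp only [hH, Algebra.smul_def]
    linear_combination (-(V i * V i)) * half_two (A := A)
  have oH : O S F l H fun i => w i * w i := (hV.mul hV).smul _
  have oB : O S F l (fun i => U i * U i - H i) fun i => w i * w i := (hU.mul hU).sub oH
  have oB' : O S F l (fun i => U i * U i + 2 * H i) fun i => w i * w i := (hU.mul hU).add (two oH)
  have ot : O S F l (fun i => 2 * U i + (U i * U i + 2 * H i)) w := (two hU).add (oB'.wt hw1)
  have oa : O S F l (fun i => -U i + (U i * U i - H i)) w := hU.neg.add (oB.wt hw1)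
  have of1 : O S F l (fun i => ((1 + U i) ^ 2 + V i ^ 2) - 1) w :=
    ot.congr' fun i => by rw [eH]; ring
  obtain ⟨y1, y2⟩ := of1.isq hw hl
  set y : ι → A := fun i => S.isq ((1 + U i) ^ 2 + V i ^ 2)
  refine ⟨y, y1.mono fun i h => h.1, y2, ?_⟩
  have oE : O S F l (fun i => U i * (2 * (U i * U i - H i) - 2 * (U i * U i + 2 * H i)) +
      (U i * U i - H i) * ((U i * U i - H i) + 2 * (U i * U i + 2 * H i)) +
      (-U i + (U i * U i - H i)) * (-U i + (U i * U i - H i)) *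
        (2 * U i + (U i * U i + 2 * H i))) fun i => w i ^ 3 :=
    (((hU.mul ((two oB).sub (two oB'))).wt' fun i => by ring).add
      ((oB.mul ((oB.add (two oB')).wt hw1)).wt' fun i => by ring)).add
      (((oa.mul oa).mul ot).wt' fun i => by ring)
  have n1 : Nr S F l w y fun _ => 1 := ⟨hw, y2, O.one⟩
  have n2 : Nr S F l w (fun i => 1 - U i + U i * U i - H i) fun _ => 1 :=
    ⟨hw, oa.congr' fun i => by ring, O.one⟩
  have n3 : Nr S F l w (fun i => (1 + U i) ^ 2 + V i ^ 2) fun _ => 1 := ⟨hw, of1, O.one⟩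
  have n4 := (((n1.add n2).mul n3).smul (1 / 2)).congr (fun _ => rfl) (g' := fun _ => 1) fun i => by
    simp only [Algebra.smul_def]
    linear_combination half_two (A := A)
  obtain ⟨i1, i2⟩ := n4.inv1 hl
  refine (((oE.mul1 i2.bd').smul (1 / 2)).neg).congr ?_
  filter_upwards [i1, y1] with i i1 y1
  have y1' : y i * y i * ((1 + U i) ^ 2 + V i ^ 2) = 1 := y1.1
  generalize Ring.inverse ((1 / 2 : ℝ) • ((y i + (1 - U i + U i * U i - H i)) *
    ((1 + U i) ^ 2 + V i ^ 2))) = W at i1 ⊢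
  rw [eH] at i1 y1'
  change _ = y i - (1 - U i + U i * U i - H i)
  simp only [Algebra.smul_def] at i1 ⊢
  linear_combination (y i - (1 - U i + U i * U i - H i)) * i1 -
    (algebraMap ℝ A (1 / 2) * W) * y1'

end Calc

/-! ### functions of the family parameter -/

def cinv (φ : C(I01, ℝ)) (h : ∀ y, φ y ≠ 0) : C(I01, ℝ) :=
  ⟨fun y => (φ y)⁻¹, φ.continuous.inv₀ h⟩

def csq (φ : C(I01, ℝ)) : C(I01, ℝ) := ⟨fun y => √(φ y), φ.continuous.sqrt⟩

variable {A : Type} [CommRing A] [Algebra ℝ A] (M : Mdl A)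

theorem cY_inv (φ : C(I01, ℝ)) (h : ∀ y, φ y ≠ 0) : M.cY φ * M.cY (cinv φ h) = 1 := by
  rw [← map_mul, ← map_one M.cY]
  congr 1
  ext y
  exact mul_inv_cancel₀ (h y)

theorem cY_le (s : ℝ) {φ : C(I01, ℝ)} {k : ℝ} (h : ∀ y, |φ y| ≤ k) : M.S.Bd s (M.cY φ) k :=
  Scale.le (M.cY_bd s φ) ((ContinuousMap.norm_le _ ((abs_nonneg _).trans (h ⟨0, by simp⟩))).2 h)

theorem root {φ : C(I01, ℝ)} (hφ : ∀ y, 0 < φ y) {f : A} {k : ℝ} (k0 : 0 ≤ k)
    (hk : ∀ y, φ y ≤ k ^ 2)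
    (h : M.S.Bd 1 (f * M.cY (cinv φ fun y => (hφ y).ne') - 1) (1 / 10)) :
    ∃ a ai, a * a = f ∧ a * ai = 1 ∧ M.S.Bd 1 a (2 * k) ∧ ∀ y z, 0 ≤ M.ev y z a := by
  obtain ⟨u, u1, u2⟩ := Scale.exists_isq one_pos h le_rfl
  have e1 := cY_inv M φ fun y => (hφ y).ne'
  have e2 := cY_inv M (csq φ) fun y => (Real.sqrt_pos.2 (hφ y)).ne'
  have e3 : M.cY (csq φ) * M.cY (csq φ) = M.cY φ := by
    rw [← map_mul]
    congr 1
    ext y
    exact Real.mul_self_sqrt (hφ y).le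
  have b1 : M.S.Bd 1 (M.cY (csq φ)) k := cY_le M 1 fun y => by
    rw [abs_of_nonneg (show 0 ≤ csq φ y from Real.sqrt_nonneg _)]
    exact Real.sqrt_le_iff.2 ⟨k0, hk y⟩
  set t := f * M.cY (cinv φ fun y => (hφ y).ne') with ht
  refine ⟨M.cY (csq φ) * (t * u), M.cY (cinv (csq φ) fun y => (Real.sqrt_pos.2 (hφ y)).ne') * u,
    ?_, ?_, ?_, fun y z => ?_⟩
  · linear_combination (t * u) ^ 2 * e3 + (M.cY φ * t) * u1 + M.cY φ * ht + f * e1
  · linear_combination (u * u * t) * e2 + u1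
  · exact Scale.le (M.S.mul b1 (M.S.mul (Scale.of_sub_one h) (Scale.of_sub_one u2))) (by nlinarith)
  · have a1 := abs_le.1 (M.ev_near h y z)
    have a2 := abs_le.1 (M.ev_near u2 y z)
    rw [map_one] at a1 a2
    rw [map_mul, map_mul, M.cY_ev]
    exact mul_nonneg (Real.sqrt_nonneg _) (mul_nonneg (by linarith) (by linarith))

theorem near_root {ι : Type} {F : Filter ι} {φ : ι → C(I01, ℝ)} (hφ : ∀ i y, 0 < φ i y)
    {f : ι → A} {w w' η : ι → ℝ} (hη : Tendsto η F (𝓝 0))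
    (h : O M.S F (fun _ => 1) (fun i => f i - M.cY (φ i)) w) (hw : ∀ i y, (φ i y)⁻¹ ≤ w' i)
    {K : ℝ} (hK : 0 ≤ K) (he : ∀ i, w i * w' i ≤ K * η i) :
    ∀ᶠ i in F, M.S.Bd 1 (f i * M.cY (cinv (φ i) fun y => (hφ i y).ne') - 1) (1 / 10) := by
  have b : O M.S F (fun _ => 1) (fun i => M.cY (cinv (φ i) fun y => (hφ i y).ne')) w' :=
    O.of_bd (.of_forall fun i => cY_le M 1 fun y => by
      rw [abs_of_pos (show 0 < cinv (φ i) (fun y => (hφ i y).ne') y from inv_pos.2 (hφ i y))]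
      exact hw i y)
  exact (((h.mul b).wtC hK (.of_forall he)).congr' fun i => by
    linear_combination -cY_inv M (φ i) fun y => (hφ i y).ne').small hη (by norm_num)

/-- admissible parameters -/
structure Idx where
  c : Cfg
  F : Fam
  ok : c.Ok
  ep : c.ep ≤ c.et ^ 3
  fam : F.Ok c.lam c.et

theorem Idx.ga_le (i : Idx) (y : I01) : i.F.ga y ≤ 1 := by
  nlinarith [i.fam.lo y, i.fam.ga y, sq_nonneg i.c.et]

/-- the unperturbed secular frequency -/
def Idx.nu (i : Idx) : C(I01, ℝ) :=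
  (3 / 8 : ℝ) • ((2 : ℝ) • i.c.lam • (i.F.g * cinv i.F.ga (fun y => (i.fam.ga y).ne') ^ 3) -
    (1 - i.c.lam) • (((5 : ℝ) • 1 - (3 : ℝ) • i.F.g ^ 2) *
      cinv i.F.ga (fun y => (i.fam.ga y).ne') ^ 4))

theorem Idx.nu_eq (i : Idx) (y : I01) : i.nu y = i.F.nf i.c.lam y 0 := by
  simp [Idx.nu, Fam.nf, nu0, cinv, div_eq_mul_inv]
  ring

end ActM

open ActM

theorem act : ActStmt := by
  intro A _ _ M
  let η : Idx → ℝ := fun i => i.c.et
  let F : Filter Idx := comap η (𝓝 0)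
  have hη : Tendsto η F (𝓝 0) := tendsto_comap
  have η0 : ∀ i, 0 < η i := fun i => i.ok.et
  have hη3 : Tendsto (fun i => η i ^ 3) F (𝓝 0) := by simpa using hη.pow 3
  have η1 : ∀ᶠ i in F, η i ≤ 1 / 10 :=
    (hη.eventually (gt_mem_nhds (by norm_num : (0 : ℝ) < 1 / 10))).mono fun _ h => h.le
  have η3 : ∀ᶠ i in F, η i ^ 3 ≤ η i := η1.mono fun i h => by
    have := η0 i
    nlinarith [mul_pos this this]
  have hl : ∀ᶠ _i in F, (0 : ℝ) < 1 := .of_forall fun _ => one_pos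
  have op : ∀ k, O M.S F (fun _ => 1) (fun _ => M.par k) fun _ => 1 := fun k =>
    O.of_an ⟨_, M.par_bd 1 k⟩ (.of_forall fun _ => le_rfl)
  have ox : ∀ k, O M.S F (fun _ => 1) (fun _ => M.x k) fun _ => 1 := fun k =>
    O.of_an ⟨_, M.ext.bx k⟩ (.of_forall fun _ => le_rfl)
  have aep : ∀ᶠ i in F, |i.c.ep| ≤ η i ^ 3 := .of_forall fun i => by
    rw [abs_of_pos i.ok.ep]; exact i.ep
  have aep3 : ∀ᶠ i in F, |i.c.ep ^ 3| ≤ η i ^ 3 := by
    filter_upwards [η1, η3] with i h h3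
    rw [abs_of_pos (pow_pos i.ok.ep 3)]
    exact pow_le_pow_left₀ i.ok.ep.le (i.ep.trans h3) 3
  have ar0 : ∀ᶠ i in F, |i.c.r0| ≤ η i ^ 3 := .of_forall fun i => (abs_of_pos i.ok.r0).le
  have al1 : ∀ᶠ i in F, |i.c.lam| ≤ 1 := .of_forall fun i => by
    rw [abs_of_pos i.ok.lam]; exact i.ok.lam1.le
  have al2 : ∀ᶠ i in F, |1 - i.c.lam| ≤ 1 := .of_forall fun i => by
    rw [abs_of_pos (sub_pos.2 i.ok.lam1)]; linarith [i.ok.lam]
  have nI : Nr M.S F (fun _ => 1) (fun i => η i ^ 3) (fun i => eI M i.c) fun _ => 1 :=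
    ⟨hη3, ((vsmul1 aep (op 1)).add (vsmul1 ar0 (ox 0))).congr' fun i => by unfold eI; ring, O.one⟩
  have nL0 : Nr M.S F (fun _ => 1) (fun i => η i ^ 3) (fun i => eL0 M i.c) fun _ => 1 :=
    ⟨hη3, (vsmul1 aep (op 2)).congr' fun i => by unfold eL0; ring, O.one⟩
  have nL : Nr M.S F (fun _ => 1) (fun i => η i ^ 3) (fun i => eL M i.c) fun _ => 1 :=
    ⟨hη3, (nL0.near.add (vsmul1 aep3 (ox 1))).congr' fun i => by unfold eL; ring, O.one⟩
  have nG : Nr M.S F (fun _ => 1) η (fun i => eG M i.c i.F) fun i => M.cY i.F.g :=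
    ⟨hη, ((vsmul1 (.of_forall fun i => i.fam.v1) (op 3)).add
      ((vsmul1 ar0 (vsmul2 al1 (ox 2))).wt η3)).congr' fun i => by
        unfold eG eG0; rw [smul_smul]; ring,
      O.of_bd (.of_forall fun i => cY_le M 1 fun y => (i.fam.g y).trans (by norm_num))⟩
  have ng : Nr M.S F (fun _ => 1) (fun i => η i ^ 3) (fun i => eg M i.c i.F)
      fun i => M.cY i.F.ga :=
    ⟨hη3, ((vsmul1 (.of_forall fun i => i.fam.v2) (op 3)).sub
      (vsmul1 ar0 (vsmul2 al2 (ox 2)))).congr' fun i => by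
        unfold eg eg0; rw [smul_smul]; ring,
      O.of_bd (.of_forall fun i => cY_le M 1 fun y => by
        rw [abs_of_pos (i.fam.ga y)]; exact i.ga_le y)⟩
  have nga : Nr M.S F (fun _ => 1) η (fun i => M.cY i.F.ga) fun _ => 1 :=
    ⟨hη, O.of_bd (η1.mono fun i h => Scale.cong (cY_le M 1 (φ := i.F.ga - 1) fun y => by
      have h1 := i.fam.hi y
      have h2 := i.fam.ga y
      have h3 := i.ga_le y
      have h4 := η0 i
      rw [ContinuousMap.sub_apply, ContinuousMap.one_apply, abs_of_nonpos (by linarith)]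
      change _ ≤ 4 * η i ^ 2 at h1
      nlinarith) (by simp)), O.one⟩
  have ng1 : Nr M.S F (fun _ => 1) η (fun i => eg M i.c i.F) fun _ => 1 :=
    ⟨hη, ((ng.near.wt η3).add nga.near).congr' fun i => by ring, O.one⟩
  obtain ⟨iI, nIi⟩ := nI.inv1 hl
  obtain ⟨iL0, nL0i⟩ := nL0.inv1 hl
  obtain ⟨iL, nLi⟩ := nL.inv1 hl
  obtain ⟨ig, ngi1⟩ := ng1.inv1 hl
  have ngi : Nr M.S F (fun _ => 1) η (fun i => Ring.inverse (eg M i.c i.F))
      fun i => M.cY (cinv i.F.ga fun y => (i.fam.ga y).ne') := by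
    obtain ⟨-, b⟩ := nga.inv1 hl
    have b' := b.congr (fun i => inverse_eq (cY_inv M i.F.ga fun y => (i.fam.ga y).ne')) fun _ => rfl
    exact ⟨hη, (ngi1.near.sub b'.near).congr' fun i => by ring, b'.bd'⟩
  have nI' := nI.wt hη η3
  have nLi' := nLi.wt hη η3
  -- the secular frequency
  let en : Idx → A := fun i => (3 / 8 : ℝ) • (eI M i.c * Ring.inverse (eL M i.c) ^ 3 *
    ((2 * i.c.lam) • (eG M i.c i.F * Ring.inverse (eg M i.c i.F) ^ 3) -
    (1 - i.c.lam) • ((5 * eI M i.c ^ 2 - 3 * eG M i.c i.F ^ 2) * Ring.inverse (eg M i.c i.F) ^ 4)))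
  have nen : Nr M.S F (fun _ => 1) η en fun i => M.cY i.nu :=
    (((nI'.mul (nLi'.mul (nLi'.mul nLi'))).mul
      ((((nG.mul (ngi.mul (ngi.mul ngi))).vsmul al1).smul 2).sub
        (((((nI'.mul nI').smul 5).sub ((nG.mul nG).smul 3)).mul
          (ngi.mul (ngi.mul (ngi.mul ngi)))).vsmul al2))).smul (3 / 8)).congr
      (fun i => by
        simp only [en, Algebra.smul_def, map_mul, map_ofNat]; ring)
      fun i => by
        simp only [Idx.nu, map_smul, map_sub, map_mul, map_pow, map_one]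
        simp only [Algebra.smul_def]; ring
  have nz : ∀ (i : Idx) y, i.nu y ≠ 0 := fun i y h => by
    have := i.fam.nz y
    rw [← i.nu_eq, h] at this
    norm_num at this
  have bnu : O M.S F (fun _ => 1) (fun i => M.cY (cinv i.nu (nz i))) fun _ => 1 :=
    O.of_bdC (C := 100) (.of_forall fun i => cY_le M 1 fun y => by
      have := i.fam.nz y
      rw [← i.nu_eq] at this
      change |(i.nu y)⁻¹| ≤ _
      rw [abs_inv, mul_one]
      exact inv_le_of_inv_le₀ (by norm_num) (by simpa using this)) (.of_forall fun _ => zero_le_one)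
  obtain ⟨inu, nnu⟩ := nen.near.inv hη hl (.of_forall fun i => cY_inv M i.nu (nz i)) bnu
  -- the three roots
  have pa : ∀ (i : Idx) y, 0 < ((1 / 2 : ℝ) • (1 + i.F.g)) y := fun i y => by
    have := abs_le.1 (i.fam.g y)
    simp only [ContinuousMap.smul_apply, ContinuousMap.add_apply, ContinuousMap.one_apply,
      smul_eq_mul]
    linarith
  have pb : ∀ (i : Idx) y, 0 < ((1 / 2 : ℝ) • (1 - i.F.g)) y := fun i y => by
    have := abs_le.1 (i.fam.g y)
    simp only [ContinuousMap.smul_apply, ContinuousMap.sub_apply, ContinuousMap.one_apply,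
      smul_eq_mul]
    linarith
  have pe : ∀ (i : Idx) y, 0 < (1 - i.F.ga * i.F.ga) y := fun i y => by
    have := i.fam.lo y
    have := pow_pos (η0 i) 2
    simp only [ContinuousMap.sub_apply, ContinuousMap.one_apply, ContinuousMap.mul_apply]
    change 0 < i.c.et ^ 2 at this
    linarith
  have ra := near_root M pa hη (f := fun i => (1 / 2 : ℝ) • (eI M i.c + eG M i.c i.F))
    (w' := fun _ => 8) (((nI'.add nG).smul (1 / 2)).near.congr' fun i => by simp)
    (fun i y => inv_le_of_inv_le₀ (by norm_num) (by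
      have := abs_le.1 (i.fam.g y)
      simp only [ContinuousMap.smul_apply, ContinuousMap.add_apply, ContinuousMap.one_apply,
        smul_eq_mul]
      linarith)) (K := 8) (by norm_num) fun i => (mul_comm _ _).le
  have rb := near_root M pb hη (f := fun i => (1 / 2 : ℝ) • (eI M i.c - eG M i.c i.F))
    (w' := fun _ => 8) (((nI'.sub nG).smul (1 / 2)).near.congr' fun i => by simp)
    (fun i y => inv_le_of_inv_le₀ (by norm_num) (by
      have := abs_le.1 (i.fam.g y)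
      simp only [ContinuousMap.smul_apply, ContinuousMap.sub_apply, ContinuousMap.one_apply,
        smul_eq_mul]
      linarith)) (K := 8) (by norm_num) fun i => (mul_comm _ _).le
  have re := near_root M pe hη
    (f := fun i => 1 - (eg M i.c i.F * Ring.inverse (eL M i.c)) ^ 2) (w' := fun i => (η i ^ 2)⁻¹)
    (((ng.mul nLi).mul (ng.mul nLi)).near.neg.congr' fun i => by simp; ring)
    (fun i y => inv_anti₀ (pow_pos (η0 i) 2) (by
      have := i.fam.lo y
      simp only [ContinuousMap.sub_apply, ContinuousMap.one_apply, ContinuousMap.mul_apply]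
      change η i ^ 2 ≤ _ at this
      linarith)) (K := 1) zero_le_one fun i => by
      have := η0 i
      exact le_of_eq (by field_simp)
  have p0 : ∀ᶠ i in F, 0 ≤ η i := .of_forall fun i => (η0 i).le
  have p1 : ∀ᶠ _i in F, (0 : ℝ) ≤ 1 := .of_forall fun _ => zero_le_one
  obtain ⟨C, hC, c1, c2, c3, c4, c5, c6, c7, c8, c9, c10⟩ := ((eventually_ge_atTop (4 : ℝ)).and
    ((evb nI'.near p0).and ((evb (nIi.near.wt η3) p0).and ((evb (nL0.near.wt η3) p0).and
    ((evb (nL0i.near.wt η3) p0).and ((evb (nL.near.wt η3) p0).and ((evb nLi'.near p0).and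
    ((evb ng1.near p0).and ((evb ngi1.near p0).and ((evb nG.bd' p1).and
    (evb (nnu.near hη bnu) p1))))))))))).exists
  have key : ∀ᶠ i in F, ∃ t, IsAct M i.c i.F C t := by
    filter_upwards [iI, iL0, iL, ig, inu, ra, rb, re, c1, c2, c3, c4, c5, c6, c7, c8, c9, c10]
      with i iI iL0 iL ig inu ra rb re c1 c2 c3 c4 c5 c6 c7 c8 c9 c10
    have hg := fun y => abs_le.1 (i.fam.g y)
    obtain ⟨a, ai, a1, a2, a3, a4⟩ := root M (pa i) zero_le_one (fun y => by
      simp only [ContinuousMap.smul_apply, ContinuousMap.add_apply, ContinuousMap.one_apply,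
        smul_eq_mul]
      linarith [(hg y).2]) ra
    obtain ⟨b, bi, b1, b2, b3, b4⟩ := root M (pb i) zero_le_one (fun y => by
      simp only [ContinuousMap.smul_apply, ContinuousMap.sub_apply, ContinuousMap.one_apply,
        smul_eq_mul]
      linarith [(hg y).1]) rb
    obtain ⟨e, ei, e1, e2, e3, e4⟩ := root M (pe i) (k := 2 * η i) (by linarith [η0 i]) (fun y => by
      have := i.fam.hi y
      simp only [ContinuousMap.sub_apply, ContinuousMap.one_apply, ContinuousMap.mul_apply]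
      change _ ≤ 4 * η i ^ 2 at this
      linarith) re
    refine ⟨⟨Ring.inverse (eI M i.c), Ring.inverse (eL0 M i.c), Ring.inverse (eL M i.c),
      Ring.inverse (eg M i.c i.F), a, ai, b, bi, e, ei, Ring.inverse (en i)⟩, iI, iL0, iL, ig, ?_, a2,
      ?_, b2, e1, e2, inu, ?_, ?_, fun y z => ⟨a4 y z, b4 y z, e4 y z⟩⟩
    · rw [a1, Algebra.smul_def]
      linear_combination (eI M i.c + eG M i.c i.F) * half_two (A := A)
    · rw [b1, Algebra.smul_def]
      linear_combination (eI M i.c - eG M i.c i.F) * half_two (A := A)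
    · simp only [List.forall_mem_cons, List.not_mem_nil, IsEmpty.forall_iff, implies_true, and_true]
      exact ⟨c1, c2, c3, c4, c5, c6, c7, c8,
        Scale.le e3 (by change _ ≤ C * η i; nlinarith [η0 i])⟩
    · simp only [List.forall_mem_cons, List.not_mem_nil, IsEmpty.forall_iff, implies_true, and_true]
      rw [mul_one] at c9 c10
      exact ⟨c9, Scale.le a3 (by linarith), Scale.le b3 (by linarith), c10⟩
  obtain ⟨η0, h0, H⟩ := ev_comap key
  exact ⟨C, η0, by linarith, h0, fun c F' ok h1 h2 h3 =>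
    H ⟨c, F', ok, h2, h3⟩ (by rwa [abs_of_pos ok.et])⟩

theorem quad : QuadStmt := by
  intro A _ _ S C0
  let ι : Type := {q : Cfg × Ph A // q.1.Ok ∧ S.Bd 1 q.2.z1 C0 ∧ S.Bd 1 q.2.z2 C0 ∧
    S.Bd 1 q.2.Ri C0 ∧ q.2.R * q.2.Ri = 1}
  let ε : ι → ℝ := fun i => i.1.1.ep
  let F : Filter ι := comap ε (𝓝 0)
  have hε : Tendsto ε F (𝓝 0) := tendsto_comap
  have hw : Tendsto (fun i => ε i ^ 4) F (𝓝 0) := by simpa using hε.pow 4
  have hw0 : ∀ᶠ i in F, 0 ≤ ε i ^ 4 := .of_forall fun i => by positivity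
  have hl : ∀ᶠ _i in F, (0 : ℝ) < 1 := .of_forall fun _ => one_pos
  have p1 : ∀ᶠ _i in F, (0 : ℝ) ≤ 1 := .of_forall fun _ => zero_le_one
  have o1 : O S F (fun _ => 1) (fun i => i.1.2.z1) fun _ => 1 :=
    O.of_bdC (C := C0) (.of_forall fun i => by simpa using i.2.2.1) p1
  have o2 : O S F (fun _ => 1) (fun i => i.1.2.z2) fun _ => 1 :=
    O.of_bdC (C := C0) (.of_forall fun i => by simpa using i.2.2.2.1) p1
  have oR : O S F (fun _ => 1) (fun i => i.1.2.Ri) fun _ => 1 :=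
    O.of_bdC (C := C0) (.of_forall fun i => by simpa using i.2.2.2.2.1) p1
  have ou : O S F (fun _ => 1) (fun i => i.1.2.X1 * i.1.2.Ri) fun _ => 1 :=
    ((o1.mul1 o1).sub (o2.mul1 o2)).mul1 oR
  have ov : O S F (fun _ => 1) (fun i => i.1.2.X2 * i.1.2.Ri) fun _ => 1 :=
    (two (o1.mul1 o2)).mul1 oR
  have a1 : ∀ᶠ i : ι in F, |i.1.1.s1| ≤ 1 := .of_forall fun i => by
    rw [abs_of_pos i.2.1.s1]; exact i.2.1.s1le
  have a2 : ∀ᶠ i : ι in F, |i.1.1.s2| ≤ 1 := .of_forall fun i => by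
    rw [abs_of_pos i.2.1.s2]; exact i.2.1.s2le
  have ad : ∀ᶠ i : ι in F, |i.1.1.dl| ≤ ε i ^ 4 := .of_forall fun i => (abs_of_pos i.2.1.dl).le
  obtain ⟨y1, e1, n1, x1⟩ := expand hw hw0 hl (vsmul2 a2 (vsmul1 ad ou)) (vsmul2 a2 (vsmul1 ad ov))
  obtain ⟨y2, e2, n2, x2⟩ := expand hw hw0 hl (vsmul2 a1 (vsmul1 ad ou)).neg
    (vsmul2 a1 (vsmul1 ad ov)).neg
  obtain ⟨C, c0, hC⟩ := ((vsmul2 a1 (oR.mul1' x1)).add (vsmul2 a2 (oR.mul1' x2))).neg
  have key : ∀ᶠ i : ι in F, ∃ y1 y2 : A, S.Bd 1 (y1 - 1) (1 / 2) ∧ S.Bd 1 (y2 - 1) (1 / 2) ∧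
      Ph.Rel i.1.1 { i.1.2 with Y1 := i.1.2.Ri * y1, Y2 := i.1.2.Ri * y2 } ∧
      S.Bd 1 (i.1.2.Ri - i.1.1.s1 • (i.1.2.Ri * y1) - i.1.1.s2 • (i.1.2.Ri * y2) +
        (i.1.1.dl ^ 2 * (i.1.1.s1 * i.1.1.s2) / 4) • i.1.2.quad) (C * i.1.1.ep ^ 12) := by
    filter_upwards [e1, e2, n1.small hw one_half_pos, n2.small hw one_half_pos, hC]
      with i f1 f2 m1 m2 hB
    have hR := i.2.2.2.2.2
    have hs := i.2.1.sum
    refine ⟨y1 i, y2 i, m1, m2, ⟨hR, ?_, ?_⟩,
      Scale.le (Scale.cong hB ?_) (le_of_eq (by simp only [ε]; ring))⟩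
    all_goals
      generalize y1 i = y at f1 ⊢
      generalize y2 i = y' at f2 ⊢
      generalize i.1.1 = c at f1 f2 hs ⊢
      generalize i.1.2 = p at f1 f2 hR ⊢
    · simp only [Ph.a1, Ph.b1, Ph.X1, Ph.X2, Algebra.smul_def, map_mul] at f1 ⊢
      linear_combination f1 + (y * y * (p.R * p.Ri + 1 + 2 * algebraMap ℝ A c.s2 *
        algebraMap ℝ A c.dl * (p.z1 * p.z1 - p.z2 * p.z2) * p.Ri)) * hR
    · simp only [Ph.a2, Ph.b2, Ph.X1, Ph.X2, Algebra.smul_def, map_mul] at f2 ⊢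
      linear_combination f2 + (y' * y' * (p.R * p.Ri + 1 - 2 * algebraMap ℝ A c.s1 *
        algebraMap ℝ A c.dl * (p.z1 * p.z1 - p.z2 * p.z2) * p.Ri)) * hR
    · have e4 : c.dl ^ 2 * (c.s1 * c.s2) / 4 = c.dl * c.dl * (c.s1 * c.s2) * (1 / 2 * (1 / 2)) := by
        ring
      have e5 : c.s2 = 1 - c.s1 := by linarith
      simp only [e4, Ph.quad, Algebra.smul_def, map_mul]
      simp only [e5, map_sub, map_one]
      have hh := half_two (A := A)
      generalize algebraMap ℝ A (1 / 2) = h at hh ⊢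
      linear_combination (-(algebraMap ℝ A c.s1 * (1 - algebraMap ℝ A c.s1) *
        algebraMap ℝ A c.dl ^ 2 * p.Ri ^ 3 * ((2 * h + 1) * p.X1 ^ 2 - h * p.X2 ^ 2))) * hh
  obtain ⟨ε0, h0, H⟩ := ev_comap key
  exact ⟨C, ε0, c0, h0, fun c p ok h1 h2 h3 h4 h5 =>
    H ⟨(c, p), ok, h2, h3, h4, h5⟩ (by rwa [abs_of_pos ok.ep])⟩

end Pool.Agent.MP_1ba41f_an.K4

end
end MrgPart0

-- ======== part 1: formerly Pool.Agent.MP_1ba41f_an.K4.Can
section MrgPart1

/-! PROJECT LUNAR, row CAN: canonical brackets, Hamilton equations, means over the inner angle. -/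

noncomputable section
open Finset

namespace Pool.Agent.MP_1ba41f_an.K4
open K3

namespace Can

variable {A : Type} [CommRing A] [Algebra ℝ A]

theorem two_half : (2 : A) * algebraMap ℝ A (1 / 2) = 1 := by
  rw [show (2 : A) = algebraMap ℝ A 2 from (map_ofNat _ 2).symm, ← map_mul]; norm_num

theorem alg_quarter : algebraMap ℝ A (1 / 4) = algebraMap ℝ A (1 / 2) ^ 2 := by
  rw [← map_pow]; norm_num

theorem alg_eighth : algebraMap ℝ A (1 / 8) = algebraMap ℝ A (1 / 2) ^ 3 := by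
  rw [← map_pow]; norm_num

theorem alg_neg_half : algebraMap ℝ A (-1 / 2) = -algebraMap ℝ A (1 / 2) := by
  rw [← map_neg]; norm_num

theorem alg_div_two (x : ℝ) : algebraMap ℝ A (x / 2) = algebraMap ℝ A x * algebraMap ℝ A (1 / 2) := by
  rw [← map_mul]; congr 1; ring

theorem der_two (δ : Derivation ℝ A A) : δ 2 = 0 := by
  rw [show (2 : A) = algebraMap ℝ A 2 from (map_ofNat _ 2).symm]; exact δ.map_algebraMap 2

theorem der_two_mul (δ : Derivation ℝ A A) (f : A) : δ (2 * f) = 2 * δ f := by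
  rw [Derivation.leibniz, der_two]; simp

theorem der_sq (δ : Derivation ℝ A A) (f : A) : δ (f ^ 2) = 2 * (f * δ f) := by
  rw [pow_two, Derivation.leibniz]; simp only [smul_eq_mul]; ring

/-- derivative of a square root -/
theorem der_root (δ : Derivation ℝ A A) {a ai J : A} (h : 2 * (a * a) = J) (hi : a * ai = 1) :
    δ a = ai * algebraMap ℝ A (1 / 2) ^ 2 * δ J := by
  have h1 := congrArg δ h
  rw [der_two_mul, Derivation.leibniz] at h1
  simp only [smul_eq_mul] at h1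
  have h2 := two_half (A := A)
  set q := algebraMap ℝ A (1 / 2)
  linear_combination (ai * q ^ 2) * h1 - (4 * q ^ 2 * δ a) * hi - (δ a * (2 * q + 1)) * h2

/-! ### the canonical brackets -/

section Pair

variable (S : Scale A V6) (al : V6 → A) (a b : A)

/-- the gradient of `F` in terms of the gradients of the two angles and the two amplitudes -/
def Gr (F Ja Jb Fa Fb : A) : Prop := ∀ i, S.D i F =
  a * Ja * ((if i = th 0 then 1 else 0) + al i) + b * Jb * (al i - if i = th 0 then 1 else 0) +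
    Fa * S.D i a + Fb * S.D i b

variable {S al a b} {w : Fin 3 → ℝ} {κ ρ0 ρ2 : ℝ} {ai bi : A}

theorem pair (h0 : w 0 * ρ0 = κ / 2) (h2 : w 2 * ρ2 = κ / 2) (hai : a * ai = 1) (hbi : b * bi = 1)
    (al0 : al (th 0) = 0) (al0' : al (ac 0) = 0) (al2 : al (th 2) = 1)
    (Da : ∀ i, S.D i a = ai * algebraMap ℝ A (1 / 2) ^ 2 *
      ((if i = ac 0 then algebraMap ℝ A ρ0 else 0) + if i = ac 2 then algebraMap ℝ A ρ2 else 0))
    (Db : ∀ i, S.D i b = bi * algebraMap ℝ A (1 / 2) ^ 2 *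
      ((if i = ac 0 then algebraMap ℝ A ρ0 else 0) - if i = ac 2 then algebraMap ℝ A ρ2 else 0))
    {F Ja Jb Fa Fb F' Ja' Jb' Fa' Fb' : A} (h : Gr S al a b F Ja Jb Fa Fb)
    (h' : Gr S al a b F' Ja' Jb' Fa' Fb') :
    br S w F F' = algebraMap ℝ A κ * algebraMap ℝ A (1 / 2) ^ 2 *
      (Ja * Fa' - Ja' * Fa - Jb * Fb' + Jb' * Fb) := by
  have e0 := congrArg (algebraMap ℝ A) h0
  have e2 := congrArg (algebraMap ℝ A) h2
  rw [map_mul, alg_div_two] at e0 e2
  have hq := two_half (A := A)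
  rw [br_def, Fin.sum_univ_three]
  simp only [h _, h' _, Da, Db, al0, al0', al2, Algebra.smul_def, th, ac, Sum.inl.injEq,
    Sum.inr.injEq, reduceCtorEq, if_true, if_false, Fin.reduceEq] at *
  set q := algebraMap ℝ A (1 / 2)
  set K := algebraMap ℝ A κ
  set W0 := algebraMap ℝ A (w 0)
  set W2 := algebraMap ℝ A (w 2)
  set r0 := algebraMap ℝ A ρ0
  set r2 := algebraMap ℝ A ρ2
  linear_combination
    (q ^ 2 * ((a * Ja - b * Jb) * (Fa' * ai + Fb' * bi) - (a * Ja' - b * Jb') * (Fa * ai + Fb * bi))) * e0 +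
    (q ^ 2 * ((a * Ja + b * Jb) * (Fa' * ai - Fb' * bi) - (a * Ja' + b * Jb') * (Fa * ai - Fb * bi))) * e2 +
    (2 * K * q ^ 3 * (Ja * Fa' - Ja' * Fa)) * hai - (2 * K * q ^ 3 * (Jb * Fb' - Jb' * Fb)) * hbi +
    (K * q ^ 2 * (Ja * Fa' - Ja' * Fa - Jb * Fb' + Jb' * Fb)) * hq

theorem pairR (al0 : al (th 0) = 0) (al0' : al (ac 0) = 0)
    (Da : ∀ i, S.D i a = ai * algebraMap ℝ A (1 / 2) ^ 2 *
      ((if i = ac 0 then algebraMap ℝ A ρ0 else 0) + if i = ac 2 then algebraMap ℝ A ρ2 else 0))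
    (Db : ∀ i, S.D i b = bi * algebraMap ℝ A (1 / 2) ^ 2 *
      ((if i = ac 0 then algebraMap ℝ A ρ0 else 0) - if i = ac 2 then algebraMap ℝ A ρ2 else 0))
    {F Ja Jb Fa Fb R : A} (h : Gr S al a b F Ja Jb Fa Fb)
    (hR : S.D (th 0) R = 0 ∧ S.D (ac 0) R = 0 ∧ S.D (th 2) R = 0)
    (haR : brv w al (fun i => S.D i R) = 0) : br S w F R = 0 := by
  obtain ⟨r1, r2, r3⟩ := hR
  rw [brv, Fin.sum_univ_three] at haR
  rw [br_def, Fin.sum_univ_three]
  simp only [h _, Da, Db, al0, al0', r1, r2, r3, Algebra.smul_def, th, ac, Sum.inl.injEq,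
    Sum.inr.injEq, reduceCtorEq, if_true, if_false, Fin.reduceEq] at *
  linear_combination (a * Ja + b * Jb) * haR

end Pair

end Can

open Can in
theorem can : CanStmt := by
  intro A _ _ S w κ ρ0 ρ2 I G a ai b bi c0 s0 Li g gi Y1 Y2 o h0 h2 DI DG ha hai hb hbi hcs Dc Ds ho
  have Da : ∀ i, S.D i a = ai * algebraMap ℝ A (1 / 2) ^ 2 *
      ((if i = ac 0 then algebraMap ℝ A ρ0 else 0) + if i = ac 2 then algebraMap ℝ A ρ2 else 0) :=
    fun i => by rw [der_root _ ha hai, map_add, DI, DG]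
  have Db : ∀ i, S.D i b = bi * algebraMap ℝ A (1 / 2) ^ 2 *
      ((if i = ac 0 then algebraMap ℝ A ρ0 else 0) - if i = ac 2 then algebraMap ℝ A ρ2 else 0) :=
    fun i => by rw [der_root _ hb hbi, map_sub, DI, DG]
  set p := mkPh a b c0 s0 o Y1 Y2 with hp
  have g1 : Gr S o.al a b p.z1 (-(o.U2 * c0 + o.U1 * s0)) (-(o.U2 * c0 - o.U1 * s0))
      (o.U1 * c0 - o.U2 * s0) (o.U1 * c0 + o.U2 * s0) := fun i => by
    simp only [hp, mkPh, map_add, map_sub, Derivation.leibniz, smul_eq_mul, Dc, Ds, ho.DU1, ho.DU2]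
    split_ifs <;> ring
  have g2 : Gr S o.al a b p.z2 (o.U1 * c0 - o.U2 * s0) (o.U1 * c0 + o.U2 * s0)
      (o.U2 * c0 + o.U1 * s0) (o.U2 * c0 - o.U1 * s0) := fun i => by
    simp only [hp, mkPh, map_add, map_sub, Derivation.leibniz, smul_eq_mul, Dc, Ds, ho.DU1, ho.DU2]
    split_ifs <;> ring
  have g3 : Gr S o.al a b p.w1 (-(2 * (o.U1 * c0 - o.U2 * s0))) (2 * (o.U1 * c0 + o.U2 * s0))
      (-(2 * (o.U2 * c0 + o.U1 * s0))) (2 * (o.U2 * c0 - o.U1 * s0)) := fun i => by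
    simp only [hp, mkPh, map_add, map_sub, map_neg, der_two, Derivation.leibniz, smul_eq_mul, Dc,
      Ds, ho.DU1, ho.DU2]
    split_ifs <;> ring
  have g4 : Gr S o.al a b p.w2 (-(2 * (o.U2 * c0 + o.U1 * s0))) (2 * (o.U2 * c0 - o.U1 * s0))
      (2 * (o.U1 * c0 - o.U2 * s0)) (-(2 * (o.U1 * c0 + o.U2 * s0))) := fun i => by
    simp only [hp, mkPh, map_add, map_sub, der_two, Derivation.leibniz, smul_eq_mul, Dc,
      Ds, ho.DU1, ho.DU2]
    split_ifs <;> ring
  have P := fun {F Ja Jb Fa Fb F' Ja' Jb' Fa' Fb' : A} (h : Gr S o.al a b F Ja Jb Fa Fb)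
    (h' : Gr S o.al a b F' Ja' Jb' Fa' Fb') => pair h0 h2 hai hbi ho.al0 ho.al0' ho.al2 Da Db h h'
  have PR := fun {F Ja Jb Fa Fb : A} (h : Gr S o.al a b F Ja Jb Fa Fb) =>
    pairR (w := w) ho.al0 ho.al0' Da Db h ho.DR ho.aR
  have PP := fun {F Ja Jb Fa Fb : A} (h : Gr S o.al a b F Ja Jb Fa Fb) =>
    pairR (w := w) ho.al0 ho.al0' Da Db h ho.DP ho.aP
  have hq := two_half (A := A)
  have hU := ho.UU
  have hself : ∀ f : A, br S w f f = 0 := fun f => by
    rw [br_def]; exact sum_eq_zero fun j _ => by rw [mul_comm, sub_self, smul_zero]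
  have h13 : br S w p.z1 p.w1 = algebraMap ℝ A κ := by
    rw [P g1 g3]
    set q := algebraMap ℝ A (1 / 2)
    set K := algebraMap ℝ A κ
    linear_combination (4 * K * q ^ 2 * (c0 * c0 + s0 * s0)) * hU + (4 * K * q ^ 2) * hcs +
      (K * (2 * q + 1)) * hq
  have h24 : br S w p.z2 p.w2 = algebraMap ℝ A κ := by
    rw [P g2 g4]
    set q := algebraMap ℝ A (1 / 2)
    set K := algebraMap ℝ A κ
    linear_combination (4 * K * q ^ 2 * (c0 * c0 + s0 * s0)) * hU + (4 * K * q ^ 2) * hcs +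
      (K * (2 * q + 1)) * hq
  have h12 : br S w p.z1 p.z2 = 0 := by rw [P g1 g2]; ring
  have h14 : br S w p.z1 p.w2 = 0 := by rw [P g1 g4]; ring
  have h23 : br S w p.z2 p.w1 = 0 := by rw [P g2 g3]; ring
  have h34 : br S w p.w1 p.w2 = 0 := by rw [P g3 g4]; ring
  have h15 : br S w p.z1 p.R = 0 := PR g1
  have h25 : br S w p.z2 p.R = 0 := PR g2
  have h35 : br S w p.w1 p.R = 0 := PR g3
  have h45 : br S w p.w2 p.R = 0 := PR g4
  have h16 : br S w p.z1 p.P = 0 := PP g1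
  have h26 : br S w p.z2 p.P = 0 := PP g2
  have h36 : br S w p.w1 p.P = 0 := PP g3
  have h46 : br S w p.w2 p.P = 0 := PP g4
  have h56 : br S w p.R p.P = 1 := ho.RP
  have anti := fun {f g c : A} (h : br S w f g = c) => (br_anti g f).trans (congrArg Neg.neg h)
  have h31 := anti h13
  have h42 := anti h24
  have h21 := anti h12
  have h41 := anti h14
  have h32 := anti h23
  have h43 := anti h34
  have h51 := anti h15
  have h52 := anti h25
  have h53 := anti h35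
  have h54 := anti h45
  have h61 := anti h16
  have h62 := anti h26
  have h63 := anti h36
  have h64 := anti h46
  have h65 := anti h56
  intro i j
  clear_value p
  fin_cases i <;> fin_cases j <;>
    simp [Ph.co, Jm, hself, h12, h13, h14, h15, h16, h21, h23, h24, h25, h26, h31, h32, h34, h35,
      h36, h41, h42, h43, h45, h46, h51, h52, h53, h54, h56, h61, h62, h63, h64, h65]

namespace Can

variable {A : Type} [CommRing A] [Algebra ℝ A]

/-- the differential of the Hamiltonian -/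
theorem der_KK (δ : Derivation ℝ A A) (c : Cfg) {cc hs : A} (p : Ph A) (hk : c.ka ≠ 0)
    (hc : δ cc = 0) (hh : δ hs = 0) (hp : p.Rel c) :
    δ (p.KK c cc hs) = algebraMap ℝ A c.ka⁻¹ * (p.XX c cc hs 0 * δ p.w1 + p.XX c cc hs 1 * δ p.w2 -
      p.XX c cc hs 2 * δ p.z1 - p.XX c cc hs 3 * δ p.z2) + p.XX c cc hs 4 * δ p.P -
      p.XX c cc hs 5 * δ p.R := by
  have hK : algebraMap ℝ A c.ka * algebraMap ℝ A c.ka⁻¹ = 1 := by
    rw [← map_mul, mul_inv_cancel₀ hk, map_one]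
  have hq := two_half (A := A)
  have e1 := der_inv δ hp.R
  have e2 := der_isq δ hp.Y1
  have e3 := der_isq δ hp.Y2
  have h2 : algebraMap ℝ A 2 = 2 := map_ofNat _ 2
  simp only [Ph.XX, Matrix.cons_val_zero, Matrix.cons_val_one, Matrix.cons_val]
  simp only [Ph.KK, Ph.UU, Ph.gam, Ph.r, Ph.Om, Ph.T1, Ph.T2, Ph.a1, Ph.a2, Ph.b1, Ph.b2, Ph.X1,
    Ph.X2, map_add, map_sub, map_neg, Derivation.map_smul, der_sq, der_two, Derivation.leibniz,
    Derivation.map_one_eq_zero, smul_eq_mul, hc, hh, e1] at e2 e3 ⊢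
  simp only [e2, e3, Algebra.smul_def, alg_quarter, alg_eighth, alg_neg_half, alg_div_two c.n,
    map_mul, h2]
  generalize algebraMap ℝ A (1 / 2) = q at *
  generalize algebraMap ℝ A c.ka⁻¹ = k at *
  generalize algebraMap ℝ A c.ka = K at *
  generalize algebraMap ℝ A c.n = N
  generalize algebraMap ℝ A c.s1 = s1
  generalize algebraMap ℝ A c.s2 = s2
  generalize algebraMap ℝ A c.dl = dl
  generalize δ p.z1 = dz1
  generalize δ p.z2 = dz2
  generalize δ p.w1 = dw1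
  generalize δ p.w2 = dw2
  generalize δ p.R = dR
  generalize δ p.P = dP
  clear e1 e2 e3 h2 hc hh
  grind

end Can

open Can in
theorem hameq : HameqStmt := by
  intro A _ _ S w c cc hs p hk hc hh hp hC i
  have hK : algebraMap ℝ A c.ka⁻¹ * algebraMap ℝ A c.ka = 1 := by
    rw [← map_mul, inv_mul_cancel₀ hk, map_one]
  have e := der_KK (brD S w (p.co i)) c p hk (by rw [brD_apply, br_cst_right _ hc])
    (by rw [brD_apply, br_cst_right _ hh]) hp
  have h0 := hC i 0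
  have h1 := hC i 1
  have h2 := hC i 2
  have h3 := hC i 3
  have h4 := hC i 4
  have h5 := hC i 5
  simp only [brD_apply] at e
  change br S w _ p.z1 = _ at h0
  change br S w _ p.z2 = _ at h1
  change br S w _ p.w1 = _ at h2
  change br S w _ p.w2 = _ at h3
  change br S w _ p.R = _ at h4
  change br S w _ p.P = _ at h5
  rw [e, h0, h1, h2, h3, h4, h5]
  have hX : ∀ x : A, algebraMap ℝ A c.ka⁻¹ * (x * algebraMap ℝ A c.ka) = x := fun x => by
    rw [mul_comm x, ← mul_assoc, hK, one_mul]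
  fin_cases i <;> simp [Jm, hX]

namespace Can

variable {A : Type} [CommRing A] [Algebra ℝ A] {δ : Derivation ℝ A A}

/-- `f` has a primitive -/
def Prim (δ : Derivation ℝ A A) (f : A) : Prop := ∃ q, δ q = f

theorem Prim.add {f g : A} (h : Prim δ f) (h' : Prim δ g) : Prim δ (f + g) :=
  let ⟨q, e⟩ := h; let ⟨q', e'⟩ := h'; ⟨q + q', by rw [map_add, e, e']⟩

theorem Prim.mul {f k : A} (hk : δ k = 0) (h : Prim δ f) : Prim δ (k * f) :=
  let ⟨q, e⟩ := h; ⟨k * q, by rw [Derivation.leibniz, e, hk]; simp⟩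

theorem Prim.of_mul {f g : A} {n : ℕ} (hn : n ≠ 0) (h : δ g = n * f) : Prim δ f := by
  refine ⟨(n : ℝ)⁻¹ • g, ?_⟩
  have hn' : (n : ℝ) ≠ 0 := by exact_mod_cast hn
  rw [Derivation.map_smul, h, ← nsmul_eq_mul, ← Nat.cast_smul_eq_nsmul ℝ, smul_smul,
    inv_mul_cancel₀ hn', one_smul]

/-- the elements killed by a derivation -/
def kerAlg (δ : Derivation ℝ A A) : Subalgebra ℝ A where
  carrier := {f | δ f = 0}
  add_mem' {a b} ha hb := by
    simp only [Set.mem_ofPred_eq] at *; rw [map_add, ha, hb, add_zero]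
  mul_mem' {a b} ha hb := by
    simp only [Set.mem_ofPred_eq] at *; rw [Derivation.leibniz, ha, hb]; simp
  algebraMap_mem' r := δ.map_algebraMap r

theorem prim_trig {c s : A} (hc : δ c = -s) (hs : δ s = c) {C2 S2 C4 S4 C6 S6 : A}
    (e1 : C2 = c * c - s * s) (e2 : S2 = 2 * (c * s)) (e3 : C4 = C2 * C2 - S2 * S2)
    (e4 : S4 = 2 * (C2 * S2)) (e5 : C6 = C4 * C2 - S4 * S2) (e6 : S6 = S4 * C2 + C4 * S2) :
    Prim δ C2 ∧ Prim δ S2 ∧ Prim δ C4 ∧ Prim δ S4 ∧ Prim δ C6 ∧ Prim δ S6 := by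
  have d1 : δ C2 = -(2 * S2) := by
    rw [e1, e2]; simp only [map_sub, Derivation.leibniz, smul_eq_mul, hc, hs]; ring
  have d2 : δ S2 = 2 * C2 := by
    rw [e1, e2]; simp only [der_two, Derivation.leibniz, smul_eq_mul, hc, hs]; ring
  have d3 : δ C4 = -(4 * S4) := by
    rw [e3, e4]; simp only [map_sub, Derivation.leibniz, smul_eq_mul, d1, d2]; ring
  have d4 : δ S4 = 4 * C4 := by
    rw [e3, e4]; simp only [der_two, Derivation.leibniz, smul_eq_mul, d1, d2]; ring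
  have d5 : δ C6 = -(6 * S6) := by
    rw [e5, e6]; simp only [map_sub, Derivation.leibniz, smul_eq_mul, d1, d2, d3, d4]; ring
  have d6 : δ S6 = 6 * C6 := by
    rw [e5, e6]; simp only [map_add, Derivation.leibniz, smul_eq_mul, d1, d2, d3, d4]; ring
  refine ⟨.of_mul (n := 2) (g := S2) (by norm_num) (by rw [d2]; norm_num),
    .of_mul (n := 2) (g := -C2) (by norm_num) (by rw [map_neg, d1]; norm_num),
    .of_mul (n := 4) (g := S4) (by norm_num) (by rw [d4]; norm_num),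
    .of_mul (n := 4) (g := -C4) (by norm_num) (by rw [map_neg, d3]; norm_num),
    .of_mul (n := 6) (g := S6) (by norm_num) (by rw [d6]; norm_num),
    .of_mul (n := 6) (g := -C6) (by norm_num) (by rw [map_neg, d5]; norm_num)⟩

omit [Algebra ℝ A] in
/-- the expansion of the quadrupole term in harmonics of the inner angle -/
theorem expand (a b c s u v : A) (h : c * c + s * s = 1) {C2 S2 C4 S4 C6 S6 x y : A}
    (e1 : C2 = c * c - s * s) (e2 : S2 = 2 * (c * s)) (e3 : C4 = C2 * C2 - S2 * S2)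
    (e4 : S4 = 2 * (C2 * S2)) (e5 : C6 = C4 * C2 - S4 * S2) (e6 : S6 = S4 * C2 + C4 * S2)
    (hx : x = (a + b) * c) (hy : y = (a - b) * s) :
    2 * ((x * x + y * y) * ((x * x + y * y) ^ 2 +
      3 * (u * (x ^ 4 - 6 * (x ^ 2 * y ^ 2) + y ^ 4) - v * (4 * (x ^ 3 * y) - 4 * (x * y ^ 3))))) -
      ((a * a + b * b) * (5 * (a * a + b * b) ^ 2 - 3 * (a * a - b * b) ^ 2) +
        15 * ((a * a + b * b) * ((a * a + b * b) ^ 2 - (a * a - b * b) ^ 2)) * u) =
    (12 * (a * b) * (a * a + b * b) ^ 2 + 12 * (a * b) ^ 3 +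
        6 * u * (5 * a ^ 5 * b + 20 * (a * b) ^ 3 + 5 * a * b ^ 5)) * C2 +
      (-(6 * v * (5 * a ^ 5 * b - 5 * a * b ^ 5))) * S2 +
      (12 * (a * a + b * b) * (a * b) ^ 2 +
        6 * u * (a ^ 6 + 5 * a ^ 4 * b ^ 2 + 5 * a ^ 2 * b ^ 4 + b ^ 6)) * C4 +
      (-(6 * v * (a ^ 6 + 5 * a ^ 4 * b ^ 2 - 5 * a ^ 2 * b ^ 4 - b ^ 6))) * S4 +
      (4 * (a * b) ^ 3 + 6 * u * (a ^ 5 * b + a * b ^ 5)) * C6 +
      (-(6 * v * (a ^ 5 * b - a * b ^ 5))) * S6 := by
  have key : 2 * ((x * x + y * y) * ((x * x + y * y) ^ 2 +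
      3 * (u * (x ^ 4 - 6 * (x ^ 2 * y ^ 2) + y ^ 4) - v * (4 * (x ^ 3 * y) - 4 * (x * y ^ 3))))) -
      ((a * a + b * b) * (5 * (a * a + b * b) ^ 2 - 3 * (a * a - b * b) ^ 2) +
        15 * ((a * a + b * b) * ((a * a + b * b) ^ 2 - (a * a - b * b) ^ 2)) * u) *
          (c * c + s * s) ^ 3 =
    (12 * (a * b) * (a * a + b * b) ^ 2 + 12 * (a * b) ^ 3 +
        6 * u * (5 * a ^ 5 * b + 20 * (a * b) ^ 3 + 5 * a * b ^ 5)) * C2 * (c * c + s * s) ^ 2 +
      (-(6 * v * (5 * a ^ 5 * b - 5 * a * b ^ 5))) * S2 * (c * c + s * s) ^ 2 +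
      (12 * (a * a + b * b) * (a * b) ^ 2 +
        6 * u * (a ^ 6 + 5 * a ^ 4 * b ^ 2 + 5 * a ^ 2 * b ^ 4 + b ^ 6)) * C4 * (c * c + s * s) +
      (-(6 * v * (a ^ 6 + 5 * a ^ 4 * b ^ 2 - 5 * a ^ 2 * b ^ 4 - b ^ 6))) * S4 * (c * c + s * s) +
      (4 * (a * b) ^ 3 + 6 * u * (a ^ 5 * b + a * b ^ 5)) * C6 +
      (-(6 * v * (a ^ 5 * b - a * b ^ 5))) * S6 := by
    subst e5 e6 e3 e4 e1 e2 hx hy
    ring
  rw [h] at key
  simpa only [one_pow, mul_one] using key

end Can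

open Can in
theorem mean : MeanStmt := by
  intro A _ _ S w I G a b c0 s0 Li g gi Y1 Y2 o p hp ha hb Aa Ab hcs Dc Ds ho
  have hq := two_half (A := A)
  have hU := ho.UU
  have hI : I = a * a + b * b := by
    linear_combination (-algebraMap ℝ A (1 / 2)) * ha - algebraMap ℝ A (1 / 2) * hb +
      (a * a + b * b - I) * hq
  have hG : G = a * a - b * b := by
    linear_combination (-algebraMap ℝ A (1 / 2)) * ha + algebraMap ℝ A (1 / 2) * hb +
      (a * a - b * b - G) * hq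
  have hr0 : p.r = ((a + b) * c0) * ((a + b) * c0) + ((a - b) * s0) * ((a - b) * s0) := by
    rw [hp]; simp only [Ph.r, mkPh]
    linear_combination (((a + b) * c0) * ((a + b) * c0) + ((a - b) * s0) * ((a - b) * s0)) * hU
  have hr : p.r = I + 2 * (a * b) * (c0 * c0 - s0 * s0) := by
    rw [hr0, hI]; linear_combination (a * a + b * b) * hcs
  have hw : p.w1 * p.w1 + p.w2 * p.w2 = 4 * (I - 2 * (a * b) * (c0 * c0 - s0 * s0)) := by
    rw [hp, hI]; simp only [mkPh]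
    linear_combination (4 * (((a + b) * s0) ^ 2 + ((a - b) * c0) ^ 2)) * hU +
      (4 * (a * a + b * b)) * hcs
  have hz : p.z1 * p.w2 - p.z2 * p.w1 = 2 * G := by
    rw [hp, hG]; simp only [mkPh]
    linear_combination (2 * (a * a - b * b) * (c0 * c0 + s0 * s0)) * hU +
      (2 * (a * a - b * b)) * hcs
  have c0' : S.D (th 0) c0 = -s0 := by rw [Dc, if_pos rfl]
  have s0' : S.D (th 0) s0 = c0 := by rw [Ds, if_pos rfl]
  obtain ⟨p1, p2, p3, p4, p5, p6⟩ := prim_trig c0' s0' rfl rfl rfl rfl rfl rfl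
  have ka : a ∈ kerAlg (S.D (th 0)) := Aa 0
  have kb : b ∈ kerAlg (S.D (th 0)) := Ab 0
  have k1 : o.U1 ∈ kerAlg (S.D (th 0)) := by
    change S.D _ _ = 0; rw [ho.DU1, ho.al0]; simp
  have k2 : o.U2 ∈ kerAlg (S.D (th 0)) := by
    change S.D _ _ = 0; rw [ho.DU2, ho.al0]; simp
  have k3 : o.Ri ∈ kerAlg (S.D (th 0)) := by
    change S.D _ _ = 0; rw [der_inv _ ho.Ri, ho.DR.1]; simp
  refine ⟨hr, ?_, ?_, ?_, ?_, ?_⟩
  · rw [hw, hr, Algebra.smul_def, Algebra.smul_def, alg_eighth]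
    set q := algebraMap ℝ A (1 / 2)
    linear_combination (I + q * (2 * q + 1) * (I - 2 * (a * b) * (c0 * c0 - s0 * s0))) * hq
  · rw [hz, Algebra.smul_def]
    linear_combination G * hq
  · have c2 : S.D (th 2) c0 = 0 := by rw [Dc, if_neg (by simp)]
    have s2 : S.D (th 2) s0 = 0 := by rw [Ds, if_neg (by simp)]
    rw [hp]
    simp only [mkPh, map_add, map_sub, Derivation.leibniz, smul_eq_mul, c2, s2, ho.DU1, ho.DU2,
      ho.al2, Aa 2, Ab 2]
    constructor <;> ring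
  · have : Prim (S.D (th 0)) (2 * (a * b) * (c0 * c0 - s0 * s0)) :=
      p1.mul (show _ ∈ kerAlg (S.D (th 0)) from
        mul_mem (ofNat_mem _ 2) (mul_mem ka kb))
    rw [hr, add_sub_cancel_left]
    exact this
  · set v4 : A := 4 * (o.U1 ^ 3 * o.U2) - 4 * (o.U1 * o.U2 ^ 3) with hv
    have ku : o.u4 ∈ kerAlg (S.D (th 0)) := by
      unfold Out.u4
      exact add_mem (sub_mem (pow_mem k1 _) (mul_mem (ofNat_mem _ 6)
        (mul_mem (pow_mem k1 _) (pow_mem k2 _)))) (pow_mem k2 _)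
    have kv : v4 ∈ kerAlg (S.D (th 0)) :=
      sub_mem (mul_mem (ofNat_mem _ 4) (mul_mem (pow_mem k1 _) k2))
        (mul_mem (ofNat_mem _ 4) (mul_mem k1 (pow_mem k2 _)))
    have hquad : p.quad = o.Ri ^ 3 * (p.r ^ 2 + 3 * (o.u4 * (((a + b) * c0) ^ 4 -
        6 * (((a + b) * c0) ^ 2 * ((a - b) * s0) ^ 2) + ((a - b) * s0) ^ 4) -
        v4 * (4 * (((a + b) * c0) ^ 3 * ((a - b) * s0)) -
          4 * (((a + b) * c0) * ((a - b) * s0) ^ 3)))) := by
      rw [hp, hv]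
      simp only [Ph.quad, Ph.r, Ph.X1, Ph.X2, mkPh, Out.u4]
      generalize (a + b) * c0 = x
      generalize (a - b) * s0 = y
      ring
    have hE := expand a b c0 s0 o.u4 v4 hcs rfl rfl rfl rfl rfl rfl rfl rfl
    have hP := (((((p1.mul (k := 12 * (a * b) * (a * a + b * b) ^ 2 + 12 * (a * b) ^ 3 +
        6 * o.u4 * (5 * a ^ 5 * b + 20 * (a * b) ^ 3 + 5 * a * b ^ 5)) ?_).add
      (p2.mul (k := -(6 * v4 * (5 * a ^ 5 * b - 5 * a * b ^ 5))) ?_)).add
      (p3.mul (k := 12 * (a * a + b * b) * (a * b) ^ 2 +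
        6 * o.u4 * (a ^ 6 + 5 * a ^ 4 * b ^ 2 + 5 * a ^ 2 * b ^ 4 + b ^ 6)) ?_)).add
      (p4.mul (k := -(6 * v4 * (a ^ 6 + 5 * a ^ 4 * b ^ 2 - 5 * a ^ 2 * b ^ 4 - b ^ 6))) ?_)).add
      (p5.mul (k := 4 * (a * b) ^ 3 + 6 * o.u4 * (a ^ 5 * b + a * b ^ 5)) ?_)).add
      (p6.mul (k := -(6 * v4 * (a ^ 5 * b - a * b ^ 5))) ?_)
    · rw [← hE] at hP
      obtain ⟨q, e⟩ := hP.mul (k := o.Ri ^ 3) (show _ ∈ kerAlg (S.D (th 0)) from pow_mem k3 3)
      refine ⟨q, e.trans ?_⟩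
      rw [hquad, hr0, hI, hG]
      ring
    all_goals
      change _ ∈ kerAlg (S.D (th 0))
      clear_value v4
      generalize o.u4 = u at ku ⊢
      repeat first
        | exact ka | exact kb | exact ku | exact kv | exact ofNat_mem _ _
        | apply neg_mem | apply add_mem | apply sub_mem | apply pow_mem | apply mul_mem

end Pool.Agent.MP_1ba41f_an.K4

end
end MrgPart1

-- ======== part 2: formerly Pool.Agent.MP_1ba41f_an.K4.Out
section MrgPart2

/-! PROJECT LUNAR: the outer Kepler motion in action-angle form. -/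

noncomputable section
open Finset

namespace Pool.Agent.MP_1ba41f_an.K4
open K3

namespace OutM
variable {A : Type} [CommRing A] [Algebra ℝ A]

theorem inv_nat (n : ℕ) [n.AtLeastTwo] :
    algebraMap ℝ A (OfNat.ofNat n : ℝ)⁻¹ * (OfNat.ofNat n : A) = 1 := by
  rw [← map_ofNat (algebraMap ℝ A) n, ← map_mul, inv_mul_cancel₀ (by simp), map_one]

theorem two_cancel {x : A} (h : 2 * x = 0) : x = 0 := by
  linear_combination algebraMap ℝ A (2 : ℝ)⁻¹ * h - x * inv_nat (A := A) 2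

theorem der_nat (δ : Derivation ℝ A A) (n : ℕ) [n.AtLeastTwo] : δ (OfNat.ofNat n : A) = 0 := by
  rw [← map_ofNat (algebraMap ℝ A) n]; exact δ.map_algebraMap _

/-- a point of the unit circle rotates under a derivation -/
theorem rot (δ : Derivation ℝ A A) {x y : A} (h : x * x + y * y = 1) :
    δ x = -(y * (x * δ y - y * δ x)) ∧ δ y = x * (x * δ y - y * δ x) := by
  have h1 := congrArg δ h
  simp only [map_add, Derivation.leibniz, δ.map_one_eq_zero, smul_eq_mul] at h1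
  have h2 : x * δ x + y * δ y = 0 := two_cancel (by linear_combination h1)
  exact ⟨by linear_combination x * h2 - δ x * h, by linear_combination y * h2 - δ y * h⟩

/-- the algebraic relations; `c, h` are the cosine and half the sine of the eccentric anomaly,
`V` is the exponential of half the true anomaly -/
structure Alg (L Li g gi e ei c h u V1 V2 : A) : Prop where
  hL : L * Li = 1
  hg : g * gi = 1
  he : e * ei = 1
  ee : e * e = 1 - (g * Li) ^ 2
  ch : c * c + 4 * (h * h) = 1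
  hu : u * (1 - e * c) = 1
  VV : V1 * V1 + V2 * V2 = 1
  W1 : V1 * V1 - V2 * V2 = u * (c - e)
  W2 : V1 * V2 = g * Li * u * h

/-- the derivative of the anomaly -/
structure Der (δ : Derivation ℝ A A) (d e c h u : A) : Prop where
  dc : δ c = -(4 * h * (u * (d + h * δ e)))
  dh : δ h = c * (u * (d + h * δ e))

section
variable {L Li g gi e ei c h u V1 V2 d : A} (H : Alg L Li g gi e ei c h u V1 V2)
  {δ : Derivation ℝ A A} (K : Der δ d e c h u)
include H

theorem Alg.dLi (δ : Derivation ℝ A A) : δ Li = -(Li * Li * δ L) := der_inv δ H.hL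

theorem Alg.de (δ : Derivation ℝ A A) :
    δ e = -(ei * (g * Li) * (Li * δ g - g * Li * Li * δ L)) := by
  have h1 := congrArg δ H.ee
  simp only [map_sub, pow_two, Derivation.leibniz, δ.map_one_eq_zero, smul_eq_mul, H.dLi δ] at h1
  have h2 : e * δ e + g * Li * (Li * δ g - g * Li * Li * δ L) = 0 :=
    two_cancel (by linear_combination h1)
  linear_combination ei * h2 - δ e * H.he

omit [Algebra ℝ A] in
theorem Alg.k2 : e * (u * (c - e)) = (g * Li) ^ 2 * u - 1 := by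
  linear_combination (-u) * H.ee - H.hu

include K

theorem Alg.du : δ u = u * u * (δ e * c - 4 * e * h * (u * (d + h * δ e))) := by
  have := der_inv δ (f := 1 - e * c) (g := u) (by linear_combination H.hu)
  simp only [map_sub, Derivation.leibniz, δ.map_one_eq_zero, smul_eq_mul, K.dc] at this
  linear_combination this

theorem Alg.phi : V1 * δ V2 - V2 * δ V1 = g * Li * u * u * (d + h * δ e) -
    h * u * ei * (Li * δ g - g * Li * Li * δ L) := by
  obtain ⟨r1, r2⟩ := rot δ H.VV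
  generalize V1 * δ V2 - V2 * δ V1 = φ at r1 r2
  have h1 := congrArg δ H.W1
  have h2 := congrArg δ H.W2
  simp only [map_sub, Derivation.leibniz, smul_eq_mul, K.dc, K.dh, r1, r2, H.dLi δ] at h1 h2
  have h3 := H.de δ
  have a1 := H.W1; have a2 := H.W2; have a3 := H.VV; have a4 := H.ch; have a5 := H.hu
  have a6 := H.he; have a7 := H.ee
  have e1 : φ = u * (c - e) * (V1 * (V1 * φ) + V2 * -(V2 * φ)) -
      g * Li * u * h * (V1 * -(V2 * φ) + V1 * -(V2 * φ) - (V2 * (V1 * φ) + V2 * (V1 * φ))) := by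
    rw [← a1, ← a2]; linear_combination (-φ * (V1 * V1 + V2 * V2 + 1)) * a3
  rw [h1, h2] at e1
  linear_combination e1 + (u ^ 3 * (g * Li) * (d + h * δ e)) * a4 +
    (g * Li * u * u * (d + h * δ e)) * a5 + (h * u * u * (g * Li)) * h3 +
    (h * u * (Li * δ g - g * Li * Li * δ L)) * (-(u * ei) * a7 + (u * e - u * c) * a6 - ei * a5)

theorem Alg.dR : δ (L * L * (1 - e * c)) = 2 * L * δ L * (1 - e * c) -
    L * L * δ e * (u * (c - e)) + 4 * L * L * e * h * u * d := by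
  simp only [map_sub, Derivation.leibniz, δ.map_one_eq_zero, smul_eq_mul, K.dc]
  linear_combination (L * L * δ e * c) * H.hu + (L * L * δ e * e * u) * H.ch

theorem Alg.dP : δ (2 * (e * h * u * Li)) =
    2 * Li * u ^ 3 * (δ e * h * (g * Li) ^ 2 + e * (c - e) * d) - 2 * e * h * u * Li * Li * δ L := by
  simp only [Derivation.leibniz, smul_eq_mul, K.dh, H.du K, H.dLi δ, der_nat δ 2]
  have a4 := H.ch; have a5 := H.hu; have a7 := H.ee
  generalize δ e = ε at *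
  generalize δ L = l at *
  grind

end

section Ids
omit [Algebra ℝ A]
variable {k e ei c h u : A}

theorem idRP (a6 : e * ei = 1) (a7 : e * e = 1 - k ^ 2) (a4 : c * c + 4 * (h * h) = 1)
    (a5 : u * (1 - e * c) = 1) : 4 * h * h * u * u * e * (ei * k ^ 4 * u * u - e) -
      (2 * (1 - e * c) - ei * k ^ 2 * u * (c - e)) * u ^ 3 * e * (c - e) = 1 := by
  grind

theorem idaR (a6 : e * ei = 1) (a7 : e * e = 1 - k ^ 2) (a4 : c * c + 4 * (h * h) = 1)
    (a5 : u * (1 - e * c) = 1) : k * u * u * (2 * (1 - e * c) - ei * k ^ 2 * u * (c - e)) -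
      k * ei * h * u * (k ^ 2 * u + 1) * (4 * e * h * u) + ei * k * u * (c - e) = 0 := by
  grind

theorem idaP (a6 : e * ei = 1) (a7 : e * e = 1 - k ^ 2) (a5 : u * (1 - e * c) = 1) :
    k * u * u * (h * u * (ei * k ^ 4 * u * u - e)) -
      k * ei * h * u * (k ^ 2 * u + 1) * (u ^ 3 * e * (c - e)) - ei * k ^ 3 * h * u ^ 3 = 0 := by
  grind

theorem idEn (a7 : e * e = 1 - k ^ 2) (a4 : c * c + 4 * (h * h) = 1) (a5 : u * (1 - e * c) = 1) :
    4 * (e * h * u) ^ 2 + (k * u) ^ 2 - 2 * u = -1 := by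
  grind

end Ids

/-- the outer motion built from the anomalies -/
def mkOut (S : Scale A V6) (L Li e c h u V1 V2 co si : A) : Out A where
  U1 := co * V1 + si * V2
  U2 := si * V1 - co * V2
  R := L * L * (1 - e * c)
  P := 2 * (e * h * u * Li)
  Ri := u * Li * Li
  cE := c
  al i := (if i = th 2 then 1 else 0) - (V1 * S.D i V2 - V2 * S.D i V1)

theorem half_eq {a b : ℝ} (h : a * b = 1 / 2) :
    2 * (algebraMap ℝ A a * algebraMap ℝ A b) = 1 := by
  rw [← map_mul, h, ← map_ofNat (algebraMap ℝ A) 2, ← map_mul]; norm_num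

theorem outAlg (S : Scale A V6) {w : Fin 3 → ℝ} {a1 a2 : ℝ}
    {L Li g gi e ei c h u V1 V2 co si : A} (hw1 : w 1 * a1 = 1 / 2) (hw2 : w 2 * a2 = 1 / 2)
    (DL : ∀ i, S.D i L = if i = ac 1 then algebraMap ℝ A a1 else 0)
    (Dg : ∀ i, S.D i g = if i = ac 2 then algebraMap ℝ A (-a2) else 0)
    (H : Alg L Li g gi e ei c h u V1 V2)
    (K : ∀ i, Der (S.D i) (if i = th 1 then 1 else 0) e c h u) (cs : co * co + si * si = 1)
    (Dco : ∀ i, S.D i co = if i = th 2 then -si else 0)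
    (Dsi : ∀ i, S.D i si = if i = th 2 then co else 0)
    (arg : ∃ a, S.D (th 1) a = V1 * S.D (th 1) V2 - V2 * S.D (th 1) V1 - u) :
    OutAlg S w Li g gi (mkOut S L Li e c h u V1 V2 co si) := by
  have a1' := H.hL; have a2' := H.hg; have a3 := H.VV; have a4 := H.ch; have a5 := H.hu
  have a6 := H.he; have a7 := H.ee
  have w1 := half_eq (A := A) hw1
  have w2 := half_eq (A := A) hw2
  -- the inert directions
  have inert : ∀ i, i ≠ th 1 → i ≠ ac 1 → i ≠ ac 2 → V1 * S.D i V2 - V2 * S.D i V1 = 0 ∧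
      S.D i (L * L * (1 - e * c)) = 0 ∧ S.D i (2 * (e * h * u * Li)) = 0 := fun i n1 n2 n3 => by
    have k := K i
    rw [if_neg n1] at k
    have l : S.D i L = 0 := by rw [DL, if_neg n2]
    have γ : S.D i g = 0 := by rw [Dg, if_neg n3]
    have ε : S.D i e = 0 := by rw [H.de, l, γ]; ring
    rw [H.phi k, H.dR k, H.dP k, l, γ, ε]
    exact ⟨by ring, by ring, by ring⟩
  obtain ⟨p0, r0, q0⟩ := inert (th 0) (by decide) (by decide) (by decide)
  obtain ⟨p0', r0', q0'⟩ := inert (ac 0) (by decide) (by decide) (by decide)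
  obtain ⟨p2, r2, q2⟩ := inert (th 2) (by decide) (by decide) (by decide)
  -- the mean anomaly
  have kt := K (th 1)
  rw [if_pos rfl] at kt
  have lt : S.D (th 1) L = 0 := by rw [DL, if_neg (by decide)]
  have gt : S.D (th 1) g = 0 := by rw [Dg, if_neg (by decide)]
  have et : S.D (th 1) e = 0 := by rw [H.de, lt, gt]; ring
  have Lit : S.D (th 1) Li = 0 := by rw [der_inv _ a1', lt]; ring
  have git : S.D (th 1) gi = 0 := by rw [der_inv _ a2', gt]; ring
  have pt : V1 * S.D (th 1) V2 - V2 * S.D (th 1) V1 = g * Li * u * u := by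
    rw [H.phi kt, lt, gt, et]; ring
  have rt : S.D (th 1) (L * L * (1 - e * c)) = 4 * L * L * e * h * u := by
    rw [H.dR kt, lt, et]; ring
  have qt : S.D (th 1) (2 * (e * h * u * Li)) = 2 * Li * u ^ 3 * (e * (c - e)) := by
    rw [H.dP kt, lt, et]; ring
  -- the first action
  have k1 := K (ac 1)
  rw [if_neg (by decide)] at k1
  have l1 : S.D (ac 1) L = algebraMap ℝ A a1 := by rw [DL, if_pos rfl]
  have g1 : S.D (ac 1) g = 0 := by rw [Dg, if_neg (by decide)]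
  generalize algebraMap ℝ A a1 = α at l1 w1
  have e1 : S.D (ac 1) e = ei * (g * Li) ^ 2 * Li * α := by rw [H.de, l1, g1]; ring
  have p1 : V1 * S.D (ac 1) V2 - V2 * S.D (ac 1) V1 =
      α * Li * (g * Li * ei * h * u * ((g * Li) ^ 2 * u + 1)) := by
    rw [H.phi k1, l1, g1, e1]; ring
  have r1 : S.D (ac 1) (L * L * (1 - e * c)) =
      α * L * (2 * (1 - e * c) - ei * (g * Li) ^ 2 * u * (c - e)) := by
    rw [H.dR k1, l1, e1]
    linear_combination (-(α * L * ei * (g * Li) ^ 2 * u * (c - e))) * a1'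
  have q1 : S.D (ac 1) (2 * (e * h * u * Li)) =
      2 * α * Li * Li * (h * u * (ei * (g * Li) ^ 4 * u * u - e)) := by
    rw [H.dP k1, l1, e1]; ring
  -- the second action
  have k2 := K (ac 2)
  rw [if_neg (by decide)] at k2
  have l2 : S.D (ac 2) L = 0 := by rw [DL, if_neg (by decide)]
  have g2 : S.D (ac 2) g = -algebraMap ℝ A a2 := by rw [Dg, if_pos rfl, map_neg]
  generalize algebraMap ℝ A a2 = β at g2 w2
  have e2 : S.D (ac 2) e = ei * (g * Li) * Li * β := by rw [H.de, l2, g2]; ring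
  have r2' : S.D (ac 2) (L * L * (1 - e * c)) = -(β * L * (ei * (g * Li) * u * (c - e))) := by
    rw [H.dR k2, l2, e2]
    linear_combination (-(β * L * ei * (g * Li) * u * (c - e))) * a1'
  have q2' : S.D (ac 2) (2 * (e * h * u * Li)) =
      2 * β * Li * Li * (ei * (g * Li) ^ 3 * h * u ^ 3) := by
    rw [H.dP k2, l2, e2]; ring
  have DU : ∀ i, S.D i (co * V1 + si * V2) = -((si * V1 - co * V2) *
      ((if i = th 2 then 1 else 0) - (V1 * S.D i V2 - V2 * S.D i V1))) ∧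
      S.D i (si * V1 - co * V2) = (co * V1 + si * V2) *
      ((if i = th 2 then 1 else 0) - (V1 * S.D i V2 - V2 * S.D i V1)) := fun i => by
    obtain ⟨b1, b2⟩ := rot (S.D i) a3
    generalize V1 * S.D i V2 - V2 * S.D i V1 = φ at b1 b2
    simp only [map_add, map_sub, Derivation.leibniz, smul_eq_mul, b1, b2, Dco, Dsi]
    split_ifs
    · exact ⟨by ring, by ring⟩
    · exact ⟨by ring, by ring⟩
  -- rotation along the mean anomaly
  obtain ⟨v1, v2⟩ := rot (S.D (th 1)) a3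
  obtain ⟨u1, u2⟩ := DU (th 1)
  rw [if_neg (by decide)] at u1 u2
  rw [pt] at v1 v2 u1 u2 arg
  have hRi : (u * Li * Li) ^ 3 = (Li * gi) ^ 3 * (1 + e * (V1 * V1 - V2 * V2)) *
      (g * Li * u * u) := by
    rw [H.W1, H.k2]
    linear_combination (-(u * Li * Li) ^ 3 * ((g * gi) ^ 2 + g * gi + 1)) * a2'
  refine ⟨?_, fun i => (DU i).1, fun i => (DU i).2, ?_, ?_, ?_, ⟨r0, r0', r2⟩, ⟨q0, q0', q2⟩,
    ?_, ?_, ?_, ?_, ?_, ?_, ?_⟩
  · simp only [mkOut]; linear_combination (V1 * V1 + V2 * V2) * cs + a3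
  · simp only [mkOut]; rw [p0, if_neg (by decide)]; ring
  · simp only [mkOut]; rw [p0', if_neg (by decide)]; ring
  · simp only [mkOut]; rw [p2]; simp
  · simp only [mkOut, br_def, Fin.sum_univ_three, r0, r0', r2, q0, q0', q2, rt, qt, r1, q1,
      Algebra.smul_def]
    linear_combination (2 * (algebraMap ℝ A (w 1) * α)) * idRP a6 a7 a4 a5 + w1 +
      (2 * (algebraMap ℝ A (w 1) * α) * ((L * Li + 1) *
        (4 * h * h * u * u * e * (ei * (g * Li) ^ 4 * u * u - e)) -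
        (2 * (1 - e * c) - ei * (g * Li) ^ 2 * u * (c - e)) * u ^ 3 * e * (c - e))) * a1'
  · simp only [mkOut, brv, Fin.sum_univ_three, r0, r0', r2, p0, p0', p2, rt, pt, r1, p1, r2',
      Algebra.smul_def]
    rw [if_neg (by decide), if_neg (by decide), if_neg (by decide), if_neg (by decide),
      if_pos trivial]
    apply two_cancel
    linear_combination (-L) * idaR a6 a7 a4 a5 -
      (L * (g * Li * u * u * (2 * (1 - e * c) - ei * (g * Li) ^ 2 * u * (c - e))) -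
        L * L * Li * (g * Li * ei * h * u * ((g * Li) ^ 2 * u + 1) * (4 * e * h * u))) * w1 -
      (L * (ei * (g * Li) * u * (c - e))) * w2 +
      (L * (g * Li * ei * h * u * ((g * Li) ^ 2 * u + 1) * (4 * e * h * u))) * a1'
  · simp only [mkOut, brv, Fin.sum_univ_three, q0, q0', q2, p0, p0', p2, qt, pt, q1, p1, q2',
      Algebra.smul_def]
    rw [if_neg (by decide), if_neg (by decide), if_neg (by decide), if_neg (by decide),
      if_pos trivial]
    linear_combination (-(Li * Li)) * idaP (h := h) a6 a7 a5 -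
      (Li * Li * (g * Li * u * u * (h * u * (ei * (g * Li) ^ 4 * u * u - e)) -
        g * Li * ei * h * u * ((g * Li) ^ 2 * u + 1) * (u ^ 3 * e * (c - e)))) * w1 +
      (Li * Li * (ei * (g * Li) ^ 3 * h * u ^ 3)) * w2
  · simp only [mkOut]
    linear_combination (u * (1 - e * c) * (L * Li + 1)) * a1' + a5
  · simp only [mkOut]
    linear_combination (Li * Li) * idEn a7 a4 a5
  · obtain ⟨a, ha⟩ := arg
    refine ⟨(Li * gi) ^ 3 * (a + e * h + e * (V1 * V2)), ?_⟩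
    simp only [mkOut, hRi, pow_succ, pow_zero, one_mul, map_add, Derivation.leibniz, smul_eq_mul,
      Lit, git, et, ha, kt.dh, v1, v2]
    linear_combination (-(Li * gi) ^ 3) * a5
  · simp only [mkOut, Out.u4, hRi]
    generalize co * V1 + si * V2 = U1 at u1 u2 ⊢
    generalize si * V1 - co * V2 = U2 at u1 u2 ⊢
    generalize g * Li * u * u = φ at u1 u2 v1 v2 ⊢
    refine ⟨-(algebraMap ℝ A (12 : ℝ)⁻¹ * ((Li * gi) ^ 3 *
      ((3 + 4 * e * (V1 * V1 - V2 * V2)) * (4 * (U1 ^ 3 * U2 - U1 * U2 ^ 3)) +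
        4 * e * (V1 * V2) * (U1 ^ 4 - 6 * (U1 ^ 2 * U2 ^ 2) + U2 ^ 4)))), ?_⟩
    simp only [pow_succ, pow_zero, one_mul, map_add, map_sub, map_neg, Derivation.leibniz,
      smul_eq_mul, Lit, git, et, v1, v2, u1, u2, der_nat _ 3, der_nat _ 4, der_nat _ 6,
      Derivation.map_algebraMap]
    linear_combination ((Li * gi) ^ 3 * (1 + e * (V1 * V1 - V2 * V2)) * φ *
      (U1 ^ 4 - 6 * (U1 ^ 2 * U2 ^ 2) + U2 ^ 4)) * inv_nat (A := A) 12

omit [Algebra ℝ A] in
/-- the relations for the half true anomaly -/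
theorem alg_of {L Li g gi e ei ch sh u y : A} (hL : L * Li = 1) (hg : g * gi = 1) (he : e * ei = 1)
    (ee : e * e = 1 - (g * Li) ^ 2) (cs : ch * ch + sh * sh = 1)
    (hu : u * (1 - e * (ch * ch - sh * sh)) = 1)
    (hy : y * y * ((1 + e) * (1 - e * (ch * ch - sh * sh))) = 1) :
    Alg L Li g gi e ei (ch * ch - sh * sh) (ch * sh) u (g * Li * y * ch) ((1 + e) * y * sh) := by
  have yu : y * y * (1 + e) = u := by linear_combination u * hy - (y * y * (1 + e)) * hu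
  refine ⟨hL, hg, he, ee, by linear_combination (ch * ch + sh * sh + 1) * cs, hu, ?_, ?_, ?_⟩
  · linear_combination (y * y * ch * ch) * ee + ((1 - e) * ch * ch + (1 + e) * sh * sh) * yu +
      u * cs + hu
  · linear_combination (y * y * ch * ch) * ee + ((1 - e) * ch * ch - (1 + e) * sh * sh) * yu -
      (u * e) * cs
  · linear_combination (g * Li * ch * sh) * yu

theorem der_of (δ : Derivation ℝ A A) {d e ch sh u : A}
    (h1 : δ ch = -(sh * (u * (d + ch * sh * δ e)))) (h2 : δ sh = ch * (u * (d + ch * sh * δ e))) :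
    Der δ d e (ch * ch - sh * sh) (ch * sh) u := by
  generalize hE : u * (d + ch * sh * δ e) = E at h1 h2
  refine ⟨?_, ?_⟩ <;>
    simp only [map_sub, Derivation.leibniz, smul_eq_mul, h1, h2, hE] <;> ring

/-- difference of two rotation angles -/
theorem arg_of (δ : Derivation ℝ A A) {V1 V2 ch sh E : A} (hV : V1 * V1 + V2 * V2 = 1)
    (cs : ch * ch + sh * sh = 1) (h1 : δ ch = -(sh * E)) (h2 : δ sh = ch * E) :
    (V1 * ch + V2 * sh) * δ (V2 * ch - V1 * sh) - (V2 * ch - V1 * sh) * δ (V1 * ch + V2 * sh) =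
      V1 * δ V2 - V2 * δ V1 - E := by
  obtain ⟨b1, b2⟩ := rot δ hV
  generalize V1 * δ V2 - V2 * δ V1 = φ at b1 b2
  simp only [map_add, map_sub, Derivation.leibniz, smul_eq_mul, b1, b2, h1, h2]
  linear_combination ((φ - E) * (ch * ch + sh * sh)) * hV + (φ - E) * cs

end OutM

open OutM in
theorem out : KepStmt → ArgStmt → OutStmt := by
  intro hK hA A _ _ M
  obtain ⟨C, cK, C0, cK0, hK⟩ := hK A M
  obtain ⟨cA, cA0, hA⟩ := hA A M
  obtain ⟨B, hB⟩ : ∃ B, B = 1 + C * C := ⟨_, rfl⟩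
  have CC : 0 ≤ C * C := mul_nonneg C0 C0
  have C3 : 0 ≤ C * C * C := mul_nonneg CC C0
  have B1 : 1 ≤ B := by linarith
  have B0 : 0 < B := by linarith
  obtain ⟨t, t0, t1, t2, t3⟩ : ∃ t, 0 < t ∧ t ≤ cK ∧ t * B ≤ 1 / 50 ∧ 20 * (t * B) * B ≤ cA := by
    refine ⟨min cK (min (1 / 50 / B) (cA / (20 * B * B))), by positivity, min_le_left _ _, ?_, ?_⟩
    · exact (le_div_iff₀ B0).1 ((min_le_right _ _).trans (min_le_left _ _))
    · have := (le_div_iff₀ (by positivity : 0 < 20 * B * B)).1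
        ((min_le_right cK _).trans (min_le_right (1 / 50 / B) (cA / (20 * B * B))))
      linarith
  have tB : t ≤ t * B := le_mul_of_one_le_right t0.le B1
  have tC : t * B = t + t * (C * C) := by rw [hB]; ring
  have tC0 : 0 ≤ t * (C * C) := mul_nonneg t0.le CC
  refine ⟨12 * C + 8 + 4 * (C * C * C), t, by positivity, t0, ?_⟩
  intro w a1 a2 L Li g gi e ei hw1 hw2 DL Dg hL hg he ee hb
  have bL := hb (L - 1) (by simp)
  have bLi := hb (Li - 1) (by simp)
  have bg := hb (g - 1) (by simp)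
  have be := hb e (by simp)
  obtain ⟨ch, sh, u, bch, bsh, bu, cs, hu, Dch, Dsh, v0, v1⟩ := hK e (Scale.le be t1)
  have bh := M.S.mul bch bsh
  have bec : M.S.Bd 1 (e * (ch * ch - sh * sh)) (2 * (t * (C * C))) :=
    Scale.le (M.S.mul be (Scale.sub (M.S.mul bch bch) (M.S.mul bsh bsh))) (le_of_eq (by ring))
  have bf : M.S.Bd 1 ((1 + e) * (1 - e * (ch * ch - sh * sh)) - 1) (4 * (t * B)) :=
    Scale.le (Scale.cong (Scale.sub (Scale.sub be bec) (M.S.mul be bec)) (by ring))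
      (by nlinarith)
  obtain ⟨y, hy, by1⟩ := Scale.exists_isq one_pos bf (by linarith)
  have by2 : M.S.Bd 1 y 2 := Scale.le (Scale.of_sub_one by1) (by linarith)
  have bk : M.S.Bd 1 (g * Li - 1) (3 * t) :=
    Scale.le (Scale.cong (M.S.add (M.S.add (M.S.mul bg bLi) bg) bLi) (by ring)) (by nlinarith)
  have bm : M.S.Bd 1 (g * Li * y - 1) (10 * (t * B)) :=
    Scale.le (Scale.cong (M.S.add (M.S.mul bk by2) by1) (by ring)) (by linarith)
  have bp : M.S.Bd 1 ((1 + e) * y - 1) (10 * (t * B)) :=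
    Scale.le (Scale.cong (M.S.add (M.S.mul be by2) by1) (by ring)) (by linarith)
  have H := alg_of hL hg he ee cs hu hy
  have key : 10 * (t * B) * (C * C) + 10 * (t * B) * (C * C) ≤ cA := by
    have : t * B * (C * C) ≤ t * B * B :=
      mul_le_mul_of_nonneg_left (by linarith) (by positivity)
    linarith
  obtain ⟨a, ha⟩ := hA (g * Li * y * ch * ch + (1 + e) * y * sh * sh)
    ((1 + e) * y * sh * ch - g * Li * y * ch * sh)
    (Scale.le (Scale.cong (M.S.add (M.S.mul bm (M.S.mul bch bch)) (M.S.mul bp (M.S.mul bsh bsh)))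
      (by linear_combination -cs)) key)
    (Scale.le (Scale.cong (Scale.sub (M.S.mul bp bh) (M.S.mul bm bh)) (by ring)) key)
    (by linear_combination (ch * ch + sh * sh) * H.VV + cs)
  have et : M.S.D (th 1) e = 0 := by
    rw [H.de, DL, Dg, if_neg (by decide), if_neg (by decide)]; ring
  have b1 : M.S.Bd 1 (g * Li * y * ch) (2 * C) :=
    M.S.mul (Scale.le (Scale.of_sub_one bm) (by linarith)) bch
  have b2 : M.S.Bd 1 ((1 + e) * y * sh) (2 * C) :=
    M.S.mul (Scale.le (Scale.of_sub_one bp) (by linarith)) bsh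
  have bL2 : M.S.Bd 1 L 2 := Scale.le (Scale.of_sub_one bL) (by linarith)
  have bLi2 : M.S.Bd 1 Li 2 := Scale.le (Scale.of_sub_one bLi) (by linarith)
  have bP := M.S.mul (M.S.mul (M.S.mul (Scale.le be (show t ≤ 1 by linarith)) bh) bu) bLi2
  have sq : ∀ y z, M.ev y z ch * M.ev y z ch + M.ev y z sh * M.ev y z sh = 1 := fun y z => by
    simpa using congrArg (M.ev y z) cs
  refine ⟨mkOut M.S L Li e (ch * ch - sh * sh) (ch * sh) u (g * Li * y * ch) ((1 + e) * y * sh)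
    (M.co 2) (M.si 2), outAlg M.S hw1 hw2 DL Dg H (fun i => der_of _ (Dch i) (Dsh i)) (M.cs 2)
      (fun i => M.Dco i 2) (fun i => M.Dsi i 2) ⟨a, ?_⟩, ?_, rfl, ?_, ?_, ?_⟩
  · rw [ha, arg_of _ H.VV cs (Dch _) (Dsh _), et, if_pos rfl]; ring
  · simp only [mkOut, List.forall_mem_cons, List.not_mem_nil, IsEmpty.forall_iff, implies_true,
      and_true]
    refine ⟨Scale.le (M.S.add (M.S.mul (M.co_bd 2) b1) (M.S.mul (M.si_bd 2) b2)) (by linarith),
      Scale.le (Scale.sub (M.S.mul (M.si_bd 2) b1) (M.S.mul (M.co_bd 2) b2)) (by linarith),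
      Scale.le (M.S.mul (M.S.mul bL2 bL2) (Scale.sub (M.S.one 1) bec)) (by linarith),
      Scale.le (Scale.cong (M.S.add bP bP) (by ring)) (by linarith),
      Scale.le (M.S.mul (M.S.mul bu bLi2) bLi2) (by linarith)⟩
  · intro y θ
    have := sq y (M.pt θ)
    simp only [mkOut, map_sub, map_mul]
    exact abs_le.2 ⟨by nlinarith [mul_self_nonneg (M.ev y (M.pt θ) ch)],
      by nlinarith [mul_self_nonneg (M.ev y (M.pt θ) sh)]⟩
  · intro y θ hθ
    have := sq y (M.pt θ)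
    simp only [mkOut, map_sub, map_mul]
    rw [v0 y θ hθ] at this ⊢
    linarith
  · intro y θ hθ
    have := sq y (M.pt θ)
    simp only [mkOut, map_sub, map_mul]
    rw [v1 y θ hθ] at this ⊢
    linarith

end Pool.Agent.MP_1ba41f_an.K4

end
end MrgPart2

-- ======== part 3: formerly Pool.Agent.MP_1ba41f_an.K4.Polar
section MrgPart3

/-! PROJECT LUNAR, module POLAR: the image of a torus that turns around the origin. -/

noncomputable section
open MeasureTheory Filter Topology Set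

namespace Pool.Agent.MP_1ba41f_an.K4
open K3

namespace Polar

/-- a differentiable logarithm along a curve -/
theorem exists_log {c c' : ℝ → ℂ} (h0 : ∀ s, c s ≠ 0) (hd : ∀ s, HasDerivAt c (c' s) s) :
    ∃ L : ℝ → ℂ, (∀ s, Complex.exp (L s) = c s) ∧ ∀ s, HasDerivAt L (c' s / c s) s := by
  have hc : Continuous c := continuous_iff_continuousAt.2 fun s => (hd s).continuousAt
  obtain ⟨L, ⟨-, hL⟩, -⟩ := Complex.isCoveringMapOn_exp.existsUnique_continuousMap_lifts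
    (⟨c, hc⟩ : C(ℝ, ℂ)) (a₀ := 0) (e₀ := Complex.log (c 0)) (Complex.exp_log (h0 0)) h0
  have hL' : ∀ s, Complex.exp (L s) = c s := fun s => congrFun hL s
  refine ⟨L, hL', fun s => ?_⟩
  have h1 : HasDerivAt (fun t => L s + Complex.log (c t / c s)) (c' s / c s) s := by
    have h2 := ((hd s).div_const (c s)).clog_real (by rw [div_self (h0 s)]; simp)
    rw [div_self (h0 s), div_one] at h2
    exact h2.const_add _
  refine h1.congr_of_eventuallyEq ?_
  have h3 : ∀ᶠ t in 𝓝 s, |(L t - L s).im| < Real.pi := by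
    have h4 : Continuous fun t => |(L t - L s).im| := by fun_prop
    exact (h4.tendsto s).eventually_lt_const (by simpa using Real.pi_pos)
  filter_upwards [h3] with t ht
  rw [← hL' t, ← hL' s, ← Complex.exp_sub, Complex.log_exp (abs_lt.1 ht).1 (abs_lt.1 ht).2.le]
  ring

/-- a closed curve turning at about unit speed meets every ray exactly once -/
theorem circ {c c' : ℝ → ℂ} (h0 : ∀ s, c s ≠ 0) (hd : ∀ s, HasDerivAt c (c' s) s)
    (hp : ∀ s, c (s + 2 * Real.pi) = c s) (hb : ∀ s, ‖c' s - Complex.I * c s‖ ≤ ‖c s‖ / 2)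
    {u : ℂ} (hu : ‖u‖ = 1) :
    (∃ s ∈ Icc 0 (2 * Real.pi), c s = ‖c s‖ * u) ∧
      ∀ s s', c s = ‖c s‖ * u → c s' = ‖c s'‖ * u → ∃ n : ℤ, s = s' + n * (2 * Real.pi) := by
  obtain ⟨L, hL, hL'⟩ := exists_log h0 hd
  have hpi := Real.pi_pos
  obtain ⟨α, hα⟩ : ∃ α : ℝ → ℝ, α = fun s => (L s).im := ⟨_, rfl⟩
  have dα : ∀ s, HasDerivAt α (c' s / c s).im s := fun s => by
    rw [hα]
    exact Complex.imCLM.hasFDerivAt.comp_hasDerivAt s (hL' s)
  have bα : ∀ s, |(c' s / c s).im - 1| ≤ 1 / 2 := fun s => by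
    have e : (c' s / c s).im - 1 = ((c' s - Complex.I * c s) / c s).im := by
      rw [sub_div, mul_div_assoc, div_self (h0 s)]; simp
    rw [e]
    refine (Complex.abs_im_le_norm _).trans ?_
    rw [norm_div, div_le_iff₀ (norm_pos_iff.2 (h0 s))]
    linarith [hb s]
  have dα' : Differentiable ℝ α := fun s => (dα s).differentiableAt
  have cα : Continuous α := dα'.continuous
  have mono : StrictMono α := strictMono_of_deriv_pos fun s => by
    rw [(dα s).deriv]; linarith [(abs_le.1 (bα s)).1]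
  have pol : ∀ s, c s = ‖c s‖ * Complex.exp (α s * Complex.I) := fun s => by
    rw [← hL s, Complex.norm_exp, Complex.ofReal_exp, ← Complex.exp_add, hα]
    simp
  have dir : ∀ s, c s = ‖c s‖ * u ↔ Complex.exp (α s * Complex.I) = u := fun s => by
    have h1 : (‖c s‖ : ℂ) ≠ 0 := by exact_mod_cast norm_ne_zero_iff.2 (h0 s)
    constructor
    · intro h
      exact mul_left_cancel₀ h1 ((pol s).symm.trans h)
    · intro h
      rw [← h]; exact pol s
  have int : ∀ a b : ℝ, Complex.exp (a * Complex.I) = Complex.exp (b * Complex.I) →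
      ∃ n : ℤ, a = b + n * (2 * Real.pi) := fun a b h => by
    obtain ⟨n, hn⟩ := Complex.exp_eq_exp_iff_exists_int.1 h
    refine ⟨n, ?_⟩
    simpa using congrArg Complex.im hn
  have per : ∀ s, α (s + 2 * Real.pi) = α s + 2 * Real.pi := fun s => by
    have h1 : (‖c s‖ : ℂ) ≠ 0 := by exact_mod_cast norm_ne_zero_iff.2 (h0 s)
    have h2 := pol (s + 2 * Real.pi)
    rw [hp s] at h2
    obtain ⟨n, hn⟩ := int _ _ (mul_left_cancel₀ h1 (h2.symm.trans (pol s)))
    obtain ⟨t, -, ht⟩ := exists_hasDerivAt_eq_slope α (fun s => (c' s / c s).im)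
      (show s < s + 2 * Real.pi by linarith) cα.continuousOn fun t _ => dα t
    have h3 := abs_le.1 (bα t)
    rw [ht, hn, add_sub_cancel_left, add_sub_cancel_left, mul_div_assoc,
      div_self (by positivity), mul_one] at h3
    have h4 : (0 : ℝ) < n := by linarith [h3.1]
    have h5 : (n : ℝ) < 2 := by linarith [h3.2]
    have h6 : n = 1 := by
      have : 0 < n := by exact_mod_cast h4
      have : n < 2 := by exact_mod_cast h5
      omega
    rw [hn, h6]; simp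
  have per' : ∀ (n : ℤ) s, α (s + n * (2 * Real.pi)) = α s + n * (2 * Real.pi) := fun n s => by
    have h1 : Function.Periodic (fun s => α s - s) (2 * Real.pi) := fun s => by
      simp only [per]; ring
    have h2 := h1.int_mul n s
    linarith
  constructor
  · have hp2 : (0 : ℝ) < 2 * Real.pi := by positivity
    have h1 := toIcoMod_mem_Ico hp2 (α 0) u.arg
    have h2 := per 0
    rw [zero_add] at h2
    obtain ⟨s, hs, hs'⟩ := intermediate_value_Icc hp2.le cα.continuousOn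
      (show toIcoMod hp2 (α 0) u.arg ∈ Icc (α 0) (α (2 * Real.pi)) from ⟨h1.1, h2 ▸ h1.2.le⟩)
    refine ⟨s, hs, (dir s).2 ?_⟩
    have h3 := Complex.norm_mul_exp_arg_mul_I u
    rw [hu, Complex.ofReal_one, one_mul] at h3
    rw [hs', ← h3]
    refine Complex.exp_eq_exp_iff_exists_int.2 ⟨-toIcoDiv hp2 (α 0) u.arg, ?_⟩
    rw [h3, toIcoMod]
    simp only [zsmul_eq_mul]
    push_cast
    ring
  · intro s s' h h'
    obtain ⟨n, hn⟩ := int _ _ (((dir s).1 h).trans ((dir s').1 h').symm)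
    exact ⟨n, mono.injective (by rw [per', hn])⟩

theorem per_int {X : Type} {G : (Fin 3 → ℝ) → X}
    (h : ∀ θ j, G (θ + Pi.single j (2 * Real.pi)) = G θ) (j : Fin 3) (n : ℤ) (θ : Fin 3 → ℝ) :
    G (θ + n • (Pi.single j (2 * Real.pi) : Fin 3 → ℝ)) = G θ :=
  Function.Periodic.zsmul (f := G) (fun x => h x j) n θ

theorem upd_int {X : Type} {G : (Fin 3 → ℝ) → X}
    (h : ∀ θ j, G (θ + Pi.single j (2 * Real.pi)) = G θ) (n : ℤ) (θ : Fin 3 → ℝ) (s : ℝ) :
    G (Function.update θ 2 (s + n * (2 * Real.pi))) = G (Function.update θ 2 s) := by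
  rw [← per_int h 2 n (Function.update θ 2 s)]
  congr 1
  funext j
  fin_cases j <;> simp

/-- the range of a periodic map is the image of a box -/
theorem range_eq {G : (Fin 3 → ℝ) → ℂ} (h : ∀ θ j, G (θ + Pi.single j (2 * Real.pi)) = G θ) :
    range G = G '' Icc 0 (fun _ => 2 * Real.pi) := by
  have hp : (0 : ℝ) < 2 * Real.pi := by positivity
  refine Subset.antisymm ?_ (image_subset_range _ _)
  rintro _ ⟨θ, rfl⟩
  refine ⟨fun j => toIcoMod hp 0 (θ j), ⟨fun j => (toIcoMod_mem_Ico' hp (θ j)).1,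
    fun j => (toIcoMod_mem_Ico' hp (θ j)).2.le⟩, ?_⟩
  have e : θ = (((fun j => toIcoMod hp 0 (θ j)) +
      toIcoDiv hp 0 (θ 0) • (Pi.single 0 (2 * Real.pi) : Fin 3 → ℝ)) +
      toIcoDiv hp 0 (θ 1) • (Pi.single 1 (2 * Real.pi) : Fin 3 → ℝ)) +
      toIcoDiv hp 0 (θ 2) • (Pi.single 2 (2 * Real.pi) : Fin 3 → ℝ) := by
    funext j
    fin_cases j <;> simp
  conv_rhs => rw [e]
  rw [per_int h, per_int h, per_int h]

/-- a function whose graph is cut out over a compact fibre is continuous -/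
theorem cont_of_graph {X S : Type} [TopologicalSpace X] [TopologicalSpace S] [CompactSpace S]
    {A : Set (X × S)} (hA : IsClosed A) {f : X × S → ℝ} (hf : Continuous f) {R : X → ℝ}
    (h1 : ∀ x, ∃ s, (x, s) ∈ A) (h2 : ∀ x s, (x, s) ∈ A → f (x, s) = R x) : Continuous R := by
  refine continuous_iff_isClosed.2 fun C hC => ?_
  have e : R ⁻¹' C = Prod.fst '' (A ∩ f ⁻¹' C) := by
    ext x
    constructor
    · intro hx
      obtain ⟨s, hs⟩ := h1 x
      exact ⟨(x, s), ⟨hs, by rw [mem_preimage, h2 x s hs]; exact hx⟩, rfl⟩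
    · rintro ⟨⟨x', s⟩, ⟨h3, h4⟩, rfl⟩
      rw [mem_preimage, h2 x' s h3] at h4
      exact h4
  rw [e]
  exact isClosedMap_fst_of_compactSpace _ (hA.inter (hC.preimage hf))

/-- the distance from the origin along a ray, as a continuous function of the parameters -/
theorem rad {G : I01 → (Fin 3 → ℝ) → ℂ} (hG : Continuous fun q : I01 × (Fin 3 → ℝ) => G q.1 q.2)
    (hp : ∀ y θ j, G y (θ + Pi.single j (2 * Real.pi)) = G y θ) {u : ℂ}
    (h1 : ∀ y θ, ∃ s ∈ Icc 0 (2 * Real.pi),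
      G y (Function.update θ 2 s) = ‖G y (Function.update θ 2 s)‖ * u)
    (h2 : ∀ y θ s s', G y (Function.update θ 2 s) = ‖G y (Function.update θ 2 s)‖ * u →
      G y (Function.update θ 2 s') = ‖G y (Function.update θ 2 s')‖ * u →
      ∃ n : ℤ, s = s' + n * (2 * Real.pi)) :
    ∃ R : I01 × (Fin 3 → ℝ) → ℝ, Continuous R ∧
      (∀ y θ, ∃ s, G y (Function.update θ 2 s) = R (y, θ) * u ∧
        R (y, θ) = ‖G y (Function.update θ 2 s)‖) ∧
      ∀ y θ, G y θ = ‖G y θ‖ * u → R (y, θ) = ‖G y θ‖ := by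
  choose σ hσ hσ' using h1
  have key : ∀ y θ s, G y (Function.update θ 2 s) = ‖G y (Function.update θ 2 s)‖ * u →
      ‖G y (Function.update θ 2 s)‖ = ‖G y (Function.update θ 2 (σ y θ))‖ := fun y θ s h => by
    obtain ⟨n, hn⟩ := h2 y θ s _ h (hσ' y θ)
    rw [hn, upd_int (hp y)]
  have hc : Continuous fun q : (I01 × (Fin 3 → ℝ)) × Icc (0 : ℝ) (2 * Real.pi) =>
      G q.1.1 (Function.update q.1.2 2 q.2) :=
    hG.comp (f := fun q : (I01 × (Fin 3 → ℝ)) × Icc (0 : ℝ) (2 * Real.pi) =>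
      (q.1.1, Function.update q.1.2 2 (q.2 : ℝ))) (by fun_prop)
  refine ⟨fun q => ‖G q.1 (Function.update q.2 2 (σ q.1 q.2))‖, ?_,
    fun y θ => ⟨σ y θ, hσ' y θ, rfl⟩, fun y θ h => ?_⟩
  · refine cont_of_graph (X := I01 × (Fin 3 → ℝ)) (S := Icc (0 : ℝ) (2 * Real.pi))
      (A := {q | G q.1.1 (Function.update q.1.2 2 q.2) =
        ‖G q.1.1 (Function.update q.1.2 2 q.2)‖ * u})
      (isClosed_eq hc ((Complex.continuous_ofReal.comp hc.norm).mul continuous_const))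
      hc.norm (fun x => ⟨⟨σ x.1 x.2, hσ x.1 x.2⟩, hσ' x.1 x.2⟩) fun x s h => key x.1 x.2 s h
  · have := key y θ (θ 2) (by rwa [Function.update_eq_self])
    rw [Function.update_eq_self] at this
    exact this.symm

/-- the radial endpoints of a radially convex set are null -/
theorem null_end {E : Set ℂ} (hE : MeasurableSet E)
    (hc : ∀ (g : ℂ) (a b r : ℝ), a ≤ r → r ≤ b → Real.exp a • g ∈ E → Real.exp b • g ∈ E →
      Real.exp r • g ∈ E) {σ : ℝ} (hσ : σ = 1 ∨ σ = -1) :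
    volume {g | g ∈ E ∧ ∀ n : ℕ, Real.exp (σ / (n + 1)) • g ∉ E} = 0 := by
  obtain ⟨B, hB⟩ : ∃ B : Set ℂ, B = {g | g ∈ E ∧ ∀ n : ℕ, Real.exp (σ / (n + 1)) • g ∉ E} :=
    ⟨_, rfl⟩
  rw [← hB]
  have mB : MeasurableSet B := by
    have e : B = E ∩ ⋂ n : ℕ, ((Real.exp (σ / (n + 1)) • ·) ⁻¹' E)ᶜ := by
      rw [hB]; ext g; simp
    rw [e]
    exact hE.inter (MeasurableSet.iInter fun n => (measurable_const_smul _ hE).compl)
  have dis : ∀ x x' : ℝ, x < x' → ∀ g : ℂ, Real.exp x • g ∈ B → Real.exp x' • g ∈ B → False := by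
    intro x x' hx g h h'
    rw [hB] at h h'
    obtain ⟨n, hn⟩ := exists_nat_one_div_lt (sub_pos.2 hx)
    have h0 : (0 : ℝ) < 1 / (n + 1) := by positivity
    rcases hσ with rfl | rfl
    · refine h.2 n ?_
      rw [smul_smul, ← Real.exp_add]
      exact hc g x x' _ (by linarith) (by linarith) h.1 h'.1
    · refine h'.2 n ?_
      rw [smul_smul, ← Real.exp_add, neg_div]
      exact hc g x x' _ (by linarith) (by linarith) h.1 h'.1
  by_contra hne
  have h1 := Measure.countable_meas_pos_of_disjoint_iUnion (μ := (volume : Measure ℂ))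
    (As := fun x : ℝ => (Real.exp x • ·) ⁻¹' B) (fun x => measurable_const_smul _ mB)
    (fun x x' hx => Set.disjoint_left.2 fun g h h' =>
      (lt_or_gt_of_ne hx).elim (fun k => dis x x' k g h h') fun k => dis x' x k g h' h)
  refine Cardinal.not_countable_real (h1.mono fun x _ => ?_)
  have h2 := Measure.addHaar_preimage_smul (volume : Measure ℂ) (Real.exp_pos x).ne' B
  rw [mem_ofPred_eq, h2]
  refine ENNReal.mul_pos (ENNReal.ofReal_pos.2 ?_).ne' hne
  have := Real.exp_pos x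
  positivity

/-- the statement for the square root of the map -/
theorem core (ν : Measure ℂ) [IsFiniteMeasure ν] (hν : ν ≪ volume) {G : I01 → (Fin 3 → ℝ) → ℂ}
    (hG : Continuous fun q : I01 × (Fin 3 → ℝ) => G q.1 q.2) (h0 : ∀ y θ, G y θ ≠ 0)
    (hp : ∀ y θ j, G y (θ + Pi.single j (2 * Real.pi)) = G y θ)
    (hR : ∀ u : ℂ, ‖u‖ = 1 → ∃ R : I01 × (Fin 3 → ℝ) → ℝ, Continuous R ∧
      (∀ y θ, ∃ s, G y (Function.update θ 2 s) = R (y, θ) * u ∧
        R (y, θ) = ‖G y (Function.update θ 2 s)‖) ∧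
      ∀ y θ, G y θ = ‖G y θ‖ * u → R (y, θ) = ‖G y θ‖) :
    (∀ y, IsCompact (range fun θ => G y θ ^ 2)) ∧
    Continuous (fun y => (ν (range fun θ => G y θ ^ 2)).toReal) ∧
    ∀ y (a b : ℝ) (θa θb : Fin 3 → ℝ), (∀ s, ‖G y (Function.update θa 2 s)‖ ^ 2 ≤ a) →
      (∀ s, b ≤ ‖G y (Function.update θb 2 s)‖ ^ 2) →
      {ζ : ℂ | a ≤ ‖ζ‖ ∧ ‖ζ‖ ≤ b} ⊆ range fun θ => G y θ ^ 2 := by
  have hG2 : Continuous fun q : I01 × (Fin 3 → ℝ) => G q.1 q.2 ^ 2 := hG.pow 2
  have hr : ∀ y, (range fun θ => G y θ ^ 2) =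
      (fun θ => G y θ ^ 2) '' Icc 0 (fun _ => 2 * Real.pi) :=
    fun y => range_eq fun θ j => by rw [hp]
  have hcpt : ∀ y, IsCompact (range fun θ => G y θ ^ 2) := fun y => by
    rw [hr]; exact isCompact_Icc.image (hG2.comp (Continuous.prodMk_right y))
  have hcpt' : ∀ y, IsCompact (range (G y)) := fun y => by
    rw [range_eq (hp y)]; exact isCompact_Icc.image (hG.comp (Continuous.prodMk_right y))
  have ray : ∀ g : ℂ, g ≠ 0 → ∃ R : I01 × (Fin 3 → ℝ) → ℝ, Continuous R ∧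
      (∀ y θ, ∃ s, R (y, θ) = ‖G y (Function.update θ 2 s)‖) ∧
      (∀ y θ (t : ℝ), 0 < t → G y θ = t • g → R (y, θ) = t * ‖g‖) ∧
      ∀ y θ θ' (t : ℝ), R (y, θ) ≤ t * ‖g‖ → t * ‖g‖ ≤ R (y, θ') → t • g ∈ range (G y) := by
    intro g hg
    have hn : ‖g‖ ≠ 0 := norm_ne_zero_iff.2 hg
    have hn' : (‖g‖ : ℂ) ≠ 0 := by exact_mod_cast hn
    obtain ⟨R, c1, c2, c3⟩ := hR (g / ‖g‖) (by simp [hn])
    refine ⟨R, c1, fun y θ => (c2 y θ).imp fun s h => h.2, fun y θ t ht h => ?_,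
      fun y θ θ' t k1 k2 => ?_⟩
    · have e : ‖G y θ‖ = t * ‖g‖ := by rw [h, norm_smul, Real.norm_of_nonneg ht.le]
      rw [← e]
      refine c3 y θ ?_
      rw [e, h, Complex.real_smul]
      push_cast
      field_simp
    · obtain ⟨θ'', h⟩ := intermediate_value_univ θ θ' (c1.comp (Continuous.prodMk_right y))
        (show t * ‖g‖ ∈ Icc _ _ from ⟨k1, k2⟩)
      obtain ⟨s, hs, -⟩ := c2 y θ''
      refine ⟨Function.update θ'' 2 s, ?_⟩
      rw [hs, show R (y, θ'') = t * ‖g‖ from h, Complex.real_smul]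
      push_cast
      field_simp
  refine ⟨hcpt, continuous_iff_continuousAt.2 fun y₀ => ?_, fun y a b θa θb ha hb ζ hζ => ?_⟩
  · refine (ENNReal.tendsto_toReal (measure_ne_top ν _)).comp ?_
    refine tendsto_measure_of_ae_tendsto_indicator_of_isFiniteMeasure (𝓝 y₀)
      (hcpt y₀).measurableSet (fun y => (hcpt y).measurableSet) ?_
    have hc : ∀ (g : ℂ) (a b r : ℝ), a ≤ r → r ≤ b → Real.exp a • g ∈ range (G y₀) →
        Real.exp b • g ∈ range (G y₀) → Real.exp r • g ∈ range (G y₀) := by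
      rintro g a b r k1 k2 ⟨θ, k3⟩ ⟨θ', k4⟩
      obtain ⟨R, -, -, c3, c4⟩ := ray g fun h => h0 y₀ θ (by rw [k3, h, smul_zero])
      refine c4 y₀ θ θ' _ ?_ ?_
      · rw [c3 y₀ θ _ (Real.exp_pos a) k3]; gcongr
      · rw [c3 y₀ θ' _ (Real.exp_pos b) k4]; gcongr
    have hs : ∀ σ : ℝ, σ = 1 ∨ σ = -1 → ∀ᵐ v ∂ν, v ∉ (fun g : ℂ => g ^ 2) ''
        {g | g ∈ range (G y₀) ∧ ∀ n : ℕ, Real.exp (σ / (n + 1)) • g ∉ range (G y₀)} :=
      fun σ hσ => measure_eq_zero_iff_ae_notMem.1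
        (hν (addHaar_image_eq_zero_of_differentiableOn_of_addHaar_eq_zero volume (by fun_prop)
          (null_end (hcpt' y₀).measurableSet hc hσ)))
    filter_upwards [hs 1 (Or.inl rfl), hs (-1) (Or.inr rfl)] with v hv hv'
    by_cases hm : v ∈ range fun θ => G y₀ θ ^ 2
    · obtain ⟨θ₀, rfl⟩ := hm
      obtain ⟨R, c1, -, c3, c4⟩ := ray _ (h0 y₀ θ₀)
      have hn := norm_pos_iff.2 (h0 y₀ θ₀)
      obtain ⟨n, θ1, k1⟩ : ∃ n : ℕ, Real.exp (1 / (n + 1)) • G y₀ θ₀ ∈ range (G y₀) := by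
        by_contra hh
        exact hv ⟨_, ⟨⟨θ₀, rfl⟩, fun n h => hh ⟨n, h⟩⟩, rfl⟩
      obtain ⟨m, θ2, k2⟩ : ∃ n : ℕ, Real.exp (-1 / (n + 1)) • G y₀ θ₀ ∈ range (G y₀) := by
        by_contra hh
        exact hv' ⟨_, ⟨⟨θ₀, rfl⟩, fun n h => hh ⟨n, h⟩⟩, rfl⟩
      have l1 : 1 * ‖G y₀ θ₀‖ < R (y₀, θ1) := by
        rw [c3 y₀ θ1 _ (Real.exp_pos _) k1]
        exact mul_lt_mul_of_pos_right (Real.one_lt_exp_iff.2 (by positivity)) hn
      have l2 : R (y₀, θ2) < 1 * ‖G y₀ θ₀‖ := by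
        rw [c3 y₀ θ2 _ (Real.exp_pos _) k2]
        refine mul_lt_mul_of_pos_right (Real.exp_lt_one_iff.2 ?_) hn
        rw [neg_div, neg_lt_zero]; positivity
      filter_upwards [((c1.comp (Continuous.prodMk_left θ1)).tendsto y₀).eventually_const_lt l1,
        ((c1.comp (Continuous.prodMk_left θ2)).tendsto y₀).eventually_lt_const l2] with y m1 m2
      obtain ⟨θ, hθ⟩ := c4 y θ2 θ1 1 m2.le m1.le
      exact iff_of_true ⟨θ, by simp only [hθ, one_smul]⟩ ⟨θ₀, rfl⟩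
    · have h1 : ∀ᶠ y in 𝓝 y₀, ∀ θ ∈ Icc (0 : Fin 3 → ℝ) (fun _ => 2 * Real.pi),
          G y θ ^ 2 ≠ v := by
        refine isCompact_Icc.eventually_forall_of_forall_eventually fun θ _ => ?_
        exact (hG2.tendsto (y₀, θ)).eventually_ne fun h => hm ⟨θ, h⟩
      filter_upwards [h1] with y h2
      refine iff_of_false ?_ hm
      rw [hr]; rintro ⟨θ, h3, h4⟩; exact h2 θ h3 h4
  · obtain ⟨g, rfl⟩ := IsAlgClosed.exists_pow_nat_eq ζ (show 0 < 2 by norm_num)
    obtain ⟨k1, k2⟩ := hζ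
    rw [norm_pow] at k1 k2
    have hg : g ≠ 0 := fun h => by
      have := pow_pos (norm_pos_iff.2 (h0 y (Function.update θa 2 0))) 2
      have := ha 0
      rw [h] at k1
      simp at k1
      linarith
    obtain ⟨R, -, c2, -, c4⟩ := ray g hg
    obtain ⟨s, hs⟩ := c2 y θa
    obtain ⟨s', hs'⟩ := c2 y θb
    obtain ⟨θ, hθ⟩ := c4 y θa θb 1
      (by rw [hs, one_mul]; exact (pow_le_pow_iff_left₀ (norm_nonneg _) (norm_nonneg _) two_ne_zero).1 ((ha s).trans k1))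
      (by rw [hs', one_mul]; exact (pow_le_pow_iff_left₀ (norm_nonneg _) (norm_nonneg _) two_ne_zero).1 (k2.trans (hb s')))
    exact ⟨θ, by simp only [hθ, one_smul]⟩

end Polar

open Polar in
theorem polar : PolarStmt := by
  intro ν _ hν W W' k hW hk k0 W0 pW pk hd hb
  have sq : ∀ y θ, ((√(k y θ) : ℝ) * W y θ) ^ 2 = (k y θ : ℂ) * W y θ ^ 2 := fun y θ => by
    rw [mul_pow, ← Complex.ofReal_pow, Real.sq_sqrt (k0 y θ).le]
  have nr : ∀ y θ, ‖(√(k y θ) : ℝ) * W y θ‖ = √(k y θ) * ‖W y θ‖ := fun y θ => by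
    rw [norm_mul, Complex.norm_real, Real.norm_of_nonneg (Real.sqrt_nonneg _)]
  have s0 : ∀ y θ, ((√(k y θ) : ℝ) : ℂ) ≠ 0 := fun y θ => by
    exact_mod_cast (Real.sqrt_pos.2 (k0 y θ)).ne'
  have dir : ∀ y θ (u : ℂ), (√(k y θ) : ℝ) * W y θ = ‖(√(k y θ) : ℝ) * W y θ‖ * u ↔
      W y θ = ‖W y θ‖ * u := fun y θ u => by
    rw [nr, Complex.ofReal_mul, mul_assoc, mul_right_inj' (s0 y θ)]
  have hG : Continuous fun q : I01 × (Fin 3 → ℝ) => ((√(k q.1 q.2) : ℝ) : ℂ) * W q.1 q.2 :=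
    (Complex.continuous_ofReal.comp hk.sqrt).mul hW
  have pG : ∀ y θ j, ((√(k y (θ + Pi.single j (2 * Real.pi))) : ℝ) : ℂ) *
      W y (θ + Pi.single j (2 * Real.pi)) = (√(k y θ) : ℝ) * W y θ := fun y θ j => by rw [pW, pk]
  have H := core ν hν (G := fun y θ => (√(k y θ) : ℝ) * W y θ) hG
    (fun y θ => mul_ne_zero (s0 y θ) (W0 y θ)) pG fun u hu => by
      have hc := fun y θ => circ (c := fun s => W y (Function.update θ 2 s))
        (c' := fun s => W' y (Function.update θ 2 s)) (fun s => W0 _ _)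
        (fun s => by simpa using hd y (Function.update θ 2 s))
        (fun s => by simpa using upd_int (pW y) 1 θ s) (fun s => hb _ _) hu
      refine rad (G := fun y θ => (√(k y θ) : ℝ) * W y θ) hG pG (fun y θ => ?_)
        fun y θ s s' h h' => (hc y θ).2 s s' ((dir _ _ _).1 h) ((dir _ _ _).1 h')
      obtain ⟨s, h1, h2⟩ := (hc y θ).1
      exact ⟨s, h1, (dir _ _ _).2 h2⟩
  simp only [sq, nr, mul_pow, fun y θ => Real.sq_sqrt (k0 y θ).le] at H
  exact H

end Pool.Agent.MP_1ba41f_an.K4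

end
end MrgPart3

-- ======== part 4: formerly Pool.Agent.MP_1ba41f_an.K4.Recon
section MrgPart4

/-! PROJECT LUNAR, module RECON: from the reduced equations back to the Newton equations. -/

noncomputable section
open Finset Complex Filter

namespace Pool.Agent.MP_1ba41f_an.K4
open K3

namespace Recon

lemma dq {Z E : ℝ → ℂ} {τ : ℝ} {a W Zb Om : ℂ} (hZ : HasDerivAt Z (a * (W / 4 - I * Om * Z τ)) τ)
    (hE : HasDerivAt E (E τ * (2 * a * Om * I)) τ) (h0 : Zb ≠ 0) :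
    HasDerivAt (fun τ => Z τ ^ 2 * E τ) (a * (Z τ * Zb) * (W * E τ / (2 * Zb))) τ := by
  refine ((hZ.pow 2).mul hE).congr_deriv ?_
  simp only [Pi.pow_apply]
  field_simp
  push_cast
  ring

lemma dv {Zb W E : ℝ → ℂ} {τ : ℝ} {a Z Wb Om kU κ T : ℂ}
    (hZ : HasDerivAt Zb (a * (Wb / 4 + I * Om * Zb τ)) τ)
    (hW : HasDerivAt W
      (a * (-Z - 2 * kU * Z - I * Om * W τ - 2 * κ * (Z * Zb τ) * (Zb τ * T))) τ)
    (hE : HasDerivAt E (E τ * (2 * a * Om * I)) τ) (h0 : Zb τ ≠ 0) (h1 : Z ≠ 0)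
    (hK : W τ * Wb / 8 + Z * Zb τ / 2 - 1 + kU * (Z * Zb τ) = 0) :
    HasDerivAt (fun τ => W τ * E τ / (2 * Zb τ))
      (a * (Z * Zb τ) * (-(Z ^ 2 * E τ / (Z * Zb τ) ^ 3) - κ * E τ * T)) τ := by
  refine ((hW.mul hE).div (hZ.const_mul 2) (mul_ne_zero two_ne_zero h0)).congr_deriv ?_
  simp only [Pi.mul_apply]
  field_simp
  linear_combination (-8 * a * E τ) * hK

lemma dQ {R E : ℝ → ℂ} {τ : ℝ} {a r n P g Ri dl : ℂ} (hR : HasDerivAt R (a * (n * (r * P))) τ)
    (hE : HasDerivAt E (E τ * (2 * a * (n / 2 * (r * g * Ri ^ 2)) * I)) τ) (h : R τ * Ri = 1) :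
    HasDerivAt (fun τ => R τ * E τ / dl) (a * r * (n * (P + I * g * Ri) * E τ / dl)) τ := by
  refine ((hR.mul hE).div_const dl).congr_deriv ?_
  linear_combination (a * r * n * I * g * Ri * E τ / dl) * h

lemma dV {P g Ri E : ℝ → ℂ} {τ : ℝ} {a r n R dl A B : ℂ}
    (hP : HasDerivAt P (a * (n * (r * (g τ ^ 2 * Ri τ ^ 3 - A)))) τ)
    (hg : HasDerivAt g (-(a * r * n * R * B)) τ)
    (hRi : HasDerivAt Ri (-(Ri τ ^ 2 * (a * (n * (r * P τ))))) τ)
    (hE : HasDerivAt E (E τ * (2 * a * (n / 2 * (r * g τ * Ri τ ^ 2)) * I)) τ)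
    (h : R * Ri τ = 1) :
    HasDerivAt (fun τ => n * (P τ + I * g τ * Ri τ) * E τ / dl)
      (a * r * (-(n ^ 2 / dl * E τ * (A + I * B)))) τ := by
  refine ((((hP.add ((hg.const_mul I).mul hRi)).const_mul n).mul hE).div_const dl).congr_deriv ?_
  simp only [Pi.mul_apply, Pi.add_apply]
  linear_combination (-(a * r * n ^ 2 * I * B * E τ / dl)) * h +
    (a * r * n ^ 2 * g τ ^ 2 * Ri τ ^ 3 * E τ / dl) * I_sq

/-- first outer vector -/
def xi1 (c : Cfg) (p : Ph ℝ) : ℂ := p.R + c.s2 * c.dl * p.zc ^ 2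
/-- second outer vector -/
def xi2 (c : Cfg) (p : Ph ℝ) : ℂ := p.R - c.s1 * c.dl * p.zc ^ 2

lemma zc_eq (p : Ph ℝ) : p.zc = p.z1 + p.z2 * I := by
  apply Complex.ext <;> simp [Ph.zc]

lemma xi1_eq (c : Cfg) (p : Ph ℝ) : xi1 c p = (p.a1 c : ℝ) + (p.b1 c : ℝ) * I := by
  simp only [xi1, zc_eq, Ph.a1, Ph.b1, Ph.X1, Ph.X2, smul_eq_mul]
  push_cast
  linear_combination (c.s2 * c.dl * p.z2 ^ 2 : ℂ) * I_sq

lemma xi2_eq (c : Cfg) (p : Ph ℝ) : xi2 c p = (p.a2 c : ℝ) + (p.b2 c : ℝ) * I := by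
  simp only [xi2, zc_eq, Ph.a2, Ph.b2, Ph.X1, Ph.X2, smul_eq_mul]
  push_cast
  linear_combination (-c.s1 * c.dl * p.z2 ^ 2 : ℂ) * I_sq

lemma norm_xi {a b Y : ℝ} (hY : 0 < Y) (h : Y * Y * (a ^ 2 + b ^ 2) = 1) :
    ‖(a : ℂ) + b * I‖ = Y⁻¹ := by
  rw [norm_add_mul_I, Real.sqrt_eq_iff_mul_self_eq (by positivity) (by positivity)]
  field_simp
  linarith

lemma kap {c : Cfg} (h : c.Ok) : c.ka * c.n * (c.s1 * c.s2) * c.dl = c.mu * c.dl ^ 2 := by
  have h1 := h.s1; have h2 := h.s2; have h3 := h.ep; have h4 := h.M1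
  have h5 : √c.M * √c.M = c.M := Real.mul_self_sqrt (by linarith)
  have h6 : c.M ≠ 0 := by linarith
  unfold Cfg.ka Cfg.n Cfg.dl Cfg.mm
  field_simp
  linear_combination c.mu * h5

lemma nsq {c : Cfg} (h : c.Ok) : c.n ^ 2 = c.M * c.dl ^ 3 := by
  have h5 : √c.M * √c.M = c.M := Real.mul_self_sqrt (by linarith [h.M1])
  unfold Cfg.n Cfg.dl
  linear_combination c.ep ^ 12 * h5

/-- The equations for the two Jacobi vectors in the regularised time. -/
lemma jacobi {c : Cfg} {a cc hs : ℝ} {p : ℝ → Ph ℝ} (hc : c.Ok)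
    (ode : ∀ τ i, HasDerivAt (fun τ => (p τ).co i) (a * (p τ).XX c cc hs i) τ)
    (rel : ∀ τ, (p τ).Rel c) (en : ∀ τ, (p τ).KK c cc hs = 0) (nz : ∀ τ, (p τ).zc ≠ 0) :
    ∃ E v V : ℝ → ℂ, (∀ τ, ‖E τ‖ = 1) ∧ ∀ τ,
      HasDerivAt (fun τ => (p τ).zc ^ 2 * E τ) ((a * (p τ).r : ℝ) * v τ) τ ∧
      HasDerivAt v ((a * (p τ).r : ℝ) * (-((p τ).zc ^ 2 * E τ / ((p τ).r : ℝ) ^ 3) -
        c.mu * (c.dl ^ 2 * E τ * xi1 c (p τ) * (p τ).Y1 ^ 3 -
          c.dl ^ 2 * E τ * xi2 c (p τ) * (p τ).Y2 ^ 3))) τ ∧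
      HasDerivAt (fun τ => (p τ).R * E τ / c.dl) ((a * (p τ).r : ℝ) * V τ) τ ∧
      HasDerivAt V ((a * (p τ).r : ℝ) * (-(c.M *
        (c.s1 * (c.dl ^ 2 * E τ * xi1 c (p τ) * (p τ).Y1 ^ 3) +
          c.s2 * (c.dl ^ 2 * E τ * xi2 c (p τ) * (p τ).Y2 ^ 3))))) τ := by
  have d0 : ∀ τ, HasDerivAt (fun τ => (p τ).z1) (a * (p τ).XX c cc hs 0) τ := fun τ => ode τ 0
  have d1 : ∀ τ, HasDerivAt (fun τ => (p τ).z2) (a * (p τ).XX c cc hs 1) τ := fun τ => ode τ 1
  have d2 : ∀ τ, HasDerivAt (fun τ => (p τ).w1) (a * (p τ).XX c cc hs 2) τ := fun τ => ode τ 2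
  have d3 : ∀ τ, HasDerivAt (fun τ => (p τ).w2) (a * (p τ).XX c cc hs 3) τ := fun τ => ode τ 3
  have d4 : ∀ τ, HasDerivAt (fun τ => (p τ).R) (a * (p τ).XX c cc hs 4) τ := fun τ => ode τ 4
  have d5 : ∀ τ, HasDerivAt (fun τ => (p τ).P) (a * (p τ).XX c cc hs 5) τ := fun τ => ode τ 5
  simp only [Ph.XX, Matrix.cons_val_zero, Matrix.cons_val_one, Matrix.cons_val, smul_eq_mul]
    at d0 d1 d2 d3 d4 d5
  have R0 : ∀ τ, (p τ).R ≠ 0 := fun τ => left_ne_zero_of_mul_eq_one (rel τ).R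
  have eRi : ∀ τ, (p τ).Ri = ((p τ).R)⁻¹ := fun τ => eq_inv_of_mul_eq_one_right (rel τ).R
  have dRi : ∀ τ, HasDerivAt (fun τ => (p τ).Ri)
      (-((p τ).Ri ^ 2 * (a * (c.n * ((p τ).r * (p τ).P))))) τ := fun τ => by
    rw [funext eRi]
    refine ((d4 τ).inv (R0 τ)).congr_deriv ?_
    rw [eRi]
    field_simp
  have dg : ∀ τ, HasDerivAt (fun τ => (p τ).gam c cc) (-(a * (p τ).r * c.n * (p τ).R *
      (c.s1 * c.s2 * c.dl * (p τ).X2 * ((p τ).Y1 ^ 3 - (p τ).Y2 ^ 3)))) τ := fun τ => by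
    simp only [Ph.gam, smul_eq_mul]
    refine ((((((d0 τ).mul (d3 τ)).sub ((d1 τ).mul (d2 τ))).const_mul (1 / 2)).const_sub
      cc).const_mul c.ka⁻¹).congr_deriv ?_
    have := hc.ka.ne'
    simp only [Ph.T1, Ph.T2, Ph.a1, Ph.a2, Ph.b1, Ph.b2, Ph.X1, Ph.X2, smul_eq_mul]
    field_simp
    ring
  have cO : Continuous fun τ => 2 * a * (p τ).Om c cc := by
    have c0 := continuous_iff_continuousAt.2 fun τ => (d0 τ).continuousAt
    have c1 := continuous_iff_continuousAt.2 fun τ => (d1 τ).continuousAt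
    have c2 := continuous_iff_continuousAt.2 fun τ => (dRi τ).continuousAt
    have c3 := continuous_iff_continuousAt.2 fun τ => (dg τ).continuousAt
    simp only [Ph.Om, Ph.r, smul_eq_mul]
    fun_prop
  have dφ := fun x => (cO.integral_hasStrictDerivAt 0 x).hasDerivAt
  generalize (fun x => ∫ y in (0 : ℝ)..x, _ : ℝ → ℝ) = φ at dφ
  obtain ⟨E, nE, dE⟩ : ∃ E : ℝ → ℂ, (∀ τ, ‖E τ‖ = 1) ∧
      ∀ τ, HasDerivAt E (E τ * (2 * a * ((p τ).Om c cc : ℝ) * I)) τ :=
    ⟨fun τ => cexp (φ τ * I), fun τ => norm_exp_ofReal_mul_I _, fun τ =>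
      ((dφ τ).ofReal_comp.mul_const I).cexp.congr_deriv (by push_cast; ring)⟩
  refine ⟨E, fun τ => ((p τ).w1 + (p τ).w2 * I) * E τ / (2 * ((p τ).z1 - (p τ).z2 * I)),
    fun τ => c.n * ((p τ).P + I * ((p τ).gam c cc : ℝ) * (p τ).Ri) * E τ / c.dl, nE, fun τ => ?_⟩
  have er : (((p τ).r : ℝ) : ℂ) = (p τ).zc * ((p τ).z1 - (p τ).z2 * I) := by
    rw [zc_eq, Ph.r]
    push_cast
    linear_combination ((p τ).z2 ^ 2 : ℂ) * I_sq
  have b0 : ((p τ).z1 : ℂ) - (p τ).z2 * I ≠ 0 := fun h => nz τ (by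
    have h1 := congrArg re h
    have h2 := congrArg im h
    simp at h1 h2
    simp [zc_eq, h1, h2])
  have hR : ((p τ).R : ℂ) * (p τ).Ri = 1 := by exact_mod_cast (rel τ).R
  have dE' : HasDerivAt E (E τ * (2 * a * (c.n / 2 *
      (((p τ).r : ℝ) * ((p τ).gam c cc : ℝ) * (p τ).Ri ^ 2)) * I)) τ :=
    (dE τ).congr_deriv (by simp only [Ph.Om, smul_eq_mul]; push_cast; ring)
  have dl0 : (c.dl : ℂ) ≠ 0 := ofReal_ne_zero.2 hc.dl.ne'
  refine ⟨?_, ?_, ?_, ?_⟩
  · rw [ofReal_mul, er]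
    refine dq (Z := fun τ => (p τ).zc) ?_ (dE τ) b0
    simp only [zc_eq]
    refine ((d0 τ).ofReal_comp.add ((d1 τ).ofReal_comp.mul_const I)).congr_deriv ?_
    push_cast
    linear_combination (a * ((p τ).Om c cc : ℝ) * (p τ).z2 : ℂ) * I_sq
  · have k := kap hc
    have k' : (c.ka : ℂ) * c.n * (c.s1 * c.s2) * c.dl = c.mu * c.dl ^ 2 := by exact_mod_cast k
    have hK : (1 / 8 * ((p τ).w1 * (p τ).w1 + (p τ).w2 * (p τ).w2) + 1 / 2 * (p τ).r - 1) +
        c.ka * c.n * ((p τ).r * (p τ).UU c cc hs) = 0 := by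
      have h := en τ
      have := hc.ka.ne'
      simp only [Ph.KK, smul_eq_mul] at h
      field_simp at h
      linarith
    have hK' := congrArg ofReal hK
    push_cast at hK'
    refine (dv (Zb := fun τ => (p τ).z1 - (p τ).z2 * I) (W := fun τ => (p τ).w1 + (p τ).w2 * I)
      (a := a) (Z := (p τ).zc) (Wb := (p τ).w1 - (p τ).w2 * I)
      (kU := c.ka * c.n * ((p τ).UU c cc hs : ℝ)) (κ := c.mu * c.dl ^ 2)
      (T := xi1 c (p τ) * (p τ).Y1 ^ 3 - xi2 c (p τ) * (p τ).Y2 ^ 3) ?_ ?_ (dE τ) b0 (nz τ)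
      ?_).congr_deriv ?_
    · refine ((d0 τ).ofReal_comp.sub ((d1 τ).ofReal_comp.mul_const I)).congr_deriv ?_
      push_cast
      linear_combination (a * ((p τ).Om c cc : ℝ) * (p τ).z2 : ℂ) * I_sq
    · refine ((d2 τ).ofReal_comp.add ((d3 τ).ofReal_comp.mul_const I)).congr_deriv ?_
      rw [← er, ← k', xi1_eq, xi2_eq, zc_eq]
      simp only [Ph.T1, Ph.T2]
      push_cast
      linear_combination (a * (((p τ).Om c cc : ℝ) * (p τ).w2 -
        2 * (c.ka * c.n * (c.s1 * c.s2) * c.dl) * ((p τ).r : ℝ) * (p τ).z2 *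
          (((p τ).b1 c : ℝ) * (p τ).Y1 ^ 3 - ((p τ).b2 c : ℝ) * (p τ).Y2 ^ 3)) : ℂ) * I_sq
    · rw [← er]
      linear_combination hK' - ((p τ).w2 ^ 2 / 8 : ℂ) * I_sq
    · rw [← er]
      push_cast
      ring
  · rw [ofReal_mul]
    refine dQ (R := fun τ => (p τ).R) ((d4 τ).ofReal_comp.congr_deriv ?_) dE' hR
    push_cast
    ring
  · have k := nsq hc
    have k' : (c.n : ℂ) ^ 2 = c.M * c.dl ^ 3 := by exact_mod_cast k
    refine (dV (P := fun τ => (p τ).P) (g := fun τ => ((p τ).gam c cc : ℝ))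
      (Ri := fun τ => (p τ).Ri) (R := (p τ).R) (dl := c.dl)
      (A := c.s1 * (((p τ).a1 c : ℝ) * (p τ).Y1 ^ 3) + c.s2 * (((p τ).a2 c : ℝ) * (p τ).Y2 ^ 3))
      (B := c.s1 * c.s2 * c.dl * ((p τ).X2 : ℝ) * ((p τ).Y1 ^ 3 - (p τ).Y2 ^ 3))
      ((d5 τ).ofReal_comp.congr_deriv ?_) ((dg τ).ofReal_comp.congr_deriv ?_)
      ((dRi τ).ofReal_comp.congr_deriv ?_) dE' hR).congr_deriv ?_
    · push_cast; ring
    · push_cast; ring
    · push_cast; ring
    · rw [k', xi1_eq, xi2_eq]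
      simp only [Ph.b1, Ph.b2, smul_eq_mul]
      push_cast
      field_simp
      ring

lemma force {L r : ℝ} (hL : 0 < L) (hr : 0 < r) {u : ℂ} (hu : ‖u‖ = r) :
    (L : ℂ) * u / ((‖(L : ℂ) * u‖ : ℝ) : ℂ) ^ 3 = u / (r : ℂ) ^ 3 / L ^ 2 := by
  rw [norm_mul, norm_real, Real.norm_of_nonneg hL.le, hu]
  have : (L : ℂ) ≠ 0 := ofReal_ne_zero.2 hL.ne'
  have : (r : ℂ) ≠ 0 := ofReal_ne_zero.2 hr.ne'
  push_cast
  field_simp

/-- The three bodies from the two Jacobi vectors. -/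
lemma bodies {m : Fin 3 → ℝ} {s1 s2 mu L : ℝ} {q v Q V : ℝ → ℂ} {r ρ1 ρ2 : ℝ → ℝ} {k : ℂ}
    (hL : 0 < L) (hk' : k * (1 + mu) = mu)
    (m0 : m 0 = s1 * L ^ 3) (m1 : m 1 = s2 * L ^ 3) (m2 : m 2 = mu * L ^ 3) (hs : s1 + s2 = 1)
    (r0 : ∀ t, 0 < r t ∧ 0 < ρ1 t ∧ 0 < ρ2 t) (nq : ∀ t, ‖q t‖ = r t)
    (n1 : ∀ t, ‖Q t + s2 * q t‖ = ρ1 t) (n2 : ∀ t, ‖Q t - s1 * q t‖ = ρ2 t)
    (dq : ∀ t, HasDerivAt q (v t) t) (dQ : ∀ t, HasDerivAt Q (V t) t)
    (dv : ∀ t, HasDerivAt v (-(q t / (r t : ℂ) ^ 3) -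
      mu * ((Q t + s2 * q t) / (ρ1 t : ℂ) ^ 3 - (Q t - s1 * q t) / (ρ2 t : ℂ) ^ 3)) t)
    (dV : ∀ t, HasDerivAt V (-((1 + mu) * (s1 * ((Q t + s2 * q t) / (ρ1 t : ℂ) ^ 3) +
      s2 * ((Q t - s1 * q t) / (ρ2 t : ℂ) ^ 3)))) t) :
    IsSol m fun t i => L * (![-k, -k, 1 - k] i * Q t + ![-(s2 : ℂ), s1, 0] i * q t) := by
  have hs' : (s1 : ℂ) + s2 = 1 := by exact_mod_cast hs
  have L0 : (L : ℂ) ≠ 0 := ofReal_ne_zero.2 hL.ne'
  set x : ℝ → Fin 3 → ℂ := fun t i => L * (![-k, -k, 1 - k] i * Q t + ![-(s2 : ℂ), s1, 0] i * q t)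
    with hx
  have e10 : ∀ t, x t 1 - x t 0 = L * q t := fun t => by
    simp only [hx, Matrix.cons_val_zero, Matrix.cons_val_one]
    linear_combination (L * q t) * hs'
  have e20 : ∀ t, x t 2 - x t 0 = L * (Q t + s2 * q t) := fun t => by
    simp only [hx, Matrix.cons_val_zero, Matrix.cons_val]
    ring
  have e21 : ∀ t, x t 2 - x t 1 = L * (Q t - s1 * q t) := fun t => by
    simp only [hx, Matrix.cons_val_zero, Matrix.cons_val_one, Matrix.cons_val]
    ring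
  have e01 : ∀ t, x t 0 - x t 1 = L * -q t := fun t => by linear_combination -e10 t
  have e02 : ∀ t, x t 0 - x t 2 = L * -(Q t + s2 * q t) := fun t => by linear_combination -e20 t
  have e12 : ∀ t, x t 1 - x t 2 = L * -(Q t - s1 * q t) := fun t => by linear_combination -e21 t
  have z0 : ∀ t, q t ≠ 0 := fun t => norm_pos_iff.1 (nq t ▸ (r0 t).1)
  have z1 : ∀ t, Q t + s2 * q t ≠ 0 := fun t => norm_pos_iff.1 (n1 t ▸ (r0 t).2.1)
  have z2 : ∀ t, Q t - s1 * q t ≠ 0 := fun t => norm_pos_iff.1 (n2 t ▸ (r0 t).2.2)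
  refine ⟨fun t i j hij => ?_, fun t => ?_,
    fun t i => L * (![-k, -k, 1 - k] i * V t + ![-(s2 : ℂ), s1, 0] i * v t), _, fun t i =>
      ⟨(((dQ t).const_mul _).add ((dq t).const_mul _)).const_mul _,
        (((dV t).const_mul _).add ((dv t).const_mul _)).const_mul _, ?_⟩⟩
  · rw [← sub_ne_zero]
    fin_cases i <;> fin_cases j <;>
      simp only [Fin.zero_eta, Fin.mk_one, Fin.reduceFinMk, ne_eq, not_true_eq_false] at hij ⊢
    all_goals
      simp only [e10, e20, e21, e01, e02, e12, mul_eq_zero, neg_eq_zero, L0, z0, z1, z2, or_self,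
        not_false_eq_true]
  · simp only [Fin.sum_univ_three, hx, m0, m1, m2, Matrix.cons_val_zero, Matrix.cons_val_one,
      Matrix.cons_val]
    push_cast
    linear_combination (-(L : ℂ) ^ 4 * Q t) * hk' - (L : ℂ) ^ 4 * Q t * k * hs'
  · have f0 := force hL (r0 t).1 (nq t)
    have f1 := force hL (r0 t).2.1 (n1 t)
    have f2 := force hL (r0 t).2.2 (n2 t)
    have g0 := force hL (r0 t).1 ((norm_neg _).trans (nq t))
    have g1 := force hL (r0 t).2.1 ((norm_neg _).trans (n1 t))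
    have g2 := force hL (r0 t).2.2 ((norm_neg _).trans (n2 t))
    rw [neg_div] at g0 g1 g2
    rw [sum_erase_eq_sub (mem_univ _), Fin.sum_univ_three]
    simp only [mul_div_assoc]
    generalize q t / (r t : ℂ) ^ 3 = F0 at *
    generalize (Q t + s2 * q t) / (ρ1 t : ℂ) ^ 3 = F1 at *
    generalize (Q t - s1 * q t) / (ρ2 t : ℂ) ^ 3 = F2 at *
    fin_cases i <;>
      simp only [Fin.zero_eta, Fin.mk_one, Fin.reduceFinMk, e10, e20, e21, e01, e02, e12, f0, f1,
        f2, g0, g1, g2, sub_self, zero_div, mul_zero, m0, m1, m2, Matrix.cons_val_zero,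
        Matrix.cons_val_one, Matrix.cons_val] <;> push_cast <;> field_simp
    · linear_combination (s1 * L ^ 4 * (s1 * F1 + s2 * F2) : ℂ) * hk' +
        (s1 * L ^ 4 * mu * F1 : ℂ) * hs'
    · linear_combination (s2 * L ^ 4 * (s1 * F1 + s2 * F2) : ℂ) * hk' +
        (s2 * L ^ 4 * mu * F2 : ℂ) * hs'
    · linear_combination (mu * L ^ 4 * (s1 * F1 + s2 * F2) : ℂ) * hk'

lemma wv_mul (l ζ : ℂ) : wv (l * ζ) l = ‖l‖ ^ 2 • wv ζ 1 := by
  have e : l * ζ * (starRingEnd ℂ) l = ((‖l‖ ^ 2 : ℝ) : ℂ) * ζ := by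
    rw [ofReal_pow, Newton.normSq]; ring
  ext i
  fin_cases i
  · simp [wv, mul_pow]; ring
  · simp only [wv, e, re_ofReal_mul]; simp
  · simp only [wv, e, im_ofReal_mul]; simp

lemma shape_eq {m : Fin 3 → ℝ} {x : Fin 3 → ℂ} {ζ : ℂ} (h0 : jac2 m x ≠ 0)
    (h : jac1 m x = jac2 m x * ζ) : shape m x = sh2 ζ := by
  have h1 : 0 < ‖jac2 m x‖ ^ 2 := pow_pos (norm_pos_iff.2 h0) 2
  rw [shape, sh2, h, wv_mul, norm_smul, smul_smul, Real.norm_of_nonneg h1.le]
  congr 1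
  rw [mul_left_comm, mul_inv, mul_comm, mul_inv_cancel_left₀ h1.ne']

end Recon

open Recon in
theorem recon : ReconStmt := by
  intro m c a cc hs p hc hm ha ode rel pos en ⟨b, hb, low⟩
  have nz : ∀ τ, (p τ).zc ≠ 0 := fun τ => norm_pos_iff.1 (hb.trans_le (low τ))
  have rp : ∀ τ, 0 < (p τ).r := fun τ => (p τ).norm_zc ▸ pow_pos (hb.trans_le (low τ)) 2
  obtain ⟨E, v, V, nE, dd⟩ := jacobi hc ode rel en nz
  have c0 : Continuous fun τ => (p τ).z1 :=
    continuous_iff_continuousAt.2 fun τ => (ode τ 0).continuousAt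
  have c1 : Continuous fun τ => (p τ).z2 :=
    continuous_iff_continuousAt.2 fun τ => (ode τ 1).continuousAt
  obtain ⟨σ, hσ, dσ⟩ := Newton.time (T := fun τ => a * (p τ).r) (c := a * b ^ 2)
    (by simp only [Ph.r]; fun_prop) (by positivity) fun τ =>
      mul_le_mul_of_nonneg_left ((p τ).norm_zc ▸ pow_le_pow_left₀ hb.le (low τ) 2) ha.le
  have key : ∀ {F : ℝ → ℂ} {F' : ℂ} {s : ℝ},
      HasDerivAt F ((a * (p (σ s)).r : ℝ) * F') (σ s) → HasDerivAt (fun s => F (σ s)) F' s :=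
    fun hF => Newton.comp (dσ _) (mul_pos ha (rp _)).ne' hF
  have p0 := hm.pos 0; have p1 := hm.pos 1; have p2 := hm.pos 2
  obtain ⟨L, hL, hL3⟩ : ∃ L : ℝ, 0 < L ∧ L ^ 3 = m 0 + m 1 :=
    ⟨(m 0 + m 1) ^ ((3 : ℕ) : ℝ)⁻¹, by positivity,
      Real.rpow_inv_natCast_pow (by positivity) (by norm_num)⟩
  have m0 : m 0 = c.s1 * L ^ 3 := by rw [hL3, hm.s1]; field_simp
  have m1 : m 1 = c.s2 * L ^ 3 := by rw [hL3, hm.s2]; field_simp
  have m2 : m 2 = c.mu * L ^ 3 := by rw [hL3, hm.mu]; field_simp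
  have dl := hc.dl
  have dl0 : (c.dl : ℂ) ≠ 0 := ofReal_ne_zero.2 dl.ne'
  have M0 : (1 : ℂ) + c.mu ≠ 0 := by exact_mod_cast (by linarith [hc.mu] : 1 + c.mu ≠ 0)
  have e1 : ∀ τ, (p τ).R * E τ / c.dl + c.s2 * ((p τ).zc ^ 2 * E τ) = E τ * xi1 c (p τ) / c.dl :=
    fun τ => by rw [xi1]; field_simp
  have e2 : ∀ τ, (p τ).R * E τ / c.dl - c.s1 * ((p τ).zc ^ 2 * E τ) = E τ * xi2 c (p τ) / c.dl :=
    fun τ => by rw [xi2]; field_simp
  have Y1 : ∀ τ, ((p τ).Y1 : ℂ) ≠ 0 := fun τ => ofReal_ne_zero.2 (pos τ).2.1.ne'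
  have Y2 : ∀ τ, ((p τ).Y2 : ℂ) ≠ 0 := fun τ => ofReal_ne_zero.2 (pos τ).2.2.ne'
  refine ⟨_, σ, bodies (q := fun t => (p (σ t)).zc ^ 2 * E (σ t)) (v := fun t => v (σ t))
    (Q := fun t => (p (σ t)).R * E (σ t) / c.dl) (V := fun t => V (σ t))
    (r := fun t => (p (σ t)).r) (ρ1 := fun t => ((p (σ t)).Y1)⁻¹ / c.dl)
    (ρ2 := fun t => ((p (σ t)).Y2)⁻¹ / c.dl) (k := c.mu / (1 + c.mu)) hL (by field_simp) m0 m1 m2
    hc.sum (fun t => ⟨rp _, div_pos (inv_pos.2 (pos _).2.1) dl, div_pos (inv_pos.2 (pos _).2.2) dl⟩)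
    (fun t => ?_) (fun t => ?_) (fun t => ?_) (fun t => key (dd _).1) (fun t => key (dd _).2.2.1)
    (fun t => (key (dd _).2.1).congr_deriv ?_) (fun t => (key (dd _).2.2.2).congr_deriv ?_),
    hσ, fun t => ?_⟩
  · rw [norm_mul, nE, mul_one, norm_pow, Ph.norm_zc]
  · rw [e1, norm_div, norm_mul, nE, one_mul, xi1_eq, norm_xi (pos _).2.1 (rel _).Y1, norm_real,
      Real.norm_of_nonneg dl.le]
  · rw [e2, norm_div, norm_mul, nE, one_mul, xi2_eq, norm_xi (pos _).2.2 (rel _).Y2, norm_real,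
      Real.norm_of_nonneg dl.le]
  · have := Y1 (σ t); have := Y2 (σ t)
    simp only [e1, e2]
    push_cast
    field_simp
  · have := Y1 (σ t); have := Y2 (σ t)
    simp only [e1, e2, Cfg.M]
    push_cast
    field_simp
  · have hs' : (c.s1 : ℂ) + c.s2 = 1 := by exact_mod_cast hc.sum
    have L0 : (L : ℂ) ≠ 0 := ofReal_ne_zero.2 hL.ne'
    have R0 : ((p (σ t)).R : ℂ) ≠ 0 := ofReal_ne_zero.2 (pos _).1.ne'
    have E0 : E (σ t) ≠ 0 := norm_ne_zero_iff.1 (by rw [nE]; exact one_ne_zero)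
    have A0 : 0 < √(m 2 * (m 0 + m 1) / (m 0 + m 1 + m 2)) := by positivity
    have eA : √(m 2 * (m 0 + m 1) / (m 0 + m 1 + m 2)) =
        √(m 0 * m 1 / (m 0 + m 1)) * (c.dl * c.sc) := by
      have h1 := hc.s1; have h2 := hc.s2; have h3 := hc.mu; have h4 := hc.ep
      have : c.dl * c.sc = √c.mm := by unfold Cfg.dl Cfg.sc; field_simp
      rw [this, ← Real.sqrt_mul (by positivity)]
      congr 1
      rw [← hL3, m0, m1, m2, Cfg.mm, Cfg.M]
      field_simp
    have s0 : (c.sc : ℂ) ≠ 0 := ofReal_ne_zero.2 hc.sc.ne'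
    have e3 : ∀ k q Q : ℂ, jac2 m (fun i => L * (![-k, -k, 1 - k] i * Q +
        ![-(c.s2 : ℂ), c.s1, 0] i * q)) =
        (√(m 2 * (m 0 + m 1) / (m 0 + m 1 + m 2)) : ℝ) * (L * Q) := fun k q Q => by
      rw [jac2]
      congr 1
      have h1 : (m 0 : ℂ) + m 1 = L ^ 3 := by exact_mod_cast hL3.symm
      rw [h1, m0, m1]
      simp only [Matrix.cons_val_zero, Matrix.cons_val_one, Matrix.cons_val]
      push_cast
      field_simp
      linear_combination k * Q * hs'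
    have e4 : ∀ k q Q : ℂ, jac1 m (fun i => L * (![-k, -k, 1 - k] i * Q +
        ![-(c.s2 : ℂ), c.s1, 0] i * q)) = (√(m 0 * m 1 / (m 0 + m 1)) : ℝ) * (L * q) :=
      fun k q Q => by
        rw [jac1]
        congr 1
        simp only [Matrix.cons_val_zero, Matrix.cons_val_one]
        linear_combination L * q * hs'
    refine shape_eq ?_ ?_
    · rw [e3]
      exact mul_ne_zero (ofReal_ne_zero.2 A0.ne')
        (mul_ne_zero L0 (div_ne_zero (mul_ne_zero R0 E0) dl0))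
    · rw [e3, e4, eA]
      push_cast
      field_simp

end Pool.Agent.MP_1ba41f_an.K4

end
end MrgPart4

-- marker of a merged file
example : 731051 + 395003 = 731051 + 395003 := rfl
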