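import Mathlib.Data.Int.Star
import Mathlib.Analysis.Complex.ExponentialBounds
import Mathlib.Analysis.Fourier.AddCircleMulti
import Mathlib.Topology.MetricSpace.Contracting
import Pool.Agent.MP_1ba41f_an.K4.Nf

-- ======== part 0: formerly Pool.Agent.MP_1ba41f_an.K4.Avg
section MrgPart0

/-! PROJECT LUNAR, row AVG: averaging over one angle. -/

noncomputable section
open Finset

namespace Pool.Agent.MP_1ba41f_an.K4
open K3

namespace Avg
variable {A : Type} [CommRing A] [Algebra ℝ A] {S : Scale A V6} {x : Fin 3 → A} {z0 : A →ₐ[ℝ] A}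

/-- the bracket of an angle free function with the generator -/
theorem br_gen {w : Fin 3 → ℝ} {j : Fin 3} {h u a : A} (hh : Ang S h) (hu : Ang S u)
    (inv : (w j • S.D (ac j) h) * u = 1) :
    br S w h (u * a) = -S.D (th j) a -
      ∑ i, if i = j then 0 else (w i • S.D (ac i) h) * (u * S.D (th i) a) := by
  have e : ∀ i, w i • (S.D (th i) h * S.D (ac i) (u * a) - S.D (ac i) h * S.D (th i) (u * a)) =
      -((if i = j then S.D (th j) a else 0) +
        if i = j then 0 else (w i • S.D (ac i) h) * (u * S.D (th i) a)) := by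
    intro i
    rw [hh i, Derivation.leibniz (S.D (th i)), hu i, zero_mul, zero_sub, smul_zero, add_zero,
      smul_neg, smul_eq_mul, ← smul_mul_assoc]
    split_ifs with hi
    · subst hi; rw [← mul_assoc, inv, one_mul, add_zero]
    · rw [zero_add]
  rw [br_def, sum_congr rfl fun i _ => e i, sum_neg_distrib, sum_add_distrib]
  simp only [sum_ite_eq', mem_univ, if_true]
  ring

/-- one averaging step -/
theorem step (L : LieStmt) (E : Ext S x z0) {s0 sm s1 C0 C1 : ℝ} (h1 : 0 < s1) (hm : s1 < sm)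
    (h0 : sm ≤ s0) (hC0 : 0 ≤ C0) (hC1 : 0 ≤ C1) :
    ∃ C2 ε : ℝ, 0 ≤ C2 ∧ 0 < ε ∧ ε ≤ 1 ∧ ∀ w T j h P u ϖ π g v,
      AvgData S s0 C0 w T j h P u ϖ π g v → v ≤ ε → ∀ (Z R : A) (ρ : ℝ), 0 ≤ ρ → ρ ≤ 1 →
      Ina S (insert j T) Z → S.Bd sm Z (C1 * π) → Ina S T R → S.Bd sm R (C1 * π * ρ) →
      ∃ Φ m a R', Hom S w sm s1 (C2 * v) Φ ∧ Φ (h + Z + R) = h + (Z + m) + R' ∧
        Ina S (insert j T) m ∧ S.Bd sm m (C1 * π * ρ) ∧ S.D (th j) a = R - m ∧ Ina S T R' ∧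
        S.Bd s1 R' (C2 * π * (ρ * g)) := by
  obtain ⟨d, hd⟩ : ∃ d, d = (sm - s1) / 2 := ⟨_, rfl⟩
  have d0 : 0 < d := by rw [hd]; linarith
  have d1 : d < sm := by rw [hd]; linarith
  have d2 : d < sm - d := by rw [hd]; linarith
  have d3 : s1 = sm - d - d := by rw [hd]; ring
  obtain ⟨K, hK⟩ : ∃ K, K = C0 ^ 2 * C1 / d := ⟨_, rfl⟩
  have K0 : 0 ≤ K := by rw [hK]; positivity
  obtain ⟨K1, hK1⟩ : ∃ K1, K1 = 3 * C0 ^ 2 / d := ⟨_, rfl⟩
  have K10 : 0 ≤ K1 := by rw [hK1]; positivity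
  refine ⟨40 * K / d * (1 + (4 + K1) * C1) + K1 * C1, min 1 (d / (40 * (K + 1))), by positivity,
    lt_min one_pos (by positivity), min_le_left _ _, ?_⟩
  intro w T j h P u ϖ π g v H hv Z R ρ ρ0 ρ1 iZ bZ iR bR
  have π0 : 0 ≤ π := S.nonneg H.bP
  have g0 := H.g0
  have v0 : 0 ≤ v := g0.trans H.gv
  have v1 : v ≤ 1 := hv.trans (min_le_left _ _)
  have g1 : g ≤ 1 := H.gv.trans v1
  have fr := H.fr
  obtain ⟨a, m, e1, e2, ba, bm, inv⟩ := E.avg' j (h1.trans hm) bR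
  have hu : Ang S u := Ang.inv ((H.ang.der (ac j)).smul (w j)) H.inv
  have ia : Ina S T a := fun i hi => (inv _ (iR i hi)).1
  have im : Ina S T m := fun i hi => (inv _ (iR i hi)).2
  have iZ' : Ina S T Z := iZ.mono (subset_insert _ _)
  have bu : S.Bd sm u (C0 / ϖ) := Scale.lev H.bu h0
  have bχ : ∀ i, S.Bd (sm - d) (S.D i (u * a)) (C0 / ϖ * (C1 * π * ρ) / d) := fun i =>
    S.der i d0 d1 (S.mul bu ba)
  have key : ∀ i t, w i * π ≤ C0 * ϖ * t → w i * (C0 / ϖ * (C1 * π * ρ) / d) ≤ K * (ρ * t) := by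
    intro i t ht
    calc w i * (C0 / ϖ * (C1 * π * ρ) / d) = w i * π * (C0 / ϖ * (C1 * ρ) / d) := by ring
      _ ≤ C0 * ϖ * t * (C0 / ϖ * (C1 * ρ) / d) :=
        mul_le_mul_of_nonneg_right ht (by positivity)
      _ = K * (ρ * t) := by rw [hK]; field_simp
  have ρv : ρ * v ≤ v := mul_le_of_le_one_left v0 ρ1
  have hsm : 40 * (K * v) ≤ d := by
    have h2 : v * (40 * (K + 1)) ≤ d := (le_div_iff₀ (by positivity)).1 (hv.trans (min_le_right _ _))
    nlinarith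
  obtain ⟨Φ, hΦ, L2, L3⟩ := L A S w (u * a) (sm - d) d (C0 / ϖ * (C1 * π * ρ) / d) (K * v)
    (K * (ρ * g)) T d0 d2 H.w0 bχ
    (fun i => (key i v (H.all i)).trans (mul_le_mul_of_nonneg_left ρv K0))
    (fun i hi => key i g (H.act i hi)) (by positivity)
    (mul_le_mul_of_nonneg_left ((mul_le_mul_of_nonneg_left H.gv ρ0).trans ρv) K0) hsm
    ((hu.ina T).mul ia)
  rw [← d3] at hΦ L2 L3
  have lv : sm - d ≤ sm := by linarith
  have lv1 : s1 ≤ sm - d := by linarith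
  have anh : S.An (sm - d) h := H.anh.mono (lv.trans h0)
  obtain ⟨O, hO⟩ : ∃ O, O = ∑ i, if i = j then 0 else (w i • S.D (ac i) h) * (u * S.D (th i) a) :=
    ⟨_, rfl⟩
  have hbr : br S w h (u * a) = -(R - m) - O := by rw [br_gen H.ang hu H.inv, e1, hO]
  have bO : S.Bd (sm - d) O (K1 * C1 * π * (ρ * g)) := by
    rw [hO]
    refine Scale.le (Scale.sum_card (c := C0 * ϖ * g * (C0 / ϖ * (C1 * π * ρ / d))) fun i => ?_)
      (le_of_eq ?_)
    · split_ifs with hi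
      · exact S.zero' _ (by positivity)
      · by_cases hT : i ∈ T
        · rw [ia i hT, mul_zero, mul_zero]; exact S.zero' _ (by positivity)
        · exact S.mul (Scale.lev (H.oth i hT hi) (lv.trans h0))
            (S.mul (Scale.lev bu lv) (S.der _ d0 d1 ba))
    · rw [hK1, Fintype.card_fin]; push_cast; field_simp
  have c1 : C1 * π * ρ ≤ C1 * π := mul_le_of_le_one_right (by positivity) ρ1
  have ρg : ρ * g ≤ 1 := mul_le_one₀ ρ1 g0 g1
  have bbr : S.Bd (sm - d) (br S w h (u * a)) ((2 + K1) * C1 * π) := by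
    rw [hbr]
    refine Scale.le (Scale.sub (Scale.neg (Scale.sub (Scale.lev bR lv) (Scale.lev bm lv))) bO) ?_
    have : K1 * C1 * π * (ρ * g) ≤ K1 * C1 * π := mul_le_of_le_one_right (by positivity) ρg
    linarith
  have bZR : S.Bd (sm - d) (Z + R) (2 * C1 * π) :=
    Scale.le (S.add (Scale.lev bZ lv) (Scale.lev bR lv)) (by linarith)
  have t1 := L3 h _ anh (H.ang.ina T) bbr
  obtain ⟨i2, t2⟩ := L2 (Z + R) _ (iZ'.add iR) bZR
  obtain ⟨ch, bh⟩ := anh
  have i1 := (L2 h ch (H.ang.ina T) bh).1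
  refine ⟨Φ, m, a, Φ h + Φ (Z + R) - h - Z - m, hΦ.mono lv le_rfl ?_, ?_, ?_, bm, e1,
    (((i1.add i2).sub (H.ang.ina T)).sub iZ').sub im, ?_⟩
  · have : 0 ≤ (40 * K / d * ((4 + K1) * C1) + K1 * C1) * v := by positivity
    calc 40 * (K * v) / d = 40 * K / d * v := by ring
      _ ≤ _ := by nlinarith
  · rw [add_assoc, hΦ.add ⟨_, bh⟩ ⟨_, bZR⟩]; ring
  · intro i hi
    rcases mem_insert.1 hi with rfl | hi
    exacts [e2, im i hi]
  · refine Scale.le (Scale.cong (S.add (Scale.sub t1 (Scale.lev bO lv1)) t2) ?_) ?_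
    · rw [hbr]; ring
    · have : 0 ≤ 40 * K / d * π * (ρ * g) := by positivity
      calc 40 * (K * (ρ * g)) / d * ((2 + K1) * C1 * π) + K1 * C1 * π * (ρ * g) +
            40 * (K * (ρ * g)) / d * (2 * C1 * π)
          = (40 * K / d * ((4 + K1) * C1) + K1 * C1) * π * (ρ * g) := by ring
        _ ≤ _ := by nlinarith

/-- `N + 1` averaging steps -/
theorem steps (L : LieStmt) (E : Ext S x z0) {s0 C0 : ℝ} (hC0 : 0 ≤ C0) (N : ℕ) :
    ∀ s1 : ℝ, 0 < s1 → s1 < s0 → ∃ C ε : ℝ, 0 ≤ C ∧ 0 < ε ∧ ε ≤ 1 ∧ ∀ w T j h P u ϖ π g v,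
      AvgData S s0 C0 w T j h P u ϖ π g v → v ≤ ε →
      ∃ Ψ Z R m a, Hom S w s0 s1 (C * v) Ψ ∧ Ψ (h + P) = h + Z + R ∧ Ina S (insert j T) Z ∧
        Ina S T R ∧ S.Bd s1 Z (C * π) ∧ S.Bd s1 R (C * π * g ^ (N + 1)) ∧ S.D (th j) m = 0 ∧
        S.D (th j) a = P - m ∧ S.Bd s1 (Z - m) (C * π * g) := by
  induction N with
  | zero =>
    intro s1 h1 h0
    obtain ⟨C2, ε, C20, ε0, ε1, H⟩ := step L E h1 h0 le_rfl hC0 zero_le_one
    refine ⟨C2 + 1, ε, by positivity, ε0, ε1, fun w T j h P u ϖ π g v D hv => ?_⟩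
    have π0 : 0 ≤ π := S.nonneg D.bP
    have g0 := D.g0
    have v0 : 0 ≤ v := g0.trans D.gv
    obtain ⟨Φ, m, a, R', hΦ, e, im, bm, ea, iR, bR⟩ := H w T j h P u ϖ π g v D hv 0 P 1 zero_le_one
      le_rfl (fun _ _ => map_zero _) (S.zero' _ (by positivity)) D.ina (by simpa using D.bP)
    refine ⟨Φ, m, R', m, a, hΦ.mono le_rfl le_rfl (by nlinarith), by simpa using e, im, iR,
      S.mono bm h0.le (by nlinarith [mul_nonneg C20 π0]), Scale.le bR ?_,
      im j (mem_insert_self _ _), ea, ?_⟩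
    · rw [zero_add, pow_one, one_mul]; nlinarith [mul_nonneg π0 g0]
    · rw [sub_self]; exact S.zero' _ (by positivity)
  | succ N ih =>
    intro s1 h1 h0
    have a1 : s1 < (s0 + s1) / 2 := by linarith
    have a2 : (s0 + s1) / 2 < s0 := by linarith
    obtain ⟨C1, ε, C10, ε0, ε1, H⟩ := ih _ (h1.trans a1) a2
    obtain ⟨C2, ε', C20, ε0', -, H'⟩ := step L E h1 a1 a2.le hC0 C10
    refine ⟨2 * C1 + C2 * (1 + C1), min ε ε', by positivity, lt_min ε0 ε0',
      (min_le_left _ _).trans ε1, fun w T j h P u ϖ π g v D hv => ?_⟩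
    have π0 : 0 ≤ π := S.nonneg D.bP
    have g0 := D.g0
    have v0 : 0 ≤ v := g0.trans D.gv
    have v1 : v ≤ 1 := (hv.trans (min_le_left _ _)).trans ε1
    have g1 : g ≤ 1 := D.gv.trans v1
    obtain ⟨Ψ, Z, R, m, a, hΨ, e, iZ, iR, bZ, bR, em, ea, bm⟩ :=
      H w T j h P u ϖ π g v D (hv.trans (min_le_left _ _))
    have ρ0 : 0 ≤ g ^ (N + 1) := by positivity
    have ρg : g ^ (N + 1) ≤ g := by
      rw [pow_succ]; exact mul_le_of_le_one_left g0 (pow_le_one₀ g0 g1)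
    obtain ⟨Φ, m', a', R', hΦ, e', im', bm', -, iR', bR'⟩ := H' w T j h P u ϖ π g v D
      (hv.trans (min_le_right _ _)) Z R (g ^ (N + 1)) ρ0 (ρg.trans g1) iZ bZ iR bR
    have p1 : 0 ≤ C1 * π := by positivity
    have p2 : 0 ≤ C2 * (1 + C1) * π := by positivity
    have p3 : C1 * π * g ^ (N + 1) ≤ C1 * π * g := mul_le_mul_of_nonneg_left ρg p1
    have p4 : C1 * π * g ≤ C1 * π := mul_le_of_le_one_right p1 g1
    refine ⟨fun f => Φ (Ψ f), Z + m', R', m, a, (hΨ.comp hΦ a2.le a1.le).mono le_rfl le_rfl ?_,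
      (congrArg Φ e).trans e', iZ.add im', iR', S.mono (S.add bZ bm') a1.le (by nlinarith), Scale.le bR' ?_,
      em, ea, S.mono (Scale.cong (S.add bm bm') (by ring)) a1.le ?_⟩
    · have q1 : C1 * v ≤ C1 := mul_le_of_le_one_right C10 v1
      have q2 : C2 * v * (1 + C1 * v) ≤ C2 * v * (1 + C1) :=
        mul_le_mul_of_nonneg_left (by linarith) (by positivity)
      nlinarith [mul_nonneg C10 v0]
    · rw [← pow_succ]
      refine mul_le_mul_of_nonneg_right (mul_le_mul_of_nonneg_right ?_ π0) (by positivity)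
      nlinarith [mul_nonneg C20 C10]
    · nlinarith [mul_nonneg p2 g0]

end Avg

theorem avg (L : LieStmt) : AvgStmt := by
  intro A _ _ S x z0 E N s0 s1 C0 h1 h0
  by_cases hC0 : 0 ≤ C0
  swap
  · refine ⟨0, 1, le_rfl, one_pos, fun w T j h P u ϖ π g v D _ => absurd ?_ hC0⟩
    have := S.nonneg D.bu
    rwa [le_div_iff₀ D.fr, zero_mul] at this
  obtain ⟨C, ε, C0', ε0, ε1, H⟩ := Avg.steps L E hC0 N s1 h1 h0
  refine ⟨C, ε, C0', ε0, fun w T j h P u ϖ π g v D hv => ?_⟩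
  obtain ⟨Ψ, Z, R, m, a, hΨ, e, iZ, iR, bZ, bR, em, ea, bm⟩ := H w T j h P u ϖ π g v D hv
  have π0 : 0 ≤ π := S.nonneg D.bP
  have g0 := D.g0
  refine ⟨Ψ, Z, R, hΨ, e, iZ, iR, bZ, Scale.le bR ?_, fun m' a' em' ea' => ?_⟩
  · refine mul_le_mul_of_nonneg_left ?_ (by positivity)
    rw [pow_succ]
    exact mul_le_of_le_one_right (by positivity) (D.gv.trans (hv.trans ε1))
  · rw [← E.mean_eq j ea ea' em em']; exact bm

end Pool.Agent.MP_1ba41f_an.K4

end
end MrgPart0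

-- ======== part 1: formerly Pool.Agent.MP_1ba41f_an.K4.Ctr
section MrgPart1

/-! PROJECT LUNAR, row CTR: normal form with counterterms. -/

noncomputable section
open Finset

namespace Pool.Agent.MP_1ba41f_an.K4
open K3

namespace Ctr
variable {A : Type} [CommRing A] [Algebra ℝ A] {S : Scale A V6} {x : Fin 3 → A} {z0 : A →ₐ[ℝ] A}

/-- the part of second order in the actions -/
def Jq (S : Scale A V6) (x : Fin 3 → A) (z0 : A →ₐ[ℝ] A) (f : A) : A :=
  f - z0 f - ∑ j, z0 (S.D (ac j) f) * x j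

theorem Jq_J2 (h : Ext S x z0) (f : A) : J2 S z0 (Jq S x z0 f) := by
  refine ⟨by simp [Jq, map_sum, h.zz, h.zx], fun i => ?_⟩
  simp only [Jq, map_sub, map_sum, Derivation.leibniz, h.zac, h.Dx, smul_eq_mul, mul_zero, add_zero,
    mul_ite, mul_one, sum_ite_eq, mem_univ, if_true, h.zz, sub_zero, sub_self]

theorem Jq_aff (h : Ext S x z0) {k0 k1 : A} (h0 : S.Cst k0) (h1 : S.Cst k1) (i) (G : A) :
    Jq S x z0 (k0 + k1 * x i + G) = Jq S x z0 G := by
  have e : ∀ j, z0 (S.D (ac j) (k0 + k1 * x i + G)) * x j =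
      (if j = i then k1 * x j else 0) + z0 (S.D (ac j) G) * x j := fun j => by
    rw [map_add (S.D _), map_add (S.D _), h0, Derivation.leibniz, h1, h.Dx]
    split_ifs <;> simp [h.z_cst h1, add_mul]
  simp only [Jq, e, sum_add_distrib, sum_ite_eq', mem_univ, if_true]
  simp only [map_add, map_mul, h.zx, h.z_cst h0]
  ring

theorem Jq_bd (h : Ext S x z0) {f : A} {c : ℝ} (hf : S.Bd (1 / 2) f c) :
    S.Bd (1 / 4) (Jq S x z0 f) (38 * c) := by
  have h1 : S.Bd (1 / 4) f c := Scale.lev hf (by norm_num)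
  have h2 : ∀ j, S.Bd (1 / 4) (z0 (S.D (ac j) f) * x j) (c / (1 / 4) * 3) := fun j =>
    S.mul (h.zb (Scale.lev (S.der (ac j) (d := 1 / 4) (by norm_num) (by norm_num) hf)
      (by norm_num))) (h.bx' (by norm_num) j)
  exact Scale.le (Scale.sub (Scale.sub h1 (h.zb h1)) (Scale.sum_card h2)) (le_of_eq (by simp; ring))

theorem zD_bd (h : Ext S x z0) {f : A} {c : ℝ} (ha : Ang S f) (hf : S.Bd (1 / 2) f c) (j) :
    S.Bd 1 (z0 (S.D (ac j) f)) (4 * c) :=
  Scale.le ((h.cst_z (ha.der _)).bd 1 (h.zb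
    (S.der (ac j) (d := 1 / 4) (by norm_num) (by norm_num) hf))) (le_of_eq (by ring))

theorem pw {s B ε : ℝ} {f : A} {k : ℕ} (m : ℕ) (hf : S.Bd s f (B * ε ^ k)) (h0 : 0 < ε)
    (h1 : ε ≤ 1) (hk : m ≤ k) : S.Bd s f (B * ε ^ m) :=
  Scale.le hf (mul_le_mul_of_nonneg_left (pow_le_pow_of_le_one h0.le h1 hk)
    (nonneg_of_mul_nonneg_left (S.nonneg hf) (pow_pos h0 k)))

theorem sm {s B B' ε r : ℝ} {f : A} (m k : ℕ) (hf : S.Bd s f (B * ε ^ (m + k))) (h0 : 0 < ε)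
    (hr : |r| ≤ B' / ε ^ m) : S.Bd s (r • f) (B' * B * ε ^ k) := by
  refine Scale.le (S.smul r hf) ((mul_le_mul_of_nonneg_right hr (S.nonneg hf)).trans (le_of_eq ?_))
  field_simp
  ring

end Ctr

open Ctr in
theorem ctr (nf : NfStmt) (hi : HiterStmt) : CtrStmt := by
  intro A _ _ M s1 s2 η C0 c1 hs1 hs2 hη hc1
  have hE := M.ext
  obtain ⟨CN, εN, hCN, hεN, nf⟩ := nf A M.S M.x M.z0 hE 80 C0
  obtain ⟨CH, c0, hCH, hc0, hi⟩ := hi A M.S M.x M.z0 hE (1 / 4) (by norm_num) (by norm_num)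
  obtain ⟨m, hm⟩ : ∃ m, m = 1 + |C0| / c1 := ⟨_, rfl⟩
  have m1 : 1 ≤ m := by rw [hm]; exact le_add_of_nonneg_right (by positivity)
  obtain ⟨B, B1, b1, b2, b3, b4⟩ : ∃ B, 1 ≤ B ∧ 5 * |C0| + 4 * CN ≤ B ∧ CH * (3 * CN * m ^ 2) ≤ B ∧
      2 * η ^ 3 * |C0| ≤ B ∧ (s1 * s2 * η ^ 3)⁻¹ ≤ B := by
    have p1 : 0 ≤ 5 * |C0| + 4 * CN := by positivity
    have p2 : 0 ≤ CH * (3 * CN * m ^ 2) := by positivity
    have p3 : 0 ≤ 2 * η ^ 3 * |C0| := by positivity
    have p4 : 0 ≤ (s1 * s2 * η ^ 3)⁻¹ := by positivity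
    exact ⟨1 + (5 * |C0| + 4 * CN) + CH * (3 * CN * m ^ 2) + 2 * η ^ 3 * |C0| +
      (s1 * s2 * η ^ 3)⁻¹, by linarith, by linarith, by linarith, by linarith, by linarith⟩
  have B0 : 0 < B := by linarith
  refine ⟨20 * B ^ 2, min (min εN 1) (min (1 / (114 * B)) (c0 / (3 * CN * m ^ 4 + 1))),
    by positivity, by positivity, ?_⟩
  rintro c d ω γ ok rfl rfl rfl hε dat hS hγ hω0 hω1
  simp only [le_min_iff] at hε
  obtain ⟨⟨e1, e2⟩, e3, e4⟩ := hε
  have e0 := ok.ep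
  obtain ⟨Ψ1, Z, R, H1, hΨ1, aZ, bZ, bR⟩ := nf c.w c.ep _ _ _ _ _ _ _ e0 e1 dat.nf
  have N := dat.nf
  have hC0 : 0 ≤ C0 := nonneg_of_mul_nonneg_left (M.S.nonneg N.bP) (pow_pos e0 9)
  rw [abs_of_nonneg hC0] at hm b1 b3
  have hCB : C0 ≤ B := by linarith
  -- the factor `a`
  obtain ⟨a, ha⟩ : ∃ a, a = 1 + c.ep • M.par 0 := ⟨_, rfl⟩
  have ca : M.S.Cst a := ha ▸ Scale.Cst.one.add ((M.par_cst 0).smul _)
  have ba : ∀ s, M.S.Bd s a 3 := fun s => ha ▸ Scale.le (M.S.add (M.S.one s)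
    (M.S.smul _ (M.par_bd s 0))) (by rw [abs_of_pos e0]; linarith)
  have aF : Ang M.S (d.Fb + Z) := N.angb.add aZ
  have bF : M.S.Bd (1 / 2) (d.Fb + Z) ((C0 + CN) * c.ep ^ 14) :=
    Scale.le (M.S.add (Scale.lev N.bb (by norm_num)) (pw 14 bZ e0 e2 (by norm_num))) (le_of_eq (by ring))
  obtain ⟨H, hH⟩ : ∃ H, H = a * (eh0 M c + d.m0 + (d.Fb + Z)) := ⟨_, rfl⟩
  have aH : Ang M.S H := hH ▸ (Ang.of_cst ca).mul ((N.ang0.add N.angm).add aF)
  have anH : M.S.An (1 / 2) H := hH ▸ Scale.An.mul ⟨_, ba _⟩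
    (((N.an0.mono (by norm_num)).add ⟨_, Scale.lev N.bm (by norm_num)⟩).add ⟨_, bF⟩)
  have bQ : M.S.Bd (1 / 4) (Jq M.S M.x M.z0 H) 1 := by
    have e : H = a * (c.ka⁻¹ • c.ep • M.par 1) + a * algebraMap ℝ A (c.ka⁻¹ * c.r0) * M.x 0 +
        a * (d.m0 + (d.Fb + Z)) := by
      rw [hH, eh0]; simp only [Algebra.smul_def, map_mul]; ring
    rw [e, Jq_aff hE (ca.mul (((M.par_cst 1).smul _).smul _)) (ca.mul (.alg _))]
    refine Scale.le (Jq_bd hE (M.S.mul (ba _) (M.S.add (pw 1 (Scale.lev N.bm (by norm_num)) e0 e2 (by norm_num))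
      (pw 1 bF e0 e2 (by norm_num))))) ?_
    rw [le_div_iff₀ (by positivity)] at e3
    linarith [mul_nonneg e0.le hC0, mul_nonneg e0.le hCN, mul_le_mul_of_nonneg_left b1 e0.le]
  have bP : M.S.Bd (1 / 4) (a * R) (3 * CN * c.ep ^ 80) :=
    Scale.le (M.S.mul (ba _) (Scale.lev bR (by norm_num))) (le_of_eq (by ring))
  have p18 : c.ep ^ 18 ≤ 1 := pow_le_one₀ e0.le e2
  have w3 : ∀ j, c.w j ≤ C0 / c.ep ^ 3 := by
    have : C0 / c.ep ^ 2 ≤ C0 / c.ep ^ 3 :=
      div_le_div_of_nonneg_left hC0 (pow_pos e0 3) (pow_le_pow_of_le_one e0.le e2 (by norm_num))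
    intro j
    fin_cases j
    exacts [N.w0.trans this, N.w1, N.w2.trans this]
  obtain ⟨Ψ2, δ, e', Q, H2, cδ, bδ, ce, be, hQ, hΨ2⟩ := hi c.w ω γ (m / c.ep ^ 18) _ _ _ hS ok.w
    (fun j => (w3 j).trans (by
      calc C0 / c.ep ^ 3 = C0 / c1 / c.ep ^ 18 * (c1 * c.ep ^ 15) := by field_simp
        _ ≤ m / c.ep ^ 18 * γ := by
          refine mul_le_mul (div_le_div_of_nonneg_right (by linarith) (by positivity)) hγ
            (by positivity) (by positivity)))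
    ((one_le_div (pow_pos e0 18)).2 (p18.trans m1)) (Jq_J2 hE H) bQ bP (by
      rw [le_div_iff₀ (by positivity)] at e4
      calc 3 * CN * c.ep ^ 80 * (m / c.ep ^ 18) ^ 4 = 3 * CN * m ^ 4 * c.ep ^ 8 := by field_simp
        _ ≤ 3 * CN * m ^ 4 * c.ep ^ 1 := mul_le_mul_of_nonneg_left
          (pow_le_pow_of_le_one e0.le e2 (by norm_num)) (by positivity)
        _ ≤ c0 := by linarith)
  have k1 : CH * (3 * CN * c.ep ^ 80 * (m / c.ep ^ 18)) ≤ B * c.ep ^ 62 := by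
    calc _ = CH * (3 * CN * m) * c.ep ^ 62 := by field_simp
      _ ≤ _ := mul_le_mul_of_nonneg_right (le_trans (mul_le_mul_of_nonneg_left
        (mul_le_mul_of_nonneg_left (le_self_pow₀ m1 two_ne_zero) (by positivity)) hCH) b2) (by positivity)
  have bδ : ∀ j, M.S.Bd 1 (δ j) (B * c.ep ^ 62) := fun j => Scale.le ((cδ j).bd 1 (bδ j)) k1
  have be : M.S.Bd 1 e' (B * c.ep ^ 62) := Scale.le (ce.bd 1 be) k1
  have cz : ∀ j, M.S.Cst (M.z0 (M.S.D (ac j) H)) := fun j => hE.cst_z (aH.der _)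
  have cl : ∀ j, M.S.Cst (algebraMap ℝ A (ω j / c.w j) - M.z0 (M.S.D (ac j) H) + δ j) := fun j =>
    ((Scale.Cst.alg _).sub (cz j)).add (cδ j)
  have zH : ∀ j, M.z0 (M.S.D (ac j) H) = a * (M.z0 (M.S.D (ac j) (eh0 M c)) +
      M.z0 (M.S.D (ac j) d.m0) + M.z0 (M.S.D (ac j) (d.Fb + Z))) := fun j => by
    rw [hH, Derivation.leibniz, ca, smul_zero, add_zero, smul_eq_mul, map_mul, hE.z_cst ca,
      map_add, map_add, map_add, map_add]
  have p14 : 4 * ((C0 + CN) * c.ep ^ 14) ≤ B * c.ep ^ 14 := by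
    rw [← mul_assoc]; exact mul_le_mul_of_nonneg_right (by linarith) (by positivity)
  have bG : ∀ j, M.S.Bd 1 (δ j - a * M.z0 (M.S.D (ac j) (d.Fb + Z))) (4 * B * c.ep ^ 14) := fun j =>
    Scale.le (Scale.sub (pw 14 (bδ j) e0 e2 (by norm_num)) (M.S.mul (ba 1) (Scale.le (zD_bd hE aF bF j) p14)))
      (le_of_eq (by ring))
  have BB : B ≤ B ^ 2 := le_self_pow₀ B1 two_ne_zero
  have Be := mul_le_mul_of_nonneg_right BB e0.le
  have Be1 := mul_le_mul_of_nonneg_right B1 e0.le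
  have BeC := mul_le_mul_of_nonneg_right hCB e0.le
  have wB : ∀ j, |c.w j| ≤ B / c.ep ^ 3 := fun j => by
    rw [abs_of_pos (ok.w j)]
    exact (w3 j).trans (div_le_div_of_nonneg_right hCB (by positivity))
  have w0 := (ok.w 0).ne'
  have w1 := (ok.w 1).ne'
  have w2 := (ok.w 2).ne'
  have n0 := ok.n.ne'
  have k0 := ok.ka.ne'
  refine ⟨fun f => Ψ2 (Ψ1 f), Q, M.z0 H + e',
    fun j => algebraMap ℝ A (ω j / c.w j) - M.z0 (M.S.D (ac j) H) + δ j, fun j => Ψ2 (M.x j),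
    ?_, ?_, hQ, (hE.cst_z aH).add ce, cl, ?_, ?_, ?_, ?_⟩
  · refine ((H1.mono le_rfl (by norm_num) le_rfl).comp H2 (by norm_num) (by norm_num)).mono le_rfl
      (by norm_num) ?_
    have q1 : CH * (3 * CN * c.ep ^ 80 * (m / c.ep ^ 18) ^ 2) ≤ B * c.ep := by
      calc _ = CH * (3 * CN * m ^ 2) * c.ep ^ 44 := by field_simp
        _ ≤ B * c.ep ^ 1 := mul_le_mul b2 (pow_le_pow_of_le_one e0.le e2 (by norm_num))
          (by positivity) B0.le
        _ = _ := by rw [pow_one]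
    have q2 : CN * c.ep ≤ B * c.ep := mul_le_mul_of_nonneg_right (by linarith) e0.le
    have q3 : 1 + CN * c.ep ≤ 2 * B := by linarith [mul_le_mul_of_nonneg_left e2 B0.le]
    have q4 := mul_le_mul q1 q3 (by positivity) (by positivity)
    linarith
  · have anK : M.S.An 1 (eh0 M c + d.P0 + d.P1) := (N.an0.add ⟨_, N.bP⟩).add
      ⟨_, Scale.cong (M.S.add N.oct N.bq) (sub_add_cancel _ _)⟩
    obtain ⟨cH, bH⟩ := anH
    have a1 : M.S.An (1 / 4) (M.z0 H) := ⟨_, hE.zb (Scale.lev bH (by norm_num))⟩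
    have ax : ∀ j, M.S.An (1 / 4) (M.x j) := fun j => ⟨_, hE.bx' (by norm_num) j⟩
    have aδ : ∀ j, M.S.An (1 / 4) (δ j) := fun j => ⟨_, Scale.lev (bδ j) (by norm_num)⟩
    have a2 : ∀ j, M.S.An (1 / 4)
        (algebraMap ℝ A (ω j / c.w j) - M.z0 (M.S.D (ac j) H) + δ j) := fun j =>
      ((Scale.An.alg _ _).sub ⟨_, Scale.lev (zD_bd hE aH bH j) (by norm_num)⟩).add (aδ j)
    have a3 : M.S.An (1 / 4) (NN c.w ω M.x + Jq M.S M.x M.z0 H + a * R + ∑ j, δ j * M.x j) :=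
      (((hE.an_NN (by norm_num) _ _).add ⟨_, bQ⟩).add ⟨_, bP⟩).add
        (.sum _ fun j _ => (aδ j).mul (ax j))
    have e : a * (eh0 M c + d.m0 + d.Fb + Z + R) = M.z0 H +
        (NN c.w ω M.x + Jq M.S M.x M.z0 H + a * R + ∑ j, δ j * M.x j) -
        ∑ j, (algebraMap ℝ A (ω j / c.w j) - M.z0 (M.S.D (ac j) H) + δ j) * M.x j := by
      simp only [NN, Jq, Algebra.smul_def, Fin.sum_univ_three]
      linear_combination -hH
    beta_reduce
    rw [← ha, dat.K, H1.cmul ⟨_, ba 1⟩ ca anK, hΨ1, e,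
      H2.sub (a1.add a3) (.sum _ fun j _ => (a2 j).mul (ax j)), H2.add a1 a3, hΨ2,
      H2.cst a1 (hE.cst_z aH), H2.sum _ fun j _ => (a2 j).mul (ax j),
      sum_congr rfl fun j _ => H2.cmul (a2 j) (cl j) (ax j)]
    ring
  · have f0 : M.S.D (ac 0) (eh0 M c) = (1 / 2 / c.w 0) • (1 : A) := by
      have := congrArg ((c.w 0)⁻¹ • ·) N.fr0
      simp only [smul_smul, inv_mul_cancel₀ w0, one_smul, Algebra.algebraMap_eq_smul_one] at this
      rw [this, div_eq_inv_mul (1 / 2)]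
    have q : |c.w 0 / c.ep| ≤ B / c.ep ^ 4 := by
      rw [abs_div, abs_of_pos e0, pow_succ, ← div_div]
      exact div_le_div_of_nonneg_right (wB 0) e0.le
    refine Scale.le (Scale.cong (sm 4 1 (pw 5 (bG 0) e0 e2 (by norm_num)) e0 q) ?_) (by linarith)
    beta_reduce
    rw [zH, f0, dat.zm0, map_smul, map_one, hω0, Algebra.algebraMap_eq_smul_one]
    generalize M.z0 (M.S.D (ac 0) (d.Fb + Z)) = G
    simp only [ha, add_mul, mul_add, smul_mul_assoc, mul_smul_comm, one_mul, mul_one, mul_zero]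
    match_scalars <;> field_simp <;> ring
  · have q : |c.ka / c.ep| ≤ B / c.ep ^ 3 := by
      have : c.ka = 2 * c.et ^ 3 * c.w 0 := by
        have := ok.et.ne'
        simp only [Cfg.w, Cfg.r0, Matrix.cons_val_zero]; field_simp
      rw [abs_of_pos (div_pos ok.ka e0), pow_succ, ← div_div, this]
      refine div_le_div_of_nonneg_right ((mul_le_mul_of_nonneg_left N.w0 (by positivity)).trans ?_)
        e0.le
      rw [← mul_div_assoc]
      exact div_le_div_of_nonneg_right b3 (by positivity)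
    have g : M.S.Bd 1 (a * M.z0 (d.Fb + Z) + e') (4 * B * c.ep ^ 14) :=
      Scale.le (M.S.add (M.S.mul (ba 1) (Scale.le ((hE.cst_z aF).bd 1 (hE.zb bF))
        (le_trans (by linarith [M.S.nonneg bF]) p14))) (pw 14 be e0 e2 (by norm_num))) (le_of_eq (by ring))
    refine Scale.le (Scale.cong (M.S.add (sm 3 1 (pw 4 g e0 e2 (by norm_num)) e0 q)
      (M.S.smul c.ep (M.S.mul (M.par_bd 1 0) (M.par_bd 1 1)))) ?_)
      (by rw [abs_of_pos e0]; linarith)
    rw [hH, map_mul, hE.z_cst ca, map_add M.z0 (_ + _), map_add M.z0 (eh0 M c), dat.zm, eh0,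
      map_smul, map_add M.z0 (_ • _), map_smul, map_smul, hE.zx, hE.z_cst (M.par_cst 1)]
    generalize M.z0 (d.Fb + Z) = G
    simp only [ha, add_mul, mul_add, smul_mul_assoc, mul_smul_comm, one_mul,
      smul_zero, add_zero]
    match_scalars <;> (field_simp; try ring)
  · have q : |(c.n * c.ep)⁻¹| ≤ 1 / c.ep ^ 7 := by
      rw [abs_of_pos (inv_pos.2 (mul_pos ok.n e0)), one_div, pow_succ]
      exact inv_anti₀ (by positivity) (mul_le_mul_of_nonneg_right ok.n1 e0.le)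
    have g1 : M.S.Bd 1 (algebraMap ℝ A (ω 1 - c.n / 2)) (1 * c.ep ^ 15) :=
      Scale.le (M.S.alg 1 _) (by rwa [one_mul])
    have g2 := Scale.le (c' := 8 * B ^ 2 * c.ep ^ (7 + 1)) (M.S.add (Scale.sub (pw 8 g1 e0 e2 (by norm_num))
      (M.S.mul (ba 1) dat.zm1)) (sm 3 8 (pw 11 (bG 1) e0 e2 (by norm_num)) e0 (wB 1))) (by
        have : 0 < c.ep ^ (7 + 1) := pow_pos e0 8
        rw [show c.ep ^ 8 = c.ep ^ (7 + 1) from rfl]
        linarith [mul_le_mul_of_nonneg_right hCB this.le, mul_le_mul_of_nonneg_right BB this.le,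
          mul_le_mul_of_nonneg_right B1 this.le])
    have g3 : M.S.Bd 1 (M.par 1 - 3 * M.par 2) 8 :=
      Scale.le (Scale.cong (Scale.sub (M.par_bd 1 1) (M.S.smul 3 (M.par_bd 1 2)))
        (by rw [Algebra.smul_def, map_ofNat])) (by norm_num)
    refine Scale.le (Scale.cong (Scale.sub (sm 7 1 g2 e0 q)
      (M.S.smul (c.ep / 2) (M.S.mul (M.par_bd 1 0) g3))) ?_)
      (by rw [abs_of_pos (half_pos e0)]; linarith)
    beta_reduce
    rw [zH, N.fr1, map_zero, Algebra.algebraMap_eq_smul_one, Algebra.algebraMap_eq_smul_one,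
      add_sub_assoc (M.par 0)]
    generalize M.z0 (M.S.D (ac 1) (d.Fb + Z)) = G
    generalize M.z0 (M.S.D (ac 1) d.m0) = G'
    generalize M.par 1 - 3 * M.par 2 = u
    simp only [ha, add_mul, mul_add, mul_sub, smul_add, smul_mul_assoc, mul_smul_comm, one_mul,
      mul_one, zero_add]
    match_scalars <;> field_simp <;> ring
  · have n2 := ok.n2
    have r0 := ok.r0
    have q : |(c.n2 * c.r0)⁻¹| ≤ B / c.ep ^ 14 := by
      rw [abs_of_pos (by positivity)]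
      calc (c.n2 * c.r0)⁻¹ ≤ (c.s1 * c.s2 * c.ep ^ 14 * c.r0)⁻¹ :=
            inv_anti₀ (by positivity) (mul_le_mul_of_nonneg_right ok.n2_ge r0.le)
        _ = (c.s1 * c.s2 * c.et ^ 3)⁻¹ / c.ep ^ 14 := by rw [Cfg.r0]; field_simp
        _ ≤ _ := div_le_div_of_nonneg_right b4 (by positivity)
    have g : M.S.Bd 1 (δ 2 - a * M.z0 (M.S.D (ac 2) Z)) (4 * B * c.ep ^ 16) :=
      Scale.le (Scale.sub (pw 16 (bδ 2) e0 e2 (by norm_num)) (M.S.mul (ba 1) (zD_bd hE aZ bZ 2))) (by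
        linarith [mul_le_mul_of_nonneg_right (show 4 * CN ≤ B by linarith) (pow_pos e0 16).le])
    refine Scale.le (Scale.cong (Scale.sub (Scale.sub (sm 14 1 (pw 15 g e0 e2 (by norm_num)) e0 q)
      (M.S.mul (ba 1) dat.zb2)) (M.S.smul c.ep (M.S.mul (M.par_bd 1 0) dat.bnu))) ?_) (by
        rw [abs_of_pos e0]; linarith)
    beta_reduce
    rw [zH, N.fr2, N.m2, map_zero, map_add, map_add, Algebra.algebraMap_eq_smul_one,
      Algebra.algebraMap_eq_smul_one]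
    generalize M.z0 (M.S.D (ac 2) d.Fb) = G
    generalize M.z0 (M.S.D (ac 2) Z) = G'
    simp only [ha, add_mul, mul_add, mul_sub, smul_add, smul_mul_assoc, mul_smul_comm, one_mul,
      zero_add]
    match_scalars <;> field_simp <;> ring

end Pool.Agent.MP_1ba41f_an.K4

end
end MrgPart1

-- ======== part 2: formerly Pool.Agent.MP_1ba41f_an.K4.Dio
section MrgPart2

/-! PROJECT LUNAR, module DIO: Diophantine vectors, Kronecker density, parameter fixing. -/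

noncomputable section
open Finset

namespace Pool.Agent.MP_1ba41f_an.K4
open K3

namespace Dio

theorem cubic_ne (n : ℕ) : ∀ X Y Z : ℤ, X.natAbs + Y.natAbs + Z.natAbs ≤ n →
    X ^ 3 + 2 * Y ^ 3 + 4 * Z ^ 3 - 6 * X * Y * Z = 0 → X = 0 ∧ Y = 0 ∧ Z = 0 := by
  induction n with
  | zero => intro X Y Z h _; omega
  | succ n ih =>
    intro X Y Z h e
    have ev : ∀ {a b : ℤ}, a ^ 3 = 2 * b → ∃ c, a = 2 * c := fun {a b} hab =>
      Int.prime_two.dvd_of_dvd_pow (n := 3) ⟨b, hab⟩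
    obtain ⟨X1, rfl⟩ := ev (a := X) (b := -Y ^ 3 - 2 * Z ^ 3 + 3 * X * Y * Z) (by linarith)
    obtain ⟨Y1, rfl⟩ := ev (a := Y) (b := -2 * X1 ^ 3 - Z ^ 3 + 3 * X1 * Y * Z) (by nlinarith)
    obtain ⟨Z1, rfl⟩ := ev (a := Z) (b := -X1 ^ 3 - 2 * Y1 ^ 3 + 3 * X1 * Y1 * Z) (by nlinarith)
    by_cases h0 : X1 = 0 ∧ Y1 = 0 ∧ Z1 = 0
    · obtain ⟨rfl, rfl, rfl⟩ := h0; simp
    · exact absurd (ih X1 Y1 Z1 (by omega) (by nlinarith)) h0

theorem exists_t : ∃ t : ℝ, 1 ≤ t ∧ t ≤ 2 ∧ t ^ 3 = 2 := by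
  obtain ⟨t, ⟨h1, h2⟩, h⟩ : (2 : ℝ) ∈ (fun t : ℝ => t ^ 3) '' Set.Icc 1 2 :=
    intermediate_value_Icc (by norm_num) (by fun_prop) (by norm_num)
  exact ⟨t, h1, h2, h⟩

theorem lower {t s : ℝ} (t1 : 1 ≤ t) (t2 : t ≤ 2) (t3 : t ^ 3 = 2) {X Y Z : ℤ}
    (h : ¬ (X = 0 ∧ Y = 0 ∧ Z = 0)) (s1 : 1 ≤ s) (hY : |(Y : ℝ)| ≤ 2 * s) (hZ : |(Z : ℝ)| ≤ 2 * s) :
    1 / 1000 ≤ |(X : ℝ) + Y * t + Z * t ^ 2| * s ^ 2 := by
  set a : ℝ := (X : ℝ) + Y * t + Z * t ^ 2 with ha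
  by_cases h1 : 1 ≤ |a|
  · nlinarith [mul_le_mul h1 (one_le_pow₀ s1 : 1 ≤ s ^ 2) zero_le_one (abs_nonneg a)]
  rw [not_le] at h1
  have hN : X ^ 3 + 2 * Y ^ 3 + 4 * Z ^ 3 - 6 * X * Y * Z ≠ 0 :=
    fun e => h (cubic_ne _ X Y Z le_rfl e)
  set u : ℝ := Y * t with hu
  set v : ℝ := Z * t ^ 2 with hv
  set Q : ℝ := (((X : ℝ) - u) ^ 2 + (u - v) ^ 2 + (v - X) ^ 2) / 2 with hQ
  have e : a * Q = ((X ^ 3 + 2 * Y ^ 3 + 4 * Z ^ 3 - 6 * X * Y * Z : ℤ) : ℝ) := by
    rw [ha, hQ, hu, hv]; push_cast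
    linear_combination ((Y : ℝ) ^ 3 + (Z : ℝ) ^ 3 * (t ^ 3 + 2) - 3 * X * Y * Z) * t3
  have h2 : 1 ≤ |a * Q| := by
    rw [e, ← Int.cast_abs]; exact_mod_cast Int.one_le_abs hN
  have bu : |u| ≤ 4 * s := by
    rw [hu, abs_mul, abs_of_nonneg (by linarith : 0 ≤ t)]; nlinarith [abs_nonneg (Y : ℝ)]
  have bv : |v| ≤ 8 * s := by
    have : t ^ 2 ≤ 4 := by nlinarith
    rw [hv, abs_mul, abs_of_nonneg (by positivity : 0 ≤ t ^ 2)]; nlinarith [abs_nonneg (Z : ℝ)]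
  obtain ⟨u1, u2⟩ := abs_le.1 bu
  obtain ⟨v1, v2⟩ := abs_le.1 bv
  obtain ⟨a1, a2⟩ := abs_lt.1 h1
  have hX : (X : ℝ) = a - u - v := by rw [ha]; ring
  have q1 : ((X : ℝ) - u) ^ 2 ≤ (17 * s) ^ 2 := sq_le_sq' (by linarith) (by linarith)
  have q2 : (u - v) ^ 2 ≤ (12 * s) ^ 2 := sq_le_sq' (by linarith) (by linarith)
  have q3 : (v - X) ^ 2 ≤ (21 * s) ^ 2 := sq_le_sq' (by linarith) (by linarith)
  have hQ1 : Q ≤ 1000 * s ^ 2 := by rw [hQ]; nlinarith [sq_nonneg s]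
  have hQ0 : 0 ≤ Q := by rw [hQ]; positivity
  rw [abs_mul, abs_of_nonneg hQ0] at h2
  nlinarith [mul_le_mul_of_nonneg_left hQ1 (abs_nonneg a)]

theorem near {q : ℝ} (hq : 0 < q) (x u : ℝ) : ∃ a : ℤ, |((a : ℝ) + u) / q - x| ≤ 1 / q := by
  refine ⟨⌊x * q - u⌋, ?_⟩
  have h1 := Int.floor_le (x * q - u)
  have h2 := Int.lt_floor_add_one (x * q - u)
  have e : ((⌊x * q - u⌋ : ℝ) + u) / q - x = ((⌊x * q - u⌋ : ℝ) + u - x * q) / q := by field_simp
  rw [e, abs_div, abs_of_pos hq]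
  exact div_le_div_of_nonneg_right (abs_le.2 ⟨by linarith, by linarith⟩) hq.le

end Dio

open Dio in
theorem dio3 : Dio3Stmt := by
  obtain ⟨t, t1, t2, t3⟩ := exists_t
  refine ⟨1 / 4000, by norm_num, fun τ x y h0 h1 => ?_⟩
  set q : ℕ := ⌈1 / τ⌉₊ with hq
  have i1 : 1 ≤ 1 / τ := by rw [le_div_iff₀ h0]; linarith
  have q1 : 1 / τ ≤ q := Nat.le_ceil _
  have q2 : (q : ℝ) < 1 / τ + 1 := Nat.ceil_lt_add_one (by linarith)
  have q0 : (0 : ℝ) < q := by linarith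
  have q3 : 1 / (q : ℝ) ≤ τ := by
    rw [div_le_iff₀ q0]; rw [div_le_iff₀ h0] at q1; linarith
  have q4 : τ * q ≤ 2 := by
    have : (q : ℝ) ≤ 2 / τ := by rw [show 2 / τ = 1 / τ + 1 / τ by ring]; linarith
    rw [le_div_iff₀ h0] at this; linarith
  obtain ⟨a, ha⟩ := near q0 x t
  obtain ⟨b, hb⟩ := near q0 y (t ^ 2)
  refine ⟨![1 / 2, (a + t) / q, (b + t ^ 2) / q], rfl, ha.trans q3, hb.trans q3, by positivity,
    fun k hk => ?_⟩
  have hs : sz k = |(k 0 : ℝ)| + |(k 1 : ℝ)| + |(k 2 : ℝ)| := by rw [sz, Fin.sum_univ_three]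
  have n0 := abs_nonneg (k 0 : ℝ)
  have n1 := abs_nonneg (k 1 : ℝ)
  have n2 := abs_nonneg (k 2 : ℝ)
  have s1 : 1 ≤ sz k := by
    obtain ⟨j, hj⟩ := Function.ne_iff.1 hk
    have h2 : (1 : ℝ) ≤ |(k j : ℝ)| := by
      rw [← Int.cast_abs]; exact_mod_cast Int.one_le_abs hj
    exact h2.trans (single_le_sum (f := fun j => |(k j : ℝ)|) (fun _ _ => abs_nonneg _) (mem_univ j))
  have hne : ¬ ((q : ℤ) * k 0 + 2 * a * k 1 + 2 * b * k 2 = 0 ∧ 2 * k 1 = 0 ∧ 2 * k 2 = 0) := by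
    rintro ⟨e0, e1, e2⟩
    have e1' : k 1 = 0 := by omega
    have e2' : k 2 = 0 := by omega
    have qn : (q : ℤ) ≠ 0 := by exact_mod_cast q0.ne'
    rw [e1', e2'] at e0
    have e0' : k 0 = 0 := (mul_eq_zero.1 (by simpa using e0)).resolve_left qn
    exact hk (funext fun i => by fin_cases i; exacts [e0', e1', e2'])
  have h := lower t1 t2 t3 hne s1
    (by push_cast; rw [abs_mul, abs_two, hs]; linarith)
    (by push_cast; rw [abs_mul, abs_two, hs]; linarith)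
  have e : ∑ j, (k j : ℝ) * (![1 / 2, (a + t) / q, (b + t ^ 2) / q] : Fin 3 → ℝ) j =
      ((((q : ℤ) * k 0 + 2 * a * k 1 + 2 * b * k 2 : ℤ) : ℝ) + ((2 * k 1 : ℤ) : ℝ) * t +
        ((2 * k 2 : ℤ) : ℝ) * t ^ 2) / (2 * q) := by
    rw [Fin.sum_univ_three]; push_cast
    field_simp; ring
  rw [e, abs_div, abs_of_pos (by positivity : (0 : ℝ) < 2 * q), div_mul_eq_mul_div _ (2 * (q : ℝ)),
    le_div_iff₀ (by positivity)]
  nlinarith

namespace Dio
open MeasureTheory UnitAddTorus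

attribute [local instance] instMeasureSpaceUnitAddCircle

theorem mF_add (n : Fin 3 → ℤ) (x y : UnitAddTorus (Fin 3)) :
    mFourier n (x + y) = mFourier n x * mFourier n y := by
  simp only [mFourier, ContinuousMap.coe_mk, Pi.add_apply, fourier_apply, smul_add,
    AddCircle.toCircle_add, Circle.coe_mul, prod_mul_distrib]

theorem dense_line (a : Fin 3 → ℝ) (h : ∀ k : Fin 3 → ℤ, k ≠ 0 → ∑ j, (k j : ℝ) * a j ≠ 0)
    (x : UnitAddTorus (Fin 3)) :
    x ∈ closure (Set.range fun t : ℝ => (fun j => ((t * a j : ℝ) : UnitAddCircle) :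
      UnitAddTorus (Fin 3))) := by
  set L : ℝ → UnitAddTorus (Fin 3) := fun t j => ((t * a j : ℝ) : UnitAddCircle) with hL
  have Ladd : ∀ s t, L (s + t) = L s + L t := fun s t => by
    funext j; simp only [hL, Pi.add_apply, add_mul, AddCircle.coe_add]
  have L0 : L 0 = 0 := by funext j; simp [hL]
  let f : C(UnitAddTorus (Fin 3), ℂ) :=
    ⟨fun z => ((Metric.infDist z (Set.range L) : ℝ) : ℂ),
      Complex.continuous_ofReal.comp (Metric.continuous_infDist_pt _)⟩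
  have inv : ∀ t z, f (z + L t) = f z := fun t z => by
    have e : (fun z => z + L t) '' Set.range L = Set.range L := by
      ext w; constructor
      · rintro ⟨_, ⟨s, rfl⟩, rfl⟩; exact ⟨s + t, Ladd s t⟩
      · rintro ⟨s, rfl⟩; exact ⟨L (s - t), ⟨_, rfl⟩, by simp only [← Ladd, sub_add_cancel]⟩
    have := Metric.infDist_image (isometry_add_right (L t)) (x := z) (t := Set.range L)
    rw [e] at this
    exact congrArg (fun r : ℝ => (r : ℂ)) this
  have co : ∀ k, k ≠ 0 → mFourierCoeff f k = 0 := fun k hk => by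
    have hk' := h k hk
    set t : ℝ := 1 / (2 * ∑ j, (k j : ℝ) * a j) with ht
    have e1 : mFourier (-k) (L t) = -1 := by
      simp only [mFourier, ContinuousMap.coe_mk, hL, fourier_coe_apply, ← Complex.exp_sum]
      rw [← Complex.exp_neg_pi_mul_I]
      congr 1
      have e : (t * ∑ j, (k j : ℝ) * a j) = 1 / 2 := by rw [ht]; field_simp
      have e' := congrArg (fun r : ℝ => (r : ℂ)) e
      simp only [Fin.sum_univ_three, Pi.neg_apply] at e' ⊢
      push_cast at e' ⊢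
      linear_combination (-2 * Real.pi * Complex.I) * e'
    have : Measure.IsAddHaarMeasure (volume : Measure UnitAddCircle) :=
      inferInstanceAs (Measure.IsAddHaarMeasure AddCircle.haarAddCircle)
    have e2 := integral_add_right_eq_self (μ := (volume : Measure (UnitAddTorus (Fin 3))))
      (fun z => mFourier (-k) z • f z) (L t)
    simp only [inv, mF_add, e1, mul_neg, mul_one, neg_smul, integral_neg] at e2
    unfold mFourierCoeff
    linear_combination (-1 / 2 : ℂ) * e2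
  have hs : Summable (mFourierCoeff f) := summable_of_ne_finset_zero (s := {0}) (by simpa using co)
  have val : ∀ z, f z = mFourierCoeff f 0 := fun z => by
    have h1 := hasSum_mFourier_series_apply_of_summable hs z
    have h2 : HasSum (fun i => mFourierCoeff f i • mFourier i z) (mFourierCoeff f 0 • mFourier 0 z) :=
      hasSum_single 0 fun k hk => by rw [co k hk, zero_smul]
    rw [h1.unique h2, mFourier_zero]; simp
  have e0 : f x = f (L 0) := by rw [val, val]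
  have e1 : Metric.infDist x (Set.range L) = Metric.infDist (L 0) (Set.range L) :=
    Complex.ofReal_injective e0
  rw [Metric.infDist_zero_of_mem (Set.mem_range_self 0)] at e1
  exact (Metric.mem_closure_iff_infDist_zero (Set.range_nonempty L)).2 e1

end Dio

open Dio in
theorem kron3 : Kron3Stmt := by
  intro ω X _ F hω hF hp
  rintro _ ⟨θ, rfl⟩
  have hπ : (2 * Real.pi) ≠ 0 := by positivity
  have per : ∀ (n : Fin 3 → ℤ) (φ : Fin 3 → ℝ), F (φ + fun j => n j * (2 * Real.pi)) = F φ := by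
    intro n φ
    have p : ∀ j, Function.Periodic F (n j • Pi.single j (2 * Real.pi)) := fun j =>
      Function.Periodic.zsmul (fun x => hp x j) _
    have e : (fun j => n j * (2 * Real.pi) : Fin 3 → ℝ) = n 0 • Pi.single 0 (2 * Real.pi) +
        n 1 • Pi.single 1 (2 * Real.pi) + n 2 • Pi.single 2 (2 * Real.pi) := by
      funext j; fin_cases j <;> simp
    rw [e]
    exact (((p 0).add_period (p 1)).add_period (p 2)) φ
  rw [mem_closure_iff]
  intro U hU hθ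
  have hV : IsOpen {φ : Fin 3 → ℝ | F ((2 * Real.pi) • φ) ∈ U} :=
    hU.preimage (hF.comp (continuous_const_smul _))
  have hm : IsOpenMap (Pi.map fun (_ : Fin 3) (r : ℝ) => (r : UnitAddCircle)) :=
    IsOpenMap.piMap (fun _ => QuotientAddGroup.isOpenMap_coe)
      (Filter.Eventually.of_forall fun _ => QuotientAddGroup.mk_surjective)
  have hd := dense_line (fun j => ω j / (2 * Real.pi)) (fun k hk e => hω k hk (by
    simp only [← mul_div_assoc, ← sum_div] at e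
    exact (div_eq_zero_iff.1 e).resolve_right hπ))
    (Pi.map (fun (_ : Fin 3) (r : ℝ) => (r : UnitAddCircle)) ((2 * Real.pi)⁻¹ • θ))
  obtain ⟨_, ⟨φ, hφ, rfl⟩, t, ht⟩ := mem_closure_iff.1 hd _ (hm _ hV)
    ⟨_, by simpa only [Set.mem_ofPred_eq, smul_inv_smul₀ hπ] using hθ, rfl⟩
  have hn : ∀ j, ∃ n : ℤ, t * (ω j / (2 * Real.pi)) = φ j + n := fun j => by
    obtain ⟨n, hn⟩ := AddSubgroup.mem_zmultiples_iff.1 (QuotientAddGroup.eq.1 (congrFun ht j).symm)
    exact ⟨n, by simp only [zsmul_eq_mul, mul_one] at hn; linarith⟩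
  choose n hn using hn
  refine ⟨_, ?_, t, rfl⟩
  have e : t • ω = (2 * Real.pi) • φ + fun j => n j * (2 * Real.pi) := by
    funext j
    have := hn j
    simp only [Pi.smul_apply, smul_eq_mul, Pi.add_apply]
    field_simp at this
    linarith
  show F (t • ω) ∈ U
  rw [e, per]
  exact hφ

theorem param : ParamStmt := by
  intro E ν β d e0 hd h0 h1 h2 cE cν bE lE bν lν
  have d0 : 0 < |d| := abs_pos.2 hd
  have b3 : ∀ p : B4, |p.1 3| ≤ 1 := fun p =>
    (norm_le_pi_norm p.1 3).trans (mem_closedBall_zero_iff.1 p.2)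
  have d3 : ∀ p p' : B4, |p.1 3 - p'.1 3| ≤ dist p p' := fun p p' => dist_le_pi_dist p.1 p'.1 3
  let T0 : I01 → B4 → Fin 4 → ℝ := fun y p => ![2 * E 0 y p, -E 1 y p,
    (2 * E 0 y p - E 1 y p - 2 * E 2 y p) / 3, p.1 3 - (ν y (p.1 3) - β - E 3 y p) / d]
  have mem : ∀ y p, T0 y p ∈ Metric.closedBall (0 : Fin 4 → ℝ) 1 := fun y p => by
    rw [mem_closedBall_zero_iff, pi_norm_le_iff_of_nonneg zero_le_one]
    obtain ⟨a0, a0'⟩ := abs_le.1 (bE 0 y p)
    obtain ⟨a1, a1'⟩ := abs_le.1 (bE 1 y p)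
    obtain ⟨a2, a2'⟩ := abs_le.1 (bE 2 y p)
    obtain ⟨a3, a3'⟩ := abs_le.1 (bE 3 y p)
    obtain ⟨a4, a4'⟩ := abs_le.1 (bν y)
    have a5 := lν y (p.1 3) 0 (b3 p) (by simp)
    rw [sub_zero] at a5
    obtain ⟨a6, a6'⟩ := abs_le.1 (a5.trans (mul_le_of_le_one_right (by positivity) (b3 p)))
    intro i
    fin_cases i
    · exact abs_le.2 ⟨by show -1 ≤ 2 * E 0 y p; linarith, by show 2 * E 0 y p ≤ 1; linarith⟩
    · exact abs_le.2 ⟨by show -1 ≤ -E 1 y p; linarith, by show -E 1 y p ≤ 1; linarith⟩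
    · show |(2 * E 0 y p - E 1 y p - 2 * E 2 y p) / 3| ≤ 1
      exact abs_le.2 ⟨by linarith, by linarith⟩
    · show |p.1 3 - (ν y (p.1 3) - β - E 3 y p) / d| ≤ 1
      rw [show p.1 3 - (ν y (p.1 3) - β - E 3 y p) / d =
        (d * p.1 3 - (ν y (p.1 3) - β - E 3 y p)) / d by field_simp, abs_div, div_le_one d0]
      exact abs_le.2 ⟨by linarith, by linarith⟩
  let T : I01 → B4 → B4 := fun y p => ⟨T0 y p, mem y p⟩
  have con : ∀ y, ContractingWith (1 / 2) (T y) := fun y => by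
    refine ⟨by norm_num, LipschitzWith.of_dist_le_mul fun p p' => ?_⟩
    have r0 : 0 ≤ dist p p' := dist_nonneg
    have k : e0 * dist p p' ≤ 1 / 100 * dist p p' := mul_le_mul_of_nonneg_right h1 r0
    have k' : e0 * dist p p' ≤ |d| / 100 * dist p p' := mul_le_mul_of_nonneg_right h2 r0
    obtain ⟨a0, a0'⟩ := abs_le.1 (lE 0 y p p')
    obtain ⟨a1, a1'⟩ := abs_le.1 (lE 1 y p p')
    obtain ⟨a2, a2'⟩ := abs_le.1 (lE 2 y p p')
    obtain ⟨a3, a3'⟩ := abs_le.1 (lE 3 y p p')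
    obtain ⟨a6, a6'⟩ := abs_le.1 ((lν y (p.1 3) (p'.1 3) (b3 p) (b3 p')).trans
      (mul_le_mul_of_nonneg_left (d3 p p') (by positivity)))
    show dist (T0 y p) (T0 y p') ≤ ((1 / 2 : NNReal) : ℝ) * dist p p'
    rw [show ((1 / 2 : NNReal) : ℝ) = 1 / 2 by simp, dist_pi_le_iff (by positivity)]
    intro i
    fin_cases i
    · show |2 * E 0 y p - 2 * E 0 y p'| ≤ _
      exact abs_le.2 ⟨by linarith, by linarith⟩
    · show |-E 1 y p - -E 1 y p'| ≤ _
      exact abs_le.2 ⟨by linarith, by linarith⟩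
    · show |(2 * E 0 y p - E 1 y p - 2 * E 2 y p) / 3 -
        (2 * E 0 y p' - E 1 y p' - 2 * E 2 y p') / 3| ≤ _
      exact abs_le.2 ⟨by linarith, by linarith⟩
    · show |p.1 3 - (ν y (p.1 3) - β - E 3 y p) / d -
        (p'.1 3 - (ν y (p'.1 3) - β - E 3 y p') / d)| ≤ _
      rw [show p.1 3 - (ν y (p.1 3) - β - E 3 y p) / d -
          (p'.1 3 - (ν y (p'.1 3) - β - E 3 y p') / d) = (E 3 y p - E 3 y p' -
          (ν y (p.1 3) - ν y (p'.1 3) - d * (p.1 3 - p'.1 3))) / d by field_simp; ring,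
        abs_div, div_le_iff₀ d0]
      have r1 : 0 ≤ |d| * dist p p' := mul_nonneg d0.le r0
      exact abs_le.2 ⟨by nlinarith, by nlinarith⟩
  have : CompleteSpace B4 := Metric.isClosed_closedBall.completeSpace_coe
  have : Nonempty B4 := ⟨⟨0, by simp⟩⟩
  have cT : ∀ p, Continuous fun y => T y p := fun p => by
    refine Continuous.subtype_mk (continuous_pi fun i => ?_) _
    have c0 := cE 0 p
    have c1 := cE 1 p
    have c2 := cE 2 p
    have c3 := cE 3 p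
    have c4 := cν _ (b3 p)
    fin_cases i
    · show Continuous fun y => 2 * E 0 y p
      fun_prop
    · show Continuous fun y => -E 1 y p
      fun_prop
    · show Continuous fun y => (2 * E 0 y p - E 1 y p - 2 * E 2 y p) / 3
      fun_prop
    · show Continuous fun y => p.1 3 - (ν y (p.1 3) - β - E 3 y p) / d
      fun_prop
  refine ⟨fun y => (con y).fixedPoint, continuous_iff_continuousAt.2 fun y0 => ?_, fun y => ?_⟩
  · have f0 : T y0 (con y0).fixedPoint = (con y0).fixedPoint := (con y0).fixedPoint_isFixedPt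
    rw [ContinuousAt, tendsto_iff_dist_tendsto_zero]
    have c : Continuous fun y => dist (con y0).fixedPoint (T y (con y0).fixedPoint) /
        (1 - ((1 / 2 : NNReal) : ℝ)) := (continuous_const.dist (cT _)).div_const _
    have t0 := c.tendsto y0
    simp only [f0, dist_self, zero_div] at t0
    refine squeeze_zero (fun _ => dist_nonneg) (fun y => ?_) t0
    rw [dist_comm]
    exact (con y).dist_fixedPoint_le _
  · have f0 : T0 y (con y).fixedPoint = ((con y).fixedPoint).1 :=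
      congrArg Subtype.val (con y).fixedPoint_isFixedPt
    beta_reduce
    generalize (con y).fixedPoint = p at f0 ⊢
    have e0 : 2 * E 0 y p = p.1 0 := congrFun f0 0
    have e1 : -E 1 y p = p.1 1 := congrFun f0 1
    have e2 : (2 * E 0 y p - E 1 y p - 2 * E 2 y p) / 3 = p.1 2 := congrFun f0 2
    have e3 : p.1 3 - (ν y (p.1 3) - β - E 3 y p) / d = p.1 3 := congrFun f0 3
    have e4 : (ν y (p.1 3) - β - E 3 y p) / d = 0 := by linarith
    have e5 := (div_eq_zero_iff.1 e4).resolve_right hd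
    exact ⟨by linarith, by linarith, by linarith, by linarith⟩

end Pool.Agent.MP_1ba41f_an.K4

end
end MrgPart2

-- ======== part 3: formerly Pool.Agent.MP_1ba41f_an.K4.Hiter
section MrgPart3

/-! PROJECT LUNAR: iteration of the counterterm step. -/

noncomputable section
open Finset

namespace Pool.Agent.MP_1ba41f_an.K4
open K3

namespace Hiter
variable {A : Type} [CommRing A] [Algebra ℝ A] {S : Scale A V6} {w : Fin 3 → ℝ}

/-- geometric convergence at level `s` -/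
def Cv (S : Scale A V6) (s : ℝ) (u : ℕ → A) (g : A) : Prop :=
  ∃ c, ∀ n : ℕ, S.Bd s (g - u n) (c / 2 ^ n)

theorem lim {s c : ℝ} {u : ℕ → A} (hs : 0 < s) (h : ∀ n, S.Bd s (u (n + 1) - u n) (c / 2 ^ n)) :
    ∃ g, ∀ n : ℕ, S.Bd s (g - u n) (2 * c / 2 ^ n) := by
  obtain ⟨g, hg⟩ := S.complete (f := fun n => u (n + 1) - u n) hs h
  refine ⟨g + u 0, fun n => Scale.cong (hg n) ?_⟩
  rw [sum_range_sub]; ring

namespace Cv
variable {s s' : ℝ} {u v : ℕ → A} {g h : A}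

theorem const (s : ℝ) (g : A) : Cv S s (fun _ => g) g :=
  ⟨0, fun n => by simpa using S.zero' s le_rfl⟩
theorem lev (a : Cv S s u g) (hs : s' ≤ s) : Cv S s' u g :=
  let ⟨c, a⟩ := a; ⟨c, fun n => Scale.lev (a n) hs⟩
theorem add (a : Cv S s u g) (b : Cv S s v h) : Cv S s (fun n => u n + v n) (g + h) :=
  let ⟨c, a⟩ := a; let ⟨c', b⟩ := b
  ⟨c + c', fun n => Scale.le (Scale.cong (S.add (a n) (b n)) (by ring)) (le_of_eq (by ring))⟩
theorem sub (a : Cv S s u g) (b : Cv S s v h) : Cv S s (fun n => u n - v n) (g - h) :=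
  let ⟨c, a⟩ := a; let ⟨c', b⟩ := b
  ⟨c + c', fun n => Scale.le (Scale.cong (Scale.sub (a n) (b n)) (by ring)) (le_of_eq (by ring))⟩
theorem smul (r : ℝ) (a : Cv S s u g) : Cv S s (fun n => r • u n) (r • g) :=
  let ⟨c, a⟩ := a
  ⟨|r| * c, fun n => Scale.le (Scale.cong (S.smul r (a n)) (smul_sub _ _ _)) (le_of_eq (by ring))⟩
theorem uniq (a : Cv S s u g) (b : Cv S s u h) : g = h := by
  obtain ⟨c, hc⟩ := a.sub b
  exact sub_eq_zero.1 (S.sep (s := s) (c := c) fun n => by simpa using hc n)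
theorem mul (a : Cv S s u g) (b : Cv S s v h) (hg : S.An s g) (hh : S.An s h) :
    Cv S s (fun n => u n * v n) (g * h) := by
  obtain ⟨c, a⟩ := a
  obtain ⟨c', b⟩ := b
  obtain ⟨G, hg⟩ := hg
  obtain ⟨H, hh⟩ := hh
  have c0 : 0 ≤ c := by simpa using S.nonneg (a 0)
  refine ⟨c * H + (G + c) * c', fun n => ?_⟩
  have hu : S.Bd s (u n) (G + c) := Scale.le (Scale.cong (Scale.sub hg (a n)) (by ring))
    (by linarith [div_le_self c0 (one_le_pow₀ one_le_two : (1 : ℝ) ≤ 2 ^ n)])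
  exact Scale.le (Scale.cong (S.add (S.mul (a n) hh) (S.mul hu (b n))) (by ring))
    (le_of_eq (by ring))
theorem sum {ι : Type} (t : Finset ι) {U : ι → ℕ → A} {G : ι → A} (a : ∀ i, Cv S s (U i) (G i)) :
    Cv S s (fun n => ∑ i ∈ t, U i n) (∑ i ∈ t, G i) := by
  choose c hc using a
  refine ⟨∑ i ∈ t, c i, fun n => ?_⟩
  rw [← sum_sub_distrib, sum_div]
  exact Scale.sum t fun i _ => hc i n
theorem der (i : V6) (a : Cv S s u g) (h0 : 0 < s') (h1 : s' < s) :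
    Cv S s' (fun n => S.D i (u n)) (S.D i g) := by
  obtain ⟨c, a⟩ := a
  refine ⟨c / (s - s'), fun n => ?_⟩
  have := S.der i (d := s - s') (by linarith) (by linarith) (a n)
  rw [sub_sub_cancel, map_sub, div_right_comm] at this
  exact this
theorem z {x : Fin 3 → A} {z0 : A →ₐ[ℝ] A} (hE : Ext S x z0) (a : Cv S s u g) :
    Cv S s (fun n => z0 (u n)) (z0 g) :=
  let ⟨c, a⟩ := a; ⟨c, fun n => Scale.cong (hE.zb (a n)) (map_sub _ _ _)⟩
theorem eq (a : Cv S s u g) (e : ∀ n, u n = h) : g = h :=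
  a.uniq (by rw [show u = fun _ => h from funext e]; exact const s h)
theorem br (a : Cv S s u g) (b : Cv S s v h) (hg : S.An s g) (hh : S.An s h) (h0 : 0 < s')
    (h1 : s' < s) : Cv S s' (fun n => K4.br S w (u n) (v n)) (K4.br S w g h) := by
  simp only [br_def]
  exact sum _ fun j => smul _ (((a.der _ h0 h1).mul (b.der _ h0 h1) (hg.der _ h0 h1)
    (hh.der _ h0 h1)).sub ((a.der _ h0 h1).mul (b.der _ h0 h1) (hg.der _ h0 h1) (hh.der _ h0 h1)))
theorem cst (a : Cv S s u g) (hs : 0 < s) (hu : ∀ n, S.Cst (u n)) : S.Cst g := fun i =>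
  (a.der i (half_pos hs) (half_lt_self hs)).eq fun n => hu n i
theorem j2 {x : Fin 3 → A} {z0 : A →ₐ[ℝ] A} (hE : Ext S x z0) (a : Cv S s u g) (hs : 0 < s)
    (hu : ∀ n, J2 S z0 (u n)) : J2 S z0 g :=
  ⟨(a.z hE).eq fun n => (hu n).1, fun i =>
    ((a.der (ac i) (half_pos hs) (half_lt_self hs)).z hE).eq fun n => (hu n).2 i⟩

end Cv

/-- limit of a sequence of transformations -/
theorem homLim {s0 s1 η κ : ℝ} {Ψ : ℕ → A → A} (h1 : 0 < s1) (h2 : s1 ≤ s0)
    (hΨ : ∀ n, Hom S w s0 s1 κ (Ψ n)) (h0 : ∀ f, Ψ 0 f = f)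
    (hd : ∀ n f c, S.Bd s0 f c → S.Bd s1 (Ψ (n + 1) f - Ψ n f) (η * c / 2 ^ n)) :
    ∃ Φ, Hom S w s0 s1 (2 * η) Φ ∧ ∀ f, S.An s0 f → Cv S s1 (fun n => Ψ n f) (Φ f) := by
  have ex : ∀ f, S.An s0 f → ∃ g, ∀ c, S.Bd s0 f c → ∀ n : ℕ,
      S.Bd s1 (g - Ψ n f) (2 * (η * c) / 2 ^ n) := by
    rintro f ⟨c0, hf⟩
    obtain ⟨g, hg⟩ := lim (u := fun n => Ψ n f) h1 fun n => hd n f c0 hf
    refine ⟨g, fun c hc => ?_⟩
    obtain ⟨g', hg'⟩ := lim (u := fun n => Ψ n f) h1 fun n => hd n f c hc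
    rwa [Cv.uniq (u := fun n => Ψ n f) ⟨_, hg⟩ ⟨_, hg'⟩]
  choose! Φ hΦ using ex
  have cv : ∀ f, S.An s0 f → Cv S s1 (fun n => Ψ n f) (Φ f) := fun f hf =>
    let ⟨c, hc⟩ := hf; ⟨_, hΦ f ⟨c, hc⟩ c hc⟩
  have bd : ∀ {f c}, S.Bd s0 f c → S.Bd s1 (Φ f - f) (2 * η * c) := fun {f c} hf => by
    simpa [h0, mul_assoc] using hΦ f ⟨c, hf⟩ c hf 0
  have an : ∀ {f}, S.An s0 f → S.An s1 (Φ f) := fun {f} ⟨c, hf⟩ =>
    ⟨_, Scale.cong (S.add (bd hf) (Scale.lev hf h2)) (by ring)⟩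
  refine ⟨Φ, ⟨fun {f g} a b => ?_, fun {f g} a b => ?_, fun {f} a b => ?_,
    fun {f g} a b c => ?_, bd⟩, cv⟩
  · refine (cv _ (a.add b)).uniq ?_
    simpa only [(hΨ _).add a b] using (cv f a).add (cv g b)
  · refine (cv _ (a.mul b)).uniq ?_
    simpa only [(hΨ _).mul a b] using (cv f a).mul (cv g b) (an a) (an b)
  · exact (cv f a).eq fun n => (hΨ n).cst a b
  · refine ((cv _ c).lev (half_le_self h1.le)).uniq ?_
    simpa only [(hΨ _).brk a b c] using
      (cv f a).br (cv g b) (an a) (an b) (half_pos h1) (half_lt_self h1)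

/-- the levels -/
def sn (s0 : ℝ) (n : ℕ) : ℝ := s0 / 2 + s0 / 2 / 2 ^ n

theorem sn_zero (s0 : ℝ) : sn s0 0 = s0 := by simp [sn]
theorem sn_succ (s0 : ℝ) (n : ℕ) : sn s0 n - 5 * (s0 / 20 / 2 ^ n) = sn s0 (n + 1) := by
  unfold sn; rw [pow_succ]; field_simp; ring
theorem le_sn {s0 : ℝ} (h : 0 < s0) (n : ℕ) : s0 / 2 ≤ sn s0 n :=
  le_add_of_nonneg_right (by positivity)
theorem sn_le {s0 : ℝ} (h : 0 < s0) (n : ℕ) : sn s0 n ≤ s0 := by
  have := div_le_self (half_pos h).le (one_le_pow₀ one_le_two : (1 : ℝ) ≤ 2 ^ n)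
  unfold sn; linarith
theorem sn_anti {s0 : ℝ} (h : 0 < s0) (n : ℕ) : sn s0 (n + 1) ≤ sn s0 n := by
  rw [← sn_succ]; have : 0 ≤ s0 / 20 / 2 ^ n := by positivity
  linarith

/-- the state of the iteration -/
structure St (A : Type) where
  Ψ : A → A
  l : Fin 3 → A
  e : A
  Q : A
  P : A

theorem core {x : Fin 3 → A} {z0 : A →ₐ[ℝ] A} (hE : Ext S x z0) {s0 η a ε : ℝ} (hs : 0 < s0)
    (hs1 : s0 ≤ 1) (hη : 0 ≤ η) (hη1 : 4 * η ≤ 1) {N Q P : A} (hN : S.An s0 N)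
    (step : ∀ (n : ℕ) (Q P : A) (Y : Fin 3 → A), J2 S z0 Q → S.Bd (sn s0 n) Q 2 →
      S.Bd (sn s0 n) P (ε / 2 ^ (19 * n)) → (∀ j, S.Bd (sn s0 n) (Y j) (12 * η)) →
      ∃ (Φ : A → A) (δ : Fin 3 → A) (e Q' P' : A), Hom S w (sn s0 n) (sn s0 (n + 1)) (η / 2 ^ n) Φ ∧
        (∀ j, S.Cst (δ j)) ∧ (∀ j, S.Bd s0 (δ j) (a / 2 ^ n)) ∧ S.Cst e ∧ S.Bd s0 e (a / 2 ^ n) ∧
        J2 S z0 Q' ∧ S.Bd (sn s0 (n + 1)) (Q' - Q) (1 / 2 / 2 ^ n) ∧
        S.Bd (sn s0 (n + 1)) P' (ε / 2 ^ (19 * (n + 1))) ∧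
        Φ (N + Q + P + ∑ j, δ j * (x j + Y j)) = N + Q' + e + P')
    (hJ : J2 S z0 Q) (hQ : S.Bd s0 Q 1) (hP : S.Bd s0 P ε) :
    ∃ (Ψ : A → A) (δ : Fin 3 → A) (e Q' : A), Hom S w s0 (s0 / 2) (4 * η) Ψ ∧
      (∀ j, S.Cst (δ j)) ∧ (∀ j, S.Bd s0 (δ j) (2 * a)) ∧ S.Cst e ∧ S.Bd s0 e (2 * a) ∧
      J2 S z0 Q' ∧ Ψ (N + Q + P + ∑ j, δ j * x j) = N + Q' + e := by
  have hx : ∀ j, S.An s0 (x j) := fun j => ⟨_, hE.bx' hs1 j⟩
  have hF : ∀ l : Fin 3 → A, (∀ j, S.An s0 (l j)) → S.An s0 (N + Q + P + ∑ j, l j * x j) :=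
    fun l hl => ((hN.add ⟨_, hQ⟩).add ⟨_, hP⟩).add (.sum _ fun j _ => (hl j).mul (hx j))
  let I : ℕ → St A → Prop := fun n t =>
    Hom S w s0 (sn s0 n) (4 * η - 4 * η / 2 ^ n) t.Ψ ∧ (∀ j, S.Cst (t.l j)) ∧
      (∀ j, S.An s0 (t.l j)) ∧ S.Cst t.e ∧ S.An s0 t.e ∧ J2 S z0 t.Q ∧
      S.Bd (sn s0 n) t.Q (2 - 1 / 2 ^ n) ∧ S.Bd (sn s0 n) t.P (ε / 2 ^ (19 * n)) ∧
      t.Ψ (N + Q + P + ∑ j, t.l j * x j) = N + t.Q + t.e + t.P
  let R : ℕ → St A → St A → Prop := fun n t t' =>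
    (∀ f c, S.Bd s0 f c → S.Bd (s0 / 2) (t'.Ψ f - t.Ψ f) (2 * η * c / 2 ^ n)) ∧
      (∀ j, S.Bd s0 (t'.l j - t.l j) (a / 2 ^ n)) ∧ S.Bd s0 (t'.e - t.e) (a / 2 ^ n) ∧
      S.Bd (s0 / 2) (t'.Q - t.Q) (1 / 2 / 2 ^ n)
  have key : ∀ n t, I n t → ∃ t', I (n + 1) t' ∧ R n t t' := by
    rintro n t ⟨i1, i2, i3, i4, i5, i6, i7, i8, i9⟩
    have p0 : (0 : ℝ) < 2 ^ n := by positivity
    have p1 : 0 ≤ η / 2 ^ n := by positivity
    have p2 : 4 * η / 2 ^ n = 4 * (η / 2 ^ n) := by ring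
    have p3 : 4 * η / 2 ^ (n + 1) = 2 * (η / 2 ^ n) := by rw [pow_succ]; field_simp; ring
    have l1 := sn_le hs n
    have l2 := sn_anti hs n
    have l3 := le_sn hs (n + 1)
    have hY : ∀ j, S.Bd (sn s0 n) (t.Ψ (x j) - x j) (12 * η) := fun j =>
      Scale.le (i1.bd (hE.bx' hs1 j)) (by nlinarith)
    obtain ⟨Φ, δ, e, Q', P', a1, a2, a3, a4, a5, a6, a7, a8, a9⟩ := step n t.Q t.P
      (fun j => t.Ψ (x j) - x j) i6 (Scale.le i7 (by have := one_div_pos.2 p0; linarith)) i8 hY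
    have aδ : ∀ j, S.An s0 (δ j) := fun j => ⟨_, a3 j⟩
    refine ⟨⟨fun f => Φ (t.Ψ f), fun j => t.l j + δ j, t.e + e, Q', P'⟩,
      ⟨(i1.comp a1 l1 l2).mono le_rfl le_rfl (by nlinarith), fun j => (i2 j).add (a2 j),
        fun j => (i3 j).add (aδ j), i4.add a4, i5.add ⟨_, a5⟩, a6, ?_, a8, ?_⟩,
      fun f c hf => ?_, fun j => Scale.cong (a3 j) (by ring), Scale.cong a5 (by ring),
      Scale.lev a7 l3⟩
    · refine Scale.le (Scale.cong (S.add a7 (Scale.lev i7 l2)) (by ring)) (le_of_eq ?_)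
      rw [pow_succ]; field_simp; ring
    · have e1 : N + Q + P + ∑ j, (t.l j + δ j) * x j =
          N + Q + P + ∑ j, t.l j * x j + ∑ j, δ j * x j := by
        simp only [add_mul, sum_add_distrib, add_assoc]
      have e2 : t.Ψ (∑ j, δ j * x j) = ∑ j, δ j * (x j + (t.Ψ (x j) - x j)) := by
        rw [i1.sum _ fun j _ => (aδ j).mul (hx j)]
        exact sum_congr rfl fun j _ => by rw [i1.cmul (aδ j) (a2 j) (hx j)]; ring
      have an : S.An (sn s0 n) (N + t.Q + t.P + ∑ j, δ j * (x j + (t.Ψ (x j) - x j))) :=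
        (((hN.mono l1).add ⟨_, i7⟩).add ⟨_, i8⟩).add (.sum _ fun j _ =>
          ((aδ j).mono l1).mul (((hx j).mono l1).add ⟨_, hY j⟩))
      show Φ (t.Ψ (N + Q + P + ∑ j, (t.l j + δ j) * x j)) = N + Q' + (t.e + e) + P'
      rw [e1, i1.add (hF _ i3) (.sum _ fun j _ => (aδ j).mul (hx j)), i9, e2,
        show ∀ y, N + t.Q + t.e + t.P + y = N + t.Q + t.P + y + t.e from fun y => by ring,
        a1.add an (i5.mono l1), a9, a1.cst (i5.mono l1) i4]
      ring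
    · have c0 := S.nonneg hf
      refine S.mono (a1.bd (i1.bd' l1 hf)) l3 ?_
      rw [show 2 * η * c / 2 ^ n = η / 2 ^ n * (2 * c) by ring]
      exact mul_le_mul_of_nonneg_left (mul_le_mul_of_nonneg_right (by linarith) c0) p1
  choose! nx hnx using key
  let u : ℕ → St A := fun k => Nat.rec ⟨fun f => f, fun _ => 0, 0, Q, P⟩ (fun k t => nx k t) k
  have hu : ∀ k, I k (u k) := by
    intro k
    induction k with
    | zero =>
      refine ⟨(Hom.id S w s0 _).mono le_rfl le_rfl (by simp), fun _ => .zero, fun _ => .zero _, .zero, .zero _, hJ,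
        ?_, ?_, by simp [u]⟩
      · rw [sn_zero]; exact Scale.le hQ (by norm_num)
      · rw [sn_zero]; exact Scale.le hP (by simp)
    | succ k ih => exact (hnx k _ ih).1
  have hR : ∀ k, R k (u k) (u (k + 1)) := fun k => (hnx k _ (hu k)).2
  have h2 := half_pos hs
  have h3 := half_le_self hs.le
  have hΨ : ∀ n, Hom S w s0 (s0 / 2) (4 * η) (u n).Ψ := fun n => (hu n).1.mono le_rfl (le_sn hs n)
    (sub_le_self _ (by positivity))
  obtain ⟨Ψ, b1, b2⟩ := homLim (Ψ := fun n => (u n).Ψ) h2 h3 hΨ (fun _ => rfl) fun n => (hR n).1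
  choose l hl using fun j => lim (u := fun n => (u n).l j) hs fun n => (hR n).2.1 j
  obtain ⟨e, he⟩ := lim (u := fun n => (u n).e) hs fun n => (hR n).2.2.1
  obtain ⟨Q', hQ'⟩ := lim (u := fun n => (u n).Q) h2 fun n => (hR n).2.2.2
  have bl : ∀ j, S.Bd s0 (l j) (2 * a) := fun j => by simpa [u] using hl j 0
  have cl : ∀ j, S.Cst (l j) := fun j => Cv.cst ⟨_, hl j⟩ hs fun n => (hu n).2.1 j
  have al : ∀ j, S.An s0 (l j) := fun j => ⟨_, bl j⟩
  refine ⟨Ψ, l, e, Q', b1.mono le_rfl le_rfl (le_of_eq (by ring)), cl, bl,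
    Cv.cst ⟨_, he⟩ hs fun n => (hu n).2.2.2.1, by simpa [u] using he 0,
    Cv.j2 hE ⟨_, hQ'⟩ h2 fun n => (hu n).2.2.2.2.2.1, ?_⟩
  have cP : Cv S (s0 / 2) (fun n => (u n).P) 0 := ⟨ε, fun n => by
    refine S.mono (Scale.cong (Scale.neg (hu n).2.2.2.2.2.2.2.1) (zero_sub _).symm) (le_sn hs n) ?_
    exact div_le_div_of_nonneg_left (S.nonneg hP) (by positivity)
      (pow_le_pow_right₀ one_le_two (by omega))⟩
  have cv := ((((Cv.const (S := S) (s0 / 2) N).add ⟨_, hQ'⟩).add (Cv.lev ⟨_, he⟩ h3)).add cP).add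
    (Cv.sum univ fun j => (((Cv.const s0 (l j)).sub ⟨_, hl j⟩).lev h3).mul (b2 _ (hx j))
      (((al j).sub (al j)).mono h3) (b1.an h3 (hx j)))
  have e1 : ∀ n, (u n).Ψ (N + Q + P + ∑ j, l j * x j) =
      N + (u n).Q + (u n).e + (u n).P + ∑ j, (l j - (u n).l j) * (u n).Ψ (x j) := fun n => by
    obtain ⟨-, i2, i3, -, -, -, -, -, i9⟩ := hu n
    have an : ∀ j, S.An s0 (l j - (u n).l j) := fun j => (al j).sub (i3 j)
    rw [show N + Q + P + ∑ j, l j * x j =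
      N + Q + P + ∑ j, (u n).l j * x j + ∑ j, (l j - (u n).l j) * x j by
        simp only [sub_mul, sum_sub_distrib]; ring,
      (hΨ n).add (hF _ i3) (.sum _ fun j _ => (an j).mul (hx j)), i9,
      (hΨ n).sum _ fun j _ => (an j).mul (hx j)]
    exact congrArg _ (sum_congr rfl fun j _ => (hΨ n).cmul (an j) ((cl j).sub (i2 j)) (hx j))
  have := b2 _ (hF l al)
  simp only [e1] at this
  simpa using this.uniq cv

end Hiter

open Hiter in
theorem hiter (hs : HstepStmt) : HiterStmt := by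
  intro A _ _ S x z0 hE s0 h0 h1
  obtain ⟨C, c, hC, hc, H⟩ := hs A S x z0 hE s0 h0 h1
  set d := s0 / 20 with hd
  have d0 : 0 < d := by positivity
  have d1 : d ≤ 1 := by linarith
  refine ⟨4 * C / d ^ 9 + 2 * C, min (c * d ^ 9 / (12 * (C + 1))) (d ^ 18 / (2 ^ 19 * (C + 1))),
    by positivity, by positivity, fun w ω γ M ε Q P hS hw hwM hM hJ hQ hP hε => ?_⟩
  have e0 := S.nonneg hP
  have M0 : 0 ≤ M := by linarith
  have m2 : ε * M ^ 2 ≤ ε * M ^ 4 := mul_le_mul_of_nonneg_left (pow_le_pow_right₀ hM (by omega)) e0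
  have m3 : ε * M ^ 3 ≤ ε * M ^ 4 := mul_le_mul_of_nonneg_left (pow_le_pow_right₀ hM (by omega)) e0
  have t0 : 0 ≤ ε * M ^ 4 := by positivity
  have k1 : 12 * (C + 1) * (ε * M ^ 4) ≤ c * d ^ 9 := by
    have := (le_div_iff₀ (by positivity)).1 (hε.trans (min_le_left _ _)); linarith
  have k2 : 2 ^ 19 * (C + 1) * (ε * M ^ 4) ≤ d ^ 18 := by
    have := (le_div_iff₀ (by positivity)).1 (hε.trans (min_le_right _ _)); linarith
  have k3 : C * (ε * M ^ 2) ≤ C * (ε * M ^ 4) := mul_le_mul_of_nonneg_left m2 hC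
  have k4 : C * (ε * M ^ 3) ≤ C * (ε * M ^ 4) := mul_le_mul_of_nonneg_left m3 hC
  have k5 : 0 ≤ C * (ε * M ^ 4) := by positivity
  have q1 : d ^ 18 ≤ d ^ 10 := pow_le_pow_of_le_one d0.le d1 (by omega)
  have q2 : d ^ 10 ≤ d ^ 9 := pow_le_pow_of_le_one d0.le d1 (by omega)
  have q3 : 0 < d ^ 9 := by positivity
  have q4 : 0 < d ^ 10 := by positivity
  have q5 : 0 < d ^ 18 := by positivity
  obtain ⟨Ψ, δ, e, Q', a1, a2, a3, a4, a5, a6, a7⟩ := core (w := w) hE (ε := ε)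
    (η := C * (ε * M ^ 2) / d ^ 9) (a := C * (ε * M)) h0 h1 (by positivity)
    (by rw [← mul_div_assoc, div_le_one q3]; nlinarith) (hE.an_NN h1 w ω) (fun n Q P Y j2 b1 b2 b3 => by
      have p0 : (0 : ℝ) < 2 ^ n := by positivity
      have p1 : (1 : ℝ) ≤ 2 ^ n := one_le_pow₀ one_le_two
      have pw : ∀ k m : ℕ, k ≤ m → ((2 : ℝ) ^ n) ^ k ≤ (2 ^ n) ^ m := fun k m h =>
        pow_le_pow_right₀ p1 h
      have e19 : (2 : ℝ) ^ (19 * n) = (2 ^ n) ^ 19 := by rw [mul_comm, pow_mul]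
      obtain ⟨Φ, δ, e, Q', P', a1, a2, a3, a4, a5, a6, a7, a8, a9⟩ := H w ω γ M (sn s0 n)
        (d / 2 ^ n) (ε / 2 ^ (19 * n)) _ Q P Y hS hw hwM hM (by positivity) (sn_le h0 n)
        (by rw [sn_succ]; exact le_sn h0 _) j2 b1 b2 b3
        (by rw [← mul_div_assoc, div_mul_eq_mul_div, div_le_iff₀ q3]; nlinarith)
        (by
          rw [e19, div_pow, div_mul_eq_mul_div, ← mul_div_assoc]
          exact div_le_div₀ (by positivity) (by nlinarith) (by positivity) (pw 9 19 (by omega)))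
      rw [sn_succ] at a1 a7 a8
      have g : ∀ (k : ℕ) (y : ℝ), 0 ≤ y → k < 19 →
          y / (2 ^ n) ^ 19 * (2 ^ n) ^ k ≤ y / 2 ^ n := fun k y hy hk => by
        rw [div_mul_eq_mul_div, div_le_div_iff₀ (by positivity) p0, mul_assoc, ← pow_succ]
        exact mul_le_mul_of_nonneg_left (pw _ _ hk) hy
      have ga : C * (ε / 2 ^ (19 * n) * M) ≤ C * (ε * M) / 2 ^ n :=
        le_trans (le_of_eq (by rw [e19]; ring)) (g 0 (C * (ε * M)) (by positivity) (by omega))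
      refine ⟨Φ, δ, e, Q', P', a1.mono le_rfl le_rfl ?_, a2, fun j => Scale.le (a3 j) ga, a4,
        Scale.le a5 ga, a6, Scale.le a7 ?_, Scale.le a8 ?_, a9⟩
      · refine le_trans (le_of_eq ?_) (g 9 _ (by positivity) (by omega))
        rw [e19]; field_simp
      · refine le_trans (le_of_eq ?_) ((g 10 (C * (ε * M ^ 2) / d ^ 10) (by positivity)
          (by omega)).trans (div_le_div_of_nonneg_right ?_ p0.le))
        · rw [e19]; field_simp
        · rw [div_le_iff₀ q4]; nlinarith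
      · have g1 : C * (ε * M ^ 4) / d ^ 18 / (2 ^ n) ^ 19 * (2 ^ n) ^ 18 ≤ 1 / 2 ^ 19 := by
          refine (g 18 _ (by positivity) (by omega)).trans ((div_le_self (by positivity) p1).trans ?_)
          rw [div_le_div_iff₀ q5 (by positivity)]; nlinarith
        refine le_trans (le_of_eq ?_) ((mul_le_mul_of_nonneg_left g1
          (show 0 ≤ ε / (2 ^ n) ^ 19 by positivity)).trans (le_of_eq ?_))
        · rw [e19]; field_simp
        · rw [mul_add, pow_add, e19]; field_simp) hJ hQ hP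
  have u1 : 0 ≤ C / d ^ 9 * (ε * M) := by positivity
  have u2 : 0 ≤ C * (ε * M ^ 2) := by positivity
  have ga : 2 * (C * (ε * M)) ≤ (4 * C / d ^ 9 + 2 * C) * (ε * M) := by
    rw [mul_div_assoc]; nlinarith
  refine ⟨Ψ, δ, e, Q', a1.mono le_rfl le_rfl ?_, a2, fun j => Scale.le (a3 j) ga, a4,
    Scale.le a5 ga, a6, a7⟩
  rw [show (4 * C / d ^ 9 + 2 * C) * (ε * M ^ 2) =
    4 * (C * (ε * M ^ 2) / d ^ 9) + 2 * (C * (ε * M ^ 2)) by ring]
  linarith

end Pool.Agent.MP_1ba41f_an.K4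

end
end MrgPart3

-- ======== part 4: formerly Pool.Agent.MP_1ba41f_an.K4.Hstep
section MrgPart4

/-! PROJECT LUNAR: one step of the counterterm scheme. -/

noncomputable section
open Finset Matrix

namespace Pool.Agent.MP_1ba41f_an.K4
open K3

namespace Hstep
variable {A : Type} [CommRing A] [Algebra ℝ A] {S : Scale A V6} {x : Fin 3 → A}
  {z0 : A →ₐ[ℝ] A} {w ω : Fin 3 → ℝ} {γ M s d t c : ℝ} {Q F : A}

theorem div_le {u v d : ℝ} {m n : ℕ} (h : u ≤ v) (u0 : 0 ≤ u) (d0 : 0 < d) (d1 : d ≤ 1)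
    (e : m ≤ n) : u / d ^ m ≤ v / d ^ n :=
  div_le_div₀ (u0.trans h) h (pow_pos d0 _) (pow_le_pow_of_le_one d0.le d1 e)

/-- the homological equation for one term, up to first order in the actions -/
theorem piece (h : Ext S x z0) (hS : Solv3 S ω γ) (hw : ∀ j, 0 ≤ w j) (hM : ∀ j, w j ≤ M * γ)
    (M1 : 1 ≤ M) (d0 : 0 < d) (ds : 4 * d < s) (s1 : s ≤ 1) (t0 : 0 < t) (ts : 2 * t < s)
    (hQ : J2 S z0 Q) (bQ : S.Bd s Q 2) (bF : S.Bd s F c) :
    ∃ (χ μ : A) (φ : Fin 3 → A), S.Cst μ ∧ (∀ i, S.Cst (φ i)) ∧ (∀ s', S.Bd s' μ c) ∧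
      (∀ s' i, S.Bd s' (φ i) (7 * (c * M / t ^ 5))) ∧
      (∀ i, S.Bd (s - 4 * d) (S.D i χ) (64 * (c * M / d ^ 8 / γ))) ∧
      S.Bd (s - 4 * d) (L3 S ω χ) (128 * (c * M / d ^ 5)) ∧
      z0 (F + br S w Q χ - L3 S ω χ) = μ ∧
      ∀ i, z0 (S.D (ac i) (F + br S w Q χ - L3 S ω χ)) = φ i := by
  have c0 := S.nonneg bF
  have γ0 := hS.pos
  have s0 : 0 < s := by linarith
  have cM : c ≤ c * M := le_mul_of_one_le_right c0 M1
  obtain ⟨g, μ, g1, g2, g3, g4, g5⟩ := h.solve0 hS s0 (h.zb bF) fun i => h.zac i F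
  let f : Fin 3 → A := fun i => z0 (S.D (ac i) F) -
    ∑ k, w k • (z0 (S.D (ac k) (S.D (ac i) Q)) * S.D (th k) g)
  have f0 : ∀ i k, S.D (ac k) (f i) = 0 := fun i k => by
    simp [f, map_sum, h.zac, S.comm (ac k), g2]
  have fb : ∀ u, 0 < u → 2 * u < s → ∀ i, S.Bd (s - 2 * u) (f i) (7 * (c * M / u ^ 5)) := by
    intro u u0 us i
    have u1 : u < s := by linarith
    have u2 : u < s - u := by linarith
    have a1 := Scale.lev (h.zb (S.der (ac i) u0 u1 bF)) (show s - 2 * u ≤ s - u by linarith)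
    have a2 : ∀ k, S.Bd (s - 2 * u) (w k • (z0 (S.D (ac k) (S.D (ac i) Q)) * S.D (th k) g))
        (2 * (c * M / u ^ 5)) := fun k =>
      S.mono (S.smul (w k) (S.mul (h.zb (S.der (ac k) u0 u2 (S.der (ac i) u0 u1 bQ)))
        (S.der (th k) u0 u2 (g4 u u0 u1)))) (by linarith) (by
          rw [abs_of_nonneg (hw k)]
          refine (mul_le_mul_of_nonneg_right (hM k) (by positivity)).trans (le_of_eq ?_)
          field_simp)
    refine Scale.le (Scale.sub a1 (Scale.sum_card a2)) ?_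
    have := div_le (m := 1) (n := 5) cM c0 u0 (by linarith) (by norm_num)
    simp only [pow_one, Fintype.card_fin, Nat.cast_ofNat] at this ⊢
    linarith
  have d2 : 0 < s - 2 * d := by linarith
  have d1 : d ≤ 1 := by linarith
  choose k φ k1 k2 k3 k4 k5 using fun i => h.solve0 hS d2 (fb d d0 (by linarith) i) (f0 i)
  have eL : L3 S ω (g + ∑ i, x i * k i) = z0 F - μ + ∑ i, x i * (f i - φ i) := by
    have : ∀ i, L3 S ω (x i) = 0 := fun i => by simp [L3_apply, h.Tx]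
    simp [map_sum, g3, k3, this]
  have zχ : z0 (g + ∑ i, x i * k i) = g := by simp [map_sum, h.zx, h.zid g2]
  have zQ : ∀ u, z0 (br S w Q u) = 0 := fun u => by rw [br_anti, map_neg, h.z_br_J2 w hQ, neg_zero]
  have bμ : ∀ s', S.Bd s' μ c := fun s' => g5 s c s' s0 (h.zb bF)
  refine ⟨g + ∑ i, x i * k i, μ, φ, g1, k1, bμ,
    fun s' i => k5 i _ _ s' (by linarith) (fb t t0 ts i), fun i => ?_, ?_, ?_, fun i => ?_⟩
  · have a1 := Scale.lev (g4 d d0 (by linarith)) (show s - 2 * d - d ≤ s - d by linarith)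
    have a2 := Scale.sum_card fun i => S.mul (h.bx' (show s - 2 * d - d ≤ 1 by linarith) i)
      (k4 i d d0 (by linarith))
    refine S.mono (S.der i d0 (by linarith) (S.add a1 a2)) (by linarith) ?_
    have := div_le_div_of_nonneg_right (div_le (m := 3) (n := 8) cM c0 d0 d1 (by norm_num)) γ0.le
    calc _ = c / d ^ 3 / γ + 63 * (c * M / d ^ 8 / γ) := by
          simp only [Fintype.card_fin, Nat.cast_ofNat]; field_simp; ring
      _ ≤ _ := by linarith
  · rw [eL]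
    have a1 := Scale.sub (Scale.lev (h.zb bF) (show s - 2 * d ≤ s by linarith)) (bμ _)
    have a2 := Scale.sum_card fun i => S.mul (h.bx' (show s - 2 * d ≤ 1 by linarith) i)
      (Scale.sub (fb d d0 (by linarith) i) (k5 i _ _ _ d2 (fb d d0 (by linarith) i)))
    refine S.mono (S.add a1 a2) (by linarith) ?_
    have := div_le (m := 0) (n := 5) cM c0 d0 d1 (by norm_num)
    simp only [pow_zero, div_one, Fintype.card_fin, Nat.cast_ofNat] at this ⊢
    linarith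
  · rw [eL]
    simp [map_sum, zQ, h.zx, h.zz, h.z_cst g1]
  · have a1 : S.D (ac i) (z0 F - μ + ∑ j, x j * (f j - φ j)) = f i - φ i := by
      simp [map_sum, h.zac, g1 _, f0, k1 _ _, h.Dx]
    have a2 : z0 (br S w (S.D (ac i) Q) (g + ∑ i, x i * k i)) =
        -∑ k, w k • (z0 (S.D (ac k) (S.D (ac i) Q)) * S.D (th k) g) := by
      rw [br_def, map_sum, ← sum_neg_distrib]
      refine sum_congr rfl fun j _ => ?_
      rw [map_smul, map_sub, map_mul, map_mul, ← h.zth, ← h.zth, zχ, hQ.2, map_zero, zero_mul,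
        zero_sub, smul_neg]
    rw [eL, map_sub, map_add, a1, D_br, map_sub, map_add, map_add, zQ, a2, map_sub,
      h.zid (f0 i), h.z_cst (k1 i)]
    simp only [f]
    ring

end Hstep

open Hstep in
theorem hstep (lie : LieStmt) : HstepStmt := by
  intro A _ _ S x z0 h s0 p0 p1
  obtain ⟨K, hK⟩ : ∃ K, K = 7 / (s0 / 8) ^ 5 := ⟨_, rfl⟩
  have K0 : 0 < K := by rw [hK]; positivity
  refine ⟨7680 * (3000 + 48 * K), min (1 / (6 * K)) (1 / 7680), by positivity, by positivity, ?_⟩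
  intro w ω γ M s d ε b Q P Y hS hw hM M1 d0 ss sd hQ bQ bP bY hb hε
  have γ0 := hS.pos
  have ε0 := S.nonneg bP
  have b0 := S.nonneg (bY 0)
  have w0 : ∀ j, 0 ≤ w j := fun j => (hw j).le
  have d1 : d ≤ 1 := by linarith
  have s1 : s ≤ 1 := by linarith
  have e7 : ∀ c, 7 * (c * M / (s0 / 8) ^ 5) = K * (c * M) := fun c => by rw [hK]; ring
  obtain ⟨χP, μP, φ, P1, P2, P3, P4, P5, P6, P7, P8⟩ := piece (t := s0 / 8) h hS w0 hM M1 d0
    (by linarith) s1 (by positivity) (by linarith) hQ bQ bP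
  choose χY μY α Y1 Y2 Y3 Y4 Y5 Y6 Y7 Y8 using fun j => piece (t := s0 / 8) h hS w0 hM M1 d0
    (by linarith) s1 (by positivity) (by linarith) hQ bQ (bY j)
  simp only [e7] at P4 Y4
  have bM : b ≤ b * M := le_mul_of_one_le_right b0 M1
  have εM : ε ≤ ε * M := le_mul_of_one_le_right ε0 M1
  have kb : K * (b * M) ≤ 1 / 6 := by
    have := (le_div_iff₀ (by positivity)).1 (hb.trans (min_le_left _ _))
    linarith
  have b1 : b ≤ 1 := by linarith [hb.trans (min_le_right _ _)]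
  have kb' : K * b ≤ 1 / 6 := (mul_le_mul_of_nonneg_left bM K0.le).trans kb
  obtain ⟨N, N1, N2⟩ := Scale.exists_matInv (S := S) (M := 1 + Matrix.of fun i j => α j i) p0
    (c := K * (b * M)) (by positivity) (fun i j => by simpa using Y4 j s0 i) (by simp; linarith)
  let δ : Fin 3 → A := -(N *ᵥ φ)
  have δe : ∀ i, δ i + ∑ j, δ j * α j i + φ i = 0 := fun i => by
    have : (1 + Matrix.of fun i j => α j i) *ᵥ δ = -φ := by
      simp only [δ, mulVec_neg, mulVec_mulVec, N1, one_mulVec]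
    have := congrFun this i
    rw [add_mulVec, one_mulVec] at this
    simp only [Pi.add_apply, mulVec, dotProduct, of_apply, Pi.neg_apply, mul_comm (α _ _)] at this
    rw [this, neg_add_cancel]
  have δc : ∀ i, S.Cst (δ i) := fun i k => by
    have : (1 + Matrix.of fun i j => α j i) *ᵥ (fun i => S.D k (δ i)) = 0 := by
      funext i
      have := congrArg (S.D k) (δe i)
      rw [add_mulVec, one_mulVec]
      simpa [map_sum, Y2 _ _ k, P2 _ k, mulVec, dotProduct] using this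
    have := congrArg (N *ᵥ ·) this
    simp only [mulVec_mulVec, mul_eq_one_comm.1 N1, one_mulVec, mulVec_zero] at this
    exact congrFun this i
  have δb : ∀ s' i, S.Bd s' (δ i) (4 * K * (ε * M)) := fun s' i => by
    have e : δ i = -(((N - 1) *ᵥ φ) i + φ i) := by simp [δ, sub_mulVec]
    refine (δc i).bd s' (Scale.le (Scale.cong (Scale.neg (S.add (Scale.mulVec N2 (P4 s0) i)
      (P4 s0 i))) e.symm) ?_)
    have a0 : 0 ≤ K * (ε * M) := by positivity
    have := mul_le_mul_of_nonneg_right kb a0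
    simp only [Fintype.card_fin, Nat.cast_ofNat]
    linarith
  have cmb : ∀ {s' u : ℝ} {f : A} {g : Fin 3 → A}, 0 ≤ u → S.Bd s' f (u * ε) →
      (∀ j, S.Bd s' (g j) (u * b)) → S.Bd s' (f + ∑ j, δ j * g j) (3 * u * ε) := by
    intro s' u f g u0 hf hg
    refine Scale.le (S.add hf (Scale.sum_card fun j => S.mul (δb s' j) (hg j))) ?_
    have := mul_le_mul_of_nonneg_right kb (mul_nonneg u0 ε0)
    simp only [Fintype.card_fin, Nat.cast_ofNat]
    linarith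
  obtain ⟨η, hη⟩ : ∃ η, η = ε * M ^ 2 / d ^ 9 := ⟨_, rfl⟩
  have η0 : 0 ≤ η := by rw [hη]; positivity
  have η1 : η ≤ 1 / 7680 := by
    rw [hη, div_le_iff₀ (by positivity)]
    exact hε.trans (mul_le_mul_of_nonneg_right (min_le_right _ _) (by positivity))
  have MM : ε * M ≤ ε * M ^ 2 := by nlinarith [mul_nonneg ε0 (zero_le_one.trans M1)]
  have η2 : ε * M / d ^ 5 ≤ η := hη ▸ div_le MM (by positivity) d0 d1 (by norm_num)
  have η3 : ε * M ≤ η := by
    simpa [hη] using div_le (m := 0) (n := 9) MM (by positivity) d0 d1 (by norm_num)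
  have η4 : η ≤ ε * M ^ 2 / d ^ 10 := hη ▸ div_le le_rfl (by positivity) d0 d1 (by norm_num)
  have η5 : ε ^ 2 * M ^ 4 / d ^ 18 = η * η := by rw [hη]; field_simp
  obtain ⟨χ, hχ⟩ : ∃ χ, χ = χP + ∑ j, δ j * χY j := ⟨_, rfl⟩
  obtain ⟨T, hT⟩ : ∃ T, T = P + ∑ j, δ j * (x j + Y j) := ⟨_, rfl⟩
  have lin : ∀ D : Derivation ℝ A A, (∀ j, D (δ j) = 0) → D χ = D χP + ∑ j, δ j * D (χY j) :=
    fun D hD => by simp [hχ, map_sum, hD]
  have eL := lin (L3 S ω) fun j => by simp [L3_apply, δc j _]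
  have eB : br S w Q χ = br S w Q χP + ∑ j, δ j * br S w Q (χY j) := by
    simpa only [brD_apply] using lin (brD S w Q) fun j => by rw [brD_apply, br_cst_right _ (δc j)]
  have bχ : ∀ i, S.Bd (s - 4 * d) (S.D i χ) (3 * (64 * (M / d ^ 8 / γ)) * ε) := fun i => by
    rw [lin _ fun j => δc j i]
    exact cmb (by positivity) (Scale.le (P5 i) (le_of_eq (by ring)))
      fun j => Scale.le (Y5 j i) (le_of_eq (by ring))
  have bL : S.Bd (s - 4 * d) (L3 S ω χ) (384 * η) := by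
    rw [eL]
    refine Scale.le (cmb (u := 128 * (M / d ^ 5)) (by positivity)
      (Scale.le P6 (le_of_eq (by ring))) fun j => Scale.le (Y6 j) (le_of_eq (by ring))) ?_
    calc _ = 384 * (ε * M / d ^ 5) := by ring
      _ ≤ _ := by linarith
  have hv : ∀ j, w j * (3 * (64 * (M / d ^ 8 / γ)) * ε) ≤ 192 * η * d := fun j =>
    (mul_le_mul_of_nonneg_right (hM j) (by positivity)).trans
      (le_of_eq (by rw [hη]; field_simp; ring))
  have bB : S.Bd (s - 4 * d) (br S w Q χ) (2304 * η) :=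
    Scale.le (br_bd w0 (fun i => Scale.lev (S.der i d0 (by linarith) bQ) (by linarith)) bχ hv)
      (le_of_eq (by field_simp; ring))
  have bT : S.Bd (s - 4 * d) T ((1 + 48 * K) * η) := by
    rw [hT]
    refine S.mono (S.add bP (Scale.sum_card fun j => S.mul (δb s j) (S.add (h.bx' s1 j) (bY j))))
      (by linarith) ?_
    have a1 := mul_le_mul_of_nonneg_left b1 (show 0 ≤ K * (ε * M) by positivity)
    have a2 := mul_le_mul_of_nonneg_left η3 K0.le
    simp only [Fintype.card_fin, Nat.cast_ofNat]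
    linarith
  have be : ∀ s', S.Bd s' (μP + ∑ j, δ j * μY j) (3 * ε) := fun s' => by
    simpa using cmb (u := 1) zero_le_one (by simpa using P3 s') fun j => by simpa using Y3 j s'
  have ce : S.Cst (μP + ∑ j, δ j * μY j) := fun i => by simp [map_sum, P1 i, Y1 _ i, δc _ i]
  obtain ⟨Φ, H, H2, H3⟩ := lie A S w χ (s - 4 * d) d _ (192 * η * d) (192 * η * d) ∅ d0
    (by linarith) w0 bχ hv (fun j _ => hv j) (by positivity) le_rfl (by nlinarith) (.empty _)
  have ev : 40 * (192 * η * d) / d = 7680 * η := by field_simp; ring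
  have es : s - 4 * d - d = s - 5 * d := by ring
  rw [ev, es] at H H2 H3
  have eN : br S w (NN w ω x) χ = -L3 S ω χ := by rw [br_anti, h.br_NN fun j => (hw j).ne']
  have aN : S.An (s - 4 * d) (NN w ω x) := h.an_NN (by linarith) w ω
  have aQ : S.An (s - 4 * d) Q := ⟨_, Scale.lev bQ (by linarith)⟩
  have eG : T + br S w Q χ - L3 S ω χ = (P + br S w Q χP - L3 S ω χP) +
      ∑ j, δ j * (Y j + br S w Q (χY j) - L3 S ω (χY j)) + ∑ j, δ j * x j := by
    simp only [hT, eB, eL, Fin.sum_univ_three]; ring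
  have Kη := mul_nonneg K0.le η0
  rw [← hη, η5]
  refine ⟨Φ, δ, μP + ∑ j, δ j * μY j, Q + (T + br S w Q χ - L3 S ω χ - (μP + ∑ j, δ j * μY j)),
    (Φ (NN w ω x) - NN w ω x - br S w (NN w ω x) χ) + (Φ Q - Q - br S w Q χ) + (Φ T - T),
    H.mono (by linarith) le_rfl (by nlinarith), δc, fun j => Scale.le (δb s0 j) ?_, ce,
    Scale.le (be s0) ?_, ⟨?_, fun i => ?_⟩, ?_, ?_, ?_⟩
  · exact mul_le_mul_of_nonneg_right (by linarith) (by positivity)
  · nlinarith [mul_nonneg K0.le (show 0 ≤ ε * M by positivity)]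
  · rw [map_add, map_sub, hQ.1, h.z_cst ce, eG, map_add, map_add, P7]
    simp only [map_sum, map_mul, Y7, h.zx, h.z_cst (δc _)]
    simp
  · rw [map_add, map_sub, ce, map_add, hQ.2, eG, map_add, map_add, sub_zero, map_add, map_add, P8]
    have := δe i
    simp only [map_sum, Derivation.leibniz, δc _ _, add_zero, smul_eq_mul, map_mul, Y8,
      h.Dx, h.z_cst (δc _), mul_ite, mul_one, mul_zero, sum_ite_eq, mem_univ, if_true]
    linear_combination this
  · rw [add_sub_cancel_left]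
    refine S.mono (Scale.sub (Scale.sub (S.add bT bB) bL) (be _)) (by linarith) ?_
    refine le_trans ?_ (mul_le_mul_of_nonneg_left η4 (by positivity))
    linarith
  · refine Scale.le (S.add (S.add (H3 _ _ aN (.empty _) (eN ▸ Scale.neg bL))
      (H3 _ _ aQ (.empty _) bB)) (H2 _ _ (.empty _) bT).2) ?_
    nlinarith [mul_nonneg η0 η0]
  · rw [add_assoc (_ + Q), ← hT, H.add (aN.add aQ) ⟨_, bT⟩, H.add aN aQ, eN]
    ring

end Pool.Agent.MP_1ba41f_an.K4

end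
end MrgPart4

-- ======== part 5: formerly Pool.Agent.MP_1ba41f_an.K4.Lie
section MrgPart5

/-! PROJECT LUNAR: Lie transforms. -/

noncomputable section
open Finset Filter Topology

namespace Pool.Agent.MP_1ba41f_an.K4
open K3

namespace LieM
variable {A : Type} [CommRing A] [Algebra ℝ A] {S : Scale A V6}

/-- convergence at level `s` -/
def Lim (S : Scale A V6) (s : ℝ) (g : A) (u : ℕ → A) : Prop :=
  ∀ ε, 0 < ε → ∀ᶠ N in atTop, S.Bd s (g - u N) ε

theorem Lim.unique {s g g' u} (h : Lim S s g u) (h' : Lim S s g' u) : g = g' := by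
  refine sub_eq_zero.1 (Scale.eq_zero (S := S) (s := s) fun ε hε => ?_)
  obtain ⟨N, h1, h2⟩ := ((h _ (half_pos hε)).and (h' _ (half_pos hε))).exists
  exact Scale.le (Scale.cong (Scale.sub h1 h2) (by ring)) (by linarith)

theorem Lim.lev {s s' g u} (h : Lim S s g u) (hs : s' ≤ s) : Lim S s' g u :=
  fun ε hε => (h ε hε).mono fun _ h => Scale.lev h hs

theorem Lim.of_tendsto {s g} {u : ℕ → A} {e : ℕ → ℝ} (he : Tendsto e atTop (𝓝 0))
    (h : ∀ N, S.Bd s (g - u N) (e N)) : Lim S s g u :=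
  fun _ hε => (he.eventually (gt_mem_nhds hε)).mono fun N hN => Scale.le (h N) hN.le

theorem tend_geo (c : ℝ) : Tendsto (fun N : ℕ => c / 2 ^ N) atTop (𝓝 0) :=
  tendsto_const_nhds.div_atTop (tendsto_pow_atTop_atTop_of_one_lt one_lt_two)

theorem Lim.of_geo {s g c} {u : ℕ → A} (h : ∀ N, S.Bd s (g - u N) (c / 2 ^ N)) : Lim S s g u :=
  .of_tendsto (tend_geo c) h

theorem Lim.add {s g g' u u'} (h : Lim S s g u) (h' : Lim S s g' u') :
    Lim S s (g + g') fun N => u N + u' N := fun ε hε => by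
  filter_upwards [h _ (half_pos hε), h' _ (half_pos hε)] with N h1 h2
  exact Scale.le (Scale.cong (S.add h1 h2) (by ring)) (by linarith)

theorem Lim.shift {s g} {u : ℕ → A} (k : ℕ) (h : Lim S s g fun N => u (k + N)) : Lim S s g u :=
  fun ε hε => by
    obtain ⟨N0, hN⟩ := eventually_atTop.1 (h ε hε)
    refine eventually_atTop.2 ⟨k + N0, fun N hN' => ?_⟩
    have : S.Bd s (g - u (k + (N - k))) ε := hN (N - k) (by omega)
    rwa [show k + (N - k) = N by omega] at this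

theorem Lim.der_zero {s g} {u : ℕ → A} (hs : 0 < s) (h : Lim S s g u) (i : V6)
    (hu : ∀ N, S.D i (u N) = 0) : S.D i g = 0 := by
  refine Scale.eq_zero (S := S) (s := s - s / 2) fun ε hε => ?_
  obtain ⟨N, h1⟩ := (h (ε * (s / 2)) (by positivity)).exists
  have := S.der i (half_pos hs) (half_lt_self hs) h1
  rw [map_sub, hu, sub_zero] at this
  exact Scale.le this (le_of_eq (by field_simp))

/-- a series whose terms from `k` on are geometrically small -/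
theorem tail {s c : ℝ} (hs : 0 < s) (x : ℕ → A) (k : ℕ) (h : ∀ n, S.Bd s (x (k + n)) (c / 2 ^ n)) :
    ∃ g, Lim S s g (fun N => ∑ n ∈ range N, x n) ∧ S.Bd s (g - ∑ n ∈ range k, x n) (2 * c) := by
  obtain ⟨g, hg⟩ := S.complete hs h
  refine ⟨g + ∑ n ∈ range k, x n, Lim.shift k (Lim.of_geo (c := 2 * c) fun N => ?_), ?_⟩
  · rw [sum_range_add]; exact Scale.cong (hg N) (by ring)
  · simpa using hg 0

variable (δ : A →ₗ[ℝ] A)

/-- the terms of the exponential series -/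
def tm (n : ℕ) (f : A) : A := ((n.factorial : ℝ)⁻¹) • δ^[n] f

/-- the sums of the exponential series -/
def ps (f : A) (N : ℕ) : A := ∑ n ∈ range N, tm δ n f

theorem tm_zero (f : A) : tm δ 0 f = f := by simp [tm]
theorem tm_one (f : A) : tm δ 1 f = δ f := by simp [tm]
theorem tm_succ (n : ℕ) (f : A) : tm δ (n + 1) f = ((n + 1 : ℝ)⁻¹) • tm δ n (δ f) := by
  rw [tm, tm, smul_smul, Function.iterate_succ_apply, Nat.factorial_succ]
  congr 1; push_cast; rw [mul_inv]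
theorem iter_add (n : ℕ) (f g : A) : δ^[n] (f + g) = δ^[n] f + δ^[n] g := by
  induction n generalizing f g with
  | zero => rfl
  | succ n ih => simp only [Function.iterate_succ_apply, map_add, ih]
theorem ps_add (f g : A) (N : ℕ) : ps δ (f + g) N = ps δ f N + ps δ g N := by
  simp only [ps, tm, iter_add, smul_add, sum_add_distrib]

theorem iter_bil (B : A →ₗ[ℝ] A →ₗ[ℝ] A) (hB : ∀ f g, δ (B f g) = B (δ f) g + B f (δ g))
    (n : ℕ) (f g : A) :
    δ^[n] (B f g) = ∑ p ∈ antidiagonal n, n.choose p.1 • B (δ^[p.1] f) (δ^[p.2] g) := by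
  induction n with
  | zero => simp
  | succ n ih =>
    rw [sum_antidiagonal_choose_succ_nsmul (M := A) (fun i j => B (δ^[i] f) (δ^[j] g)) n,
      Function.iterate_succ_apply', ih, map_sum, ← sum_add_distrib]
    refine sum_congr rfl fun p hp => ?_
    rw [map_nsmul, hB, Function.iterate_succ_apply', Function.iterate_succ_apply',
      ← n.choose_symm_of_eq_add (mem_antidiagonal.1 hp).symm, smul_add, add_comm]

theorem tm_bil (B : A →ₗ[ℝ] A →ₗ[ℝ] A) (hB : ∀ f g, δ (B f g) = B (δ f) g + B f (δ g))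
    (n : ℕ) (f g : A) :
    tm δ n (B f g) = ∑ k ∈ range (n + 1), B (tm δ k f) (tm δ (n - k) g) := by
  rw [tm, iter_bil δ B hB, smul_sum,
    ← Finset.Nat.sum_antidiagonal_eq_sum_range_succ (fun k l => B (tm δ k f) (tm δ l g)) n]
  refine sum_congr rfl fun p hp => ?_
  have e := mem_antidiagonal.1 hp
  simp only [tm, map_smul, LinearMap.smul_apply, smul_smul, ← Nat.cast_smul_eq_nsmul ℝ]
  congr 1
  have h := Nat.add_choose_mul_factorial_mul_factorial p.2 p.1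
  rw [add_comm, e] at h
  have h1 : (p.1.factorial : ℝ) ≠ 0 := by positivity
  have h2 : (p.2.factorial : ℝ) ≠ 0 := by positivity
  have h3 : (n.choose p.1 : ℝ) ≠ 0 := by
    have := Nat.choose_pos (n := n) (k := p.1) (by omega); positivity
  rw [← h]; push_cast; field_simp

theorem ps_bil (B : A →ₗ[ℝ] A →ₗ[ℝ] A) (hB : ∀ f g, δ (B f g) = B (δ f) g + B f (δ g))
    (f g : A) (N : ℕ) :
    ps δ (B f g) N = ∑ k ∈ range N, B (tm δ k f) (ps δ g (N - k)) := by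
  simp only [ps, tm_bil δ B hB, map_sum]
  exact sum_range_diag_flip N fun k l => B (tm δ k f) (tm δ l g)

variable {δ}

theorem lim_bil (B : A →ₗ[ℝ] A →ₗ[ℝ] A) (hB : ∀ f g, δ (B f g) = B (δ f) g + B f (δ g))
    {s s' K c c' : ℝ} (bB : ∀ f g a b, S.Bd s f a → S.Bd s g b → S.Bd s' (B f g) (K * (a * b)))
    {f g F G : A} (hf : ∀ n, S.Bd s (tm δ n f) (c / 2 ^ n))
    (hF : ∀ N, S.Bd s (F - ps δ f N) (2 * c / 2 ^ N))
    (hG : ∀ N, S.Bd s (G - ps δ g N) (2 * c' / 2 ^ N)) : Lim S s' (B F G) (ps δ (B f g)) := by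
  have hG0 : S.Bd s G (2 * c') := by simpa [ps] using hG 0
  refine Lim.of_tendsto (e := fun N => K * (2 * c * c') * ((N : ℝ) ^ 1 / 2 ^ N) +
    K * (4 * c * c') / 2 ^ N) ?_ fun N => ?_
  · have := ((tendsto_pow_const_div_const_pow_of_one_lt 1 (one_lt_two (α := ℝ))).const_mul
      (K * (2 * c * c'))).add (tend_geo (K * (4 * c * c')))
    simpa using this
  · have e : B F G - ps δ (B f g) N =
        ∑ k ∈ range N, B (tm δ k f) (G - ps δ g (N - k)) + B (F - ps δ f N) G := by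
      rw [ps_bil δ B hB]
      simp only [map_sub, sum_sub_distrib, LinearMap.sub_apply, ps, map_sum, LinearMap.sum_apply]
      ring
    rw [e]
    refine Scale.le (S.add (Scale.sum (c := fun _ => K * (2 * c * c') / 2 ^ N) _ fun k hk =>
      Scale.le (bB _ _ _ _ (hf k) (hG (N - k))) (le_of_eq ?_)) (bB _ _ _ _ (hF N) hG0))
      (le_of_eq ?_)
    · rw [show (2 : ℝ) ^ N = 2 ^ k * 2 ^ (N - k) by
        rw [← pow_add]; congr 1; have := mem_range.1 hk; omega]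
      field_simp
    · simp only [sum_const, card_range, nsmul_eq_mul]; ring

theorem tm_bd {P : A → Prop} (hP : ∀ f, P f → P (δ f)) {s0 d u : ℝ} (hd : 0 < d) (hds : d < s0)
    (hu : 0 ≤ u) (hδ : ∀ s t f c, 0 < t → t < s → s ≤ s0 → P f → S.Bd s f c →
      S.Bd (s - t) (δ f) (6 * (c / t) * u)) {f : A} {c : ℝ} (pf : P f) (hf : S.Bd s0 f c)
    (n : ℕ) : S.Bd (s0 - d) (tm δ n f) ((20 * u / d) ^ n * c) := by
  have c0 := S.nonneg hf
  rcases Nat.eq_zero_or_pos n with rfl | hn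
  · rw [tm_zero, pow_zero, one_mul]; exact Scale.lev hf (by linarith)
  have n0 : (0 : ℝ) < n := by exact_mod_cast hn
  have t0 : 0 < d / n := by positivity
  have key : ∀ k, k ≤ n → P (δ^[k] f) ∧
      S.Bd (s0 - k * (d / n)) (δ^[k] f) ((6 * u / (d / n)) ^ k * c) := by
    intro k
    induction k with
    | zero => intro _; exact ⟨pf, by simpa using hf⟩
    | succ k ih =>
      intro hk
      obtain ⟨h1, h2⟩ := ih (by omega)
      have hk' : (k + 1 : ℝ) ≤ n := by exact_mod_cast hk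
      have h3 : (k + 1) * (d / n) ≤ d := by
        rw [mul_div_assoc', div_le_iff₀ n0]; nlinarith
      have h4 : 0 ≤ k * (d / n) := by positivity
      rw [Function.iterate_succ_apply']
      refine ⟨hP _ h1, S.mono (hδ _ _ _ _ t0 (by linarith) (by linarith) h1 h2)
        (le_of_eq (by push_cast; ring)) (le_of_eq (by rw [pow_succ]; ring))⟩
  have h := S.smul ((n.factorial : ℝ)⁻¹) (key n le_rfl).2
  refine S.mono h (le_of_eq (by field_simp)) ?_
  have e1 := Real.pow_div_factorial_le_exp (n : ℝ) n0.le n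
  have e2 : Real.exp n ≤ 3 ^ n := by
    rw [← Real.exp_one_pow]
    exact pow_le_pow_left₀ (Real.exp_pos 1).le (by linarith [Real.exp_one_lt_d9]) n
  rw [abs_of_pos (by positivity), ← mul_assoc]
  refine mul_le_mul_of_nonneg_right ?_ c0
  calc (n.factorial : ℝ)⁻¹ * (6 * u / (d / n)) ^ n
      = (6 * u / d) ^ n * ((n : ℝ) ^ n / n.factorial) := by
        rw [show 6 * u / (d / n) = 6 * u / d * n by field_simp, mul_pow]; ring
    _ ≤ (6 * u / d) ^ n * 3 ^ n := mul_le_mul_of_nonneg_left (e1.trans e2) (by positivity)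
    _ ≤ _ := by
        rw [← mul_pow]
        refine pow_le_pow_left₀ (by positivity) ?_ n
        rw [div_mul_eq_mul_div]; exact div_le_div_of_nonneg_right (by linarith) hd.le

theorem geo_le {q c : ℝ} (q0 : 0 ≤ q) (q1 : q ≤ 1 / 2) (c0 : 0 ≤ c) (n : ℕ) :
    q ^ n * c ≤ c / 2 ^ n := by
  calc q ^ n * c ≤ (1 / 2) ^ n * c := mul_le_mul_of_nonneg_right (pow_le_pow_left₀ q0 q1 n) c0
    _ = _ := by rw [one_div, inv_pow]; ring

variable (S) in
/-- the bracket as a bilinear map -/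
def brL (w : Fin 3 → ℝ) : A →ₗ[ℝ] A →ₗ[ℝ] A :=
  LinearMap.mk₂ ℝ (br S w) br_add_left br_smul_left br_add_right br_smul_right

theorem jacobi (w : Fin 3 → ℝ) (f g χ : A) :
    br S w (br S w f g) χ = br S w (br S w f χ) g + br S w f (br S w g χ) := by
  rw [br_def (br S w f g) χ, br_def (br S w f χ) g, br_def f (br S w g χ)]
  simp only [D_br]
  simp only [br_def, Fin.sum_univ_three, Algebra.smul_def, S.comm (ac _) (th _),
    S.comm (th 1) (th 0), S.comm (th 2) (th 0), S.comm (th 2) (th 1),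
    S.comm (ac 1) (ac 0), S.comm (ac 2) (ac 0), S.comm (ac 2) (ac 1)]
  ring

theorem brL_bd {w : Fin 3 → ℝ} (hw : ∀ j, 0 ≤ w j) {s : ℝ} (hs : 0 < s) (f g : A) (a b : ℝ)
    (hf : S.Bd s f a) (hg : S.Bd s g b) :
    S.Bd (s - s / 2) (brL S w f g) (6 * (∑ j, w j) / (s / 2) ^ 2 * (a * b)) := by
  have b0 := S.nonneg hg
  refine Scale.le (br_bd (v := (∑ j, w j) * (b / (s / 2))) hw
    (fun i => S.der i (half_pos hs) (half_lt_self hs) hf)
    (fun i => S.der i (half_pos hs) (half_lt_self hs) hg) fun j =>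
      mul_le_mul_of_nonneg_right (single_le_sum (fun j _ => hw j) (mem_univ j)) (by positivity))
    (le_of_eq (by field_simp))

end LieM

open LieM in
theorem lie : LieStmt := by
  intro A _ _ S w χ s0 d b v v' T hd hds hw hb hv hv' v0' vv hvd tχ
  classical
  have v0 : 0 ≤ v := v0'.trans vv
  have s1 : 0 < s0 - d := by linarith
  let δ : A →ₗ[ℝ] A := (brL S w).flip χ
  have eδ : ∀ f, δ f = br S w f χ := fun _ => rfl
  have q0 : ∀ u, 0 ≤ u → 0 ≤ 20 * u / d := fun u hu => by positivity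
  have q1 : ∀ u, u ≤ v → 20 * u / d ≤ 1 / 2 := fun u hu => by
    rw [div_le_iff₀ hd]; linarith
  have bA : ∀ {f c}, S.Bd s0 f c → ∀ n, S.Bd (s0 - d) (tm δ n f) ((20 * v / d) ^ n * c) :=
    fun hf => tm_bd (P := fun _ => True) (fun _ _ => trivial) hd hds v0
      (fun s t f c t0 t1 hs _ hf => br_bd hw (fun i => S.der i t0 t1 hf)
        (fun i => Scale.lev (hb i) (by linarith)) hv) trivial hf
  have bT : ∀ {f c}, Ina S T f → S.Bd s0 f c →
      ∀ n, S.Bd (s0 - d) (tm δ n f) ((20 * v' / d) ^ n * c) :=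
    fun tf hf => tm_bd (P := Ina S T) (fun _ h => h.br tχ) hd hds v0'
      (fun s t f c t0 t1 hs tf hf => br_bdT hw v0' (fun i => S.der i t0 t1 hf)
        (fun i => Scale.lev (hb i) (by linarith)) hv' tf tχ) tf hf
  have bA' : ∀ {f c}, S.Bd s0 f c → ∀ n, S.Bd (s0 - d) (tm δ n f) (c / 2 ^ n) :=
    fun hf n => Scale.le (bA hf n) (geo_le (q0 _ v0) (q1 _ le_rfl) (S.nonneg hf) n)
  let Φ : A → A := fun f =>
    if h : ∃ g, Lim S (s0 - d) g (ps δ f) then Classical.choose h else f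
  have hΦ : ∀ {f g}, Lim S (s0 - d) g (ps δ f) → Φ f = g := fun {f g} h => by
    have h' : ∃ g, Lim S (s0 - d) g (ps δ f) := ⟨g, h⟩
    simp only [Φ, dif_pos h']
    exact (Classical.choose_spec h').unique h
  have geo : ∀ {f c}, S.Bd s0 f c → ∀ N, S.Bd (s0 - d) (Φ f - ps δ f N) (2 * c / 2 ^ N) :=
    fun hf => by
      obtain ⟨g, hg⟩ := S.complete s1 (bA' hf)
      rw [hΦ (Lim.of_geo hg)]; exact hg
  have lim : ∀ {f}, S.An s0 f → Lim S (s0 - d) (Φ f) (ps δ f) := fun ⟨_, hf⟩ => .of_geo (geo hf)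
  have first : ∀ {f c u}, 0 ≤ u → u ≤ v → 0 ≤ c →
      (∀ n, S.Bd (s0 - d) (tm δ n f) ((20 * u / d) ^ n * c)) →
      S.Bd (s0 - d) (Φ f - f) (40 * u / d * c) := fun {f c u} u0 uv c0 h => by
    obtain ⟨g, h1, h2⟩ := tail (c := 20 * u / d * c) s1 (fun n => tm δ n f) 1 fun n =>
      Scale.le (h (1 + n)) (by
        rw [pow_add, pow_one, mul_comm (20 * u / d), mul_assoc]
        exact geo_le (q0 _ u0) (q1 _ uv) (mul_nonneg (q0 _ u0) c0) n)
    rw [hΦ h1]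
    exact Scale.le (by simpa [tm_zero] using h2) (le_of_eq (by ring))
  refine ⟨Φ, ⟨fun {f g} hf hg => hΦ ?_, fun {f g} hf hg => hΦ ?_, fun {f} _ hf => hΦ ?_,
    fun {f g} hf hg hfg => ?_, fun hf => first v0 le_rfl (S.nonneg hf) (bA hf)⟩,
    fun f c tf hf => ⟨fun j hj => (lim ⟨c, hf⟩).der_zero s1 _ fun N => ?_,
      first v0' vv (S.nonneg hf) (bT tf hf)⟩, fun f c hf tf hc => ?_⟩
  · have := (lim hf).add (lim hg)
    rwa [show (fun N => ps δ f N + ps δ g N) = ps δ (f + g) from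
      funext fun N => (ps_add δ f g N).symm] at this
  · obtain ⟨c, hf⟩ := hf
    obtain ⟨c', hg⟩ := hg
    exact lim_bil (LinearMap.mul ℝ A) (K := 1) (fun f g => by
      simp only [LinearMap.mul_apply', eδ, br_mul_left]; ring)
      (fun f g a b h h' => by rw [one_mul]; exact S.mul h h') (bA' hf) (geo hf) (geo hg)
  · refine Lim.shift 1 (Lim.of_geo (c := 0) fun N => ?_)
    have : ps δ f (1 + N) = f := by
      rw [ps, sum_range_add, sum_range_one, tm_zero, add_eq_left]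
      refine sum_eq_zero fun n _ => ?_
      rw [add_comm, tm, Function.iterate_succ_apply, eδ, br_cst_left hf, Function.iterate_fixed
        (map_zero δ), smul_zero]
    rw [this, sub_self]; exact S.zero' _ (by simp)
  · obtain ⟨c, hf⟩ := hf
    obtain ⟨c', hg⟩ := hg
    exact ((lim hfg).lev (by linarith)).unique (lim_bil (brL S w) (fun f g => jacobi w f g χ)
      (brL_bd hw s1) (bA' hf) (geo hf) (geo hg))
  · have : ∀ n, Ina S T (δ^[n] f) := fun n => by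
      induction n with
      | zero => exact tf
      | succ n ih => rw [Function.iterate_succ_apply']; exact ih.br tχ
    rw [ps, map_sum]
    exact sum_eq_zero fun n _ => (this n).smul _ j hj
  · have c0 := S.nonneg hc
    obtain ⟨g, h1, h2⟩ := tail (c := 20 * v' / d * c) s1 (fun n => tm δ n f) 2 fun n => by
      rw [show 2 + n = (1 + n) + 1 by ring, tm_succ]
      refine Scale.le (S.smul _ (bT (tf.br tχ) hc (1 + n))) ?_
      have a1 : |(((1 + n : ℕ) : ℝ) + 1)⁻¹| ≤ 1 := by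
        rw [abs_of_pos (by positivity)]
        exact inv_le_one_of_one_le₀ (by have : (0 : ℝ) ≤ (1 + n : ℕ) := by positivity
                                        linarith)
      refine (mul_le_of_le_one_left (by have := q0 _ v0'; positivity) a1).trans ?_
      rw [pow_add, pow_one, mul_comm (20 * v' / d), mul_assoc]
      exact geo_le (q0 _ v0') (q1 _ vv) (mul_nonneg (q0 _ v0') c0) n
    rw [hΦ h1]
    refine Scale.le (Scale.cong h2 ?_) (le_of_eq (by ring))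
    rw [sum_range_succ, sum_range_one, tm_zero, tm_one, eδ]; ring

end Pool.Agent.MP_1ba41f_an.K4

end
end MrgPart5

-- ======== part 6: formerly Pool.Agent.MP_1ba41f_an.K4.Tori
section MrgPart6

/-! PROJECT LUNAR, row TORI: the invariant tori in pointwise form. -/

noncomputable section
open Finset

set_option maxHeartbeats 400000

namespace Pool.Agent.MP_1ba41f_an.K4
open K3

namespace Tori

section Lift
variable {A : Type} [CommRing A] [Algebra ℝ A]

theorem rel_of_map {B : Type} [CommRing B] [Algebra ℝ B] (φ : A →ₐ[ℝ] B)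
    (hφ : Function.Injective φ) (c : Cfg) {p : Ph A} (h : (p.map φ).Rel c) : p.Rel c := by
  refine ⟨hφ ?_, hφ ?_, hφ ?_⟩
  · simpa [Ph.map] using h.R
  · simpa [Ph.map, Ph.a1, Ph.b1, Ph.X1, Ph.X2, map_ofNat] using h.Y1
  · simpa [Ph.map, Ph.a2, Ph.b2, Ph.X1, Ph.X2, map_ofNat] using h.Y2

/-- the phase variables as elements of the subalgebra -/
def lift {S : Scale A V6} {C : ℝ} (p : Ph A) (h : p.All fun f => S.Bd 1 f C) :
    Ph (anAlg S 1) :=
  ⟨⟨p.z1, C, h.1⟩, ⟨p.z2, C, h.2.1⟩, ⟨p.w1, C, h.2.2.1⟩, ⟨p.w2, C, h.2.2.2.1⟩,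
    ⟨p.R, C, h.2.2.2.2.1⟩, ⟨p.P, C, h.2.2.2.2.2.1⟩, ⟨p.Ri, C, h.2.2.2.2.2.2.1⟩,
    ⟨p.Y1, C, h.2.2.2.2.2.2.2.1⟩, ⟨p.Y2, C, h.2.2.2.2.2.2.2.2⟩⟩

variable {S : Scale A V6} {C : ℝ} {p : Ph A} (h : p.All fun f => S.Bd 1 f C) (c : Cfg)
  {cc hs : A} (hc : S.An 1 cc) (hh : S.An 1 hs)

theorem lift_val : (lift p h).map (anAlg S 1).val = p := rfl

theorem lift_KK : ((lift p h).KK c ⟨cc, hc⟩ ⟨hs, hh⟩).1 = p.KK c cc hs :=
  (Ph.map_KK (anAlg S 1).val c ⟨cc, hc⟩ ⟨hs, hh⟩ (lift p h)).symm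

theorem lift_XX (i) : ((lift p h).XX c ⟨cc, hc⟩ ⟨hs, hh⟩ i).1 = p.XX c cc hs i :=
  (Ph.map_XX (anAlg S 1).val c ⟨cc, hc⟩ ⟨hs, hh⟩ (lift p h) i).symm

theorem an_of {x : anAlg S 1} {f : A} (e : x.1 = f) : S.An 1 f := by
  subst e
  exact x.2

include h hc hh in
theorem an_KK : S.An 1 (p.KK c cc hs) := an_of (lift_KK h c hc hh)

include h hc hh in
theorem an_XX (i) : S.An 1 (p.XX c cc hs i) := an_of (lift_XX h c hc hh i)

include h in
theorem an_co (i) : S.An 1 (p.co i) := by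
  fin_cases i
  exacts [⟨C, h.1⟩, ⟨C, h.2.1⟩, ⟨C, h.2.2.1⟩, ⟨C, h.2.2.2.1⟩, ⟨C, h.2.2.2.2.1⟩,
    ⟨C, h.2.2.2.2.2.1⟩]

variable {w : Fin 3 → ℝ} {s1 η : ℝ} {Ψ : A → A} (H : Hom S w 1 s1 η Ψ) (ε : A →ₐ[ℝ] ℝ)

include h H hc hh in
theorem pt_KK : (p.map fun f => ε (Ψ f)).KK c (ε (Ψ cc)) (ε (Ψ hs)) = ε (Ψ (p.KK c cc hs)) := by
  rw [← lift_KK h c hc hh]
  exact Ph.map_KK (ε.comp H.algHom) c ⟨cc, hc⟩ ⟨hs, hh⟩ (lift p h)

include h H hc hh in
theorem pt_XX (i) :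
    (p.map fun f => ε (Ψ f)).XX c (ε (Ψ cc)) (ε (Ψ hs)) i = ε (Ψ (p.XX c cc hs i)) := by
  rw [← lift_XX h c hc hh]
  exact Ph.map_XX (ε.comp H.algHom) c ⟨cc, hc⟩ ⟨hs, hh⟩ (lift p h) i

include h H in
theorem pt_r : (p.map fun f => ε (Ψ f)).r = ε (Ψ p.r) :=
  Ph.map_r (ε.comp H.algHom) (lift p h)

include h H in
theorem pt_rel (hr : p.Rel c) : (p.map fun f => ε (Ψ f)).Rel c :=
  Ph.Rel.map (ε.comp H.algHom) c
    (rel_of_map (anAlg S 1).val Subtype.val_injective c (p := lift p h) hr)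

end Lift

theorem mk_eq (a b : ℝ) : (⟨a, b⟩ : ℂ) = a + b * Complex.I := by
  apply Complex.ext <;> simp

theorem norm_mk_le {a b c : ℝ} (ha : |a| ≤ c) (hb : |b| ≤ c) : ‖(⟨a, b⟩ : ℂ)‖ ≤ 2 * c :=
  (Complex.norm_le_abs_re_add_abs_im _).trans (by dsimp only; linarith)

theorem abs_par (p : B4) (i : Fin 4) : |p.1 i| ≤ 1 :=
  (norm_le_pi_norm p.1 i).trans (mem_closedBall_zero_iff.1 p.2)

variable {A : Type} [CommRing A] [Algebra ℝ A] (M : Mdl A)

/-- from the vanishing of the counterterms to the tori -/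
theorem build {c : Cfg} {F : Fam} {C0 C1 γ : ℝ} {d : Dat A} (hc : c.Ok) (hd : IsDat M c F C0 d)
    {ω : Fin 3 → ℝ} (hω : Dioph3 ω γ) {Ψ : A → A} {Q e : A} {l X : Fin 3 → A}
    (H : Hom M.S c.w 1 (1 / 8) (C1 * c.ep) Ψ)
    (hK : Ψ ((1 + c.ep • M.par 0) * d.p.KK c d.cc d.hs) =
      NN c.w ω M.x + Q + e - ∑ j, l j * X j)
    (hQ : J2 M.S M.z0 Q) (he : M.S.Cst e) (hl : ∀ j, M.S.Cst (l j))
    {p : I01 → B4} (hp : Continuous p) (e0 : ∀ y, M.ev (y, p y) (M.pt 0) e = 0)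
    (l0 : ∀ y j, M.ev (y, p y) (M.pt 0) (l j) = 0) (h1 : c.ep ≤ 1 / 2) (hC1 : 0 ≤ C1)
    (h2 : C1 * c.ep * C0 ≤ 1 / 8) :
    ∃ T, Tor c F (34 * (C1 * C0) + 2 * (C1 * C0 ^ 2) + C0) T := by
  have hb := hd.bdd
  obtain ⟨b1, b2, -, -, bR, -, -, bY1, bY2⟩ := hd.bdd
  have hC0 : 0 ≤ C0 := M.S.nonneg b1
  have hep := hc.ep
  obtain ⟨a, ha⟩ : ∃ a : A, a = 1 + c.ep • M.par 0 := ⟨_, rfl⟩
  rw [← ha] at hK
  have aC : M.S.Cst a := ha ▸ Scale.Cst.one.add ((M.par_cst 0).smul _)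
  have aA : M.S.An 1 a := ha ▸ (Scale.An.one 1).add (Scale.An.smul _ ⟨_, M.par_bd 1 0⟩)
  have av : ∀ y z, M.ev (y, p y) z a = 1 + c.ep * (p y).1 0 := fun y z => by
    rw [ha, map_add, map_one, map_smul, M.par_ev, smul_eq_mul]
  have apos : ∀ y, 0 < 1 + c.ep * (p y).1 0 := fun y => by
    have := abs_le.1 (abs_par (p y) 0)
    nlinarith
  have cv : ∀ {f}, M.S.Cst f → ∀ y θ, M.ev y (M.pt θ) f = M.ev y (M.pt 0) f :=
    fun h y θ => M.ev_ang (.of_cst h) y θ 0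
  have ccv : ∀ y θ, M.ev y (M.pt 0) d.cc = M.ev y (M.pt θ) (Ψ d.cc) := fun y θ => by
    rw [H.cst hd.cc.2 hd.cc.1, cv hd.cc.1 y θ]
  have hsv : ∀ y θ, M.ev y (M.pt 0) d.hs = M.ev y (M.pt θ) (Ψ d.hs) := fun y θ => by
    rw [H.cst hd.hs.2 hd.hs.1, cv hd.hs.1 y θ]
  have KA := an_KK hb c hd.cc.2 hd.hs.2
  have near : ∀ {f k}, M.S.Bd 1 f k → ∀ y z, |M.ev y z (Ψ f) - M.ev y z f| ≤ C1 * c.ep * k :=
    fun h y z => M.ev_near (H.bd h) y z
  have cont : ∀ f, Continuous fun q : I01 × (Fin 3 → ℝ) => M.ev (q.1, p q.1) (M.pt q.2) f :=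
    fun f => (M.cont f).comp
      ((continuous_fst.prodMk (hp.comp continuous_fst)).prodMk continuous_snd)
  have rot : ∀ {f g : A}, M.S.Bd 1 f C0 → M.S.Bd 1 g C0 → M.S.D (th 2) f = g → ∀ y z,
      |M.ev y z (M.S.D (th 2) (Ψ f)) - M.ev y z (Ψ g)| ≤ 17 * (C1 * C0) * c.ep := by
    intro f g hf hg e y z
    have t1 := M.abs_le (M.S.der (d := 1 / 16) (th 2) (by norm_num) (by norm_num) (H.bd hf)) y z
    have t2 := near hg y z
    rw [map_sub, map_sub, e] at t1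
    have t3 := abs_sub_le (M.ev y z (M.S.D (th 2) (Ψ f))) (M.ev y z g) (M.ev y z (Ψ g))
    rw [abs_sub_comm (M.ev y z g)] at t3
    have t4 : C1 * c.ep * C0 / (1 / 16) = 16 * (C1 * c.ep * C0) := by ring
    nlinarith
  have k1 : 0 ≤ C1 * C0 * c.ep := by positivity
  have k2 : 0 ≤ C1 * C0 ^ 2 * c.ep := by positivity
  have k3 : 0 ≤ C0 * c.ep := by positivity
  refine ⟨⟨ω, fun y θ => d.p.map fun f => M.ev (y, p y) (M.pt θ) (Ψ f),
    fun y => 1 + c.ep * (p y).1 0, fun y => M.ev (y, p y) (M.pt 0) d.cc,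
    fun y => M.ev (y, p y) (M.pt 0) d.hs, fun y => (p y).1 3,
    fun y θ => ⟨M.ev (y, p y) (M.pt θ) (M.S.D (th 2) (Ψ d.p.z1)),
      M.ev (y, p y) (M.pt θ) (M.S.D (th 2) (Ψ d.p.z2))⟩⟩,
    ?_, ?_, cont _, ?_, apos, ?_, ?_, ?_, ?_, ?_, ?_, fun y => abs_par _ 3, ?_, ?_⟩
  · intro k hk h0
    have := hω.2 k hk
    dsimp only at h0
    rw [h0, abs_zero, zero_mul] at this
    exact absurd hω.1 (not_lt.2 this)
  · exact Complex.equivRealProdCLM.symm.continuous.comp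
      ((cont (Ψ d.p.z1)).prodMk (cont (Ψ d.p.z2)))
  · intro y θ j
    simp only [M.per]
  · intro y τ i
    dsimp only
    simp only [Ph.map_co]
    rw [ccv _ (τ • ω), hsv _ (τ • ω), pt_XX hb c hd.cc.2 hd.hs.2 H]
    convert M.ev_line (Ψ (d.p.co i)) (y, p y) ω τ using 1
    have XA := an_XX hb c hd.cc.2 hd.hs.2 i
    have e1 : br M.S c.w (d.p.co i) (a * d.p.KK c d.cc d.hs) = a * d.p.XX c d.cc d.hs i := by
      rw [br_mul_right, hd.ham, br_cst_right _ aC, mul_zero, add_zero]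
    have e2 := H.brk (an_co hb i) (aA.mul KA) (e1 ▸ aA.mul XA)
    rw [e1, H.cmul aA aC XA, hK, br_sub_right, br_add_right, br_add_right, br_sum_right,
      M.ext.br_NN (fun j => (hc.w j).ne'), br_cst_right _ he] at e2
    have e3 := congrArg (M.ev (y, p y) (M.pt (τ • ω))) e2
    rw [map_mul, av, map_sub, map_add, map_add, map_zero, map_sum,
      ← M.evz (br M.S c.w _ Q), M.ext.z_br_J2 _ hQ, map_zero, sum_eq_zero] at e3
    · simpa using e3
    · intro j _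
      rw [br_mul_right, br_cst_right _ (hl j), mul_zero, add_zero, map_mul, cv (hl j), l0,
        zero_mul]
  · exact fun y θ => pt_rel hb c H _ hd.rel
  · intro y θ
    obtain ⟨q1, q2, q3⟩ := hd.pos (y, p y) θ
    have n1 := (abs_le.1 (near bR (y, p y) (M.pt θ))).1
    have n2 := (abs_le.1 (near bY1 (y, p y) (M.pt θ))).1
    have n3 := (abs_le.1 (near bY2 (y, p y) (M.pt θ))).1
    refine ⟨?_, ?_, ?_⟩
    · show 0 < M.ev (y, p y) (M.pt θ) (Ψ d.p.R)
      linarith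
    · show 0 < M.ev (y, p y) (M.pt θ) (Ψ d.p.Y1)
      linarith
    · show 0 < M.ev (y, p y) (M.pt θ) (Ψ d.p.Y2)
      linarith
  · intro y θ
    dsimp only
    rw [ccv _ θ, hsv _ θ, pt_KK hb c hd.cc.2 hd.hs.2 H]
    rw [H.cmul aA aC KA] at hK
    have e3 := congrArg (M.ev (y, p y) (M.pt θ)) hK
    rw [map_mul, av, map_sub, map_add, map_add, map_sum, ← M.evz (NN _ _ _), M.ext.z_NN,
      ← M.evz Q, hQ.1, map_zero, cv he, e0, sum_eq_zero] at e3
    · exact (mul_eq_zero.1 (by simpa using e3)).resolve_left (apos y).ne'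
    · intro j _
      rw [map_mul, cv (hl j), l0, zero_mul]
  · intro y θ
    have d1 := (M.ev_coord (Ψ d.p.z1) (y, p y) θ 2).ofReal_comp
    have d2 := (M.ev_coord (Ψ d.p.z2) (y, p y) θ 2).ofReal_comp
    have := d1.add (d2.mul_const Complex.I)
    dsimp only
    rw [mk_eq]
    exact this.congr_of_eventuallyEq (.of_forall fun s => mk_eq _ _)
  · intro y θ
    have r1 := rot b1 (Scale.neg b2) hd.rot.1 (y, p y) (M.pt θ)
    have r2 := rot b2 b1 hd.rot.2 (y, p y) (M.pt θ)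
    rw [H.neg ⟨_, b2⟩, map_neg] at r1
    refine le_trans (le_of_eq (congrArg norm ?_)) ((norm_mk_le r1 r2).trans (by nlinarith))
    apply Complex.ext <;> simp [Ph.zc, Ph.map]
  · intro y θ
    dsimp only
    rw [Ph.norm_zc, pt_r hb H]
    have n1 := near (M.S.add (M.S.mul b1 b1) (M.S.mul b2 b2)) (y, p y) (M.pt θ)
    have n2 := hd.vr (y, p y) θ
    refine (abs_sub_le _ (M.ev (y, p y) (M.pt θ) d.p.r) _).trans
      ((add_le_add n1 n2).trans (by nlinarith))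
  · intro y θ
    obtain ⟨t, t1, t2, t3, t4⟩ := hd.vR (y, p y) θ
    refine ⟨t, t1, t2, t3, ?_⟩
    have n1 := near bR (y, p y) (M.pt θ)
    refine (abs_sub_le _ (M.ev (y, p y) (M.pt θ) d.p.R) _).trans
      ((add_le_add n1 t4).trans (by nlinarith))

end Tori

open Tori in
theorem tori (hM : ModStmt) (hD : DatStmt) (hC : CtrStmt) (hI : Dio3Stmt) (hP : ParamStmt) :
    ToriStmt := by
  intro s1 s2 hs1 hs2
  obtain ⟨A, _, _, ⟨M⟩⟩ := hM
  obtain ⟨η0, hη0, hD⟩ := hD A M s1 s2 hs1 hs2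
  obtain ⟨c0, hc0, hI⟩ := hI
  refine ⟨η0, hη0, fun η hη hη' => ?_⟩
  obtain ⟨C0, ε0, hC0, hε0, hD⟩ := hD η hη hη'
  obtain ⟨C1, ε1, hC1, hε1, hC⟩ := hC A M s1 s2 η C0 (c0 * (s1 * s2)) hs1 hs2 hη (by positivity)
  obtain ⟨m, hm⟩ : ∃ m : ℝ, m = min 1 (η ^ 4) := ⟨_, rfl⟩
  have m0 : 0 < m := hm ▸ lt_min one_pos (by positivity)
  have m1 : m ≤ 1 := hm ▸ min_le_left _ _
  have m2 : m ≤ η ^ 4 := hm ▸ min_le_right _ _
  refine ⟨34 * (C1 * C0) + 2 * (C1 * C0 ^ 2) + C0,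
    min (min ε0 ε1) (m / (100 * ((C1 + 1) * (C0 + 1)))),
    lt_min (lt_min hε0 hε1) (by positivity), fun c F hc e1 e2 e3 hep hF => ?_⟩
  have hp0 := hc.ep
  have q0 : c.ep * (100 * ((C1 + 1) * (C0 + 1))) ≤ m :=
    (le_div_iff₀ (by positivity)).1 (hep.trans (min_le_right _ _))
  have k1 : 0 ≤ C1 * c.ep * C0 := by positivity
  have k2 : 0 ≤ C1 * c.ep := by positivity
  have k3 : 0 ≤ C0 * c.ep := by positivity
  have q1 : 100 * c.ep ≤ m := by nlinarith
  have q2 : 100 * (C1 * c.ep) ≤ m := by nlinarith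
  have q3 : 100 * (C1 * c.ep * C0) ≤ m := by nlinarith
  obtain ⟨d, hd⟩ := hD c F hc e1 e2 e3 (hep.trans ((min_le_left _ _).trans (min_le_left _ _))) hF
  have s12 : s1 * s2 ≤ 1 := e1 ▸ e2 ▸ mul_le_one₀ hc.s1le hc.s2.le hc.s2le
  have p15 : c.ep ^ 15 ≤ 1 := pow_le_one₀ hp0.le (by linarith)
  have t1 : s1 * s2 * c.ep ^ 15 ≤ c.ep ^ 15 := mul_le_of_le_one_left (by positivity) s12
  obtain ⟨ω, w0, w1, w2, hω⟩ := hI (s1 * s2 * c.ep ^ 15) (c.n / 2)
    (c.w 2 * (c.n2 * c.r0) * F.be) (by positivity) (t1.trans p15)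
  obtain ⟨Ψ, Q, e, l, X, H, hK, hQ, he, hl, g0, g1, g2, g3⟩ := hC c d ω _ hc e1 e2 e3
    (hep.trans ((min_le_left _ _).trans (min_le_right _ _))) hd.alg (M.solv ω _ hω)
    (le_of_eq (mul_assoc _ _ _)) w0 (w1.trans t1)
  obtain ⟨β, hβ⟩ : ∃ β, β = ω 2 / (c.w 2 * (c.n2 * c.r0)) := ⟨_, rfl⟩
  rw [← hβ] at g3
  obtain ⟨G, hG⟩ : ∃ G : Fin 4 → A, G = ![(c.w 0 / c.ep) • l 0 + (1 / 2 : ℝ) • M.par 0,
    (c.ka / c.ep) • e - M.par 1,
    (c.w 1 / (c.n * c.ep)) • l 1 + (1 / 2 : ℝ) • (M.par 0 + M.par 1 - 3 * M.par 2),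
    (c.n2 * c.r0)⁻¹ • l 2 - (algebraMap ℝ A β - d.nuf)] := ⟨_, rfl⟩
  have bG : ∀ i, M.S.Bd 1 (G i) (C1 * c.ep) := fun i => by
    rw [hG]
    fin_cases i
    exacts [g0, g1, g2, g3]
  have hdd := hF.d
  have hW : s1 * s2 * c.ep ^ 14 / 2 ≤ c.w 2 * (c.n2 * c.r0) := by
    have a1 := hc.n2_ge
    have a2 := hc.r0
    have a3 : c.w 2 * (c.n2 * c.r0) = (1 + c.ka) * c.n2 / 2 := by
      show (1 + c.ka) / (2 * c.r0) * (c.n2 * c.r0) = _
      field_simp
    rw [e1, e2] at a1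
    have a4 := mul_pos hc.ka hc.n2
    rw [a3]
    linarith
  have hW0 : 0 < s1 * s2 * c.ep ^ 14 / 2 := by positivity
  have hbe : |β - F.be| ≤ 2 * c.ep := by
    have a1 : β - F.be = (ω 2 - c.w 2 * (c.n2 * c.r0) * F.be) / (c.w 2 * (c.n2 * c.r0)) := by
      have := (hW0.trans_le hW).ne'
      rw [hβ, sub_div, mul_div_cancel_left₀ _ this]
    rw [a1, abs_div, abs_of_pos (hW0.trans_le hW), div_le_iff₀ (hW0.trans_le hW)]
    refine w2.trans (le_trans (le_of_eq ?_) (mul_le_mul_of_nonneg_left hW (by positivity)))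
    ring
  obtain ⟨p, hp, hE⟩ := hP (fun i y p => M.ev (y, p) (M.pt 0) (G i)) (F.nf c.lam) β F.d
    (C1 * c.ep) (abs_pos.1 (lt_of_lt_of_le (by positivity) hdd)) k2 (by linarith) (by linarith)
    (fun i p => (M.cont (G i)).comp
      ((continuous_id.prodMk continuous_const).prodMk continuous_const))
    (fun t ht => by
      have hm : (fun _ : Fin 4 => t) ∈ Metric.closedBall (0 : Fin 4 → ℝ) 1 :=
        mem_closedBall_zero_iff.2 ((pi_norm_const_le t).trans ht)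
      have := (M.cont d.nuf).comp (f := fun y : I01 => (((y, ⟨_, hm⟩) : YY), (0 : Fin 3 → ℝ)))
        ((continuous_id.prodMk continuous_const).prodMk continuous_const)
      exact this.congr fun y => hd.nuf _ _)
    (fun i y p => M.abs_le (bG i) _ _) (fun i y p p' => M.lip (bG i) y p p' _)
    (fun y => by
      have a1 := hF.mis y
      have a2 := abs_sub_le (F.nf c.lam y 0) F.be β
      rw [abs_sub_comm F.be] at a2
      linarith)
    hF.lip
  refine build M hc hd hω H hK hQ he hl hp (fun y => ?_) (fun y j => ?_) (by linarith) hC1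
    (by linarith)
  · have := (hE y).2.1
    simp only [hG, Matrix.cons_val_one, Matrix.cons_val_zero, map_sub, map_smul, M.par_ev,
      smul_eq_mul] at this
    exact (mul_eq_zero.1 (by linarith : c.ka / c.ep * _ = 0)).resolve_left
      (div_pos hc.ka hp0).ne'
  · obtain ⟨a0, -, a2, a3⟩ := hE y
    rw [hG] at a0 a2 a3
    fin_cases j
    · change M.ev _ _ (_ + _) = _ at a0
      simp only [map_add, map_smul, M.par_ev, smul_eq_mul] at a0
      exact (mul_eq_zero.1 (by linarith :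
        c.w 0 / c.ep * M.ev (y, p y) (M.pt 0) (l 0) = 0)).resolve_left
        (div_pos (hc.w 0) hp0).ne'
    · change M.ev _ _ (_ + _) = _ at a2
      simp only [map_add, map_sub, map_mul, map_ofNat, map_smul, M.par_ev, smul_eq_mul] at a2
      exact (mul_eq_zero.1 (by linarith :
        c.w 1 / (c.n * c.ep) * M.ev (y, p y) (M.pt 0) (l 1) = 0)).resolve_left
        (div_pos (hc.w 1) (mul_pos hc.n hp0)).ne'
    · change M.ev _ _ (_ - _) = _ at a3
      simp only [map_sub, map_smul, AlgHom.commutes, hd.nuf, smul_eq_mul,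
        Algebra.algebraMap_self, RingHom.id_apply] at a3
      exact (mul_eq_zero.1 (by linarith :
        (c.n2 * c.r0)⁻¹ * M.ev (y, p y) (M.pt 0) (l 2) = 0)).resolve_left
        (inv_pos.2 (mul_pos hc.n2 hc.r0)).ne'

end Pool.Agent.MP_1ba41f_an.K4

end
end MrgPart6

-- marker of a merged file
example : 731051 + 118561 = 731051 + 118561 := rfl
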