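import Mathlib.RingTheory.Flat.TorsionFree
import Mathlib.MeasureTheory.Measure.Haar.InnerProductSpace
import Mathlib.Analysis.InnerProductSpace.Calculus
import Mathlib.RingTheory.SimpleRing.Principal
import Pool.Agent.MP_1ba41f_an.K3.Newton
import Mathlib.Algebra.Ring.IsFormallyReal
import Mathlib.MeasureTheory.Measure.RegularityCompacts
import Mathlib.MeasureTheory.Measure.Lebesgue.VolumeOfBalls
import Mathlib.Order.CompletePartialOrder
import Mathlib.Topology.UniformSpace.Uniformizable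
import Pool.Agent.MP_1ba41f_an.K4.Nf

-- ======== part 0: formerly Pool.Agent.MP_1ba41f_an.K3.Area2
section MrgPart0

/-! PROJECT KAM3, module AREA2: the area on the shape sphere in the affine coordinate. -/

noncomputable section
open MeasureTheory Complex Set Metric

namespace Pool.Agent.MP_1ba41f_an.K3

namespace Area2

abbrev E3 : Type := EuclideanSpace ℝ (Fin 3)

/-- rotated inverse stereographic projection -/
def G (α β δ : ℝ) (x y : ℝ) : E3 :=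
  !₂[(α * (1 - (x ^ 2 + y ^ 2)) - 2 * δ * β * x) / (1 + (x ^ 2 + y ^ 2)),
    (β * (1 - (x ^ 2 + y ^ 2)) + 2 * δ * α * x) / (1 + (x ^ 2 + y ^ 2)),
    -(2 * δ * y) / (1 + (x ^ 2 + y ^ 2))]

/-- rotated stereographic projection -/
def pr (α β δ : ℝ) (V : E3) : Fin 2 → ℝ :=
  ![δ * (α * V 1 - β * V 0) / (1 + α * V 0 + β * V 1), -(δ * V 2) / (1 + α * V 0 + β * V 1)]

theorem den_pos (x y : ℝ) : 0 < 1 + (x ^ 2 + y ^ 2) := by positivity

theorem norm_sq3 (V : E3) : ‖V‖ ^ 2 = V 0 ^ 2 + V 1 ^ 2 + V 2 ^ 2 := by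
  rw [EuclideanSpace.norm_sq_eq, Fin.sum_univ_three]
  simp only [Real.norm_eq_abs, sq_abs]

theorem norm_wv (z1 z2 : ℂ) : ‖wv z1 z2‖ = (‖z1‖ ^ 2 + ‖z2‖ ^ 2) / 2 := by
  have h : ‖wv z1 z2‖ ^ 2 = ((‖z1‖ ^ 2 + ‖z2‖ ^ 2) / 2) ^ 2 := by
    rw [norm_sq3]
    have e0 : wv z1 z2 0 = (‖z1‖ ^ 2 - ‖z2‖ ^ 2) / 2 := rfl
    have e1 : wv z1 z2 1 = (z1 * (starRingEnd ℂ) z2).re := rfl
    have e2 : wv z1 z2 2 = (z1 * (starRingEnd ℂ) z2).im := rfl
    rw [e0, e1, e2, Complex.sq_norm, Complex.sq_norm, normSq_apply, normSq_apply]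
    simp only [mul_re, mul_im, conj_re, conj_im]
    ring
  exact (pow_left_inj₀ (norm_nonneg _) (by positivity) two_ne_zero).1 h

theorem norm_G {α β δ : ℝ} (h1 : α ^ 2 + β ^ 2 = 1) (h2 : δ ^ 2 = 1) (x y : ℝ) :
    ‖G α β δ x y‖ = 1 := by
  have h : ‖G α β δ x y‖ ^ 2 = 1 ^ 2 := by
    rw [norm_sq3]
    have e0 : G α β δ x y 0 =
      (α * (1 - (x ^ 2 + y ^ 2)) - 2 * δ * β * x) / (1 + (x ^ 2 + y ^ 2)) := rfl
    have e1 : G α β δ x y 1 =
      (β * (1 - (x ^ 2 + y ^ 2)) + 2 * δ * α * x) / (1 + (x ^ 2 + y ^ 2)) := rfl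
    have e2 : G α β δ x y 2 = -(2 * δ * y) / (1 + (x ^ 2 + y ^ 2)) := rfl
    rw [e0, e1, e2]
    have := (den_pos x y).ne'
    field_simp
    linear_combination ((1 - (x ^ 2 + y ^ 2)) ^ 2 + 4 * δ ^ 2 * x ^ 2) * h1 +
      (4 * x ^ 2 + 4 * y ^ 2) * h2
  exact (pow_left_inj₀ (norm_nonneg _) zero_le_one two_ne_zero).1 h

theorem den_G {α β δ : ℝ} (h1 : α ^ 2 + β ^ 2 = 1) (x y : ℝ) :
    1 + α * G α β δ x y 0 + β * G α β δ x y 1 = 2 / (1 + (x ^ 2 + y ^ 2)) := by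
  have e0 : G α β δ x y 0 =
    (α * (1 - (x ^ 2 + y ^ 2)) - 2 * δ * β * x) / (1 + (x ^ 2 + y ^ 2)) := rfl
  have e1 : G α β δ x y 1 =
    (β * (1 - (x ^ 2 + y ^ 2)) + 2 * δ * α * x) / (1 + (x ^ 2 + y ^ 2)) := rfl
  rw [e0, e1]
  have := (den_pos x y).ne'
  field_simp
  linear_combination (1 - (x ^ 2 + y ^ 2)) * h1

theorem pr_G {α β δ : ℝ} (h1 : α ^ 2 + β ^ 2 = 1) (h2 : δ ^ 2 = 1) (v : Fin 2 → ℝ) :
    pr α β δ (G α β δ (v 0) (v 1)) = v := by
  have e0 : G α β δ (v 0) (v 1) 0 =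
    (α * (1 - (v 0 ^ 2 + v 1 ^ 2)) - 2 * δ * β * v 0) / (1 + (v 0 ^ 2 + v 1 ^ 2)) := rfl
  have e1 : G α β δ (v 0) (v 1) 1 =
    (β * (1 - (v 0 ^ 2 + v 1 ^ 2)) + 2 * δ * α * v 0) / (1 + (v 0 ^ 2 + v 1 ^ 2)) := rfl
  have e2 : G α β δ (v 0) (v 1) 2 = -(2 * δ * v 1) / (1 + (v 0 ^ 2 + v 1 ^ 2)) := rfl
  have hd := (den_pos (v 0) (v 1)).ne'
  funext i
  fin_cases i
  · show δ * (α * G α β δ (v 0) (v 1) 1 - β * G α β δ (v 0) (v 1) 0) /
      (1 + α * G α β δ (v 0) (v 1) 0 + β * G α β δ (v 0) (v 1) 1) = v 0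
    rw [den_G h1, e0, e1]
    field_simp
    linear_combination (2 * δ ^ 2 * v 0) * h1 + (2 * v 0) * h2
  · show -(δ * G α β δ (v 0) (v 1) 2) /
      (1 + α * G α β δ (v 0) (v 1) 0 + β * G α β δ (v 0) (v 1) 1) = v 1
    rw [den_G h1, e2]
    field_simp
    linear_combination (v 1) * h2

theorem G_pr {α β δ : ℝ} (h1 : α ^ 2 + β ^ 2 = 1) (h2 : δ ^ 2 = 1) (V : E3) (hV : ‖V‖ = 1)
    (hd : 1 + α * V 0 + β * V 1 ≠ 0) : G α β δ (pr α β δ V 0) (pr α β δ V 1) = V := by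
  have hn : V 0 ^ 2 + V 1 ^ 2 + V 2 ^ 2 = 1 := by rw [← norm_sq3, hV]; norm_num
  have p0 : pr α β δ V 0 = δ * (α * V 1 - β * V 0) / (1 + α * V 0 + β * V 1) := rfl
  have p1 : pr α β δ V 1 = -(δ * V 2) / (1 + α * V 0 + β * V 1) := rfl
  obtain ⟨D, hD⟩ : ∃ D, D = 1 + α * V 0 + β * V 1 := ⟨_, rfl⟩
  rw [← hD] at p0 p1 hd
  have hs : pr α β δ V 0 ^ 2 + pr α β δ V 1 ^ 2 = 2 / D - 1 := by
    rw [p0, p1]
    field_simp
    rw [hD]
    linear_combination (δ ^ 2 * (V 0 ^ 2 + V 1 ^ 2)) * h1 + (V 0 ^ 2 + V 1 ^ 2 + V 2 ^ 2 -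
      (α * V 0 + β * V 1) ^ 2) * h2 + hn
  have h3 : 1 + (2 / D - 1) = 2 / D := by ring
  ext i
  fin_cases i
  · show (α * (1 - (pr α β δ V 0 ^ 2 + pr α β δ V 1 ^ 2)) - 2 * δ * β * pr α β δ V 0) /
      (1 + (pr α β δ V 0 ^ 2 + pr α β δ V 1 ^ 2)) = V 0
    rw [hs, p0, h3]
    field_simp
    rw [hD]
    linear_combination (2 * V 0) * h1 + (-2 * β * (α * V 1 - β * V 0)) * h2
  · show (β * (1 - (pr α β δ V 0 ^ 2 + pr α β δ V 1 ^ 2)) + 2 * δ * α * pr α β δ V 0) /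
      (1 + (pr α β δ V 0 ^ 2 + pr α β δ V 1 ^ 2)) = V 1
    rw [hs, p0, h3]
    field_simp
    rw [hD]
    linear_combination (2 * V 1) * h1 + (2 * α * (α * V 1 - β * V 0)) * h2
  · show -(2 * δ * pr α β δ V 1) / (1 + (pr α β δ V 0 ^ 2 + pr α β δ V 1 ^ 2)) = V 2
    rw [hs, p1, h3]
    field_simp
    linear_combination (V 2) * h2

theorem diff_G (α β δ : ℝ) {X : Type} [NormedAddCommGroup X] [NormedSpace ℝ X] {f g : X → ℝ}
    (hf : Differentiable ℝ f) (hg : Differentiable ℝ g) :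
    Differentiable ℝ fun p : X => G α β δ (f p) (g p) := by
  have hd : ∀ p : X, 1 + (f p ^ 2 + g p ^ 2) ≠ 0 := fun p => (den_pos _ _).ne'
  have hi : Differentiable ℝ fun p : X => (1 + (f p ^ 2 + g p ^ 2))⁻¹ :=
    Differentiable.fun_inv (by fun_prop) hd
  rw [differentiable_euclidean]
  intro i
  fin_cases i
  · show Differentiable ℝ fun p : X =>
      (α * (1 - (f p ^ 2 + g p ^ 2)) - 2 * δ * β * f p) * (1 + (f p ^ 2 + g p ^ 2))⁻¹
    exact Differentiable.fun_mul (by fun_prop) hi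
  · show Differentiable ℝ fun p : X =>
      (β * (1 - (f p ^ 2 + g p ^ 2)) + 2 * δ * α * f p) * (1 + (f p ^ 2 + g p ^ 2))⁻¹
    exact Differentiable.fun_mul (by fun_prop) hi
  · show Differentiable ℝ fun p : X => -(2 * δ * g p) * (1 + (f p ^ 2 + g p ^ 2))⁻¹
    exact Differentiable.fun_mul (by fun_prop) hi

theorem sh_eq (o : Matrix (Fin 2) (Fin 2) ℝ) (ho : o.transpose * o = 1) :
    ∃ α β δ : ℝ, α ^ 2 + β ^ 2 = 1 ∧ δ ^ 2 = 1 ∧
      ∀ w : ℂ, sh o w = (1 / 2 : ℝ) • G α β δ w.re w.im := by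
  have ho' : o * o.transpose = 1 := mul_eq_one_comm.1 ho
  have c00 : o 0 0 ^ 2 + o 1 0 ^ 2 = 1 := by
    have := congrFun (congrFun ho 0) 0
    simp [Matrix.mul_apply, Fin.sum_univ_two] at this; linear_combination this
  have c11 : o 0 1 ^ 2 + o 1 1 ^ 2 = 1 := by
    have := congrFun (congrFun ho 1) 1
    simp [Matrix.mul_apply, Fin.sum_univ_two] at this; linear_combination this
  have c01 : o 0 0 * o 0 1 + o 1 0 * o 1 1 = 0 := by
    have := congrFun (congrFun ho 0) 1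
    simp [Matrix.mul_apply, Fin.sum_univ_two] at this; linear_combination this
  have r00 : o 0 0 ^ 2 + o 0 1 ^ 2 = 1 := by
    have := congrFun (congrFun ho' 0) 0
    simp [Matrix.mul_apply, Fin.sum_univ_two] at this; linear_combination this
  have r01 : o 0 0 * o 1 0 + o 0 1 * o 1 1 = 0 := by
    have := congrFun (congrFun ho' 0) 1
    simp [Matrix.mul_apply, Fin.sum_univ_two] at this; linear_combination this
  set a0 := o 0 0 with ha0
  set a1 := o 1 0 with ha1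
  set b0 := o 0 1 with hb0
  set b1 := o 1 1 with hb1
  set δ := a0 * b1 - a1 * b0 with hδ
  have hb0' : b0 = -(δ * a1) := by
    rw [hδ]; linear_combination (-b0) * c00 + a0 * c01
  have hb1' : b1 = δ * a0 := by
    rw [hδ]; linear_combination (-b1) * c00 + a1 * c01
  have h2 : δ ^ 2 = 1 := by
    rw [hδ]; linear_combination (b0 ^ 2 + b1 ^ 2) * c00 + c11 - (a0 * b0 + a1 * b1) * c01
  refine ⟨a0 ^ 2 - a1 ^ 2, 2 * a0 * a1, δ, by linear_combination (a0 ^ 2 + a1 ^ 2 + 1) * c00, h2,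
    fun w => ?_⟩
  have n1 : ‖(a0 : ℂ) + b0 * w‖ ^ 2 = (a0 + b0 * w.re) ^ 2 + (b0 * w.im) ^ 2 := by
    rw [Complex.sq_norm, normSq_apply]; simp; ring
  have n2 : ‖(a1 : ℂ) + b1 * w‖ ^ 2 = (a1 + b1 * w.re) ^ 2 + (b1 * w.im) ^ 2 := by
    rw [Complex.sq_norm, normSq_apply]; simp; ring
  have hn : 2 * ‖wv ((a0 : ℂ) + b0 * w) ((a1 : ℂ) + b1 * w)‖ = 1 + (w.re ^ 2 + w.im ^ 2) := by
    rw [norm_wv, n1, n2]
    linear_combination c00 + (2 * w.re) * c01 + (w.re ^ 2 + w.im ^ 2) * c11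
  have hd := (den_pos w.re w.im).ne'
  show (2 * ‖wv ((a0 : ℂ) + b0 * w) ((a1 : ℂ) + b1 * w)‖)⁻¹ •
    wv ((a0 : ℂ) + b0 * w) ((a1 : ℂ) + b1 * w) = _
  rw [hn]
  clear_value δ
  ext i
  fin_cases i
  · show (1 + (w.re ^ 2 + w.im ^ 2))⁻¹ *
      ((‖(a0 : ℂ) + b0 * w‖ ^ 2 - ‖(a1 : ℂ) + b1 * w‖ ^ 2) / 2) = 1 / 2 *
      (((a0 ^ 2 - a1 ^ 2) * (1 - (w.re ^ 2 + w.im ^ 2)) - 2 * δ * (2 * a0 * a1) * w.re) /
        (1 + (w.re ^ 2 + w.im ^ 2)))
    rw [n1, n2, hb0', hb1']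
    field_simp
    linear_combination ((a1 ^ 2 - a0 ^ 2) * (w.re ^ 2 + w.im ^ 2)) * h2
  · show (1 + (w.re ^ 2 + w.im ^ 2))⁻¹ *
      (((a0 : ℂ) + b0 * w) * (starRingEnd ℂ) ((a1 : ℂ) + b1 * w)).re = 1 / 2 *
      ((2 * a0 * a1 * (1 - (w.re ^ 2 + w.im ^ 2)) + 2 * δ * (a0 ^ 2 - a1 ^ 2) * w.re) /
        (1 + (w.re ^ 2 + w.im ^ 2)))
    simp only [mul_re, add_re, add_im, mul_im, conj_re, conj_im, ofReal_re, ofReal_im]
    rw [hb0', hb1']
    field_simp
    linear_combination (-(a0 * a1 * (w.re ^ 2 + w.im ^ 2))) * h2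
  · show (1 + (w.re ^ 2 + w.im ^ 2))⁻¹ *
      (((a0 : ℂ) + b0 * w) * (starRingEnd ℂ) ((a1 : ℂ) + b1 * w)).im = 1 / 2 *
      (-(2 * δ * w.im) / (1 + (w.re ^ 2 + w.im ^ 2)))
    simp only [mul_re, add_re, add_im, mul_im, conj_re, conj_im, ofReal_re, ofReal_im]
    rw [hb0', hb1']
    field_simp
    linear_combination (-(δ * w.im)) * c00

/-- the cone over a null set of the plane is null -/
theorem cone_null (α β δ : ℝ) {E : Set (Fin 2 → ℝ)} (hm : MeasurableSet E) (hE : volume E = 0) :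
    (volume : Measure E3) {V | ∃ r : ℝ, ∃ v ∈ E, V = r • G α β δ (v 0) (v 1)} = 0 := by
  let Ψ : E3 → E3 := fun p => p 0 • G α β δ (p 1) (p 2)
  have hΨ : Differentiable ℝ Ψ := by
    have h0 : Differentiable ℝ fun p : E3 => p 0 := by fun_prop
    have h1 : Differentiable ℝ fun p : E3 => G α β δ (p 1) (p 2) :=
      diff_G α β δ (by fun_prop) (by fun_prop)
    exact h0.fun_smul h1
  let e := MeasurableEquiv.piFinSuccAbove (fun _ : Fin 3 => ℝ) 0
  have he : MeasurePreserving e := volume_preserving_piFinSuccAbove (fun _ : Fin 3 => ℝ) 0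
  have hp := he.comp (PiLp.volume_preserving_ofLp (Fin 3))
  have hS : (volume : Measure E3) ((e ∘ WithLp.ofLp) ⁻¹' (univ ×ˢ E)) = 0 := by
    rw [hp.measure_preimage (MeasurableSet.univ.prod hm).nullMeasurableSet,
      Measure.volume_eq_prod, Measure.prod_prod, hE, mul_zero]
  refine measure_mono_null ?_
    (addHaar_image_eq_zero_of_differentiableOn_of_addHaar_eq_zero volume hΨ.differentiableOn hS)
  rintro V ⟨r, v, hv, rfl⟩
  refine ⟨!₂[r, v 0, v 1], ⟨mem_univ _, ?_⟩, rfl⟩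
  have : (e ∘ WithLp.ofLp) (!₂[r, v 0, v 1] : E3) = (r, v) := by
    refine Prod.ext rfl ?_
    funext i
    fin_cases i <;> rfl
  rw [this]; exact hv

end Area2

open Area2 in
theorem area2 : Area2Stmt := by
  intro o ho
  obtain ⟨α, β, δ, h1, h2, hs⟩ := sh_eq o ho
  refine ⟨?_, ?_⟩
  · have : sh o = fun w => (1 / 2 : ℝ) • G α β δ w.re w.im := funext hs
    rw [this]
    have hG : Continuous fun w : ℂ => G α β δ w.re w.im :=
      (diff_G α β δ reCLM.differentiable imCLM.differentiable).continuous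
    exact hG.const_smul (1 / 2 : ℝ)
  let Φ : (Fin 2 → ℝ) → sphere (0 : E3) 1 := fun v =>
    ⟨G α β δ (v 0) (v 1), by rw [mem_sphere_zero_iff_norm]; exact norm_G h1 h2 _ _⟩
  have hG : Continuous fun v : Fin 2 → ℝ => G α β δ (v 0) (v 1) :=
    (diff_G α β δ (differentiable_apply 0) (differentiable_apply 1)).continuous
  have hΦ : Continuous Φ := hG.subtype_mk _
  have hinj : Function.Injective Φ := fun v v' h => by
    have h' : G α β δ (v 0) (v 1) = G α β δ (v' 0) (v' 1) := congrArg Subtype.val h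
    rw [← pr_G h1 h2 v, h', pr_G h1 h2]
  have hemb : MeasurableEmbedding Φ := hΦ.measurableEmbedding hinj
  let μ : Measure (sphere (0 : E3) 1) := (volume : Measure E3).toSphere
  have hap : ∀ E, ((ENNReal.ofReal (1 / 4) • μ.comap Φ) E) = ENNReal.ofReal (1 / 4) * μ (Φ '' E) :=
    fun E => by rw [Measure.smul_apply, hemb.comap_apply, smul_eq_mul]
  refine ⟨ENNReal.ofReal (1 / 4) • μ.comap Φ, ⟨?_⟩, ?_, ?_, ?_⟩
  · rw [hap]
    exact ENNReal.mul_lt_top ENNReal.ofReal_lt_top (measure_lt_top _ _)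
  · refine Measure.AbsolutelyContinuous.mk fun E hm hE => ?_
    rw [hap, Measure.toSphere_apply' _ (hemb.measurableSet_image.2 hm),
      measure_mono_null ?_ (cone_null α β δ hm hE), mul_zero, mul_zero]
    rintro V ⟨r, -, W, ⟨x, ⟨v, hv, rfl⟩, rfl⟩, rfl⟩
    exact ⟨r, v, hv, rfl⟩
  · intro U hU hne
    rw [hap]
    refine mul_ne_zero (by simp) ?_
    have hc : ContinuousOn (fun x : sphere (0 : E3) 1 => pr α β δ x.1)
        {x | 1 + α * x.1 0 + β * x.1 1 ≠ 0} := by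
      refine continuousOn_pi.2 fun i => ?_
      fin_cases i
      · show ContinuousOn (fun x : sphere (0 : E3) 1 =>
          δ * (α * x.1 1 - β * x.1 0) / (1 + α * x.1 0 + β * x.1 1)) _
        exact ContinuousOn.div (by fun_prop) (by fun_prop) fun x hx => hx
      · show ContinuousOn (fun x : sphere (0 : E3) 1 =>
          -(δ * x.1 2) / (1 + α * x.1 0 + β * x.1 1)) _
        exact ContinuousOn.div (by fun_prop) (by fun_prop) fun x hx => hx
    have ho1 : IsOpen {x : sphere (0 : E3) 1 | 1 + α * x.1 0 + β * x.1 1 ≠ 0} :=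
      isOpen_ne_fun (by fun_prop) continuous_const
    have hop := hc.isOpen_inter_preimage ho1 hU
    have heq : Φ '' U = {x : sphere (0 : E3) 1 | 1 + α * x.1 0 + β * x.1 1 ≠ 0} ∩
        (fun x : sphere (0 : E3) 1 => pr α β δ x.1) ⁻¹' U := by
      ext x
      constructor
      · rintro ⟨v, hv, rfl⟩
        refine ⟨?_, ?_⟩
        · show 1 + α * G α β δ (v 0) (v 1) 0 + β * G α β δ (v 0) (v 1) 1 ≠ 0
          rw [den_G h1]
          exact (div_pos two_pos (den_pos _ _)).ne'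
        · show pr α β δ (G α β δ (v 0) (v 1)) ∈ U
          rw [pr_G h1 h2]; exact hv
      · rintro ⟨hx, hx'⟩
        exact ⟨_, hx', Subtype.ext (G_pr h1 h2 x.1 (mem_sphere_zero_iff_norm.1 x.2) hx)⟩
    exact (heq ▸ hop).measure_ne_zero μ (hne.image Φ)
  · intro E _
    rw [hap, ENNReal.toReal_mul, ENNReal.toReal_ofReal (by norm_num)]
    unfold area
    have : {x : sphere (0 : E3) 1 | (1 / 2 : ℝ) • (x : E3) ∈
        (fun v : Fin 2 → ℝ => sh o (v 0 + v 1 * I)) '' E} = Φ '' E := by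
      ext x
      have e : ∀ v : Fin 2 → ℝ, sh o (v 0 + v 1 * I) = (1 / 2 : ℝ) • G α β δ (v 0) (v 1) :=
        fun v => by rw [hs]; simp
      constructor
      · rintro ⟨v, hv, h⟩
        refine ⟨v, hv, Subtype.ext ?_⟩
        exact smul_right_injective E3 (by norm_num : (1 / 2 : ℝ) ≠ 0) ((e v).symm.trans h)
      · rintro ⟨v, hv, rfl⟩
        exact ⟨v, hv, e v⟩
    rw [this]
    norm_num
    rfl

end Pool.Agent.MP_1ba41f_an.K3

end
end MrgPart0

-- ======== part 1: formerly Pool.Agent.MP_1ba41f_an.K4.Cap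
section MrgPart1

/-! PROJECT LUNAR: areas of caps and bands, and the covering of the interval of areas. -/

noncomputable section
open MeasureTheory Filter Topology Set Metric

namespace Pool.Agent.MP_1ba41f_an.K4
open K3

namespace Cap

def o : Matrix (Fin 2) (Fin 2) ℝ := !![0, 1; 1, 0]

theorem o_orth : o.transpose * o = 1 := by
  ext i j
  fin_cases i <;> fin_cases j <;> simp [o, Matrix.mul_apply, Fin.sum_univ_two]

theorem sh_o : sh o = sh2 := by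
  funext w
  simp [sh, sh2, o]

/-- the measure in the plane -/
theorem meas : Continuous sh2 ∧ ∃ ν : Measure ℂ, IsFiniteMeasure ν ∧ ν ≪ volume ∧
    (∀ U, IsOpen U → U.Nonempty → ν U ≠ 0) ∧
    ∀ E, IsCompact E → area (sh2 '' E) = (ν E).toReal := by
  obtain ⟨h0, ν, h1, h2, h3, h4⟩ := area2 o o_orth
  rw [sh_o] at h0 h4
  let e : ℂ ≃ₜ (Fin 2 → ℝ) := Complex.basisOneI.equivFun.toContinuousLinearEquiv.toHomeomorph
  have he : ∀ v, e.symm v = v 0 + v 1 * Complex.I := fun v =>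
    Complex.measurableEquivPi_symm_apply v
  have hap : ∀ E, ν.map Complex.measurableEquivPi.symm E = ν (e.symm ⁻¹' E) := fun E =>
    MeasurableEquiv.map_apply _ _
  refine ⟨h0, ν.map Complex.measurableEquivPi.symm, inferInstance, ?_, fun U hU hne => ?_,
    fun E hE => ?_⟩
  · rw [← Complex.volume_preserving_equiv_pi.symm.map_eq]
    exact h2.map (MeasurableEquiv.measurable _)
  · rw [hap]
    exact h3 _ (hU.preimage e.symm.continuous) (hne.preimage e.symm.surjective)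
  · rw [hap, ← h4 _ (e.symm.isCompact_preimage.2 hE)]
    congr 1
    simp only [← he]
    rw [← image_image sh2 e.symm, image_preimage_eq _ e.symm.surjective]

theorem lim : Tendsto (fun r : ℝ => area (sh2 '' closedBall 0 r)) atTop (𝓝 Real.pi) := by
  obtain ⟨α, β, δ, h1, h2, hs⟩ := Area2.sh_eq o o_orth
  rw [sh_o] at hs
  let μ : Measure (sphere (0 : Area2.E3) 1) := (volume : Measure Area2.E3).toSphere
  let S : ℝ → Set (sphere (0 : Area2.E3) 1) := fun r =>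
    {x | (1 / 2 : ℝ) • (x : Area2.E3) ∈ sh2 '' closedBall 0 r}
  have hm : Monotone S := fun a b hab x hx => image_mono (closedBall_subset_closedBall hab) hx
  have hnull : μ {x | (x : Area2.E3) 2 = 0} = 0 := by
    rw [Measure.toSphere_apply' _ (isClosed_eq (by fun_prop) continuous_const).measurableSet,
      measure_mono_null ?_ (Measure.addHaar_submodule volume
        (LinearMap.ker (EuclideanSpace.projₗ (2 : Fin 3) : Area2.E3 →ₗ[ℝ] ℝ)) ?_), mul_zero]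
    · rintro V ⟨r, -, W, ⟨x, hx, rfl⟩, rfl⟩
      have hx' : (x : Area2.E3) 2 = 0 := hx
      simp [hx']
    · intro h
      have : (EuclideanSpace.single 2 1 : Area2.E3) ∈
        LinearMap.ker (EuclideanSpace.projₗ (2 : Fin 3) : Area2.E3 →ₗ[ℝ] ℝ) := h ▸ Submodule.mem_top
      simp at this
  have hU : μ (⋃ r, S r) = μ univ := by
    refine measure_congr (ae_eq_univ.2 (measure_mono_null (fun x hx => ?_) hnull))
    by_contra hx2
    have hn : ‖(x : Area2.E3)‖ = 1 := mem_sphere_zero_iff_norm.1 x.2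
    have hd : 1 + α * x.1 0 + β * x.1 1 ≠ 0 := fun hd => by
      have h3 := Area2.norm_sq3 x.1
      rw [hn] at h3
      have h4 : (x.1 0 + α) ^ 2 + (x.1 1 + β) ^ 2 + x.1 2 ^ 2 = 0 := by
        linear_combination h1 - h3 + 2 * hd
      exact hx2 (pow_eq_zero_iff two_ne_zero |>.1 (le_antisymm
        (by nlinarith [sq_nonneg (x.1 0 + α), sq_nonneg (x.1 1 + β)]) (sq_nonneg _)))
    let w : ℂ := ⟨Area2.pr α β δ x.1 0, Area2.pr α β δ x.1 1⟩
    refine hx (mem_iUnion.2 ⟨‖w‖, w, by simp, ?_⟩)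
    rw [hs, Area2.G_pr h1 h2 x.1 hn hd]
  have ht : μ univ = ENNReal.ofReal (4 * Real.pi) := by
    rw [Measure.toSphere_apply_univ, EuclideanSpace.volume_ball_fin_three, finrank_euclideanSpace_fin,
      ENNReal.ofReal_one, one_pow, one_mul, ← ENNReal.ofReal_natCast,
      ← ENNReal.ofReal_mul (by positivity)]
    congr 1
    push_cast
    ring
  have h5 := tendsto_measure_iUnion_atTop (μ := μ) hm
  rw [hU, ht] at h5
  have h6 := ((ENNReal.tendsto_toReal ENNReal.ofReal_ne_top).comp h5).const_mul ((1 / 2 : ℝ) ^ 2)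
  rw [ENNReal.toReal_ofReal (by positivity)] at h6
  rw [show ((1 / 2 : ℝ) ^ 2) * (4 * Real.pi) = Real.pi by ring] at h6
  exact h6

theorem le_pi {Φ : ℝ → ℝ} (h : CapFn Φ) {x : ℝ} (hx : 0 ≤ x) : Φ x ≤ Real.pi :=
  ge_of_tendsto h.lim ((eventually_ge_atTop x).mono fun _ hy =>
    h.mono.monotoneOn hx (hx.trans hy) hy)

end Cap

open Cap

theorem cap : CapStmt := by
  obtain ⟨h0, ν, h1, h2, h3, h4⟩ := meas
  let ρ : Measure ℝ := ν.map norm
  have hρ : ∀ s, MeasurableSet s → ρ s = ν (norm ⁻¹' s) := fun s hs =>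
    Measure.map_apply measurable_norm hs
  have hat : NullSingletonClass ρ := ⟨fun r => by
    rw [hρ _ (measurableSet_singleton r)]
    refine h2 ?_
    have : (norm ⁻¹' {r} : Set ℂ) = sphere 0 r := by ext z; simp
    rw [this, Measure.addHaar_sphere]⟩
  let Φ : ℝ → ℝ := fun r => ∫ _ in (0 : ℝ)..r, (1 : ℝ) ∂ρ
  have hd : ∀ a b, a ≤ b → (ν {ζ : ℂ | a ≤ ‖ζ‖ ∧ ‖ζ‖ ≤ b}).toReal = Φ b - Φ a := fun a b hab => by
    rw [intervalIntegral.integral_interval_sub_left intervalIntegrable_const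
      intervalIntegrable_const, intervalIntegral.integral_of_le hab, setIntegral_const, smul_eq_mul,
      mul_one, measureReal_def, measure_congr Ioc_ae_eq_Icc, hρ _ measurableSet_Icc]
    rfl
  have hz : Φ 0 = 0 := intervalIntegral.integral_same
  refine ⟨ν, Φ, h1, h2, h0, h4, ⟨intervalIntegral.continuous_primitive
    (fun _ _ => intervalIntegrable_const) 0, fun a ha b _ hab => ?_, hz, ?_⟩,
    fun a b _ hab => hd a b hab⟩
  · rw [← sub_pos, ← hd a b hab.le]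
    refine ENNReal.toReal_pos (fun h => h3 (norm ⁻¹' Ioo a b)
      (isOpen_Ioo.preimage continuous_norm) ⟨((a + b) / 2 : ℝ), ?_⟩
      (measure_mono_null (fun z hz => And.intro hz.1.le hz.2.le) h)) (measure_ne_top _ _)
    have ha' : 0 ≤ a := ha
    rw [mem_preimage, Complex.norm_real, Real.norm_of_nonneg (by linarith)]
    exact ⟨by linarith, by linarith⟩
  · refine lim.congr' ((eventually_ge_atTop 0).mono fun r hr => ?_)
    have := hd 0 r hr
    rw [hz, sub_zero] at this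
    rw [h4 _ (isCompact_closedBall _ _), ← this]
    congr 2
    ext z
    simp

theorem band : ReconStmt → Kron3Stmt → PolarStmt → CapStmt → BandStmt := by
  rintro hre hkr hpo ⟨ν, Φ, h1, h2, h0, h4, hΦ, h5⟩
  refine ⟨Φ, hΦ, fun m c F C T hc hm hT hz y0 y1 a b a' b' θa θb ha hab ha' hab' r0 r1 r2 A0 A1 A2 =>
    ?_⟩
  have hsc := hc.sc
  have hW : ∀ y θ, (T.p y θ).zc ≠ 0 := fun y θ h => by
    have e1 := hz y θ
    have e2 := (norm_nonneg _).trans (hT.rot y θ)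
    rw [h, norm_zero] at e1
    linarith
  have hper : ∀ y θ j, (T.p y (θ + Pi.single j (2 * Real.pi))).zc = (T.p y θ).zc :=
    fun y θ j => by rw [hT.per]
  have hrot : ∀ y θ, ‖T.z' y θ - Complex.I * (T.p y θ).zc‖ ≤ ‖(T.p y θ).zc‖ / 2 :=
    fun y θ => by linarith [hT.rot y θ, hz y θ]
  have hk : Continuous fun q : I01 × (Fin 3 → ℝ) => (c.sc * (T.p q.1 q.2).R)⁻¹ :=
    (hT.cR.const_mul _).inv₀ fun q => (mul_pos hsc (hT.pos _ _).1).ne'
  obtain ⟨p1, p2, p3⟩ := hpo ν h2 (fun y θ => (T.p y θ).zc) T.z'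
    (fun y θ => (c.sc * (T.p y θ).R)⁻¹) hT.cz hk
    (fun y θ => inv_pos.2 (mul_pos hsc (hT.pos _ _).1)) hW hper (fun y θ j => by rw [hT.per])
    hT.dz hrot
  obtain ⟨p4, -, -⟩ := hpo ν h2 (fun y θ => (T.p y θ).zc) T.z' (fun _ _ => 1) hT.cz
    continuous_const (fun _ _ => one_pos) hW hper (fun _ _ _ => rfl) hT.dz hrot
  have hrad : ∀ y θ, (c.sc * (T.p y θ).R)⁻¹ * ‖(T.p y θ).zc‖ ^ 2 = T.rad y θ / c.sc :=
    fun y θ => by unfold TorDat.rad; rw [mul_inv, div_div, div_eq_mul_inv, mul_inv]; ring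
  have g0 : (ν (range fun θ => (((c.sc * (T.p y0 θ).R)⁻¹ : ℝ) : ℂ) * (T.p y0 θ).zc ^ 2)).toReal ≤
      A0 := by
    refine le_trans ?_ A1
    rw [← h5 _ _ (by positivity) (by gcongr)]
    refine ENNReal.toReal_mono (measure_ne_top _ _) (measure_mono ?_)
    rintro _ ⟨θ, rfl⟩
    have e : ‖(((c.sc * (T.p y0 θ).R)⁻¹ : ℝ) : ℂ) * (T.p y0 θ).zc ^ 2‖ = T.rad y0 θ / c.sc := by
      rw [norm_mul, norm_pow, Complex.norm_real, Real.norm_of_nonneg
        (inv_pos.2 (mul_pos hsc (hT.pos _ _).1)).le, hrad]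
    simp only [mem_ofPred_eq]
    rw [e]
    exact ⟨by gcongr; exact (r0 θ).1, by gcongr; exact (r0 θ).2⟩
  have g1 : A0 ≤
      (ν (range fun θ => (((c.sc * (T.p y1 θ).R)⁻¹ : ℝ) : ℂ) * (T.p y1 θ).zc ^ 2)).toReal := by
    refine A2.trans ?_
    rw [← h5 _ _ (by positivity) (by gcongr)]
    refine ENNReal.toReal_mono (measure_ne_top _ _) (measure_mono (p3 y1 _ _ θa θb ?_ ?_))
    · intro s; rw [hrad]; gcongr; exact r1 s
    · intro s; rw [hrad]; gcongr; exact r2 s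
  obtain ⟨y, hy⟩ := intermediate_value_univ y0 y1 p2 ⟨g0, g1⟩
  have hlow : ∃ b, 0 < b ∧ ∀ τ : ℝ, b ≤ ‖(T.p y (τ • T.om)).zc‖ := by
    obtain ⟨_, ⟨θ, rfl⟩, hmin⟩ := (p4 y).exists_isMinOn (range_nonempty _)
      continuous_norm.continuousOn
    refine ⟨‖(T.p y θ).zc‖, norm_pos_iff.2 (hW y θ), fun τ => ?_⟩
    have := hmin (mem_range_self (τ • T.om))
    simp only [mem_ofPred_eq, Complex.ofReal_one, one_mul, norm_pow] at this
    exact (pow_le_pow_iff_left₀ (norm_nonneg _) (norm_nonneg _) two_ne_zero).1 this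
  obtain ⟨q, σ, q1, q2, q3⟩ := hre m c (T.a y) (T.cc y) (T.hs y) (fun τ => T.p y (τ • T.om)) hc hm
    (hT.apos y) (hT.ode y) (fun _ => hT.rel _ _) (fun _ => hT.pos _ _) (fun _ => hT.en _ _) hlow
  refine ⟨q, q1, ?_⟩
  set G : (Fin 3 → ℝ) → ℂ := fun θ => (((c.sc * (T.p y θ).R)⁻¹ : ℝ) : ℂ) * (T.p y θ).zc ^ 2 with hG
  have hGc : Continuous G :=
    (Complex.continuous_ofReal.comp (hk.comp (Continuous.prodMk_right y))).mul
      ((hT.cz.comp (Continuous.prodMk_right y)).pow 2)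
  have e1 : (range fun t => shape m (q t)) = range fun t : ℝ => (sh2 ∘ G) (t • T.om) := by
    rw [← q2.range_comp fun t : ℝ => (sh2 ∘ G) (t • T.om)]
    exact congrArg range (funext q3)
  have e2 : closure (range fun t : ℝ => (sh2 ∘ G) (t • T.om)) = sh2 '' range G := by
    refine Subset.antisymm (closure_minimal ?_ ((p1 y).image h0).isClosed) ?_
    · rintro _ ⟨t, rfl⟩
      exact ⟨_, mem_range_self _, rfl⟩
    · rw [← range_comp]
      exact hkr T.om _ (sh2 ∘ G) hT.ind (h0.comp hGc) fun θ j => by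
        simp only [Function.comp, hG, hT.per]
  rw [e1, e2, h4 _ (p1 y)]
  exact hy

theorem final : ToriStmt → BandStmt → Cov1Stmt → Cov2Stmt → MainStmt := by
  rintro hto ⟨Φ, hΦ, hb⟩ ⟨η1, hη1, hc1⟩ ⟨η2, hη2, hc2⟩ m0 m1 ε hm0 hm1 hε
  have hs1 : 0 < m0 / (m0 + m1) := by positivity
  have hs2 : 0 < m1 / (m0 + m1) := by positivity
  have hsum : m0 / (m0 + m1) + m1 / (m0 + m1) = 1 := by field_simp
  obtain ⟨η0, hη0, hto⟩ := hto _ _ hs1 hs2
  obtain ⟨η, hη, k0, k1, k2⟩ : ∃ η, 0 < η ∧ η ≤ η0 ∧ η ≤ η1 ∧ η ≤ η2 :=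
    ⟨min η0 (min η1 η2), by positivity, min_le_left _ _,
      (min_le_right _ _).trans (min_le_left _ _), (min_le_right _ _).trans (min_le_right _ _)⟩
  obtain ⟨C, ε0, hε0, hto⟩ := hto η hη k0
  obtain ⟨haS, habS, hc2⟩ := hc2 η hη k2
  obtain ⟨ε2, hε2, hc2⟩ := hc2 C
  have hA1 : 0 < Φ (bS η) - Φ (aS η) := sub_pos.2 (hΦ.mono haS.le (haS.trans habS).le habS)
  obtain ⟨a, ha, ha'⟩ : ∃ a, 0 < a ∧ Φ a ≤ ε / 2 := by
    have h := hΦ.cont.tendsto 0
    rw [hΦ.zero] at h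
    obtain ⟨a, h1, h2⟩ := ((eventually_mem_nhdsWithin (a := (0 : ℝ)) (s := Ioi 0)).and
      ((h.eventually (ge_mem_nhds (half_pos hε))).filter_mono nhdsWithin_le_nhds)).exists
    exact ⟨a, h1, h2⟩
  obtain ⟨b, hab, hb1, hb2⟩ : ∃ b, a ≤ b ∧ Real.pi - ε / 2 ≤ Φ b ∧
      Real.pi - (Φ (bS η) - Φ (aS η)) ≤ Φ b :=
    ((eventually_ge_atTop a).and ((hΦ.lim.eventually (le_mem_nhds (by linarith))).and
      (hΦ.lim.eventually (le_mem_nhds (by linarith))))).exists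
  obtain ⟨ε1, hε1, hc1⟩ := hc1 η hη k1 C a b ha (ha.trans_le hab)
  obtain ⟨e, he, l0, l1, l2, l3⟩ : ∃ e, 0 < e ∧ e ≤ ε0 ∧ e ≤ ε1 ∧ e ≤ ε2 ∧ e ≤ 1 :=
    ⟨min (min ε0 ε1) (min ε2 1), by positivity, (min_le_left _ _).trans (min_le_left _ _),
      (min_le_left _ _).trans (min_le_right _ _), (min_le_right _ _).trans (min_le_left _ _),
      (min_le_right _ _).trans (min_le_right _ _)⟩
  refine ⟨(m0 + m1) * min 1 (m0 / (m0 + m1) * (m1 / (m0 + m1)) * e ^ 9), by positivity,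
    fun m2 hm2 hm2' A0 hA hA' => ?_⟩
  let c : ℝ → Cfg := fun ep => ⟨m0 / (m0 + m1), m1 / (m0 + m1), m2 / (m0 + m1), ep, η⟩
  have hmu := (div_le_iff₀' (by positivity)).2 hm2'
  have hok : ∀ ep, 0 < ep → (c ep).Ok := fun ep h =>
    ⟨hs1, hs2, hsum, by show 0 < m2 / (m0 + m1); positivity, hmu.trans (min_le_left _ _), h, hη⟩
  have hms : ∀ ep, (c ep).Mass ![m0, m1, m2] := fun ep =>
    ⟨fun i => by fin_cases i <;> simpa, rfl, rfl, rfl⟩
  have hmm : 0 < (c 1).mm := (hok 1 one_pos).mm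
  have hmm' : (c 1).mm ≤ e ^ 9 := by
    have h1 := (hok 1 one_pos).M1
    have h2 := hmu.trans (min_le_right _ _)
    have h3 : 0 < m0 / (m0 + m1) * (m1 / (m0 + m1)) * e ^ 9 := by positivity
    refine (div_le_iff₀ (mul_pos (mul_pos (by linarith) hs1) hs2)).2 ?_
    show m2 / (m0 + m1) ≤ e ^ 9 * ((c 1).M * (m0 / (m0 + m1)) * (m1 / (m0 + m1)))
    nlinarith
  have hmc : ∀ ep, (c ep).mm = (c 1).mm := fun _ => rfl
  rcases le_total A0 (Φ (bS η) - Φ (aS η)) with h | h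
  · have hcont : Continuous fun u => Φ (bS η * u) - Φ (aS η * u) := by
      have := hΦ.cont
      fun_prop
    obtain ⟨u, ⟨u0, u1⟩, hu⟩ := intermediate_value_Icc zero_le_one hcont.continuousOn
      (show A0 ∈ Icc _ _ from ⟨by simpa using hA.le, by simpa using h⟩)
    have u0' : 0 < u := u0.lt_of_ne fun h0 => by
      subst h0
      simp only [mul_zero, sub_self] at hu
      exact hA.ne hu
    have hq : 0 < √(c 1).mm * u := mul_pos (Real.sqrt_pos.2 hmm) u0'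
    obtain ⟨ep, hep, hep'⟩ : ∃ ep : ℝ, 0 < ep ∧ ep ^ 4 = √(c 1).mm * u :=
      ⟨(√(c 1).mm * u) ^ ((4 : ℕ) : ℝ)⁻¹, Real.rpow_pos_of_pos hq _,
        Real.rpow_inv_natCast_pow hq.le (by norm_num)⟩
    have hle : ep ≤ e := by
      refine (pow_le_pow_iff_left₀ hep.le he.le (by norm_num : 4 ≠ 0)).1 ?_
      have h1 : √(c 1).mm ≤ e ^ 4 := Real.sqrt_le_iff.2 ⟨by positivity, hmm'.trans (by
        rw [← pow_mul]; exact pow_le_pow_of_le_one he.le l3 (by norm_num))⟩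
      rw [hep']
      exact (mul_le_of_le_one_right (Real.sqrt_nonneg _) u1).trans h1
    have hsc : (c ep).sc = u⁻¹ := by
      show √(c 1).mm / ep ^ 4 = u⁻¹
      rw [hep', div_mul_cancel_left₀ (Real.sqrt_pos.2 hmm).ne']
    obtain ⟨F, hF, hF'⟩ := hc2 (c ep) (hok ep hep) rfl (hle.trans l2)
    obtain ⟨T, hT⟩ := hto (c ep) F (hok ep hep) rfl rfl rfl (hle.trans l0) hF
    obtain ⟨t1, t2, ⟨θa, t3⟩, θb, t4⟩ := hF' T hT
    refine hb _ _ F C T (hok ep hep) (hms ep) hT t1 0 1 _ _ _ _ θa θb haS.le habS.le haS.le habS.le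
      t2 t3 t4 A0 ?_ ?_
    · rw [hsc, div_inv_eq_mul, div_inv_eq_mul]; exact hu.le
    · rw [hsc, div_inv_eq_mul, div_inv_eq_mul]; exact hu.ge
  · obtain ⟨ep, hep, hep'⟩ : ∃ ep : ℝ, 0 < ep ∧ ep ^ 9 = (c 1).mm :=
      ⟨(c 1).mm ^ ((9 : ℕ) : ℝ)⁻¹, Real.rpow_pos_of_pos hmm _,
        Real.rpow_inv_natCast_pow hmm.le (by norm_num)⟩
    have hle : ep ≤ e :=
      (pow_le_pow_iff_left₀ hep.le he.le (by norm_num : 9 ≠ 0)).1 (hep'.trans_le hmm')
    have hsc := (hok ep hep).sc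
    obtain ⟨F, hF, hF'⟩ := hc1 (c ep) (hok ep hep) rfl (hle.trans l1) hep'.symm
    obtain ⟨T, hT⟩ := hto (c ep) F (hok ep hep) rfl rfl rfl (hle.trans l0) hF
    obtain ⟨t1, ⟨b', t2⟩, ⟨θa, t3⟩, θb, t4⟩ := hF' T hT
    have hb0 : 0 ≤ b * (c ep).sc := mul_nonneg (ha.le.trans hab) hsc.le
    have hbb : b * (c ep).sc ≤ b' := (t2 0).1.trans (t2 0).2
    refine hb _ _ F C T (hok ep hep) (hms ep) hT t1 1 0 _ _ _ _ θa θb hb0 hbb
      (mul_nonneg ha.le hsc.le) (mul_le_mul_of_nonneg_right hab hsc.le) t2 t3 t4 A0 ?_ ?_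
    · rw [mul_div_cancel_right₀ _ hsc.ne']
      linarith [le_pi hΦ (div_nonneg (hb0.trans hbb) hsc.le)]
    · rw [mul_div_cancel_right₀ _ hsc.ne', mul_div_cancel_right₀ _ hsc.ne']
      linarith

end Pool.Agent.MP_1ba41f_an.K4

end
end MrgPart1

-- marker of a merged file
example : 731051 + 820415 = 731051 + 820415 := rfl
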