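import Pool.Agent.MP_1ba41f_an.K4.Nf

/-! PROJECT LUNAR: the two families and the annuli they sweep. -/

noncomputable section

namespace Pool.Agent.MP_1ba41f_an.K4
open K3

namespace Cov

theorem nu0_eq (l G u : ℝ) :
    nu0 l G u = 3 / 8 * (2 * l * G * u⁻¹ ^ 3 - (1 - l) * (5 - 3 * G ^ 2) * u⁻¹ ^ 4) := by
  unfold nu0; simp only [div_eq_mul_inv, inv_pow]

theorem inv_bd {u : ℝ} (h1 : 995 / 1000 ≤ u) (h2 : u ≤ 1005 / 1000) :
    99 / 100 ≤ u⁻¹ ∧ u⁻¹ ≤ 101 / 100 := by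
  have hu : 0 < u := by linarith
  constructor
  · rw [le_inv_comm₀ (by norm_num) hu]; linarith [show ((99 : ℝ) / 100)⁻¹ = 100 / 99 by norm_num]
  · rw [inv_le_comm₀ hu (by norm_num)]; linarith [show ((101 : ℝ) / 100)⁻¹ = 100 / 101 by norm_num]

theorem mul_bd {a b a0 a1 b0 b1 : ℝ} (ha0 : 0 ≤ a0) (hb0 : 0 ≤ b0) (ha : a0 ≤ a ∧ a ≤ a1)
    (hb : b0 ≤ b ∧ b ≤ b1) : a0 * b0 ≤ a * b ∧ a * b ≤ a1 * b1 :=
  ⟨mul_le_mul ha.1 hb.1 hb0 (ha0.trans ha.1),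
    mul_le_mul ha.2 hb.2 (hb0.trans hb.1) ((ha0.trans ha.1).trans ha.2)⟩

/-- the slope of the secular frequency in the outer angular momentum -/
theorem slope1 {l G u u' : ℝ} (l0 : 0 ≤ l) (l1 : l ≤ 1 / 100) (G0 : 0 ≤ G) (G1 : G ≤ 1 / 100)
    (h1 : 995 / 1000 ≤ u) (h2 : u ≤ 1005 / 1000) (h1' : 995 / 1000 ≤ u') (h2' : u' ≤ 1005 / 1000) :
    ∃ κ, nu0 l G u - nu0 l G u' = (u - u') * κ ∧ |κ - 15 / 2| ≤ 15 / 8 := by
  have hx := inv_bd h1 h2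
  have hy := inv_bd h1' h2'
  have hu : u * u⁻¹ = 1 := mul_inv_cancel₀ (by linarith)
  have hu' : u' * u'⁻¹ = 1 := mul_inv_cancel₀ (by linarith)
  rw [nu0_eq, nu0_eq]
  generalize u⁻¹ = x at *
  generalize u'⁻¹ = y at *
  have e : x - y = -((u - u') * (x * y)) := by linear_combination x * hu' - y * hu + 2 * y * hu - 2 * x * hu'
  refine ⟨3 / 8 * ((1 - l) * (5 - 3 * G ^ 2) * (x * y * (x ^ 3 + x ^ 2 * y + x * y ^ 2 + y ^ 3)) -
    2 * l * G * (x * y * (x ^ 2 + x * y + y ^ 2))), ?_, ?_⟩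
  · linear_combination (3 / 8 * (2 * l * G * (x ^ 2 + x * y + y ^ 2) -
      (1 - l) * (5 - 3 * G ^ 2) * (x ^ 3 + x ^ 2 * y + x * y ^ 2 + y ^ 3))) * e
  · have n1 : (0 : ℝ) ≤ 99 / 100 := by norm_num
    have xx := mul_bd n1 n1 hx hx
    have xy := mul_bd n1 n1 hx hy
    have yy := mul_bd n1 n1 hy hy
    have n2 : (0 : ℝ) ≤ 99 / 100 * (99 / 100) := by norm_num
    have xxx := mul_bd n2 n1 xx hx
    have xxy := mul_bd n2 n1 xx hy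
    have xyy := mul_bd n2 n1 xy hy
    have yyy := mul_bd n2 n1 yy hy
    have c3 : 388 / 100 ≤ x ^ 3 + x ^ 2 * y + x * y ^ 2 + y ^ 3 ∧
        x ^ 3 + x ^ 2 * y + x * y ^ 2 + y ^ 3 ≤ 413 / 100 := by
      constructor <;> linarith [xxx.1, xxx.2, xxy.1, xxy.2, xyy.1, xyy.2, yyy.1, yyy.2]
    have c2 : 0 ≤ x ^ 2 + x * y + y ^ 2 ∧ x ^ 2 + x * y + y ^ 2 ≤ 4 := by
      constructor <;> linarith [xx.1, xx.2, xy.1, xy.2, yy.1, yy.2]
    have p4 := mul_bd n2 (by norm_num) xy c3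
    have p3 := mul_bd n2 le_rfl xy c2
    have a1 : 99 / 100 ≤ 1 - l ∧ 1 - l ≤ 1 := ⟨by linarith, by linarith⟩
    have G2 := pow_le_pow_left₀ G0 G1 2
    have a2 : 499 / 100 ≤ 5 - 3 * G ^ 2 ∧ 5 - 3 * G ^ 2 ≤ 5 :=
      ⟨by linarith, by linarith [sq_nonneg G]⟩
    have a3 := mul_bd n1 (by norm_num) a1 a2
    have a4 := mul_bd (by norm_num) (by norm_num) a3 p4
    have b1 : 0 ≤ 2 * l * G ∧ 2 * l * G ≤ 1 / 100 :=
      ⟨by positivity, by linarith [mul_le_mul l1 G1 G0 (by norm_num)]⟩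
    have b2 := mul_bd le_rfl (by norm_num) b1 p3
    rw [abs_le]
    constructor <;> linarith [a4.1, a4.2, b2.1, b2.2]

theorem sqrt_bd {t : ℝ} (h0 : 0 ≤ t) (h1 : t ≤ 1) :
    1 - t ≤ √(1 - t) ∧ √(1 - t) ≤ 1 - t / 2 :=
  ⟨Real.le_sqrt_of_sq_le (by nlinarith), Real.sqrt_le_iff.2 ⟨by linarith, by nlinarith⟩⟩

theorem abs_mul_le' {s t : ℝ} (hs : 0 ≤ s) (ht : |t| ≤ 1) : -s ≤ s * t ∧ s * t ≤ s := by
  have := abs_le.1 ht
  constructor <;> nlinarith [this.1, this.2]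

theorem upd0 (θ : Fin 3 → ℝ) (s : ℝ) : Function.update θ 2 s 0 = θ 0 :=
  Function.update_of_ne (by decide) _ _

theorem upd1 (θ : Fin 3 → ℝ) (s : ℝ) : Function.update θ 2 s 1 = θ 1 :=
  Function.update_of_ne (by decide) _ _

theorem lt_norm {x δ r : ℝ} (hx : 0 ≤ x) (h : r ≤ x ^ 2) (h' : (2 * δ) ^ 2 < r) : 2 * δ < x :=
  lt_of_pow_lt_pow_left₀ 2 hx (h'.trans_le h)

/-- the first family -/
def F1 (η g0 : ℝ) : Fam where
  g := ⟨fun y => g0 + (η ^ 2 - g0) * (y : ℝ), by fun_prop⟩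
  ga := ContinuousMap.const _ √(1 - 2 * η ^ 2)
  v1 := 0
  v2 := η ^ 3
  d := 15 / 2 * η ^ 3
  be := nu0 0 0 √(1 - 2 * η ^ 2)

theorem F1_g {η g0 : ℝ} (h : g0 ≤ η ^ 2) (y : I01) :
    g0 ≤ (F1 η g0).g y ∧ (F1 η g0).g y ≤ η ^ 2 := by
  have h0 : (0 : ℝ) ≤ y := y.2.1
  have h1 : (y : ℝ) ≤ 1 := y.2.2
  show g0 ≤ g0 + (η ^ 2 - g0) * (y : ℝ) ∧ g0 + (η ^ 2 - g0) * (y : ℝ) ≤ η ^ 2
  constructor <;> nlinarith

theorem u_bd {η t : ℝ} (h0 : 0 < η) (h1 : η ≤ 1 / 100) (ht : |t| ≤ 1) :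
    995 / 1000 ≤ √(1 - 2 * η ^ 2) + η ^ 3 * t ∧ √(1 - 2 * η ^ 2) + η ^ 3 * t ≤ 1005 / 1000 := by
  have h2 : η ^ 2 ≤ 1 / 10000 := by nlinarith
  have h3 : η ^ 3 ≤ 1 / 10000 := by nlinarith
  have s := sqrt_bd (t := 2 * η ^ 2) (by positivity) (by linarith)
  have a := abs_mul_le' (pow_pos h0 3).le ht
  have := sq_nonneg η
  constructor <;> linarith [s.1, s.2, a.1, a.2]

theorem F1_ok {η g0 l : ℝ} (h0 : 0 < η) (h1 : η ≤ 1 / 100) (g0' : 0 ≤ g0) (hg : g0 ≤ η ^ 2)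
    (l0 : 0 ≤ l) (l1 : l ≤ η ^ 4) : (F1 η g0).Ok l η := by
  have h2 : η ^ 2 ≤ 1 / 10000 := by nlinarith
  have h4 : η ^ 4 ≤ η ^ 3 / 100 := by nlinarith [pow_pos h0 3]
  have h3 : η ^ 3 ≤ 1 / 10000 := by nlinarith
  have hp := pow_pos h0 3
  have hsq : √(1 - 2 * η ^ 2) ^ 2 = 1 - 2 * η ^ 2 := Real.sq_sqrt (by linarith)
  have hu := u_bd h0 h1 (t := 0) (by simp)
  have hx := inv_bd hu.1 hu.2
  have hd : |(F1 η g0).d| = 15 / 2 * η ^ 3 := abs_of_pos (by show 0 < 15 / 2 * η ^ 3; positivity)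
  have nf : ∀ y t, (F1 η g0).nf l y t = nu0 l ((F1 η g0).g y) (√(1 - 2 * η ^ 2) + η ^ 3 * t) := by
    intro y t; simp [Fam.nf, F1]
  have key : ∀ G x : ℝ, 0 ≤ G → G ≤ η ^ 2 → 99 / 100 ≤ x ∧ x ≤ 101 / 100 →
      0 ≤ 2 * l * G * x ^ 3 + (5 * l + 3 * (1 - l) * G ^ 2) * x ^ 4 ∧
      2 * l * G * x ^ 3 + (5 * l + 3 * (1 - l) * G ^ 2) * x ^ 4 ≤ 20 * η ^ 4 ∧ 9 / 10 ≤ x ^ 4 := by
    intro G x G0 G1 hx
    have n1 : (0 : ℝ) ≤ 99 / 100 := by norm_num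
    have xx := mul_bd n1 n1 hx hx
    have x3 := mul_bd (by norm_num) n1 xx hx
    have x4 := mul_bd (by norm_num) n1 x3 hx
    have y3 : 0 ≤ x ^ 3 ∧ x ^ 3 ≤ 2 := by constructor <;> linarith [x3.1, x3.2]
    have y4 : 9 / 10 ≤ x ^ 4 ∧ x ^ 4 ≤ 2 := by constructor <;> linarith [x4.1, x4.2]
    have G2 : G ^ 2 ≤ η ^ 4 := by linarith [pow_le_pow_left₀ G0 G1 2]
    have a1 : 0 ≤ 2 * l * G ∧ 2 * l * G ≤ 2 * η ^ 4 :=
      ⟨by positivity, by linarith [mul_le_of_le_one_right l0 (by linarith : G ≤ 1)]⟩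
    have a2 : 0 ≤ 5 * l + 3 * (1 - l) * G ^ 2 ∧ 5 * l + 3 * (1 - l) * G ^ 2 ≤ 8 * η ^ 4 := by
      have : 0 ≤ 1 - l := by linarith
      constructor
      · positivity
      · linarith [mul_nonneg l0 (sq_nonneg G)]
    have b1 := mul_bd le_rfl le_rfl a1 y3
    have b2 := mul_bd le_rfl le_rfl a2 ⟨by linarith [y4.1], y4.2⟩
    exact ⟨by linarith [b1.1, b2.1], by linarith [b1.2, b2.2], y4.1⟩
  refine ⟨fun y => ?_, fun y => ?_, fun y => ?_, fun y => ?_, ?_, ?_, fun y => ?_, ?_,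
    fun y => ?_, fun y t t' ht ht' => ?_⟩
  · have := F1_g hg y
    rw [abs_le]; constructor <;> linarith [this.1, this.2]
  · show 0 < √(1 - 2 * η ^ 2)
    exact Real.sqrt_pos.2 (by linarith)
  · show η ^ 2 ≤ 1 - √(1 - 2 * η ^ 2) ^ 2
    rw [hsq]; linarith [sq_nonneg η]
  · show 1 - √(1 - 2 * η ^ 2) ^ 2 ≤ 4 * η ^ 2
    rw [hsq]; linarith [sq_nonneg η]
  · show |(0 : ℝ)| ≤ η
    simpa using h0.le
  · show |η ^ 3| ≤ η ^ 3
    exact (abs_of_pos hp).le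
  · have hG := F1_g hg y
    have := key _ _ (g0'.trans hG.1) hG.2 hx
    rw [nf, nu0_eq]
    refine le_abs.2 (Or.inr ?_)
    linarith [this.1, this.2.1, this.2.2]
  · rw [hd]; linarith
  · have hG := F1_g hg y
    have := key _ _ (g0'.trans hG.1) hG.2 hx
    have be : (F1 η g0).be = nu0 0 0 (√(1 - 2 * η ^ 2) + η ^ 3 * 0) := by simp [F1]
    rw [nf, be, nu0_eq, nu0_eq, hd, abs_le]
    constructor <;> linarith [this.1, this.2.1, this.2.2]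
  · have hG := F1_g hg y
    have u1 := u_bd h0 h1 ht
    have u2 := u_bd h0 h1 ht'
    obtain ⟨κ, e, hκ⟩ := slope1 l0 (by linarith) (g0'.trans hG.1) (by linarith [hG.2])
      u1.1 u1.2 u2.1 u2.2
    rw [nf, nf, e, hd]
    have e2 : (√(1 - 2 * η ^ 2) + η ^ 3 * t - (√(1 - 2 * η ^ 2) + η ^ 3 * t')) * κ -
        (F1 η g0).d * (t - t') = η ^ 3 * (κ - 15 / 2) * (t - t') := by
      show _ - 15 / 2 * η ^ 3 * (t - t') = _
      ring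
    rw [e2, abs_mul, abs_mul, abs_of_pos hp]
    refine mul_le_mul_of_nonneg_right ?_ (abs_nonneg _)
    linarith [mul_le_mul_of_nonneg_left hκ hp.le]

/-- the sign of the inner angular momentum -/
def gs (l : ℝ) : ℝ := if l ≤ 3 / 4 then 1 / 2 else -(1 / 2)

def D0 (l : ℝ) : ℝ := 2 * l + 6 * (1 - l) * gs l

theorem gs_cases (l : ℝ) : (l ≤ 3 / 4 ∧ gs l = 1 / 2) ∨ (3 / 4 < l ∧ gs l = -(1 / 2)) := by
  unfold gs; split_ifs with h
  exacts [Or.inl ⟨h, rfl⟩, Or.inr ⟨not_le.1 h, rfl⟩]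

/-- the second family -/
def F2 (η l : ℝ) : Fam where
  g := ContinuousMap.const _ (gs l)
  ga := ⟨fun y => √(1 - (η * (1 + (y : ℝ))) ^ 2), by fun_prop⟩
  v1 := 500 * η ^ 2
  v2 := 0
  d := 500 * η ^ 2 * (3 / 8 * D0 l)
  be := nu0 l (gs l) 1

theorem e_bd {η : ℝ} (h0 : 0 < η) (y : I01) : η ≤ η * (1 + (y : ℝ)) ∧ η * (1 + (y : ℝ)) ≤ 2 * η := by
  have a0 : (0 : ℝ) ≤ y := y.2.1
  have a1 : (y : ℝ) ≤ 1 := y.2.2
  constructor <;> nlinarith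

theorem ga_sq {η l : ℝ} (h0 : 0 < η) (h1 : η ≤ 1 / 100) (y : I01) :
    0 < (F2 η l).ga y ∧ (F2 η l).ga y ^ 2 = 1 - (η * (1 + (y : ℝ))) ^ 2 := by
  have e := e_bd h0 y
  have a : (η * (1 + (y : ℝ))) ^ 2 < 1 := pow_lt_one₀ (by linarith [e.1]) (by linarith [e.2]) two_ne_zero
  exact ⟨Real.sqrt_pos.2 (by linarith), Real.sq_sqrt (by linarith)⟩

theorem inv_pw {η e u : ℝ} (h0 : 0 < η) (h1 : η ≤ 1 / 100) (e0 : 0 ≤ e) (e1 : e ≤ 2 * η)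
    (hu : 0 < u) (hs : u ^ 2 = 1 - e ^ 2) :
    1 ≤ u⁻¹ ^ 3 ∧ u⁻¹ ^ 3 ≤ u⁻¹ ^ 4 ∧ u⁻¹ ^ 4 ≤ 1 + 11 * η ^ 2 := by
  have h2 : η ^ 2 ≤ 1 / 10000 := by nlinarith
  have e2 : e ^ 2 ≤ 4 * η ^ 2 := by nlinarith
  have u1 : u ≤ 1 := by nlinarith [sq_nonneg e]
  have x1 : 1 ≤ u⁻¹ := (one_le_inv₀ hu).2 u1
  have hx : u⁻¹ ^ 2 * u ^ 2 = 1 := by field_simp
  generalize u⁻¹ = x at *
  have x2 : x ^ 2 ≤ 1 + 5 * η ^ 2 := by
    have hp : 0 < u ^ 2 := by positivity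
    refine le_of_mul_le_mul_right ?_ hp
    rw [hx, hs]; nlinarith [sq_nonneg η]
  refine ⟨one_le_pow₀ x1, pow_le_pow_right₀ x1 (by norm_num), ?_⟩
  have x4 : (x ^ 2) ^ 2 ≤ (1 + 5 * η ^ 2) ^ 2 := pow_le_pow_left₀ (sq_nonneg x) x2 2
  nlinarith [sq_nonneg η]

theorem D0_bd {l : ℝ} (l0 : 0 < l) (l1 : l < 1) :
    3 / 4 ≤ D0 l ∧ l + 17 / 4 * (1 - l) ≤ 5 / 2 * D0 l := by
  unfold D0
  rcases gs_cases l with ⟨h, e⟩ | ⟨h, e⟩ <;> rw [e] <;> constructor <;> linarith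

theorem F2_ok {η l : ℝ} (h0 : 0 < η) (h1 : η ≤ 1 / 100000) (l0 : 0 < l) (l1 : l < 1) :
    (F2 η l).Ok l η := by
  have h1' : η ≤ 1 / 100 := by linarith
  have h2 : η ^ 2 ≤ η / 100000 := by nlinarith
  have hp := pow_pos h0 2
  have hD := D0_bd l0 l1
  have hd : |(F2 η l).d| = 500 * η ^ 2 * (3 / 8 * D0 l) :=
    abs_of_pos (mul_pos (by positivity) (by linarith [hD.1]))
  have nf : ∀ y t, (F2 η l).nf l y t = nu0 l (gs l + 500 * η ^ 2 * t) ((F2 η l).ga y) := by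
    intro y t; simp [Fam.nf, F2]
  have hx : ∀ y, 1 ≤ ((F2 η l).ga y)⁻¹ ^ 3 ∧ ((F2 η l).ga y)⁻¹ ^ 3 ≤ ((F2 η l).ga y)⁻¹ ^ 4 ∧
      ((F2 η l).ga y)⁻¹ ^ 4 ≤ 1 + 11 * η ^ 2 := fun y =>
    inv_pw h0 h1' (h0.le.trans (e_bd h0 y).1) (e_bd h0 y).2 (ga_sq h0 h1' y).1 (ga_sq h0 h1' y).2
  have l2 : 0 < 1 - l := by linarith
  refine ⟨fun y => ?_, fun y => (ga_sq h0 h1' y).1, fun y => ?_, fun y => ?_, ?_, ?_, fun y => ?_,
    ?_, fun y => ?_, fun y t t' ht ht' => ?_⟩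
  · show |gs l| ≤ 3 / 4
    rcases gs_cases l with ⟨-, e⟩ | ⟨-, e⟩ <;> rw [e, abs_le] <;> constructor <;> norm_num
  · rw [(ga_sq h0 h1' y).2]
    linarith [pow_le_pow_left₀ h0.le (e_bd h0 y).1 2]
  · rw [(ga_sq h0 h1' y).2]
    linarith [pow_le_pow_left₀ (h0.le.trans (e_bd h0 y).1) (e_bd h0 y).2 2]
  · show |500 * η ^ 2| ≤ η
    rw [abs_of_pos (by positivity)]; linarith
  · show |(0 : ℝ)| ≤ η ^ 3
    simpa using (pow_pos h0 3).le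
  · obtain ⟨a1, a2, -⟩ := hx y
    rw [nf, nu0_eq]
    generalize ((F2 η l).ga y)⁻¹ ^ 3 = p at *
    generalize ((F2 η l).ga y)⁻¹ ^ 4 = q at *
    refine le_abs.2 (Or.inr ?_)
    have b1 := mul_le_mul_of_nonneg_left a2 l0.le
    have b2 := mul_le_mul_of_nonneg_left a1 l0.le
    have b3 := mul_le_mul_of_nonneg_left (a1.trans a2) l2.le
    rcases gs_cases l with ⟨h, e⟩ | ⟨h, e⟩ <;> rw [e]
    · linarith [mul_le_mul_of_nonneg_right h (by linarith : 0 ≤ q)]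
    · linarith
  · rw [hd]
    linarith [mul_le_mul_of_nonneg_right hD.1 hp.le,
      mul_le_mul_of_nonneg_right (by linarith : η ^ 2 ≤ 1) hp.le]
  · obtain ⟨a1, a2, a3⟩ := hx y
    have be : (F2 η l).be = nu0 l (gs l) 1 := rfl
    rw [nf, be, nu0_eq, nu0_eq, hd]
    generalize ((F2 η l).ga y)⁻¹ ^ 3 = p at *
    generalize ((F2 η l).ga y)⁻¹ ^ 4 = q at *
    have b1 : 0 ≤ l * (p - 1) ∧ l * (p - 1) ≤ l * (11 * η ^ 2) :=
      ⟨mul_nonneg l0.le (by linarith), mul_le_mul_of_nonneg_left (by linarith) l0.le⟩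
    have b2 : 0 ≤ (1 - l) * (q - 1) ∧ (1 - l) * (q - 1) ≤ (1 - l) * (11 * η ^ 2) :=
      ⟨mul_nonneg l2.le (by linarith), mul_le_mul_of_nonneg_left (by linarith) l2.le⟩
    have b3 := mul_le_mul_of_nonneg_right hD.2 hp.le
    have b4 := mul_le_mul_of_nonneg_right hD.1 hp.le
    rw [abs_le]
    rcases gs_cases l with ⟨h, e⟩ | ⟨h, e⟩ <;> rw [e] <;> constructor <;>
      linarith [b1.1, b1.2, b2.1, b2.2]
  · obtain ⟨a1, a2, a3⟩ := hx y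
    have dd : (F2 η l).d = 500 * η ^ 2 * (3 / 8 * D0 l) := rfl
    rw [nf, nf, nu0_eq, nu0_eq, hd, dd]
    generalize ((F2 η l).ga y)⁻¹ ^ 3 = p at *
    generalize ((F2 η l).ga y)⁻¹ ^ 4 = q at *
    have e2 : 3 / 8 * (2 * l * (gs l + 500 * η ^ 2 * t) * p -
          (1 - l) * (5 - 3 * (gs l + 500 * η ^ 2 * t) ^ 2) * q) -
        3 / 8 * (2 * l * (gs l + 500 * η ^ 2 * t') * p -
          (1 - l) * (5 - 3 * (gs l + 500 * η ^ 2 * t') ^ 2) * q) -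
        500 * η ^ 2 * (3 / 8 * D0 l) * (t - t') = 500 * η ^ 2 * (3 / 8) *
        (2 * l * (p - 1) + 3 * (1 - l) * (2 * gs l * (q - 1) + 500 * η ^ 2 * q * (t + t'))) *
          (t - t') := by
      unfold D0; ring
    rw [e2, abs_mul, abs_mul, abs_of_pos (by positivity : 0 < 500 * η ^ 2 * (3 / 8))]
    refine mul_le_mul_of_nonneg_right ?_ (abs_nonneg _)
    have c1 : |2 * gs l * (q - 1)| ≤ 1 / 100 := by
      rcases gs_cases l with ⟨-, e⟩ | ⟨-, e⟩ <;> rw [e, abs_le] <;> constructor <;> linarith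
    have c2 : |500 * η ^ 2 * q * (t + t')| ≤ 1 / 100 := by
      have q2 : η ^ 2 * q ≤ η ^ 2 * 2 := mul_le_mul_of_nonneg_left (by linarith) hp.le
      have q0 : 0 ≤ 500 * η ^ 2 * q := mul_nonneg (by positivity) (by linarith)
      have tt : |t + t'| ≤ 2 := (abs_add_le t t').trans (by linarith)
      rw [abs_mul, abs_of_nonneg q0]
      linarith [mul_le_mul_of_nonneg_left tt q0]
    have c3 : |3 * (1 - l) * (2 * gs l * (q - 1) + 500 * η ^ 2 * q * (t + t'))| ≤ 3 * (2 / 100) := by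
      rw [abs_mul, abs_of_pos (by linarith)]
      exact mul_le_mul (by linarith) ((abs_add_le _ _).trans (by linarith)) (abs_nonneg _)
        (by norm_num)
    have c4 : |2 * l * (p - 1)| ≤ 2 * (1 / 100) := by
      rw [abs_mul, abs_of_pos (by linarith), abs_of_nonneg (by linarith)]
      exact mul_le_mul (by linarith) (by linarith) (by linarith) (by norm_num)
    have c5 := (abs_add_le _ _).trans (add_le_add c4 c3)
    have c6 := mul_le_mul_of_nonneg_left c5 (by positivity : 0 ≤ 500 * η ^ 2 * (3 / 8))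
    have b4 := mul_le_mul_of_nonneg_right hD.1 hp.le
    linarith

theorem sqrt3 : 17 / 10 ≤ √3 ∧ √3 ≤ 7 / 4 :=
  ⟨Real.le_sqrt_of_sq_le (by norm_num), Real.sqrt_le_iff.2 ⟨by norm_num, by norm_num⟩⟩

theorem s_bd {g v : ℝ} (hg : g = 1 / 2 ∨ g = -(1 / 2)) (hv : |v| ≤ 1 / 100) :
    |√(1 - (g + v) ^ 2) - √3 / 2| ≤ 3 * |v| := by
  have a := abs_le.1 hv
  have a0 := abs_nonneg v
  have a1 := le_abs_self v
  have a2 := neg_abs_le v
  have a3 : v ^ 2 = |v| ^ 2 := (sq_abs v).symm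
  have r := sqrt3
  have r2 : √3 ^ 2 = 3 := Real.sq_sqrt (by norm_num)
  generalize |v| = w at *
  generalize √3 = ρ at *
  have m1 := mul_le_mul_of_nonneg_right r.1 a0
  have m2 := mul_le_mul_of_nonneg_right hv a0
  rw [abs_le]
  constructor
  · have : ρ / 2 - 3 * w ≤ √(1 - (g + v) ^ 2) := by
      refine Real.le_sqrt_of_sq_le ?_
      rcases hg with rfl | rfl <;> nlinarith
    linarith
  · have : √(1 - (g + v) ^ 2) ≤ ρ / 2 + 3 * w := by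
      refine Real.sqrt_le_iff.2 ⟨by linarith [r.1], ?_⟩
      rcases hg with rfl | rfl <;> nlinarith
    linarith

/-- comparison of two quotients -/
theorem quot_le {η α μ k r R : ℝ} (h0 : 0 < η) (h1 : η ≤ 1 / 100000) (hα : 1 / 8 ≤ α)
    (hμ : μ = 1501 * η ^ 2) (k0 : 0 < k) (k2 : k ≤ 2) (hr : r ≤ α + μ)
    (hR : k + η / 2 - η ^ 2 ≤ R) : r / R ≤ α / k := by
  have h2 : η ^ 2 ≤ η / 100000 := by nlinarith
  have hp := pow_pos h0 2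
  rw [div_le_div_iff₀ (by linarith) k0]
  have a1 := mul_le_mul_of_nonneg_right hr k0.le
  have a2 := mul_le_mul_of_nonneg_left hR (by linarith : 0 ≤ α)
  have a3 := mul_le_mul_of_nonneg_right hα (by linarith : 0 ≤ η / 2 - η ^ 2)
  have a4 := mul_le_mul_of_nonneg_left k2 (by rw [hμ]; positivity : 0 ≤ μ)
  linarith

theorem le_quot {η α μ k r R : ℝ} (h0 : 0 < η) (h1 : η ≤ 1 / 100000) (hα : 1 / 8 ≤ α)
    (hμ : μ = 1501 * η ^ 2) (k0 : 0 < k) (k2 : k ≤ 2) (hr : α - μ ≤ r) (R0 : 0 < R)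
    (hR : R ≤ k - η / 2 + η ^ 2) : α / k ≤ r / R := by
  have h2 : η ^ 2 ≤ η / 100000 := by nlinarith
  have hp := pow_pos h0 2
  rw [div_le_div_iff₀ k0 R0]
  have a1 := mul_le_mul_of_nonneg_right hr k0.le
  have a2 := mul_le_mul_of_nonneg_left hR (by linarith : 0 ≤ α)
  have a3 := mul_le_mul_of_nonneg_right hα (by linarith : 0 ≤ η / 2 - η ^ 2)
  have a4 := mul_le_mul_of_nonneg_left k2 (by rw [hμ]; positivity : 0 ≤ μ)
  linarith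

end Cov

open Cov in
theorem cov1 : Cov1Stmt := by
  refine ⟨1 / 100, by norm_num, fun η h0 h1 C a b ha hb => ?_⟩
  obtain ⟨K, hK⟩ : ∃ K : ℝ, K = 2 * |C| + 2 := ⟨_, rfl⟩
  have hC := abs_nonneg C
  have K2 : 2 ≤ K := by linarith
  have h4 := pow_pos h0 4
  have h2 : η ^ 2 ≤ 1 / 10000 := by nlinarith
  have h41 : η ^ 4 ≤ 1 / 10000 := by nlinarith [sq_nonneg η]
  have K0 : 0 < K := by linarith
  obtain ⟨σ1, σ0, hσ1⟩ : ∃ σ1 : ℝ, 0 < σ1 ∧ ∀ σ ≤ σ1, σ ≤ 1 ∧ σ * (4 * K) ≤ η ^ 4 ∧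
      σ * (8 * b) ≤ η ^ 4 ∧ σ * (4 * K) ≤ a := by
    refine ⟨min (min 1 (η ^ 4 / (4 * K))) (min (η ^ 4 / (8 * b)) (a / (4 * K))), by positivity,
      fun σ hle => ?_⟩
    simp only [le_min_iff] at hle
    exact ⟨hle.1.1, (le_div_iff₀ (by positivity)).1 hle.1.2,
      (le_div_iff₀ (by positivity)).1 hle.2.1, (le_div_iff₀ (by positivity)).1 hle.2.2⟩
  refine ⟨σ1 ^ 2, by positivity, fun c hc _ hε hm => ?_⟩
  have ep := hc.ep
  obtain ⟨σ, hσ, hσε⟩ : ∃ σ : ℝ, 0 < σ ∧ c.ep = σ ^ 2 :=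
    ⟨√c.ep, Real.sqrt_pos.2 ep, (Real.sq_sqrt ep.le).symm⟩
  have hle : σ ≤ σ1 := by
    rw [hσε] at hε; exact (sq_le_sq₀ hσ.le σ0.le).1 hε
  obtain ⟨s1, s2, s3, s4⟩ := hσ1 σ hle
  have eσ : c.ep ≤ σ := by rw [hσε, pow_two]; exact mul_le_of_le_one_right hσ.le s1
  have e1 : c.ep ≤ 1 := eσ.trans s1
  have Kε : K * c.ep ≤ η ^ 4 / 4 := by linarith [mul_le_mul_of_nonneg_left eσ K0.le]
  have sc : c.sc = σ := by
    have : c.mm = (σ * c.ep ^ 4) ^ 2 := by rw [hm, mul_pow, ← hσε]; ring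
    rw [Cfg.sc, this, Real.sqrt_sq (by positivity)]; field_simp
  have lam : c.lam ≤ η ^ 4 := by
    have k1 : c.ka = c.ep ^ 7 * √c.M := by rw [Cfg.ka, hm]; field_simp
    have k2 : c.ep ^ 7 ≤ c.ep := by simpa using pow_le_pow_of_le_one ep.le e1 (by norm_num : 1 ≤ 7)
    have k3 := mul_le_mul k2 hc.sM2 (Real.sqrt_nonneg _) ep.le
    linarith [hc.lam_le, mul_le_mul_of_nonneg_right K2 ep.le]
  obtain ⟨g0, g00, g02, g0η⟩ : ∃ g0 : ℝ, 0 ≤ g0 ∧ g0 ^ 2 = K * c.ep ∧ g0 ≤ η ^ 2 :=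
    ⟨√(K * c.ep), Real.sqrt_nonneg _, Real.sq_sqrt (by positivity),
      Real.sqrt_le_iff.2 ⟨by positivity, by linarith⟩⟩
  refine ⟨F1 η g0, F1_ok h0 h1 g00 g0η hc.lam.le lam, fun T hT => ?_⟩
  have δ : C * c.ep ≤ |C| * c.ep := mul_le_mul_of_nonneg_right (le_abs_self C) ep.le
  have δK : K * c.ep = 2 * (|C| * c.ep) + 2 * c.ep := by rw [hK]; ring
  have δ1 : |C| * c.ep ≤ η ^ 4 / 8 := by linarith
  have hR : ∀ y θ, 1 / 2 ≤ (T.p y θ).R ∧ (T.p y θ).R ≤ 2 := by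
    intro y θ
    obtain ⟨t, ht, -, -, h⟩ := hT.vR y θ
    have u := u_bd h0 h1 (hT.t y)
    have e0 : √(1 - ((F1 η g0).ga y + (F1 η g0).v2 * T.t y) ^ 2) ≤ 1 / 4 := by
      show √(1 - (√(1 - 2 * η ^ 2) + η ^ 3 * T.t y) ^ 2) ≤ 1 / 4
      exact Real.sqrt_le_iff.2 ⟨by norm_num, by linarith [pow_le_pow_left₀ (by norm_num) u.1 2]⟩
    have a1 := abs_mul_le' (Real.sqrt_nonneg
      (1 - ((F1 η g0).ga y + (F1 η g0).v2 * T.t y) ^ 2)) ht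
    have a2 := abs_le.1 h
    constructor <;> linarith [a1.1, a1.2, a2.1, a2.2]
  have hr : ∀ y θ, ∃ s : ℝ, 1 - (F1 η g0).g y ^ 2 ≤ s ∧ s ≤ 1 - (F1 η g0).g y ^ 2 / 2 ∧ 0 ≤ s ∧
      |‖(T.p y θ).zc‖ ^ 2 - (1 + s * Real.cos (2 * θ 0))| ≤ |C| * c.ep := by
    intro y θ
    have hG := F1_g g0η y
    have G2 : (F1 η g0).g y ^ 2 ≤ 1 := pow_le_one₀ (g00.trans hG.1) (by linarith [hG.2])
    have s := sqrt_bd (sq_nonneg ((F1 η g0).g y)) G2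
    refine ⟨_, s.1, s.2, Real.sqrt_nonneg _, le_trans ?_ δ⟩
    simpa [F1] using hT.vr y θ
  have low : ∀ y θ, (F1 η g0).g y ^ 2 / 2 - |C| * c.ep ≤ ‖(T.p y θ).zc‖ ^ 2 ∧
      ‖(T.p y θ).zc‖ ^ 2 ≤ 3 := by
    intro y θ
    obtain ⟨s, a1, a2, a3, a4⟩ := hr y θ
    have b1 := abs_mul_le' a3 (Real.abs_cos_le_one (2 * θ 0))
    have b2 := abs_le.1 a4
    have := sq_nonneg ((F1 η g0).g y)
    constructor <;> linarith [b1.1, b1.2, b2.1, b2.2]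
  have gy0 : (F1 η g0).g 0 = g0 := by simp [F1]
  have gy1 : (F1 η g0).g 1 = η ^ 2 := by simp [F1]
  rw [sc]
  refine ⟨fun y θ => ?_, ⟨6, fun θ => ?_⟩, ⟨fun _ => Real.pi / 2, fun s => ?_⟩,
    ⟨fun _ => 0, fun s => ?_⟩⟩
  · have hG := F1_g g0η y
    have G2 : g0 ^ 2 ≤ (F1 η g0).g y ^ 2 := pow_le_pow_left₀ g00 hG.1 2
    have a1 : c.ep ≤ ‖(T.p y θ).zc‖ ^ 2 := by linarith [(low y θ).1]
    refine lt_of_le_of_lt (by linarith) (lt_norm (δ := |C| * c.ep) (norm_nonneg _) a1 ?_)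
    have a2 : 2 * |C| * σ < 1 := by rw [hK] at s2; linarith
    have a3 : (2 * |C| * σ) ^ 2 < 1 := pow_lt_one₀ (by positivity) a2 two_ne_zero
    have a4 : (2 * (|C| * c.ep)) ^ 2 = (2 * |C| * σ) ^ 2 * c.ep := by rw [hσε]; ring
    rw [a4]; exact mul_lt_of_lt_one_left ep a3
  · have a1 := low 1 θ
    have a2 := hR 1 θ
    have Rp : 0 < (T.p 1 θ).R := by linarith [a2.1]
    rw [gy1] at a1
    rw [TorDat.rad, le_div_iff₀ Rp, div_le_iff₀ Rp]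
    have a3 := mul_le_mul_of_nonneg_left a2.2 (mul_pos hb hσ).le
    constructor <;> linarith [a1.1, a1.2, a2.1]
  · obtain ⟨s', a1, -, -, a4⟩ := hr 0 (Function.update (fun _ => Real.pi / 2) 2 s)
    have a2 := hR 0 (Function.update (fun _ => Real.pi / 2) 2 s)
    rw [upd0, show 2 * (Real.pi / 2) = Real.pi by ring, Real.cos_pi] at a4
    rw [gy0, g02] at a1
    rw [TorDat.rad, div_le_iff₀ (by linarith [a2.1])]
    have a3 := mul_le_mul_of_nonneg_left a2.1 (mul_pos ha hσ).le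
    have a5 : σ * (σ * (4 * K)) ≤ σ * a := mul_le_mul_of_nonneg_left s4 hσ.le
    have a6 : σ * (σ * (4 * K)) = 4 * (K * c.ep) := by rw [hσε]; ring
    have a7 : |C| * c.ep ≤ K * c.ep := mul_le_mul_of_nonneg_right (by linarith) ep.le
    linarith [(abs_le.1 a4).2]
  · obtain ⟨s', a1, -, -, a4⟩ := hr 0 (Function.update (fun _ => (0 : ℝ)) 2 s)
    have a2 := hR 0 (Function.update (fun _ => (0 : ℝ)) 2 s)
    rw [upd0, mul_zero, Real.cos_zero] at a4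
    rw [gy0, g02] at a1
    rw [TorDat.rad, le_div_iff₀ (by linarith [a2.1])]
    have a3 := mul_le_mul_of_nonneg_left a2.2 (mul_pos hb hσ).le
    linarith [(abs_le.1 a4).1]

open Cov in
theorem cov2 : Cov2Stmt := by
  refine ⟨1 / 100000, by norm_num, fun η h0 h1 => ?_⟩
  have r := sqrt3
  have h1' : η ≤ 1 / 100 := by linarith
  have h2 : η ^ 2 ≤ η / 100000 := by nlinarith
  have hp := pow_pos h0 2
  have hα : 1 / 8 ≤ 1 - √3 / 2 := by linarith [r.2]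
  have hβ : 1 / 8 ≤ 1 + √3 / 2 := by linarith [r.1]
  have ka : 0 < 1 + 3 / 2 * η := by linarith
  have kb : 0 < 1 - 3 / 2 * η := by linarith
  refine ⟨div_pos (by linarith) ka, ?_, fun C => ?_⟩
  · calc aS η ≤ 1 - √3 / 2 := div_le_self (by linarith) (by linarith)
      _ < 1 + √3 / 2 := by linarith [r.1]
      _ ≤ bS η := le_div_self (by linarith) kb (by linarith)
  have hC := abs_nonneg C
  refine ⟨η ^ 2 / (|C| + 1), by positivity, fun c hc _ hε => ?_⟩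
  have ep := hc.ep
  have δ : C * c.ep ≤ |C| * c.ep := mul_le_mul_of_nonneg_right (le_abs_self C) ep.le
  have δ0 : 0 ≤ |C| * c.ep := mul_nonneg hC ep.le
  have δ1 : |C| * c.ep ≤ η ^ 2 := by
    linarith [(le_div_iff₀ (by positivity : 0 < |C| + 1)).1 hε]
  refine ⟨F2 η c.lam, F2_ok h0 h1 hc.lam hc.lam1, fun T hT => ?_⟩
  have hR : ∀ y θ, ∃ t, |t| ≤ 1 ∧ (θ 1 = 0 → t = 1) ∧ (θ 1 = Real.pi / 2 → t = -1) ∧
      |(T.p y θ).R - (1 - η * (1 + (y : ℝ)) * t)| ≤ η ^ 2 := by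
    intro y θ
    obtain ⟨t, ht, a1, a2, h⟩ := hT.vR y θ
    have e : √(1 - ((F2 η c.lam).ga y + (F2 η c.lam).v2 * T.t y) ^ 2) = η * (1 + (y : ℝ)) := by
      rw [show (F2 η c.lam).v2 = 0 from rfl, zero_mul, add_zero, (ga_sq h0 h1' y).2,
        sub_sub_cancel, Real.sqrt_sq (h0.le.trans (e_bd h0 y).1)]
    rw [e] at h
    exact ⟨t, ht, a1, a2, h.trans (δ.trans δ1)⟩
  have hr : ∀ y θ, |‖(T.p y θ).zc‖ ^ 2 - (1 + √3 / 2 * Real.cos (2 * θ 0))| ≤ 1501 * η ^ 2 := by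
    intro y θ
    have v : |500 * η ^ 2 * T.t y| ≤ 500 * η ^ 2 := by
      rw [abs_mul, abs_of_pos (by positivity)]
      exact mul_le_of_le_one_right (by positivity) (hT.t y)
    have s := s_bd (g := gs c.lam) (v := 500 * η ^ 2 * T.t y)
      ((gs_cases c.lam).imp And.right And.right) (by linarith)
    have a : |‖(T.p y θ).zc‖ ^ 2 - (1 + √(1 - (gs c.lam + 500 * η ^ 2 * T.t y) ^ 2) *
        Real.cos (2 * θ 0))| ≤ C * c.ep := hT.vr y θ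
    generalize √(1 - (gs c.lam + 500 * η ^ 2 * T.t y) ^ 2) = s' at *
    have b : |(s' - √3 / 2) * Real.cos (2 * θ 0)| ≤ 1500 * η ^ 2 := by
      rw [abs_mul]
      linarith [mul_le_of_le_one_right (abs_nonneg (s' - √3 / 2)) (Real.abs_cos_le_one (2 * θ 0))]
    have a' := abs_le.1 a
    have b' := abs_le.1 b
    rw [abs_le]
    constructor <;> linarith [a'.1, a'.2, b'.1, b'.2]
  have rr : ∀ y θ, 1 - √3 / 2 - 1501 * η ^ 2 ≤ ‖(T.p y θ).zc‖ ^ 2 ∧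
      ‖(T.p y θ).zc‖ ^ 2 ≤ 1 + √3 / 2 + 1501 * η ^ 2 := by
    intro y θ
    have a := abs_le.1 (hr y θ)
    have b := abs_mul_le' (by linarith [r.1] : 0 ≤ √3 / 2) (Real.abs_cos_le_one (2 * θ 0))
    constructor <;> linarith [a.1, a.2, b.1, b.2]
  refine ⟨fun y θ => ?_, fun θ => ?_, ⟨fun _ => Real.pi / 2, fun s => ?_⟩, ⟨fun _ => 0, fun s => ?_⟩⟩
  · refine lt_of_le_of_lt (by linarith) (lt_norm (δ := |C| * c.ep) (norm_nonneg _) (rr y θ).1 ?_)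
    have a : (2 * (|C| * c.ep)) ^ 2 ≤ (1 / 10) ^ 2 := pow_le_pow_left₀ (by linarith) (by linarith) 2
    linarith
  · obtain ⟨t, ht, -, -, a⟩ := hR 0 θ
    have a' := abs_le.1 a
    have b := abs_mul_le' h0.le ht
    simp only [Set.Icc.coe_zero, add_zero, mul_one] at a'
    exact ⟨le_quot h0 h1 hα rfl ka (by linarith) (rr 0 θ).1 (hT.pos 0 θ).1
        (by linarith [a'.2, b.1]),
      quot_le h0 h1 hβ rfl kb (by linarith) (rr 0 θ).2 (by linarith [a'.1, b.2])⟩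
  · obtain ⟨t, -, -, ht, a⟩ := hR 1 (Function.update (fun _ => Real.pi / 2) 2 s)
    have b := hr 1 (Function.update (fun _ => Real.pi / 2) 2 s)
    rw [upd0, show 2 * (Real.pi / 2) = Real.pi by ring, Real.cos_pi] at b
    rw [ht (upd1 _ _), Set.Icc.coe_one] at a
    exact quot_le h0 h1 hα rfl ka (by linarith) (by linarith [(abs_le.1 b).2])
      (by linarith [(abs_le.1 a).1])
  · obtain ⟨t, -, ht, -, a⟩ := hR 1 (Function.update (fun _ => (0 : ℝ)) 2 s)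
    have b := hr 1 (Function.update (fun _ => (0 : ℝ)) 2 s)
    rw [upd0, mul_zero, Real.cos_zero] at b
    rw [ht (upd1 _ _), Set.Icc.coe_one] at a
    exact le_quot h0 h1 hβ rfl kb (by linarith) (by linarith [(abs_le.1 b).1]) (hT.pos 1 _).1
      (by linarith [(abs_le.1 a).2])

end Pool.Agent.MP_1ba41f_an.K4
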