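import Pool.Agent.MP_1ba41f_an.K4.Nf

/-! PROJECT LUNAR, module DAT: the Hamiltonian in action-angle coordinates. -/

noncomputable section
open Finset Filter

namespace Pool.Agent.MP_1ba41f_an.K4
open K3

namespace Dat0
variable {A : Type} [CommRing A] [Algebra ℝ A] (M : Mdl A) (c : Cfg) (F : Fam)

theorem h2 : algebraMap ℝ A (1 / 2) * 2 = 1 := by
  rw [show (2 : A) = algebraMap ℝ A 2 from (map_ofNat _ 2).symm, ← map_mul]; norm_num
theorem D_ofNat (δ : Derivation ℝ A A) (n : ℕ) [n.AtLeastTwo] : δ (ofNat(n) : A) = 0 := by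
  rw [← map_ofNat (algebraMap ℝ A) n]; exact δ.map_algebraMap _
theorem D_x (i : V6) (j) : M.S.D i (M.x j) = if i = ac j then 1 else 0 := by
  rcases i with i | i
  · simp [M.ext.Tx]
  · simp [M.ext.Dx]
theorem D_aff {f : A} (h : M.S.Cst f) (a : ℝ) (j) (i : V6) :
    M.S.D i (f + a • M.x j) = if i = ac j then algebraMap ℝ A a else 0 := by
  rw [map_add, h i, Derivation.map_smul, D_x]
  split_ifs <;> simp [Algebra.algebraMap_eq_smul_one]
theorem cst_I0 : M.S.Cst (1 + c.ep • M.par 1) := Scale.Cst.one.add ((M.par_cst 1).smul _)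
theorem cst_L0 : M.S.Cst (eL0 M c) := Scale.Cst.one.add ((M.par_cst 2).smul _)
theorem cst_G0 : M.S.Cst (eG0 M F) := (M.cY_cst _).add ((M.par_cst 3).smul _)
theorem cst_g0 : M.S.Cst (eg0 M F) := (M.cY_cst _).add ((M.par_cst 3).smul _)
theorem D_I (i) : M.S.D i (eI M c) = if i = ac 0 then algebraMap ℝ A c.r0 else 0 :=
  D_aff M (cst_I0 M c) _ _ _
theorem D_L (i) : M.S.D i (eL M c) = if i = ac 1 then algebraMap ℝ A (c.ep ^ 3) else 0 :=
  D_aff M (cst_L0 M c) _ _ _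
theorem D_G (i) : M.S.D i (eG M c F) = if i = ac 2 then algebraMap ℝ A (c.r0 * c.lam) else 0 :=
  D_aff M (cst_G0 M F) _ _ _
theorem D_g (i) :
    M.S.D i (eg M c F) = if i = ac 2 then algebraMap ℝ A (-(c.r0 * (1 - c.lam))) else 0 := by
  rw [← D_aff M (cst_g0 M F), eg, sub_eq_add_neg, neg_smul]
theorem ang_I : Ang M.S (eI M c) := fun j => by simp [D_I]
theorem ang_L : Ang M.S (eL M c) := fun j => by simp [D_L]
theorem ang_G : Ang M.S (eG M c F) := fun j => by simp [D_G]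
theorem ang_g : Ang M.S (eg M c F) := fun j => by simp [D_g]
theorem ang_root {S : Scale A V6} {a ai f : A} (h : 2 * (a * a) = f) (hi : a * ai = 1)
    (hf : Ang S f) : Ang S a := fun j => by
  have := congrArg (S.D (th j)) h
  rw [hf j, Derivation.leibniz, D_ofNat, Derivation.leibniz] at this
  simp only [smul_eq_mul] at this
  linear_combination (algebraMap ℝ A (1 / 2) * algebraMap ℝ A (1 / 2) * ai) * this -
    S.D (th j) a * hi - (S.D (th j) a * a * ai * (algebraMap ℝ A (1 / 2) * 2 + 1)) * h2 (A := A)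

variable (t : Act A) (o : Out A) (y1 y2 : A)

def PH : Ph A := mkPh t.a t.b (M.co 0) (M.si 0) o (o.Ri * y1) (o.Ri * y2)
def dL : A := t.L0i * t.L0i - t.Li * t.Li
def W5 : A := eI M c * (5 * eI M c ^ 2 - 3 * eG M c F ^ 2)
def W4 : A := 15 * (eI M c * (eI M c ^ 2 - eG M c F ^ 2))
def nuA (G gi I : A) : A := (2 * c.lam) • (G * gi ^ 3) - (1 - c.lam) • ((5 * I ^ 2 - 3 * G ^ 2) * gi ^ 4)

def mkD : Dat A where
  p := PH M t o y1 y2
  cc := ecc M c F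
  hs := -((1 / 2 : ℝ) • (t.L0i * t.L0i))
  P0 := (c.n / 2) • ((PH M t o y1 y2).r * dL t)
  P1 := c.n • ((PH M t o y1 y2).r * (o.Ri - c.s1 • (o.Ri * y1) - c.s2 • (o.Ri * y2)))
  m0 := (c.n / 2) • (eI M c * dL t)
  Fq := (-(c.n2 / 8)) • (2 * ((PH M t o y1 y2).r * (PH M t o y1 y2).quad))
  F1 := (-(c.n2 / 8)) • (o.Ri ^ 3 * (W5 M c F + W4 M c F * o.u4))
  Fb := (-(c.n2 / 8)) • (W5 M c F * (t.Li * t.gi) ^ 3)
  nuf := (3 / 8 : ℝ) • nuA c (eG0 M F) (M.z0 t.gi) 1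

/-- everything that the previous modules provide -/
structure Pre (Ca Co Cq : ℝ) : Prop where
  ok : c.Ok
  fam : F.Ok c.lam c.et
  act : IsAct M c F Ca t
  out : IsOut M c.w Co (eL M c) t.Li (eg M c F) t.gi t.e o
  sm : Ca * c.et ≤ 1 / 100
  et : c.et ≤ 1 / 100
  ep : c.ep ≤ c.et ^ 3
  by1 : M.S.Bd 1 (y1 - 1) (1 / 2)
  by2 : M.S.Bd 1 (y2 - 1) (1 / 2)
  rel : (PH M t o y1 y2).Rel c
  oct : M.S.Bd 1 (o.Ri - c.s1 • (o.Ri * y1) - c.s2 • (o.Ri * y2) +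
    (c.dl ^ 2 * (c.s1 * c.s2) / 4) • (PH M t o y1 y2).quad) (Cq * c.ep ^ 12)
  r : (PH M t o y1 y2).r = eI M c + 2 * (t.a * t.b) * (M.co 0 * M.co 0 - M.si 0 * M.si 0)
  hI : (1 / 8 : ℝ) • ((PH M t o y1 y2).w1 * (PH M t o y1 y2).w1 +
    (PH M t o y1 y2).w2 * (PH M t o y1 y2).w2) + (1 / 2 : ℝ) • (PH M t o y1 y2).r = eI M c
  hG : (1 / 2 : ℝ) • ((PH M t o y1 y2).z1 * (PH M t o y1 y2).w2 -
    (PH M t o y1 y2).z2 * (PH M t o y1 y2).w1) = eG M c F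
  rot : M.S.D (th 2) (PH M t o y1 y2).z1 = -(PH M t o y1 y2).z2 ∧
    M.S.D (th 2) (PH M t o y1 y2).z2 = (PH M t o y1 y2).z1
  q0 : ∃ q, M.S.D (th 0) q = (PH M t o y1 y2).r - eI M c
  q1 : ∃ q, M.S.D (th 0) q = 2 * ((PH M t o y1 y2).r * (PH M t o y1 y2).quad) -
    o.Ri ^ 3 * (W5 M c F + W4 M c F * o.u4)
  can : Can M.S c.w c.ka (PH M t o y1 y2)

variable {M c F t o y1 y2} {Ca Co Cq : ℝ} (h : Pre M c F t o y1 y2 Ca Co Cq)
include h

theorem Pre.cL0i : M.S.Cst t.L0i := (cst_L0 M c).inv h.act.L0i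
theorem Pre.DLi (i) : M.S.D i t.Li = if i = ac 1 then -(c.ep ^ 3 • (t.Li * t.Li)) else 0 := by
  rw [der_inv _ h.act.Li, D_L]; split_ifs <;> simp [Algebra.smul_def, mul_comm]
theorem Pre.Dgi (i) :
    M.S.D i t.gi = if i = ac 2 then (c.r0 * (1 - c.lam)) • (t.gi * t.gi) else 0 := by
  rw [der_inv _ h.act.gi, D_g]
  split_ifs
  · rw [map_neg, Algebra.smul_def]; ring
  · simp
theorem Pre.DdL (i) : M.S.D i (dL t) = if i = ac 1 then (2 * c.ep ^ 3) • t.Li ^ 3 else 0 := by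
  rw [dL, map_sub, (h.cL0i.mul h.cL0i) i, Derivation.leibniz, h.DLi]
  split_ifs
  · simp only [smul_eq_mul, Algebra.smul_def, map_mul, map_ofNat]; ring
  · simp
theorem Pre.ang_dL : Ang M.S (dL t) := fun j => by simp [h.DdL]
theorem Pre.ang_a : Ang M.S t.a := ang_root h.act.aa h.act.ai ((ang_I M c).add (ang_G M c F))
theorem Pre.ang_b : Ang M.S t.b := ang_root h.act.bb h.act.bi ((ang_I M c).sub (ang_G M c F))
omit h in
theorem ang_W5 : Ang M.S (W5 M c F) := fun j => by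
  simp [W5, ang_I M c j, ang_G M c F j, D_ofNat]
omit h in
theorem ang_W4 : Ang M.S (W4 M c F) := fun j => by
  simp [W4, ang_I M c j, ang_G M c F j, D_ofNat]
theorem Pre.ang_Lg : Ang M.S ((t.Li * t.gi) ^ 3) := fun j => by simp [h.DLi, h.Dgi]

theorem Pre.gam : (PH M t o y1 y2).gam c (ecc M c F) = eg M c F := by
  have hk := h.ok.ka.ne'
  rw [Ph.gam, h.hG, ecc, eG, eg, add_sub_add_left_eq_sub, smul_sub, smul_smul, smul_smul,
    inv_mul_cancel₀ hk, one_smul]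
  congr 2
  rw [← h.ok.ka_lam, h.ok.ka_lam]
  nth_rewrite 1 [← h.ok.ka_lam]
  field_simp

theorem Pre.K : (mkD M c F t o y1 y2).p.KK c (mkD M c F t o y1 y2).cc (mkD M c F t o y1 y2).hs =
    eh0 M c + (mkD M c F t o y1 y2).P0 + (mkD M c F t o y1 y2).P1 := by
  have e := h.out.alg.en
  simp only [mkD, Ph.KK, Ph.UU, h.gam, h.hI]
  have e1 : (PH M t o y1 y2).P = o.P := rfl
  have e2 : (PH M t o y1 y2).Ri = o.Ri := rfl
  have e3 : (PH M t o y1 y2).Y1 = o.Ri * y1 := rfl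
  have e4 : (PH M t o y1 y2).Y2 = o.Ri * y2 := rfl
  rw [e1, e2, e3, e4, show c.n / 2 = c.n * (1 / 2) by ring]
  simp only [eh0, eI, dL, Algebra.smul_def, map_mul]
  linear_combination (algebraMap ℝ A c.n * (PH M t o y1 y2).r * algebraMap ℝ A (1 / 2)) * e +
    (algebraMap ℝ A c.n * (PH M t o y1 y2).r * o.Ri) * h2 (A := A)

theorem Pre.D1m : c.w 1 • M.S.D (ac 1) (mkD M c F t o y1 y2).m0 = (c.n / 2) • (eI M c * t.Li ^ 3) := by
  have := h.ok.ep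
  simp only [mkD, Derivation.map_smul, Derivation.leibniz, h.DdL, D_I, smul_eq_mul]
  simp only [Cfg.w, if_true, Sum.inr.injEq, Matrix.cons_val_one, Matrix.cons_val_zero]
  rw [if_neg (by decide), mul_zero, add_zero, mul_smul_comm, smul_smul, smul_smul]
  congr 1; field_simp

theorem Pre.D2F : M.S.D (ac 2) (mkD M c F t o y1 y2).Fb = (c.n2 * c.r0) • enu M c F t := by
  have e1 : M.S.D (ac 2) (eI M c) = 0 := by simp [D_I]
  have e2 : M.S.D (ac 2) t.Li = 0 := by simp [h.DLi]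
  have e3 := D_G M c F (ac 2)
  have e4 := h.Dgi (ac 2)
  rw [if_pos rfl] at e3 e4
  have e8 : (-(c.n2 / 8)) = c.n2 * (-(1 / 2 * (1 / 2) * (1 / 2))) := by ring
  have e9 : (3 / 8 : ℝ) = 3 * (1 / 2 * (1 / 2) * (1 / 2)) := by norm_num
  simp only [mkD, W5, enu, Derivation.map_smul, Derivation.leibniz, Derivation.leibniz_pow, map_sub,
    e1, e2, e3, e4, D_ofNat, e8, e9]
  simp only [smul_eq_mul, Algebra.smul_def, map_mul, map_neg, map_sub, map_one, map_ofNat]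
  push_cast
  ring

omit h in
theorem zI : M.z0 (eI M c) = 1 + c.ep • M.par 1 := by
  rw [eI, map_add, M.ext.z_cst (cst_I0 M c), map_smul, M.ext.zx]; simp
theorem Pre.zLi : M.z0 t.Li = t.L0i := by
  have := congrArg M.z0 h.act.Li
  rw [map_mul, eL, map_add, M.ext.z_cst (cst_L0 M c), map_smul, M.ext.zx, map_one, smul_zero,
    add_zero] at this
  linear_combination t.L0i * this - M.z0 t.Li * h.act.L0i
omit h in
theorem zG : M.z0 (eG M c F) = eG0 M F := by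
  rw [eG, map_add, M.ext.z_cst (cst_G0 M F), map_smul, M.ext.zx]; simp
theorem Pre.zdL : M.z0 (dL t) = 0 := by simp [dL, h.zLi, M.ext.z_cst h.cL0i]

theorem Pre.zm1 : c.w 1 • M.z0 (M.S.D (ac 1) (mkD M c F t o y1 y2).m0) -
    (c.n / 2) • (1 + c.ep • (M.par 1 - 3 * M.par 2)) = (c.n / 2 * c.ep ^ 2) •
      (M.par 2 * M.par 2 * t.L0i * (3 + 2 * t.L0i + t.L0i * t.L0i) -
        M.par 1 * M.par 2 * t.L0i * (t.L0i * t.L0i + t.L0i + 1)) := by
  rw [← map_smul, h.D1m, map_smul, map_mul, map_pow, zI, h.zLi, ← smul_sub, mul_smul]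
  congr 1
  have e := h.act.L0i
  simp only [eL0, Algebra.smul_def, map_pow] at e ⊢
  generalize algebraMap ℝ A c.ep = u at *
  linear_combination ((1 + u * M.par 1) * (t.L0i * t.L0i + t.L0i + 1) -
    u * M.par 2 * (3 + 2 * t.L0i + t.L0i * t.L0i)) * e

theorem Pre.zb2 : (c.n2 * c.r0)⁻¹ • M.z0 (M.S.D (ac 2) (mkD M c F t o y1 y2).Fb) -
    (mkD M c F t o y1 y2).nuf = (3 / 8 * c.ep) •
      ((M.par 1 * t.L0i ^ 3 - M.par 2 * t.L0i * (t.L0i * t.L0i + t.L0i + 1)) *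
        nuA c (eG0 M F) (M.z0 t.gi) (M.z0 (eI M c)) -
        (1 - c.lam) • (5 * (M.par 1 * (M.z0 (eI M c) + 1)) * M.z0 t.gi ^ 4)) := by
  rw [h.D2F, map_smul, smul_smul, inv_mul_cancel₀ (mul_pos h.ok.n2 h.ok.r0).ne', one_smul, enu,
    map_smul, mul_smul (3 / 8 : ℝ) c.ep]
  simp only [mkD, ← smul_sub]
  congr 1
  have e := h.act.L0i
  simp only [nuA, map_mul, map_sub, map_smul, map_pow, map_ofNat, zG, h.zLi, zI]
  simp only [eL0, Algebra.smul_def] at e ⊢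
  generalize algebraMap ℝ A c.ep = u at *
  linear_combination ((t.L0i * t.L0i + t.L0i + 1) *
    (algebraMap ℝ A (2 * c.lam) * (eG0 M F * M.z0 t.gi ^ 3) - algebraMap ℝ A (1 - c.lam) *
      ((5 * (1 + u * M.par 1) ^ 2 - 3 * eG0 M F ^ 2) * M.z0 t.gi ^ 4))) * e


theorem Pre.inaP : Ina M.S {1, 2} (mkD M c F t o y1 y2).P0 := by
  refine .smul _ (.mul ?_ (h.ang_dL.ina _))
  intro j hj
  have hj0 : j ≠ 0 := by rintro rfl; simp at hj
  simp [h.r, ang_I M c j, h.ang_a j, h.ang_b j, M.Dco, M.Dsi, hj0, D_ofNat]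

theorem Pre.prm : ∃ a, M.S.D (th 0) a = (mkD M c F t o y1 y2).P0 - (mkD M c F t o y1 y2).m0 := by
  obtain ⟨q, hq⟩ := h.q0
  refine ⟨(c.n / 2) • (q * dL t), ?_⟩
  simp only [mkD, Derivation.map_smul, Derivation.leibniz, hq, h.ang_dL 0, smul_eq_mul, ← smul_sub]
  congr 1; ring

theorem Pre.inv1 : (c.w 1 • M.S.D (ac 1) (mkD M c F t o y1 y2).m0) *
    ((2 / c.n) • (t.Ii * eL M c ^ 3)) = 1 := by
  have := h.ok.n
  rw [h.D1m, smul_mul_smul_comm, show c.n / 2 * (2 / c.n) = 1 by field_simp, one_smul]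
  linear_combination (t.Li * eL M c) ^ 3 * h.act.Ii +
    ((t.Li * eL M c) ^ 2 + t.Li * eL M c + 1) * h.act.Li

omit h in
theorem octe : (mkD M c F t o y1 y2).P1 - (mkD M c F t o y1 y2).Fq =
    c.n • ((PH M t o y1 y2).r * (o.Ri - c.s1 • (o.Ri * y1) - c.s2 • (o.Ri * y2) +
      (c.dl ^ 2 * (c.s1 * c.s2) / 4) • (PH M t o y1 y2).quad)) := by
  have e : -(c.n2 / 8) = -(c.n * (c.dl ^ 2 * (c.s1 * c.s2) / 4) * (1 / 2)) := by
    unfold Cfg.n2; ring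
  simp only [mkD, e]
  generalize c.dl ^ 2 * (c.s1 * c.s2) / 4 = k
  simp only [Algebra.smul_def, map_mul, map_neg]
  linear_combination (algebraMap ℝ A c.n * algebraMap ℝ A k * (PH M t o y1 y2).r *
    (PH M t o y1 y2).quad) * h2 (A := A)

theorem Pre.F10 : M.S.D (th 0) (mkD M c F t o y1 y2).F1 = 0 := by
  have e1 : M.S.D (th 0) o.Ri = 0 := by rw [der_inv _ h.out.alg.Ri, h.out.alg.DR.1]; simp
  have e2 : M.S.D (th 0) o.u4 = 0 := by
    simp [Out.u4, h.out.alg.DU1, h.out.alg.DU2, h.out.alg.al0, D_ofNat]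
  simp [mkD, e1, e2, ang_W5 0, ang_W4 0]

theorem Pre.pr1 : ∃ a, M.S.D (th 0) a = (mkD M c F t o y1 y2).Fq - (mkD M c F t o y1 y2).F1 := by
  obtain ⟨q, hq⟩ := h.q1
  exact ⟨(-(c.n2 / 8)) • q, by simp only [mkD, Derivation.map_smul, hq, smul_sub]⟩

theorem Pre.prb : ∃ a, M.S.D (th 1) a = (mkD M c F t o y1 y2).F1 - (mkD M c F t o y1 y2).Fb := by
  obtain ⟨q0, e0⟩ := h.out.alg.pr0
  obtain ⟨q4, e4⟩ := h.out.alg.pr4
  refine ⟨(-(c.n2 / 8)) • (W5 M c F * q0 + W4 M c F * q4), ?_⟩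
  simp only [mkD, Derivation.map_smul, map_add, Derivation.leibniz, e0, e4, ang_W5 1, ang_W4 1,
    smul_eq_mul, ← smul_sub]
  congr 1; ring

theorem Pre.inv2 : M.S.D (ac 2) (mkD M c F t o y1 y2).Fb * ((c.n2 * c.r0)⁻¹ • t.nui) = 1 := by
  rw [h.D2F, smul_mul_smul_comm, mul_inv_cancel₀ (mul_pos h.ok.n2 h.ok.r0).ne', one_smul, h.act.nui]

/-! ### Values on the zero section -/

omit h in
theorem evI (y θ) : M.ev y (M.pt θ) (eI M c) = 1 + c.ep * y.2.1 1 := by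
  simp [eI, M.par_ev, M.ev_x]
omit h in
theorem evL (y θ) : M.ev y (M.pt θ) (eL M c) = 1 + c.ep * y.2.1 2 := by
  simp [eL, eL0, M.par_ev, M.ev_x]
omit h in
theorem evG0 (y z) : M.ev y z (eG0 M F) = F.g y.1 + F.v1 * y.2.1 3 := by
  simp [eG0, M.par_ev, M.cY_ev]
omit h in
theorem evG (y θ) : M.ev y (M.pt θ) (eG M c F) = F.g y.1 + F.v1 * y.2.1 3 := by
  simp [eG, evG0, M.ev_x]
omit h in
theorem evg (y θ) : M.ev y (M.pt θ) (eg M c F) = F.ga y.1 + F.v2 * y.2.1 3 := by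
  simp [eg, eg0, M.par_ev, M.cY_ev, M.ev_x]
omit h in
theorem par_le (p : B4) (i) : |p.1 i| ≤ 1 :=
  (norm_le_pi_norm p.1 i).trans (mem_closedBall_zero_iff.1 p.2)
omit h in
theorem sqrt_lip {u v m : ℝ} (hu : 0 ≤ u) (hm : 0 < m) (hv : m ^ 2 ≤ v) :
    |√u - √v| ≤ |u - v| / m := by
  have h1 : m ≤ √v := Real.le_sqrt_of_sq_le hv
  have h3 := Real.sqrt_nonneg u
  rw [le_div_iff₀ hm, show u - v = (√u - √v) * (√u + √v) by
    nlinarith [Real.mul_self_sqrt hu, Real.mul_self_sqrt ((sq_nonneg m).trans hv)], abs_mul]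
  exact mul_le_mul_of_nonneg_left (le_trans (by linarith) (le_abs_self _)) (abs_nonneg _)

theorem Pre.ep1 : c.ep ≤ 1 / 100 :=
  h.ep.trans ((pow_le_of_le_one h.ok.et.le (h.et.trans (by norm_num)) (by norm_num)).trans h.et)

theorem Pre.nuf (y θ) : M.ev y (M.pt θ) (mkD M c F t o y1 y2).nuf = F.nf c.lam y.1 (y.2.1 3) := by
  have e := congrArg (M.ev y (M.pt θ)) h.act.gi
  rw [map_mul, evg, map_one] at e
  simp [mkD, nuA, evG0, M.evz, eq_inv_of_mul_eq_one_right e, Fam.nf, nu0, map_ofNat, div_eq_mul_inv,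
    mul_assoc]

theorem Pre.vr (y θ) : |M.ev y (M.pt θ) (PH M t o y1 y2).r -
    (1 + √(1 - (F.g y.1 + F.v1 * y.2.1 3) ^ 2) * Real.cos (2 * θ 0))| ≤ 7 * c.ep := by
  have ea := congrArg (M.ev y (M.pt θ)) h.act.aa
  have eb := congrArg (M.ev y (M.pt θ)) h.act.bb
  obtain ⟨pa, pb, -⟩ := h.act.pos y (M.pt θ)
  simp only [map_mul, map_add, map_sub, map_ofNat, evI, evG] at ea eb
  have hG : |F.g y.1 + F.v1 * y.2.1 3| ≤ 4 / 5 := by
    have := mul_le_mul h.fam.v1 (par_le y.2 3) (abs_nonneg _) h.ok.et.le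
    linarith [abs_add_le (F.g y.1) (F.v1 * y.2.1 3), abs_mul F.v1 (y.2.1 3), h.fam.g y.1, h.et]
  have hp : |c.ep * y.2.1 1| ≤ c.ep := by
    rw [abs_mul, abs_of_pos h.ok.ep]; exact mul_le_of_le_one_right h.ok.ep.le (par_le _ _)
  simp only [h.r, map_mul, map_add, map_sub, map_ofNat, evI, M.co_ev, M.si_ev]
  generalize F.g y.1 + F.v1 * y.2.1 3 = G at *
  generalize c.ep * y.2.1 1 = u at *
  generalize M.ev y (M.pt θ) t.a = a at *
  generalize M.ev y (M.pt θ) t.b = b at *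
  have e1 : (1 + u) ^ 2 - G ^ 2 = (2 * (a * b)) ^ 2 := by
    linear_combination (-(2 * (b * b))) * ea - (1 + u + G) * eb
  have e2 : 2 * (a * b) = √((1 + u) ^ 2 - G ^ 2) := by rw [e1, Real.sqrt_sq (by positivity)]
  have hG2 : G ^ 2 ≤ (4 / 5) ^ 2 := sq_le_sq' (abs_le.1 hG).1 (abs_le.1 hG).2
  have e3 := sqrt_lip (u := (1 + u) ^ 2 - G ^ 2) (v := 1 - G ^ 2) (m := 1 / 2)
    (by rw [e1]; positivity) (by norm_num) (by linarith)
  have e4 : |(1 + u) ^ 2 - G ^ 2 - (1 - G ^ 2)| ≤ 3 * c.ep := by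
    rw [abs_le]; constructor <;> nlinarith only [(abs_le.1 hp).1, (abs_le.1 hp).2, h.ep1, h.ok.ep]
  rw [e2, show Real.cos (θ 0) * Real.cos (θ 0) - Real.sin (θ 0) * Real.sin (θ 0) =
    Real.cos (2 * θ 0) by rw [Real.cos_two_mul']; ring]
  have e5 : |(√((1 + u) ^ 2 - G ^ 2) - √(1 - G ^ 2)) * Real.cos (2 * θ 0)| ≤ 6 * c.ep := by
    rw [abs_mul]
    exact (mul_le_of_le_one_right (abs_nonneg _) (Real.abs_cos_le_one _)).trans (by linarith)
  have := abs_add_le u ((√((1 + u) ^ 2 - G ^ 2) - √(1 - G ^ 2)) * Real.cos (2 * θ 0))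
  rw [show 1 + u + √((1 + u) ^ 2 - G ^ 2) * Real.cos (2 * θ 0) -
    (1 + √(1 - G ^ 2) * Real.cos (2 * θ 0)) =
    u + (√((1 + u) ^ 2 - G ^ 2) - √(1 - G ^ 2)) * Real.cos (2 * θ 0) by ring]
  linarith

theorem Pre.e_le (y z) : M.ev y z t.e ≤ 1 / 100 :=
  ((le_abs_self _).trans (M.abs_le (h.act.small t.e (by simp)) y z)).trans h.sm

theorem Pre.vR (y θ) : |M.ev y (M.pt θ) o.R -
    (1 - √(1 - (F.ga y.1 + F.v2 * y.2.1 3) ^ 2) * M.ev y (M.pt θ) o.cE)| ≤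
      (6 + 12 / c.et) * c.ep ∧ 1 / 2 ≤ M.ev y (M.pt θ) o.R ∧ M.ev y (M.pt θ) o.R ≤ 2 := by
  have ee := congrArg (M.ev y (M.pt θ)) h.act.ee
  have eL' := congrArg (M.ev y (M.pt θ)) h.act.Li
  have pe := (h.act.pos y (M.pt θ)).2.2
  have pe' := h.e_le y (M.pt θ)
  have hc := h.out.cE y θ
  simp only [map_mul, map_sub, map_pow, map_one, evL, evg] at ee eL'
  have hp : |c.ep * y.2.1 2| ≤ c.ep := by
    rw [abs_mul, abs_of_pos h.ok.ep]; exact mul_le_of_le_one_right h.ok.ep.le (par_le _ _)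
  have hv : |F.v2 * y.2.1 3| ≤ c.et ^ 3 := by
    rw [abs_mul]; exact (mul_le_of_le_one_right (abs_nonneg _) (par_le _ _)).trans h.fam.v2
  have g0 := h.fam.ga y.1
  have g1 := h.fam.lo y.1
  have η0 := h.ok.et; have η1 := h.et; have ε0 := h.ok.ep; have ε1 := h.ep1
  simp only [h.out.val, map_mul, map_sub, map_one, evL]
  generalize F.v2 * y.2.1 3 = v at *
  generalize F.ga y.1 = g at *
  generalize c.ep * y.2.1 2 = u at *
  generalize M.ev y (M.pt θ) t.e = e at *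
  generalize M.ev y (M.pt θ) t.Li = l at *
  generalize M.ev y (M.pt θ) o.cE = x at *
  obtain ⟨u1, u2⟩ := abs_le.1 hp
  obtain ⟨v1, v2⟩ := abs_le.1 hv
  obtain ⟨x1, x2⟩ := abs_le.1 hc
  have g2 : g ≤ 1 := by nlinarith only [g0, g1, sq_nonneg c.et]
  have η3 : c.et ^ 3 ≤ c.et ^ 2 / 100 := by nlinarith only [η1, sq_nonneg c.et]
  have η2 : c.et ^ 2 ≤ 1 / 100 := by nlinarith only [η0, η1]
  have g3 : (c.et / 2) ^ 2 ≤ 1 - (g + v) ^ 2 := by
    have a1 : g * v ≤ c.et ^ 3 := by nlinarith only [g0, g2, v2, pow_pos η0 3]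
    have a2 : v * v ≤ c.et ^ 3 := by nlinarith only [v1, v2, η3, η2, pow_pos η0 3]
    nlinarith only [a1, a2, g1, η3, sq_nonneg c.et]
  have g4 : (g + v) ^ 2 ≤ 1 := by linarith only [g3, sq_nonneg (c.et / 2)]
  have l0 : 0 < l := pos_of_mul_pos_left (a := l) (b := 1 + u) (by linarith) (by linarith)
  have l1 : l ≤ 11 / 10 := by nlinarith only [l0, eL', u1, ε1]
  have l2 : |1 - l ^ 2| ≤ 3 * c.ep := by
    rw [show 1 - l ^ 2 = u * (l * (1 + l)) by linear_combination (-(1 + l)) * eL', abs_mul,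
      abs_of_pos (by positivity : 0 < l * (1 + l))]
    linarith only [mul_le_mul hp (show l * (1 + l) ≤ 3 by nlinarith only [l0, l1]) (by positivity)
      ε0.le]
  have e3 := sqrt_lip (u := e * e) (v := 1 - (g + v) ^ 2) (m := c.et / 2) (by positivity)
    (by positivity) g3
  rw [Real.sqrt_mul_self pe, show e * e - (1 - (g + v) ^ 2) = (g + v) ^ 2 * (1 - l ^ 2) by
    linear_combination ee, abs_mul, abs_of_nonneg (sq_nonneg (g + v))] at e3
  have e4 : |e - √(1 - (g + v) ^ 2)| ≤ 6 / c.et * c.ep := e3.trans (by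
    rw [div_le_iff₀ (by positivity), show 6 / c.et * c.ep * (c.et / 2) = 3 * c.ep by field_simp; ring]
    exact (mul_le_of_le_one_left (abs_nonneg _) g4).trans l2)
  have ex : |e * x| ≤ 1 / 100 := by
    rw [abs_mul, abs_of_nonneg pe]; exact (mul_le_of_le_one_right pe hc).trans pe'
  obtain ⟨ex1, ex2⟩ := abs_le.1 ex
  have s1 : 98 / 100 ≤ (1 + u) * (1 + u) := by nlinarith only [u1, ε1, sq_nonneg u]
  have s2 : (1 + u) * (1 + u) ≤ 11 / 10 := by nlinarith only [u1, u2, ε1]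
  refine ⟨?_, by nlinarith only [s1, ex2], by nlinarith only [s1, s2, ex1, ex2]⟩
  have e5 : |(e - √(1 - (g + v) ^ 2)) * x| ≤ 6 / c.et * c.ep := by
    rw [abs_mul]; exact (mul_le_of_le_one_right (abs_nonneg _) hc).trans e4
  have e6 : |u * ((2 + u) * (1 - e * x))| ≤ 6 * c.ep := by
    have a1 : 0 < (2 + u) * (1 - e * x) := mul_pos (by linarith) (by linarith)
    rw [abs_mul, abs_of_pos a1]
    linarith only [mul_le_mul hp (show (2 + u) * (1 - e * x) ≤ 6 by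
      nlinarith only [u1, u2, ε1, ex1, ex2]) a1.le ε0.le]
  have e7 : 0 ≤ 6 / c.et * c.ep := by positivity
  have := abs_sub (u * ((2 + u) * (1 - e * x))) ((e - √(1 - (g + v) ^ 2)) * x)
  rw [show (1 + u) * (1 + u) * (1 - e * x) - (1 - √(1 - (g + v) ^ 2) * x) =
    u * ((2 + u) * (1 - e * x)) - (e - √(1 - (g + v) ^ 2)) * x by ring,
    show (6 + 12 / c.et) * c.ep = 6 * c.ep + 2 * (6 / c.et * c.ep) by ring]
  linarith

theorem Pre.pos (y θ) : 1 / 4 ≤ M.ev y (M.pt θ) o.R ∧ 1 / 4 ≤ M.ev y (M.pt θ) (o.Ri * y1) ∧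
    1 / 4 ≤ M.ev y (M.pt θ) (o.Ri * y2) := by
  obtain ⟨-, r1, r2⟩ := h.vR y θ
  have e := congrArg (M.ev y (M.pt θ)) h.out.alg.Ri
  have a1 := abs_le.1 (M.ev_near h.by1 y (M.pt θ))
  have a2 := abs_le.1 (M.ev_near h.by2 y (M.pt θ))
  simp only [map_mul, map_one] at e a1 a2 ⊢
  have l0 : 0 < M.ev y (M.pt θ) o.Ri :=
    pos_of_mul_pos_left (b := M.ev y (M.pt θ) o.R) (by linarith) (by linarith)
  have l1 : 1 / 2 ≤ M.ev y (M.pt θ) o.Ri := by nlinarith only [l0, e, r2]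
  exact ⟨by linarith, by nlinarith only [l1, a1.1], by nlinarith only [l1, a2.1]⟩

end Dat0

namespace Dat1
open Dat0
variable {A : Type} [CommRing A] [Algebra ℝ A]

/-- all admissible data with fixed constants -/
structure Ix (M : Mdl A) (s1 s2 η Ca Co Cq : ℝ) where
  c : Cfg
  F : Fam
  t : Act A
  o : Out A
  y1 : A
  y2 : A
  h : Pre M c F t o y1 y2 Ca Co Cq
  e1 : c.s1 = s1
  e2 : c.s2 = s2
  e3 : c.et = η

section Calc
variable {ι : Type} {S : Scale A V6} {f : ι → A} {w : ι → ℝ}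

abbrev O1 (S : Scale A V6) (f : ι → A) : Prop := O S ⊤ (fun _ => 1) f fun _ => 1
theorem ofBd {K : ℝ} (h : ∀ i, S.Bd 1 (f i) K) : O1 S f :=
  O.of_bdC (C := K) (.of_forall fun i => by simpa using h i) (.of_forall fun _ => zero_le_one)
theorem num (n : ℕ) [n.AtLeastTwo] : O1 S fun _ : ι => (ofNat(n) : A) :=
  O.of_an (Scale.An.ofNat 1 n) (.of_forall fun _ => le_rfl)
theorem pw (h : O1 S f) : ∀ n : ℕ, O1 S fun i => f i ^ n
  | 0 => by simpa using O.one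
  | n + 1 => ((pw h n).mul1 h).congr' fun _ => (pow_succ _ _).symm
theorem smw {a : ι → ℝ} {K : ℝ} (hK : 0 ≤ K) (ha : ∀ i, |a i| ≤ K * w i) (h : O1 S f) :
    O S ⊤ (fun _ => 1) (fun i => a i • f i) w := by
  obtain ⟨C, c0, h⟩ := h
  refine ⟨K * C, mul_nonneg hK c0, h.mono fun i h => Scale.le (S.smul _ h) ?_⟩
  nlinarith [mul_le_mul_of_nonneg_right (ha i) c0]
theorem evC (h : O S ⊤ (fun _ => 1) f w) (hw : ∀ i, 0 ≤ w i) :
    ∀ᶠ C in atTop, ∀ i, S.Bd 1 (f i) (C * w i) := by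
  obtain ⟨C0, h⟩ := h.bound (.of_forall hw)
  filter_upwards [eventually_ge_atTop C0] with C hC using eventually_top.1 (h C hC)
theorem evC1 (h : O1 S f) : ∀ᶠ C in atTop, ∀ i, S.Bd 1 (f i) C := by
  simpa using evC h fun _ => zero_le_one
end Calc

theorem all (hH : HameqStmt) (M : Mdl A) {s1 s2 η : ℝ} (Ca Co Cq : ℝ) (h1 : 0 < s1) (h2 : 0 < s2)
    (hη : 0 < η) : ∀ᶠ C in atTop, ∀ i : Ix M s1 s2 η Ca Co Cq,
      IsDat M i.c i.F C (mkD M i.c i.F i.t i.o i.y1 i.y2) := by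
  let ι := Ix M s1 s2 η Ca Co Cq
  have near : ∀ {f : ι → A}, (∀ i : ι, M.S.Bd 1 (f i - 1) (Ca * i.c.et)) → O1 M.S f := fun h =>
    ofBd fun i => Scale.of_sub_one (Scale.le (h i) i.h.sm)
  have z0 : ∀ {f : ι → A}, O1 M.S f → O1 M.S fun i => M.z0 (f i) := fun ⟨C, c0, h⟩ =>
    ⟨C, c0, h.mono fun _ h => M.ext.zb h⟩
  have I : O1 M.S fun i : ι => eI M i.c := near fun i => i.h.act.small _ (by simp)
  have Ii : O1 M.S fun i : ι => i.t.Ii := near fun i => i.h.act.small _ (by simp)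
  have L0 : O1 M.S fun i : ι => eL0 M i.c := near fun i => i.h.act.small _ (by simp)
  have L0i : O1 M.S fun i : ι => i.t.L0i := near fun i => i.h.act.small _ (by simp)
  have L : O1 M.S fun i : ι => eL M i.c := near fun i => i.h.act.small _ (by simp)
  have Li : O1 M.S fun i : ι => i.t.Li := near fun i => i.h.act.small _ (by simp)
  have gi : O1 M.S fun i : ι => i.t.gi := near fun i => i.h.act.small _ (by simp)
  have G : O1 M.S fun i : ι => eG M i.c i.F := ofBd fun i => i.h.act.bdd _ (by simp)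
  have G0 : O1 M.S fun i : ι => eG0 M i.F := (z0 G).congr' fun _ => zG
  have a : O1 M.S fun i : ι => i.t.a := ofBd fun i => i.h.act.bdd _ (by simp)
  have b : O1 M.S fun i : ι => i.t.b := ofBd fun i => i.h.act.bdd _ (by simp)
  have nui : O1 M.S fun i : ι => i.t.nui := ofBd fun i => i.h.act.bdd _ (by simp)
  have U1 : O1 M.S fun i : ι => i.o.U1 := ofBd fun i => i.h.out.bdd _ (by simp)
  have U2 : O1 M.S fun i : ι => i.o.U2 := ofBd fun i => i.h.out.bdd _ (by simp)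
  have R : O1 M.S fun i : ι => i.o.R := ofBd fun i => i.h.out.bdd _ (by simp)
  have P : O1 M.S fun i : ι => i.o.P := ofBd fun i => i.h.out.bdd _ (by simp)
  have Ri : O1 M.S fun i : ι => i.o.Ri := ofBd fun i => i.h.out.bdd _ (by simp)
  have y1 : O1 M.S fun i : ι => i.y1 := ofBd fun i => Scale.of_sub_one i.h.by1
  have y2 : O1 M.S fun i : ι => i.y2 := ofBd fun i => Scale.of_sub_one i.h.by2
  have co : O1 M.S fun _ : ι => M.co 0 := ofBd fun _ => M.co_bd 0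
  have si : O1 M.S fun _ : ι => M.si 0 := ofBd fun _ => M.si_bd 0
  have x1 : O1 M.S fun _ : ι => M.x 1 := ofBd fun _ => M.ext.bx 1
  have p : ∀ k, O1 M.S fun _ : ι => M.par k := fun k => ofBd fun _ => M.par_bd 1 k
  have u1 := (a.add b).mul1 co
  have u2 := (a.sub b).mul1 si
  have u3 := (a.add b).mul1 si
  have u4 := (a.sub b).mul1 co
  have z1 : O1 M.S fun i : ι => (PH M i.t i.o i.y1 i.y2).z1 := (U1.mul1 u1).sub (U2.mul1 u2)
  have z2 : O1 M.S fun i : ι => (PH M i.t i.o i.y1 i.y2).z2 := (U2.mul1 u1).add (U1.mul1 u2)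
  have w1 : O1 M.S fun i : ι => (PH M i.t i.o i.y1 i.y2).w1 :=
    ((num 2).mul1 ((U1.mul1 u3).add (U2.mul1 u4))).neg
  have w2 : O1 M.S fun i : ι => (PH M i.t i.o i.y1 i.y2).w2 :=
    (num 2).mul1 ((U1.mul1 u4).sub (U2.mul1 u3))
  have r : O1 M.S fun i : ι => (PH M i.t i.o i.y1 i.y2).r := (z1.mul1 z1).add (z2.mul1 z2)
  have quad : O1 M.S fun i : ι => (PH M i.t i.o i.y1 i.y2).quad :=
    (pw Ri 3).mul1 (((num 4).mul1 (pw ((z1.mul1 z1).sub (z2.mul1 z2)) 2)).add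
      ((num 2).mul1 (pw ((num 2).mul1 (z1.mul1 z2)) 2)).neg)
  have W5' : O1 M.S fun i : ι => W5 M i.c i.F :=
    I.mul1 (((num 5).mul1 (pw I 2)).sub ((num 3).mul1 (pw G 2)))
  have nuA' : ∀ {f : ι → A}, O1 M.S f → O1 M.S fun i => nuA i.c (eG0 M i.F) (M.z0 i.t.gi) (f i) :=
    fun hf => (smw (K := 2) (by norm_num) (fun i => by
        rw [abs_of_pos (by linarith [i.h.ok.lam])]; linarith [i.h.ok.lam1])
      (G0.mul1 (pw (z0 gi) 3))).sub (smw (K := 1) (by norm_num) (fun i => by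
        rw [abs_of_pos (by linarith [i.h.ok.lam1])]; linarith [i.h.ok.lam])
      ((((num 5).mul1 (pw hf 2)).sub ((num 3).mul1 (pw G0 2))).mul1 (pw (z0 gi) 4)))
  have edL : ∀ i : ι, dL i.t =
      i.c.ep ^ 3 • (M.x 1 * (eL M i.c + eL0 M i.c) * (i.t.Li * i.t.L0i) ^ 2) := fun i => by
    have e : eL M i.c = eL0 M i.c + i.c.ep ^ 3 • M.x 1 := rfl
    rw [← smul_mul_assoc, ← smul_mul_assoc, dL]
    linear_combination (-(i.t.L0i ^ 2) * (eL M i.c * i.t.Li + 1)) * i.h.act.Li +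
      (i.t.Li ^ 2 * (eL0 M i.c * i.t.L0i + 1)) * i.h.act.L0i +
      ((eL M i.c + eL0 M i.c) * (i.t.Li * i.t.L0i) ^ 2) * e
  have dd := (x1.mul1 (L.add L0)).mul1 (pw (Li.mul1 L0i) 2)
  have pos : ∀ (n : ℕ) (i : ι), 0 ≤ i.c.ep ^ n := fun n i => (pow_pos i.h.ok.ep n).le
  have k9 : ∀ i : ι, |i.c.n / 2 * i.c.ep ^ 3| ≤ 1 * i.c.ep ^ 9 := fun i => by
    have := mul_le_mul_of_nonneg_right i.h.ok.n2' (pos 3 i)
    rw [abs_of_nonneg (mul_nonneg (by linarith [i.h.ok.n]) (pos 3 i))]; linarith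
  have k14 : ∀ i : ι, |-(i.c.n2 / 8)| ≤ 1 * i.c.ep ^ 14 := fun i => by
    rw [abs_neg, abs_of_pos (by linarith [i.h.ok.n2])]; linarith [i.h.ok.n2_le, pos 14 i]
  have bP := evC (f := fun i : ι => (mkD M i.c i.F i.t i.o i.y1 i.y2).P0)
    ((smw zero_le_one k9 (r.mul1 dd)).congr' fun i => by
      simp only [mkD, edL i, mul_smul_comm, smul_smul]) (pos 9)
  have bm := evC (f := fun i : ι => (mkD M i.c i.F i.t i.o i.y1 i.y2).m0)
    ((smw zero_le_one k9 (I.mul1 dd)).congr' fun i => by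
      simp only [mkD, edL i, mul_smul_comm, smul_smul]) (pos 9)
  have b1 := evC (w := fun i : ι => (i.c.ep ^ 6)⁻¹) (smw (a := fun i : ι => 2 / i.c.n) (K := 2)
    (by norm_num) (fun i => by
      rw [abs_of_pos (div_pos two_pos i.h.ok.n), ← div_eq_mul_inv]
      exact div_le_div_of_nonneg_left (by norm_num) (pow_pos i.h.ok.ep 6) i.h.ok.n1)
    (Ii.mul1 (pw L 3))) fun i => inv_nonneg.2 (pos 6 i)
  have oc : O M.S ⊤ (fun _ => 1) (fun i : ι => (mkD M i.c i.F i.t i.o i.y1 i.y2).P1 -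
      (mkD M i.c i.F i.t i.o i.y1 i.y2).Fq) fun i => i.c.ep ^ 18 := by
    have := (smw (a := fun i : ι => i.c.n) (w := fun i => i.c.ep ^ 6) (K := 2) (by norm_num)
      (fun i => by rw [abs_of_pos i.h.ok.n]; exact i.h.ok.n2') r).mul
      (O.of_bdC (.of_forall fun i : ι => i.h.oct) (.of_forall (pos 12)))
    exact (this.wt' fun i => by ring).congr' fun i => by rw [octe, smul_mul_assoc]
  have bq := evC (f := fun i : ι => (mkD M i.c i.F i.t i.o i.y1 i.y2).Fq)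
    (smw zero_le_one k14 ((num 2).mul1 (r.mul1 quad))) (pos 14)
  have bb := evC (f := fun i : ι => (mkD M i.c i.F i.t i.o i.y1 i.y2).Fb)
    (smw zero_le_one k14 (W5'.mul1 (pw (Li.mul1 gi) 3))) (pos 14)
  have b2 := evC (w := fun i : ι => (i.c.ep ^ 14)⁻¹)
    (smw (a := fun i : ι => (i.c.n2 * i.c.r0)⁻¹) (K := (s1 * s2 * η ^ 3)⁻¹) (by positivity)
      (fun i => by
        have e := mul_le_mul_of_nonneg_right i.h.ok.n2_ge i.h.ok.r0.le
        have := i.h.ok.ep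
        rw [abs_of_pos (inv_pos.2 (mul_pos i.h.ok.n2 i.h.ok.r0)), ← mul_inv]
        refine inv_anti₀ (by positivity) (le_trans (le_of_eq ?_) e)
        rw [Cfg.r0, i.e1, i.e2, i.e3]; ring) nui) fun i => inv_nonneg.2 (pos 14 i)
  have m3 := ((L0i.mul1 L0i).add L0i).add O.one
  have c1 := evC (smw (a := fun i : ι => i.c.n / 2 * i.c.ep ^ 2) (w := fun i => i.c.ep ^ 8)
    zero_le_one (fun i => by
      have := mul_le_mul_of_nonneg_right i.h.ok.n2' (pos 2 i)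
      rw [abs_of_nonneg (mul_nonneg (by linarith [i.h.ok.n]) (pos 2 i))]; linarith)
    (((((p 2).mul1 (p 2)).mul1 L0i).mul1 (((num 3).add ((num 2).mul1 L0i)).add (L0i.mul1 L0i))).sub
      ((((p 1).mul1 (p 2)).mul1 L0i).mul1 m3))) (pos 8)
  have c2 := evC (smw (a := fun i : ι => 3 / 8 * i.c.ep) (w := fun i => i.c.ep) zero_le_one
    (fun i => by have := i.h.ok.ep; rw [abs_of_pos (by positivity)]; linarith)
    (((((p 1).mul1 (pw L0i 3)).sub (((p 2).mul1 L0i).mul1 m3)).mul1 (nuA' (z0 I))).sub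
      (smw (a := fun i : ι => 1 - i.c.lam) (K := 1) (by norm_num) (fun i => by
        rw [abs_of_pos (by linarith [i.h.ok.lam1])]; linarith [i.h.ok.lam])
        (((num 5).mul1 ((p 1).mul1 ((z0 I).add O.one))).mul1 (pw (z0 gi) 4)))))
    fun i => i.h.ok.ep.le
  have c3 := evC1 ((nuA' O.one).smul (3 / 8))
  filter_upwards [bP, bm, b1, evC oc (pos 18), bq, bb, b2, c1, c2, c3, evC1 z1, evC1 z2, evC1 w1,
    evC1 w2, evC1 R, evC1 P, evC1 Ri, evC1 (Ri.mul1 y1), evC1 (Ri.mul1 y2),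
    eventually_ge_atTop ((1 + (s1 * s2)⁻¹) / (2 * η ^ 3)), eventually_ge_atTop (7 + 12 / η)]
    with C bP bm b1 oc bq bb b2 c1 c2 c3 d1 d2 d3 d4 d5 d6 d7 d8 d9 C1 C2 i
  have h := i.h
  have ε0 := h.ok.ep
  have ε1 := h.ep1
  have η1 : η ≤ 1 / 100 := i.e3 ▸ h.et
  have C7 : 7 ≤ C := le_trans (le_add_of_nonneg_right (by positivity)) C2
  have r0 : i.c.r0 = η ^ 3 := by rw [Cfg.r0, i.e3]
  have hw2 : i.c.w 2 ≤ C / i.c.ep ^ 2 := by
    have k1 := h.ok.ka_le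
    rw [i.e1, i.e2] at k1
    have k2 : 1 ≤ 1 / i.c.ep ^ 2 := one_le_one_div (by positivity) (by nlinarith only [ε0, ε1])
    calc i.c.w 2 = (1 + i.c.ka) / (2 * η ^ 3) := by rw [← r0]; rfl
      _ ≤ (1 / i.c.ep ^ 2 + (s1 * s2)⁻¹ / i.c.ep ^ 2) / (2 * η ^ 3) := by gcongr
      _ = (1 + (s1 * s2)⁻¹) / (2 * η ^ 3) / i.c.ep ^ 2 := by ring
      _ ≤ _ := by gcongr
  have cst_cc : M.S.Cst (ecc M i.c i.F) := (cst_G0 M i.F).add ((cst_g0 M i.F).smul _)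
  have cst_hs : M.S.Cst (-((1 / 2 : ℝ) • (i.t.L0i * i.t.L0i))) := ((h.cL0i.mul h.cL0i).smul _).neg
  have anp : ∀ k, M.S.An 1 (M.par k) := fun k => ⟨_, M.par_bd 1 k⟩
  have anL : M.S.An 1 i.t.L0i := ⟨_, Scale.of_sub_one (h.act.small _ (by simp))⟩
  have Dh : ∀ k, M.S.D k (eh0 M i.c) =
      i.c.ka⁻¹ • (if k = ac 0 then algebraMap ℝ A i.c.r0 else 0) := fun k => by
    rw [eh0, Derivation.map_smul, D_aff M ((M.par_cst 1).smul _)]
  refine ⟨⟨⟨h.ok.w, le_trans ?_ hw2, ?_, hw2, ?_, ?_, fun j => by simp [Dh], ?_, by simp [Dh],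
    by simp [Dh], h.inaP, bP i, ((ang_I M i.c).mul h.ang_dL).smul _, bm i, h.prm,
    by simp [mkD, D_I, h.DdL], ⟨_, h.inv1, by rw [div_eq_mul_inv C]; exact b1 i⟩, oc i, bq i, h.F10,
    h.pr1, (ang_W5.mul h.ang_Lg).smul _, bb i, h.prb,
    ⟨_, h.inv2, by rw [div_eq_mul_inv C]; exact b2 i⟩⟩, h.K, by simp [mkD, h.zdL],
    by simp [mkD, D_I, h.DdL, h.zdL], h.zm1 ▸ c1 i, h.zb2 ▸ c2 i, c3 i⟩,
    ⟨d1 i, d2 i, d3 i, d4 i, d5 i, d6 i, d7 i, d8 i, d9 i⟩, ⟨cst_cc, ?_⟩,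
    ⟨cst_hs, ((anL.mul anL).smul _).neg⟩, h.rel,
    hH A M.S _ _ _ _ _ h.ok.ka.ne' cst_cc cst_hs h.rel h.can, h.rot, h.nuf, h.pos,
    fun y θ => (h.vr y θ).trans (by gcongr), fun y θ => ⟨_, h.out.cE y θ, h.out.cE0 y θ,
      h.out.cE1 y θ, (h.vR y θ).1.trans (by rw [i.e3]; gcongr; linarith)⟩⟩
  · have := h.ok.r0
    show i.c.ka / (2 * i.c.r0) ≤ (1 + i.c.ka) / (2 * i.c.r0)
    gcongr; linarith
  · show 1 / (2 * i.c.ep ^ 3) ≤ C / i.c.ep ^ 3
    rw [← div_div]; gcongr; linarith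
  · have k1 := h.ok.ka
    have k2 : η ^ 3 ≤ 1 := pow_le_one₀ hη.le (by linarith)
    have : 1 / 2 ≤ i.c.w 2 := by
      show 1 / 2 ≤ (1 + i.c.ka) / (2 * i.c.r0)
      rw [r0, le_div_iff₀ (by positivity)]; linarith
    nlinarith only [this, C7]
  · exact (((anp 1).smul _).add (.smul _ ⟨_, M.ext.bx 0⟩)).smul _
  · have := h.ok.ka; have := h.ok.r0
    rw [Dh, if_pos rfl, smul_smul, Algebra.smul_def, ← map_mul]
    congr 1
    show i.c.ka / (2 * i.c.r0) * i.c.ka⁻¹ * i.c.r0 = 1 / 2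
    field_simp
  · exact (Scale.An.add ⟨_, M.cY_bd 1 _⟩ ((anp 3).smul _)).add
      (.smul _ (Scale.An.add ⟨_, M.cY_bd 1 _⟩ ((anp 3).smul _)))

end Dat1

open Dat0 in
theorem dat (hA : ActStmt) (hO : OutStmt) (hC : CanStmt) (hH : HameqStmt) (hQ : QuadStmt)
    (hM : MeanStmt) : DatStmt := by
  intro A _ _ M s1 s2 h1 h2
  obtain ⟨Ca, ηa, Ca0, ηa0, hA⟩ := hA A M
  obtain ⟨Co, co, Co0, co0, hO⟩ := hO A M
  obtain ⟨Cq, εq, -, εq0, hQ⟩ := hQ A M.S (12 * Co * Ca + Co)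
  refine ⟨min ηa (min co (1 / 100) / (Ca + 1)), by positivity, fun η η0 η1 => ?_⟩
  obtain ⟨C, hC0, hall⟩ := ((eventually_ge_atTop 0).and
    (Dat1.all hH M Ca Co Cq h1 h2 η0)).exists
  refine ⟨C, min εq (η ^ 3), hC0, by positivity, fun c F ok e1 e2 e3 he hF => ?_⟩
  subst e3
  have k1 : (Ca + 1) * c.et ≤ min co (1 / 100) := by
    rw [mul_comm]; exact (le_div_iff₀ (by positivity)).1 (η1.trans (min_le_right _ _))
  have k2 := k1.trans (min_le_left _ _)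
  have k3 := k1.trans (min_le_right _ _)
  have k4 : 0 ≤ Ca * c.et := by positivity
  obtain ⟨t, ht⟩ := hA c F ok (η1.trans (min_le_left _ _)) (he.trans (min_le_right _ _)) hF
  have hk := ok.ka; have hr := ok.r0; have hep := ok.ep
  obtain ⟨o, ho⟩ := hO c.w (c.ep ^ 3) (c.r0 * (1 - c.lam)) _ t.Li _ t.gi t.e t.ei
    (by show 1 / (2 * c.ep ^ 3) * c.ep ^ 3 = 1 / 2; field_simp)
    (by show (1 + c.ka) / (2 * c.r0) * (c.r0 * (1 - c.ka / (1 + c.ka))) = 1 / 2; field_simp; ring)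
    (D_L M c) (D_g M c F) ht.Li ht.gi ht.ei ht.ee fun f hf =>
      Scale.le (ht.small f (by
        simp only [List.mem_cons, List.not_mem_nil, or_false] at hf ⊢; tauto)) (by linarith)
  have ba := ht.bdd t.a (by simp)
  have bb := ht.bdd t.b (by simp)
  have b1 := ho.bdd o.U1 (by simp)
  have b2 := ho.bdd o.U2 (by simp)
  have u1 := M.S.mul (M.S.add ba bb) (M.co_bd 0)
  have u2 := M.S.mul (Scale.sub ba bb) (M.si_bd 0)
  obtain ⟨y1, y2, q1, q2, q3, q4⟩ := hQ c (mkPh t.a t.b (M.co 0) (M.si 0) o 0 0) ok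
    (he.trans (min_le_left _ _))
    (Scale.le (Scale.sub (M.S.mul b1 u1) (M.S.mul b2 u2)) (by linarith))
    (Scale.le (M.S.add (M.S.mul b2 u1) (M.S.mul b1 u2)) (by linarith))
    (Scale.le (ho.bdd o.Ri (by simp)) (le_add_of_nonneg_left (by positivity))) ho.alg.Ri
  obtain ⟨m1, m2, m3, m4, m5, m6⟩ := hM A M.S c.w _ _ t.a t.b _ _ t.Li _ t.gi (o.Ri * y1)
    (o.Ri * y2) o _ rfl ht.aa ht.bb (ang_root ht.aa ht.ai ((ang_I M c).add (ang_G M c F)))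
    (ang_root ht.bb ht.bi ((ang_I M c).sub (ang_G M c F))) (M.cs 0) (fun i => M.Dco i 0)
    (fun i => M.Dsi i 0) ho.alg
  exact ⟨_, hall ⟨c, F, t, o, y1, y2, ⟨ok, hF, ht, ho, by linarith, by linarith,
    he.trans (min_le_right _ _), q1, q2, q3, q4, m1, m2, m3, m4, m5, m6,
    hC A M.S c.w c.ka c.r0 (c.r0 * c.lam) _ _ _ t.ai _ t.bi _ _ t.Li _ t.gi _ _ o
      (by show c.ka / (2 * c.r0) * c.r0 = c.ka / 2; field_simp)
      (by show (1 + c.ka) / (2 * c.r0) * (c.r0 * (c.ka / (1 + c.ka))) = c.ka / 2; field_simp)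
      (D_I M c) (D_G M c F) ht.aa ht.ai ht.bb ht.bi (M.cs 0) (fun i => M.Dco i 0)
      (fun i => M.Dsi i 0) ho.alg⟩, e1, e2, rfl⟩⟩

end Pool.Agent.MP_1ba41f_an.K4
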