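import Mathlib.MeasureTheory.Measure.Haar.InnerProductSpace
import Pool.Agent.MP_1ba41f_an.K4.Nf
import Mathlib.Analysis.Real.Pi.Bounds
import Pool.Agent.MP_1ba41f_an.K4.Cap
import Pool.Agent.MP_1ba41f_an.K4.Cov

-- ======== part 0: formerly Pool.Agent.MP_1ba41f_an.K4.Perm
section MrgPart0

/-! PROJECT LUNAR, module PERM: the attained areas do not depend on the labelling of the bodies. -/

noncomputable section
open Finset MeasureTheory
open scoped Pointwise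

namespace Pool.Agent.MP_1ba41f_an.K4

namespace Perm

abbrev E3 := EuclideanSpace ℝ (Fin 3)

theorem area_image (O : E3 ≃ₗᵢ[ℝ] E3) {E : Set E3} (hE : IsClosed E) : area (O '' E) = area E := by
  have key : ∀ {E : Set E3}, IsClosed E → (volume : Measure E3).toSphere
      {x | (1 / 2 : ℝ) • (x : E3) ∈ E} = Module.finrank ℝ E3 * volume
        (Set.Ioo (0 : ℝ) 1 • {x : E3 | ‖x‖ = 1 ∧ (1 / 2 : ℝ) • x ∈ E}) := fun {E} hE => by
    refine (Measure.toSphere_apply' _ (hE.preimage (f := fun x : Metric.sphere (0 : E3) 1 =>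
      (1 / 2 : ℝ) • (x : E3)) (by fun_prop)).measurableSet).trans ?_
    congr 3
    ext x; simp [and_comm]
  have e : Set.Ioo (0 : ℝ) 1 • {x : E3 | ‖x‖ = 1 ∧ (1 / 2 : ℝ) • x ∈ O '' E} =
      O.symm ⁻¹' (Set.Ioo (0 : ℝ) 1 • {x : E3 | ‖x‖ = 1 ∧ (1 / 2 : ℝ) • x ∈ E}) := by
    ext v
    constructor
    · rintro ⟨r, hr, x, ⟨h1, y, hy, h2⟩, rfl⟩
      refine ⟨r, hr, O.symm x, ⟨by simpa using h1, ?_⟩, by simp⟩
      rw [← map_smul, ← h2, O.symm_apply_apply]; exact hy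
    · rintro ⟨r, hr, x, ⟨h1, h2⟩, h3⟩
      refine ⟨r, hr, O x, ⟨by simpa using h1, _, h2, by simp⟩, ?_⟩
      have : r • x = O.symm v := h3
      show r • O x = v
      rw [← map_smul, this, O.apply_symm_apply]
  unfold area
  rw [key hE, key (E := O '' E) (O.toHomeomorph.isClosedMap _ hE), e,
    O.symm.measurePreserving.measure_preimage_emb O.symm.toHomeomorph.measurableEmbedding]

/-- the reflection of the shape space induced by a transposition -/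
def refl (p q : ℝ) : E3 →ₗ[ℝ] E3 where
  toFun v := !₂[p * v 0 + q * v 1, q * v 0 - p * v 1, -v 2]
  map_add' u v := by ext i; fin_cases i <;> simp <;> ring
  map_smul' a v := by ext i; fin_cases i <;> simp <;> ring

def reflI (p q : ℝ) (h : p ^ 2 + q ^ 2 = 1) : E3 ≃ₗᵢ[ℝ] E3 :=
  LinearIsometry.toLinearIsometryEquiv ⟨refl p q, fun v => by
    rw [EuclideanSpace.norm_eq, EuclideanSpace.norm_eq]
    congr 1
    simp only [Fin.sum_univ_three, Real.norm_eq_abs, sq_abs]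
    show (p * v 0 + q * v 1) ^ 2 + (q * v 0 - p * v 1) ^ 2 + (-v 2) ^ 2 = _
    linear_combination (v 0 ^ 2 + v 1 ^ 2) * h⟩ rfl

theorem wv_rot {α β : ℝ} (h : α ^ 2 + β ^ 2 = 1) (z1 z2 : ℂ) :
    wv (α * z1 + β * z2) (β * z1 - α * z2) = refl (α ^ 2 - β ^ 2) (2 * α * β) (wv z1 z2) := by
  ext i
  fin_cases i
  · simp [wv, refl, Complex.sq_norm, Complex.normSq_apply]; ring
  · simp [wv, refl, Complex.sq_norm, Complex.normSq_apply]; ring
  · simp [wv, refl]; linear_combination (z1.re * z2.im - z1.im * z2.re) * h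

theorem att_of (σ : Equiv.Perm (Fin 3)) {m : Fin 3 → ℝ} {α β : ℝ} (h : α ^ 2 + β ^ 2 = 1) (s : ℝ)
    (hs : s ^ 2 = 1)
    (h1 : ∀ c, jac1 m c = s * (α * jac1 (m ∘ σ) (c ∘ σ) + β * jac2 (m ∘ σ) (c ∘ σ)))
    (h2 : ∀ c, jac2 m c = s * (β * jac1 (m ∘ σ) (c ∘ σ) - α * jac2 (m ∘ σ) (c ∘ σ))) {A : ℝ}
    (hA : Att (m ∘ σ) A) : Att m A := by
  obtain ⟨q, ⟨c1, c2, v, a, c3⟩, hA⟩ := hA
  have hpq : (α ^ 2 - β ^ 2) ^ 2 + (2 * α * β) ^ 2 = 1 := by
    linear_combination (α ^ 2 + β ^ 2 + 1) * h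
  refine ⟨fun t => q t ∘ σ.symm, ⟨fun t i j hij => c1 t _ _ (σ.symm.injective.ne hij), fun t => ?_,
    fun t => v t ∘ σ.symm, fun t => a t ∘ σ.symm, fun t i => ⟨(c3 t _).1, (c3 t _).2.1, ?_⟩⟩, ?_⟩
  · rw [← c2 t, ← Equiv.sum_comp σ]; simp
  · have := (c3 t (σ.symm i)).2.2
    simp only [Function.comp_apply, Equiv.apply_symm_apply] at this ⊢
    rw [this]
    exact sum_equiv σ (fun j => by simp [Equiv.eq_symm_apply])
      fun j _ => by simp
  · have e : ∀ t, shape m (q t ∘ σ.symm) = reflI _ _ hpq (shape (m ∘ σ) (q t)) := fun t => by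
      have e0 : (q t ∘ σ.symm) ∘ σ = q t := by ext; simp
      have e1 : wv (jac1 m (q t ∘ σ.symm)) (jac2 m (q t ∘ σ.symm)) =
          reflI _ _ hpq (wv (jac1 (m ∘ σ) (q t)) (jac2 (m ∘ σ) (q t))) := by
        have h' : (s * α) ^ 2 + (s * β) ^ 2 = 1 := by linear_combination s ^ 2 * h + hs
        have := wv_rot h' (jac1 (m ∘ σ) (q t)) (jac2 (m ∘ σ) (q t))
        rw [show (s * α) ^ 2 - (s * β) ^ 2 = α ^ 2 - β ^ 2 by
            linear_combination (α ^ 2 - β ^ 2) * hs,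
          show 2 * (s * α) * (s * β) = 2 * α * β by linear_combination (2 * α * β) * hs] at this
        rw [h1, h2, e0]
        refine Eq.trans ?_ this
        congr 1 <;> (push_cast; ring)
      rw [shape, e1, LinearIsometryEquiv.norm_map, shape, map_smul]
    have e2 : (Set.range fun t => shape m (q t ∘ σ.symm)) =
        reflI _ _ hpq '' Set.range fun t => shape (m ∘ σ) (q t) := by
      rw [← Set.range_comp]; exact congrArg _ (funext e)
    rw [e2, ← hA, ← area_image (reflI _ _ hpq)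
      (isClosed_closure (s := Set.range fun t => shape (m ∘ σ) (q t)))]
    exact congrArg _ ((reflI _ _ hpq).toHomeomorph.image_closure _).symm

theorem att01 {m : Fin 3 → ℝ} {A : ℝ} (hA : Att (m ∘ Equiv.swap 0 1) A) : Att m A := by
  have e2 : Equiv.swap (0 : Fin 3) 1 2 = 2 := by decide
  refine att_of _ (α := 1) (β := 0) (by norm_num) (-1) (by norm_num) (fun c => ?_) (fun c => ?_) hA
  · simp only [jac1, Function.comp_apply, Equiv.swap_apply_left, Equiv.swap_apply_right,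
      mul_comm (m 1), add_comm (m 1)]
    push_cast; ring
  · simp only [jac2, Function.comp_apply, Equiv.swap_apply_left, Equiv.swap_apply_right, e2,
      add_comm (m 1)]
    push_cast; ring

theorem att12 {m : Fin 3 → ℝ} (hm : ∀ i, 0 < m i) {A : ℝ} (hA : Att (m ∘ Equiv.swap 1 2) A) :
    Att m A := by
  have e0 : Equiv.swap (1 : Fin 3) 2 0 = 0 := by decide
  have p0 := hm 0; have p1 := hm 1; have p2 := hm 2
  have sq : ∀ {x y z r : ℝ}, 0 ≤ x → 0 ≤ y → 0 ≤ r → x * y = z * r ^ 2 → √x * √y = √z * r :=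
    fun {x y z r} hx hy hr e => by
      rw [← Real.sqrt_mul hx, e, Real.sqrt_mul' _ (sq_nonneg r), Real.sqrt_sq hr]
  have a1 := sq (x := m 1 * m 2 / ((m 0 + m 1) * (m 0 + m 2))) (y := m 0 * m 2 / (m 0 + m 2))
    (z := m 0 * m 1 / (m 0 + m 1)) (r := m 2 / (m 0 + m 2)) (by positivity) (by positivity)
    (by positivity) (by field_simp)
  have a2 := sq (x := m 0 * (m 0 + m 1 + m 2) / ((m 0 + m 1) * (m 0 + m 2)))
    (y := m 1 * (m 0 + m 2) / (m 0 + m 2 + m 1)) (z := m 0 * m 1 / (m 0 + m 1)) (r := 1)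
    (by positivity) (by positivity) (by positivity) (by field_simp; ring)
  have a3 := sq (x := m 0 * (m 0 + m 1 + m 2) / ((m 0 + m 1) * (m 0 + m 2)))
    (y := m 0 * m 2 / (m 0 + m 2)) (z := m 2 * (m 0 + m 1) / (m 0 + m 1 + m 2))
    (r := m 0 * (m 0 + m 1 + m 2) / ((m 0 + m 1) * (m 0 + m 2))) (by positivity) (by positivity)
    (by positivity) (by field_simp)
  have a4 := sq (x := m 1 * m 2 / ((m 0 + m 1) * (m 0 + m 2)))
    (y := m 1 * (m 0 + m 2) / (m 0 + m 2 + m 1)) (z := m 2 * (m 0 + m 1) / (m 0 + m 1 + m 2))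
    (r := m 1 / (m 0 + m 1)) (by positivity) (by positivity) (by positivity) (by field_simp; ring)
  have n1 : (m 0 : ℂ) + m 1 ≠ 0 := by exact_mod_cast (add_pos p0 p1).ne'
  have n2 : (m 0 : ℂ) + m 2 ≠ 0 := by exact_mod_cast (add_pos p0 p2).ne'
  refine att_of _ (α := √(m 1 * m 2 / ((m 0 + m 1) * (m 0 + m 2))))
    (β := √(m 0 * (m 0 + m 1 + m 2) / ((m 0 + m 1) * (m 0 + m 2)))) ?_ 1 (by norm_num)
    (fun c => ?_) (fun c => ?_) hA
  · rw [Real.sq_sqrt (by positivity), Real.sq_sqrt (by positivity)]; field_simp; ring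
  · simp only [jac1, jac2, Function.comp_apply, Equiv.swap_apply_left, Equiv.swap_apply_right, e0,
      ← mul_assoc, ← Complex.ofReal_mul, a1, a2]
    push_cast; field_simp; ring
  · simp only [jac1, jac2, Function.comp_apply, Equiv.swap_apply_left, Equiv.swap_apply_right, e0,
      ← mul_assoc, ← Complex.ofReal_mul, a3, a4]
    push_cast; field_simp; ring

end Perm

theorem att_perm (σ : Equiv.Perm (Fin 3)) {m : Fin 3 → ℝ} (hm : ∀ i, 0 < m i) {A : ℝ}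
    (hA : Att (m ∘ σ) A) : Att m A := by
  have h : ∀ σ : Equiv.Perm (Fin 3), σ = 1 ∨ σ = Equiv.swap 0 1 ∨ σ = Equiv.swap 1 2 ∨
      σ = Equiv.swap 0 1 * Equiv.swap 1 2 ∨ σ = Equiv.swap 1 2 * Equiv.swap 0 1 ∨
      σ = Equiv.swap 0 1 * Equiv.swap 1 2 * Equiv.swap 0 1 := by decide
  rcases h σ with rfl | rfl | rfl | rfl | rfl | rfl
  · exact hA
  · exact Perm.att01 hA
  · exact Perm.att12 hm hA
  · exact Perm.att01 (Perm.att12 (fun _ => hm _) hA)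
  · exact Perm.att12 hm (Perm.att01 hA)
  · exact Perm.att01 (Perm.att12 (fun _ => hm _) (Perm.att01 hA))

end Pool.Agent.MP_1ba41f_an.K4

end
end MrgPart0

-- ======== part 1: formerly Pool.Agent.MP_1ba41f_an.K4.Fin2
section MrgPart1

/-! PROJECT LUNAR: quantitative form of the covering argument. -/

noncomputable section
open MeasureTheory Filter Topology Set Metric
open scoped Pointwise

namespace Pool.Agent.MP_1ba41f_an.K4
open K3

namespace Fin2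

abbrev E3 := EuclideanSpace ℝ (Fin 3)

/-- a set of shapes close to the axis has small area -/
theorem area_thin {E : Set E3} (hE : IsClosed E) {r : ℝ} (hr : 0 ≤ r)
    (h : ∀ v ∈ E, |v 1| ≤ r ∧ |v 2| ≤ r) : area E ≤ 24 * r ^ 2 := by
  have e := Measure.toSphere_apply' (volume : Measure E3) (hE.preimage
    (f := fun x : sphere (0 : E3) 1 => (1 / 2 : ℝ) • (x : E3)) (by fun_prop)).measurableSet
  have hb : Ioo (0 : ℝ) 1 • (Subtype.val '' ((fun x : sphere (0 : E3) 1 => (1 / 2 : ℝ) • (x : E3)) ⁻¹' E)) ⊆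
      WithLp.ofLp ⁻¹' (Icc ![-1, -(2 * r), -(2 * r)] ![1, 2 * r, 2 * r] : Set (Fin 3 → ℝ)) := by
    rintro _ ⟨t, ⟨t0, t1⟩, _, ⟨x, hx, rfl⟩, rfl⟩
    obtain ⟨h1, h2⟩ := h _ hx
    have h0 : |x.1 0| ≤ 1 := by
      simpa [mem_sphere_zero_iff_norm.1 x.2] using PiLp.norm_apply_le x.1 0
    simp only [PiLp.smul_apply, smul_eq_mul] at h1 h2
    obtain ⟨a1, a2⟩ := abs_le.1 h0
    obtain ⟨b1, b2⟩ := abs_le.1 h1
    obtain ⟨c1, c2⟩ := abs_le.1 h2
    constructor <;> intro i <;> fin_cases i <;> simp <;> nlinarith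
  have hv := measure_mono (μ := (volume : Measure E3)) hb
  rw [(PiLp.volume_preserving_ofLp (Fin 3)).measure_preimage measurableSet_Icc.nullMeasurableSet,
    Real.volume_Icc_pi] at hv
  have hle : (volume : Measure E3).toSphere {x | (1 / 2 : ℝ) • (x : E3) ∈ E} ≤
      ENNReal.ofReal (96 * r ^ 2) := by
    refine e.le.trans ((mul_le_mul_right hv _).trans (le_of_eq ?_))
    rw [finrank_euclideanSpace_fin, Fin.prod_univ_three, ← ENNReal.ofReal_natCast,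
      ← ENNReal.ofReal_mul (by simp), ← ENNReal.ofReal_mul (by simp; positivity),
      ← ENNReal.ofReal_mul (by positivity)]
    congr 1; simp; ring
  have := ENNReal.toReal_le_of_le_ofReal (by positivity) hle
  unfold area; linarith

theorem sh2_comp (ζ : ℂ) : sh2 ζ 1 = ζ.re / (1 + ‖ζ‖ ^ 2) ∧ sh2 ζ 2 = ζ.im / (1 + ‖ζ‖ ^ 2) := by
  have : 0 < 1 + ‖ζ‖ ^ 2 := by positivity
  simp only [sh2, Area2.norm_wv, PiLp.smul_apply, smul_eq_mul]
  constructor <;> simp [wv] <;> field_simp <;> ring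

theorem ann {a b r : ℝ} (hr : 0 ≤ r) (h : ∀ x, a ≤ x → x ≤ b → 0 ≤ x → x ≤ r * (1 + x ^ 2))
    (h0 : Continuous sh2) : IsCompact {ζ : ℂ | a ≤ ‖ζ‖ ∧ ‖ζ‖ ≤ b} ∧
      area (sh2 '' {ζ : ℂ | a ≤ ‖ζ‖ ∧ ‖ζ‖ ≤ b}) ≤ 24 * r ^ 2 := by
  have hc : IsCompact {ζ : ℂ | a ≤ ‖ζ‖ ∧ ‖ζ‖ ≤ b} :=
    (isCompact_closedBall (0 : ℂ) b).of_isClosed_subset
      ((isClosed_le continuous_const continuous_norm).inter
        (isClosed_le continuous_norm continuous_const)) fun z hz => by simpa using hz.2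
  refine ⟨hc, area_thin (hc.image h0).isClosed hr ?_⟩
  rintro _ ⟨ζ, ⟨h1, h2⟩, rfl⟩
  have p : 0 < 1 + ‖ζ‖ ^ 2 := by positivity
  have := h _ h1 h2 (norm_nonneg _)
  rw [(sh2_comp ζ).1, (sh2_comp ζ).2, abs_div, abs_div, abs_of_pos p, div_le_iff₀ p, div_le_iff₀ p]
  exact ⟨(Complex.abs_re_le_norm ζ).trans this, (Complex.abs_im_le_norm ζ).trans this⟩

end Fin2

/-- the band statement with bounds for the caps (proof of the last part by helper38) -/
theorem bandq (hre : ReconStmt) (hkr : Kron3Stmt) (hpo : PolarStmt) : ∃ Φ : ℝ → ℝ, CapFn Φ ∧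
    (∀ a, 0 ≤ a → Φ a ≤ 24 * a ^ 2) ∧ (∀ b, 0 < b → Real.pi - Φ b ≤ 24 / b ^ 2) ∧
    ∀ (m : Fin 3 → ℝ) (c : Cfg) (F : Fam) (C : ℝ) (T : TorDat), c.Ok → c.Mass m → Tor c F C T →
    (∀ y θ, 2 * (C * c.ep) < ‖(T.p y θ).zc‖) →
    ∀ (y0 y1 : I01) (a b a' b' : ℝ) (θa θb : Fin 3 → ℝ), 0 ≤ a → a ≤ b → 0 ≤ a' → a' ≤ b' →
      (∀ θ, a ≤ T.rad y0 θ ∧ T.rad y0 θ ≤ b) →
      (∀ s, T.rad y1 (Function.update θa 2 s) ≤ a') →
      (∀ s, b' ≤ T.rad y1 (Function.update θb 2 s)) →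
      ∀ A0, Φ (b / c.sc) - Φ (a / c.sc) ≤ A0 → A0 ≤ Φ (b' / c.sc) - Φ (a' / c.sc) → Att m A0 := by
  obtain ⟨ν, Φ, h1, h2, h0, h4, hΦ, h5⟩ := cap
  refine ⟨Φ, hΦ, fun a ha => ?_, fun b hb => ?_,
    fun m c F C T hc hm hT hz y0 y1 a b a' b' θa θb ha hab ha' hab' r0 r1 r2 A0 A1 A2 => ?_⟩
  · obtain ⟨k1, k2⟩ := Fin2.ann (a := 0) (b := a) ha
      (fun x _ h _ => h.trans (le_mul_of_one_le_right ha (by nlinarith))) h0
    rwa [h4 _ k1, h5 _ _ le_rfl ha, hΦ.zero, sub_zero] at k2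
  · refine le_of_tendsto (hΦ.lim.sub_const (Φ b)) ((eventually_ge_atTop b).mono fun x hx => ?_)
    obtain ⟨k1, k2⟩ := Fin2.ann (a := b) (b := x) (r := b⁻¹) (by positivity)
      (fun x h _ _ => by rw [← div_eq_inv_mul, le_div_iff₀ hb]; nlinarith) h0
    rwa [h4 _ k1, h5 _ _ hb.le hx, inv_pow, ← div_eq_mul_inv] at k2
  have hsc := hc.sc
  have hW : ∀ y θ, (T.p y θ).zc ≠ 0 := fun y θ h => by
    have e1 := hz y θ
    have e2 := (norm_nonneg _).trans (hT.rot y θ)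
    rw [h, norm_zero] at e1
    linarith
  have hper : ∀ y θ j, (T.p y (θ + Pi.single j (2 * Real.pi))).zc = (T.p y θ).zc :=
    fun y θ j => by rw [hT.per]
  have hrot : ∀ y θ, ‖T.z' y θ - Complex.I * (T.p y θ).zc‖ ≤ ‖(T.p y θ).zc‖ / 2 :=
    fun y θ => by linarith [hT.rot y θ, hz y θ]
  have hk : Continuous fun q : I01 × (Fin 3 → ℝ) => (c.sc * (T.p q.1 q.2).R)⁻¹ :=
    (hT.cR.const_mul _).inv₀ fun q => (mul_pos hsc (hT.pos _ _).1).ne'
  obtain ⟨p1, p2, p3⟩ := hpo ν h2 (fun y θ => (T.p y θ).zc) T.z'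
    (fun y θ => (c.sc * (T.p y θ).R)⁻¹) hT.cz hk
    (fun y θ => inv_pos.2 (mul_pos hsc (hT.pos _ _).1)) hW hper (fun y θ j => by rw [hT.per])
    hT.dz hrot
  obtain ⟨p4, -, -⟩ := hpo ν h2 (fun y θ => (T.p y θ).zc) T.z' (fun _ _ => 1) hT.cz
    continuous_const (fun _ _ => one_pos) hW hper (fun _ _ _ => rfl) hT.dz hrot
  have hrad : ∀ y θ, (c.sc * (T.p y θ).R)⁻¹ * ‖(T.p y θ).zc‖ ^ 2 = T.rad y θ / c.sc :=
    fun y θ => by unfold TorDat.rad; rw [mul_inv, div_div, div_eq_mul_inv, mul_inv]; ring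
  have g0 : (ν (range fun θ => (((c.sc * (T.p y0 θ).R)⁻¹ : ℝ) : ℂ) * (T.p y0 θ).zc ^ 2)).toReal ≤
      A0 := by
    refine le_trans ?_ A1
    rw [← h5 _ _ (by positivity) (by gcongr)]
    refine ENNReal.toReal_mono (measure_ne_top _ _) (measure_mono ?_)
    rintro _ ⟨θ, rfl⟩
    have e : ‖(((c.sc * (T.p y0 θ).R)⁻¹ : ℝ) : ℂ) * (T.p y0 θ).zc ^ 2‖ = T.rad y0 θ / c.sc := by
      rw [norm_mul, norm_pow, Complex.norm_real, Real.norm_of_nonneg
        (inv_pos.2 (mul_pos hsc (hT.pos _ _).1)).le, hrad]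
    simp only [mem_ofPred_eq]
    rw [e]
    exact ⟨by gcongr; exact (r0 θ).1, by gcongr; exact (r0 θ).2⟩
  have g1 : A0 ≤
      (ν (range fun θ => (((c.sc * (T.p y1 θ).R)⁻¹ : ℝ) : ℂ) * (T.p y1 θ).zc ^ 2)).toReal := by
    refine A2.trans ?_
    rw [← h5 _ _ (by positivity) (by gcongr)]
    refine ENNReal.toReal_mono (measure_ne_top _ _) (measure_mono (p3 y1 _ _ θa θb ?_ ?_))
    · intro s; rw [hrad]; gcongr; exact r1 s
    · intro s; rw [hrad]; gcongr; exact r2 s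
  obtain ⟨y, hy⟩ := intermediate_value_univ y0 y1 p2 ⟨g0, g1⟩
  have hlow : ∃ b, 0 < b ∧ ∀ τ : ℝ, b ≤ ‖(T.p y (τ • T.om)).zc‖ := by
    obtain ⟨_, ⟨θ, rfl⟩, hmin⟩ := (p4 y).exists_isMinOn (range_nonempty _)
      continuous_norm.continuousOn
    refine ⟨‖(T.p y θ).zc‖, norm_pos_iff.2 (hW y θ), fun τ => ?_⟩
    have := hmin (mem_range_self (τ • T.om))
    simp only [mem_ofPred_eq, Complex.ofReal_one, one_mul, norm_pow] at this
    exact (pow_le_pow_iff_left₀ (norm_nonneg _) (norm_nonneg _) two_ne_zero).1 this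
  obtain ⟨q, σ, q1, q2, q3⟩ := hre m c (T.a y) (T.cc y) (T.hs y) (fun τ => T.p y (τ • T.om)) hc hm
    (hT.apos y) (hT.ode y) (fun _ => hT.rel _ _) (fun _ => hT.pos _ _) (fun _ => hT.en _ _) hlow
  refine ⟨q, q1, ?_⟩
  set G : (Fin 3 → ℝ) → ℂ := fun θ => (((c.sc * (T.p y θ).R)⁻¹ : ℝ) : ℂ) * (T.p y θ).zc ^ 2 with hG
  have hGc : Continuous G :=
    (Complex.continuous_ofReal.comp (hk.comp (Continuous.prodMk_right y))).mul
      ((hT.cz.comp (Continuous.prodMk_right y)).pow 2)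
  have e1 : (range fun t => shape m (q t)) = range fun t : ℝ => (sh2 ∘ G) (t • T.om) := by
    rw [← q2.range_comp fun t : ℝ => (sh2 ∘ G) (t • T.om)]
    exact congrArg range (funext q3)
  have e2 : closure (range fun t : ℝ => (sh2 ∘ G) (t • T.om)) = sh2 '' range G := by
    refine Subset.antisymm (closure_minimal ?_ ((p1 y).image h0).isClosed) ?_
    · rintro _ ⟨t, rfl⟩
      exact ⟨_, mem_range_self _, rfl⟩
    · rw [← range_comp]
      exact hkr T.om _ (sh2 ∘ G) hT.ind (h0.comp hGc) fun θ j => by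
        simp only [Function.comp, hG, hT.per]
  rw [e1, e2, h4 _ (p1 y)]
  exact hy


/-- quantitative form of the first family -/
def Cov1QStmt : Prop := ∃ η1 : ℝ, 0 < η1 ∧ ∀ η, 0 < η → η ≤ η1 → ∀ C : ℝ, ∃ K ε1 : ℝ, 0 < K ∧ 0 < ε1 ∧
  ∀ c : Cfg, c.Ok → c.et = η → c.ep ≤ ε1 → c.mm = c.ep ^ 9 → ∃ F : Fam, F.Ok c.lam η ∧
    ∀ T, Tor c F C T → (∀ y θ, 2 * (C * c.ep) < ‖(T.p y θ).zc‖) ∧
      (∃ b', ∀ θ, η ^ 4 / 8 ≤ T.rad 1 θ ∧ T.rad 1 θ ≤ b') ∧
      (∃ θa, ∀ s, T.rad 0 (Function.update θa 2 s) ≤ K * c.ep) ∧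
      (∃ θb, ∀ s, 1 / 2 ≤ T.rad 0 (Function.update θb 2 s))

open Cov in
/-- adapted from `cov1` (helper55) -/
theorem cov1q : Cov1QStmt := by
  refine ⟨1 / 100, by norm_num, fun η h0 h1 C => ?_⟩
  obtain ⟨K, hK⟩ : ∃ K : ℝ, K = 2 * |C| + 2 := ⟨_, rfl⟩
  have hC := abs_nonneg C
  have K2 : 2 ≤ K := by linarith
  have h4 := pow_pos h0 4
  have h2 : η ^ 2 ≤ 1 / 10000 := by nlinarith
  have h41 : η ^ 4 ≤ 1 / 10000 := by nlinarith [sq_nonneg η]
  have K0 : 0 < K := by linarith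
  obtain ⟨σ1, σ0, hσ1⟩ : ∃ σ1 : ℝ, 0 < σ1 ∧ ∀ σ ≤ σ1, σ ≤ 1 ∧ σ * (4 * K) ≤ η ^ 4 := by
    refine ⟨min 1 (η ^ 4 / (4 * K)), by positivity, fun σ hle => ?_⟩
    simp only [le_min_iff] at hle
    exact ⟨hle.1, (le_div_iff₀ (by positivity)).1 hle.2⟩
  refine ⟨4 * K, σ1 ^ 2, by positivity, by positivity, fun c hc _ hε hm => ?_⟩
  have ep := hc.ep
  obtain ⟨σ, hσ, hσε⟩ : ∃ σ : ℝ, 0 < σ ∧ c.ep = σ ^ 2 :=
    ⟨√c.ep, Real.sqrt_pos.2 ep, (Real.sq_sqrt ep.le).symm⟩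
  have hle : σ ≤ σ1 := by
    rw [hσε] at hε; exact (sq_le_sq₀ hσ.le σ0.le).1 hε
  obtain ⟨s1, s2⟩ := hσ1 σ hle
  have eσ : c.ep ≤ σ := by rw [hσε, pow_two]; exact mul_le_of_le_one_right hσ.le s1
  have e1 : c.ep ≤ 1 := eσ.trans s1
  have Kε : K * c.ep ≤ η ^ 4 / 4 := by linarith [mul_le_mul_of_nonneg_left eσ K0.le]
  have lam : c.lam ≤ η ^ 4 := by
    have k1 : c.ka = c.ep ^ 7 * √c.M := by rw [Cfg.ka, hm]; field_simp
    have k2 : c.ep ^ 7 ≤ c.ep := by simpa using pow_le_pow_of_le_one ep.le e1 (by norm_num : 1 ≤ 7)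
    have k3 := mul_le_mul k2 hc.sM2 (Real.sqrt_nonneg _) ep.le
    linarith [hc.lam_le, mul_le_mul_of_nonneg_right K2 ep.le]
  obtain ⟨g0, g00, g02, g0η⟩ : ∃ g0 : ℝ, 0 ≤ g0 ∧ g0 ^ 2 = K * c.ep ∧ g0 ≤ η ^ 2 :=
    ⟨√(K * c.ep), Real.sqrt_nonneg _, Real.sq_sqrt (by positivity),
      Real.sqrt_le_iff.2 ⟨by positivity, by linarith⟩⟩
  refine ⟨F1 η g0, F1_ok h0 h1 g00 g0η hc.lam.le lam, fun T hT => ?_⟩
  have δ : C * c.ep ≤ |C| * c.ep := mul_le_mul_of_nonneg_right (le_abs_self C) ep.le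
  have δK : K * c.ep = 2 * (|C| * c.ep) + 2 * c.ep := by rw [hK]; ring
  have δ1 : |C| * c.ep ≤ η ^ 4 / 8 := by linarith
  have hR : ∀ y θ, 1 / 2 ≤ (T.p y θ).R ∧ (T.p y θ).R ≤ 2 := by
    intro y θ
    obtain ⟨t, ht, -, -, h⟩ := hT.vR y θ
    have u := u_bd h0 h1 (hT.t y)
    have e0 : √(1 - ((F1 η g0).ga y + (F1 η g0).v2 * T.t y) ^ 2) ≤ 1 / 4 := by
      show √(1 - (√(1 - 2 * η ^ 2) + η ^ 3 * T.t y) ^ 2) ≤ 1 / 4
      exact Real.sqrt_le_iff.2 ⟨by norm_num, by linarith [pow_le_pow_left₀ (by norm_num) u.1 2]⟩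
    have a1 := abs_mul_le' (Real.sqrt_nonneg
      (1 - ((F1 η g0).ga y + (F1 η g0).v2 * T.t y) ^ 2)) ht
    have a2 := abs_le.1 h
    constructor <;> linarith [a1.1, a1.2, a2.1, a2.2]
  have hr : ∀ y θ, ∃ s : ℝ, 1 - (F1 η g0).g y ^ 2 ≤ s ∧ s ≤ 1 - (F1 η g0).g y ^ 2 / 2 ∧ 0 ≤ s ∧
      |‖(T.p y θ).zc‖ ^ 2 - (1 + s * Real.cos (2 * θ 0))| ≤ |C| * c.ep := by
    intro y θ
    have hG := F1_g g0η y
    have G2 : (F1 η g0).g y ^ 2 ≤ 1 := pow_le_one₀ (g00.trans hG.1) (by linarith [hG.2])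
    have s := sqrt_bd (sq_nonneg ((F1 η g0).g y)) G2
    refine ⟨_, s.1, s.2, Real.sqrt_nonneg _, le_trans ?_ δ⟩
    simpa [F1] using hT.vr y θ
  have low : ∀ y θ, (F1 η g0).g y ^ 2 / 2 - |C| * c.ep ≤ ‖(T.p y θ).zc‖ ^ 2 ∧
      ‖(T.p y θ).zc‖ ^ 2 ≤ 3 := by
    intro y θ
    obtain ⟨s, a1, a2, a3, a4⟩ := hr y θ
    have b1 := abs_mul_le' a3 (Real.abs_cos_le_one (2 * θ 0))
    have b2 := abs_le.1 a4
    have := sq_nonneg ((F1 η g0).g y)
    constructor <;> linarith [b1.1, b1.2, b2.1, b2.2]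
  have gy0 : (F1 η g0).g 0 = g0 := by simp [F1]
  have gy1 : (F1 η g0).g 1 = η ^ 2 := by simp [F1]
  refine ⟨fun y θ => ?_, ⟨6, fun θ => ?_⟩, ⟨fun _ => Real.pi / 2, fun s => ?_⟩,
    ⟨fun _ => 0, fun s => ?_⟩⟩
  · have hG := F1_g g0η y
    have G2 : g0 ^ 2 ≤ (F1 η g0).g y ^ 2 := pow_le_pow_left₀ g00 hG.1 2
    have a1 : c.ep ≤ ‖(T.p y θ).zc‖ ^ 2 := by linarith [(low y θ).1]
    refine lt_of_le_of_lt (by linarith) (lt_norm (δ := |C| * c.ep) (norm_nonneg _) a1 ?_)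
    have a2 : 2 * |C| * σ < 1 := by rw [hK] at s2; linarith
    have a3 : (2 * |C| * σ) ^ 2 < 1 := pow_lt_one₀ (by positivity) a2 two_ne_zero
    have a4 : (2 * (|C| * c.ep)) ^ 2 = (2 * |C| * σ) ^ 2 * c.ep := by rw [hσε]; ring
    rw [a4]; exact mul_lt_of_lt_one_left ep a3
  · have a1 := low 1 θ
    have a2 := hR 1 θ
    have Rp : 0 < (T.p 1 θ).R := by linarith [a2.1]
    rw [gy1] at a1
    rw [TorDat.rad, le_div_iff₀ Rp, div_le_iff₀ Rp]
    have a3 := mul_le_mul_of_nonneg_left a2.2 h4.le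
    constructor <;> linarith [a1.1, a1.2, a2.1]
  · obtain ⟨s', a1, -, -, a4⟩ := hr 0 (Function.update (fun _ => Real.pi / 2) 2 s)
    have a2 := hR 0 (Function.update (fun _ => Real.pi / 2) 2 s)
    rw [upd0, show 2 * (Real.pi / 2) = Real.pi by ring, Real.cos_pi] at a4
    rw [gy0, g02] at a1
    rw [TorDat.rad, div_le_iff₀ (by linarith [a2.1])]
    have a3 := mul_le_mul_of_nonneg_left a2.1 (mul_pos K0 ep).le
    have a7 : |C| * c.ep ≤ K * c.ep := mul_le_mul_of_nonneg_right (by linarith) ep.le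
    linarith [(abs_le.1 a4).2]
  · obtain ⟨s', a1, -, -, a4⟩ := hr 0 (Function.update (fun _ => (0 : ℝ)) 2 s)
    have a2 := hR 0 (Function.update (fun _ => (0 : ℝ)) 2 s)
    rw [upd0, mul_zero, Real.cos_zero] at a4
    rw [gy0, g02] at a1
    rw [TorDat.rad, le_div_iff₀ (by linarith [a2.1])]
    linarith [(abs_le.1 a4).1, a2.2]

theorem finalq (hre : ReconStmt) (hkr : Kron3Stmt) (hpo : PolarStmt) (hto : ToriStmt)
    (hc1 : Cov1QStmt) (hc2 : Cov2Stmt) {m0 m1 : ℝ} (hm0 : 0 < m0) (hm1 : 0 < m1) :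
    ∃ k : ℝ, 0 < k ∧ ∀ m2, 0 < m2 → m2 ≤ m0 + m1 → ∀ A0, 0 < A0 →
      A0 ≤ Real.pi * k / (k + m2 ^ (1 / 9 : ℝ)) → Att ![m0, m1, m2] A0 := by
  obtain ⟨Φ, hΦ, q0, q1, hb⟩ := bandq hre hkr hpo
  obtain ⟨η1, hη1, hc1⟩ := hc1
  obtain ⟨η2, hη2, hc2⟩ := hc2
  have hs1 : 0 < m0 / (m0 + m1) := by positivity
  have hs2 : 0 < m1 / (m0 + m1) := by positivity
  have hsum : m0 / (m0 + m1) + m1 / (m0 + m1) = 1 := by field_simp
  obtain ⟨η0, hη0, hto⟩ := hto _ _ hs1 hs2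
  obtain ⟨η, hη, k0, k1, k2⟩ : ∃ η, 0 < η ∧ η ≤ η0 ∧ η ≤ η1 ∧ η ≤ η2 :=
    ⟨min η0 (min η1 η2), by positivity, min_le_left _ _,
      (min_le_right _ _).trans (min_le_left _ _), (min_le_right _ _).trans (min_le_right _ _)⟩
  obtain ⟨C, ε0, hε0, hto⟩ := hto η hη k0
  obtain ⟨haS, habS, hc2⟩ := hc2 η hη k2
  obtain ⟨ε2, hε2, hc2⟩ := hc2 C
  obtain ⟨K, ε1, hK, hε1, hc1⟩ := hc1 η hη k1 C
  have hpos : ∀ u, 0 < u → 0 < Φ (bS η * u) - Φ (aS η * u) := fun u hu => sub_pos.2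
    (hΦ.mono (mul_pos haS hu).le (mul_pos (haS.trans habS) hu).le (mul_lt_mul_of_pos_right habS hu))
  have hA1 := hpos 1 one_pos
  obtain ⟨e, he, l0, l1, l2, l3, l4, l5⟩ : ∃ e, 0 < e ∧ e ≤ ε0 ∧ e ≤ ε1 ∧ e ≤ ε2 ∧ e ≤ 1 ∧
      K * e ≤ 1 / 2 ∧ 24 * 64 / η ^ 8 * e ≤ Φ (bS η * 1) - Φ (aS η * 1) := by
    have t0 : Tendsto (fun e : ℝ => e) (𝓝[>] 0) (𝓝 0) := tendsto_id.mono_left nhdsWithin_le_nhds
    exact ((eventually_mem_nhdsWithin (a := (0 : ℝ)) (s := Ioi 0)).and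
      ((t0.eventually (ge_mem_nhds hε0)).and ((t0.eventually (ge_mem_nhds hε1)).and
      ((t0.eventually (ge_mem_nhds hε2)).and ((t0.eventually (ge_mem_nhds one_pos)).and
      ((ev_le t0 K one_half_pos).and (ev_le t0 _ hA1))))))).exists
  obtain ⟨σ, hσ, hσ'⟩ : ∃ σ, 0 < σ ∧ σ = m0 / (m0 + m1) * (m1 / (m0 + m1)) := ⟨_, by positivity, rfl⟩
  obtain ⟨D, hD, hD'⟩ : ∃ D, 0 < D ∧ D ^ 9 = ((m0 + m1) * σ)⁻¹ :=
    ⟨((m0 + m1) * σ)⁻¹ ^ ((9 : ℕ) : ℝ)⁻¹, by positivity,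
      Real.rpow_inv_natCast_pow (by positivity) (by norm_num)⟩
  obtain ⟨B, hB, hB'⟩ : ∃ B, 0 < B ∧ B = (24 * K ^ 2 + 96) * D := ⟨_, by positivity, rfl⟩
  have ha0 := hpos (e ^ 4 * √σ) (by positivity)
  generalize ha0' : Φ (bS η * (e ^ 4 * √σ)) - Φ (aS η * (e ^ 4 * √σ)) = a0 at ha0
  have hπ := Real.pi_gt_three
  obtain ⟨t0, ht0, t1, t2⟩ : ∃ t0, 0 < t0 ∧ D * t0 ≤ e ∧ B * t0 ≤ 1 :=
    ⟨min (e / D) (1 / B), by positivity, (le_div_iff₀' hD).1 (min_le_left _ _),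
      (le_div_iff₀' hB).1 (min_le_right _ _)⟩
  obtain ⟨k, hk, t3, t4⟩ : ∃ k, 0 < k ∧ B * k ≤ 1 ∧ Real.pi * k ≤ a0 * t0 :=
    ⟨min (1 / B) (a0 * t0 / Real.pi), by positivity, (le_div_iff₀' hB).1 (min_le_left _ _),
      (le_div_iff₀' (by positivity)).1 (min_le_right _ _)⟩
  refine ⟨k, hk, fun m2 hm2 hm2' A0 hA hA' => ?_⟩
  have ht : 0 < m2 ^ (1 / 9 : ℝ) := by positivity
  have ht9 : (m2 ^ (1 / 9 : ℝ)) ^ 9 = m2 := by
    rw [← Real.rpow_natCast, ← Real.rpow_mul hm2.le]; norm_num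
  generalize m2 ^ (1 / 9 : ℝ) = t at *
  let c : ℝ → Cfg := fun ep => ⟨m0 / (m0 + m1), m1 / (m0 + m1), m2 / (m0 + m1), ep, η⟩
  have hmu : m2 / (m0 + m1) ≤ 1 := (div_le_one (by positivity)).2 hm2'
  have hok : ∀ ep, 0 < ep → (c ep).Ok := fun ep h =>
    ⟨hs1, hs2, hsum, by show 0 < m2 / (m0 + m1); positivity, hmu, h, hη⟩
  have hms : ∀ ep, (c ep).Mass ![m0, m1, m2] := fun ep =>
    ⟨fun i => by fin_cases i <;> simpa, rfl, rfl, rfl⟩
  have hmm : 0 < (c 1).mm := (hok 1 one_pos).mm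
  have hmm1 : (c 1).mm ≤ m2 / (m0 + m1) / σ := by
    have h1 := (hok 1 one_pos).M1
    show m2 / (m0 + m1) / ((c 1).M * (m0 / (m0 + m1)) * (m1 / (m0 + m1))) ≤ _
    rw [mul_assoc, ← hσ']
    exact div_le_div_of_nonneg_left (by positivity) hσ (le_mul_of_one_le_left hσ.le h1)
  have two : ∀ u1, 0 ≤ u1 → √(c 1).mm * u1 ≤ e ^ 4 → A0 ≤ Φ (bS η * u1) - Φ (aS η * u1) →
      Att ![m0, m1, m2] A0 := fun u1 hu1 hu2 h => by
    have hcont : Continuous fun u => Φ (bS η * u) - Φ (aS η * u) := by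
      have := hΦ.cont
      fun_prop
    obtain ⟨u, ⟨u0, u1'⟩, hu⟩ := intermediate_value_Icc hu1 hcont.continuousOn
      (show A0 ∈ Icc _ _ from ⟨by simpa using hA.le, h⟩)
    have u0' : 0 < u := u0.lt_of_ne fun h0 => by
      subst h0
      simp only [mul_zero, sub_self] at hu
      exact hA.ne hu
    have hq : 0 < √(c 1).mm * u := mul_pos (Real.sqrt_pos.2 hmm) u0'
    obtain ⟨ep, hep, hep'⟩ : ∃ ep : ℝ, 0 < ep ∧ ep ^ 4 = √(c 1).mm * u :=
      ⟨(√(c 1).mm * u) ^ ((4 : ℕ) : ℝ)⁻¹, Real.rpow_pos_of_pos hq _,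
        Real.rpow_inv_natCast_pow hq.le (by norm_num)⟩
    have hle : ep ≤ e := by
      refine (pow_le_pow_iff_left₀ hep.le he.le (by norm_num : 4 ≠ 0)).1 ?_
      rw [hep']
      exact (mul_le_mul_of_nonneg_left u1' (Real.sqrt_nonneg _)).trans hu2
    have hsc : (c ep).sc = u⁻¹ := by
      show √(c 1).mm / ep ^ 4 = u⁻¹
      rw [hep', div_mul_cancel_left₀ (Real.sqrt_pos.2 hmm).ne']
    obtain ⟨F, hF, hF'⟩ := hc2 (c ep) (hok ep hep) rfl (hle.trans l2)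
    obtain ⟨T, hT⟩ := hto (c ep) F (hok ep hep) rfl rfl rfl (hle.trans l0) hF
    obtain ⟨t1, t2, ⟨θa, t3⟩, θb, t4⟩ := hF' T hT
    refine hb _ _ F C T (hok ep hep) (hms ep) hT t1 0 1 _ _ _ _ θa θb haS.le habS.le haS.le habS.le
      t2 t3 t4 A0 ?_ ?_
    · rw [hsc, div_inv_eq_mul, div_inv_eq_mul]; exact hu.le
    · rw [hsc, div_inv_eq_mul, div_inv_eq_mul]; exact hu.ge
  rw [le_div_iff₀ (by positivity)] at hA'
  rcases le_total t0 t with htt | htt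
  · refine two (e ^ 4 * √σ) (by positivity) ?_ ?_
    · rw [mul_left_comm, ← Real.sqrt_mul hmm.le]
      exact mul_le_of_le_one_right (by positivity)
        (Real.sqrt_le_one.2 (((le_div_iff₀ hσ).1 hmm1).trans hmu))
    · rw [ha0']
      refine le_of_mul_le_mul_right ?_ ht0
      linarith only [mul_le_mul_of_nonneg_left htt hA.le, mul_pos hA hk, hA', t4]
  have hmm2 : (c 1).mm ≤ (D * t) ^ 9 := by
    rw [mul_pow, hD', ht9]; refine hmm1.trans (le_of_eq ?_); field_simp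
  have hDt : D * t ≤ e := (mul_le_mul_of_nonneg_left htt hD.le).trans t1
  rcases le_total A0 (Φ (bS η * 1) - Φ (aS η * 1)) with h | h
  · refine two 1 zero_le_one ?_ h
    rw [mul_one]
    refine Real.sqrt_le_iff.2 ⟨by positivity, hmm2.trans ?_⟩
    rw [← pow_mul]
    exact (pow_le_pow_left₀ (by positivity) hDt 9).trans
      (pow_le_pow_of_le_one he.le l3 (by norm_num))
  obtain ⟨ep, hep, hep'⟩ : ∃ ep : ℝ, 0 < ep ∧ ep ^ 9 = (c 1).mm :=
    ⟨(c 1).mm ^ ((9 : ℕ) : ℝ)⁻¹, Real.rpow_pos_of_pos hmm _,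
      Real.rpow_inv_natCast_pow hmm.le (by norm_num)⟩
  have hle' : ep ≤ D * t :=
    (pow_le_pow_iff_left₀ hep.le (by positivity) (by norm_num : 9 ≠ 0)).1 (hep'.trans_le hmm2)
  have hle := hle'.trans hDt
  have hsc := (hok ep hep).sc
  have hsc2 : (c ep).sc ^ 2 = ep := by
    show (√(c 1).mm / ep ^ 4) ^ 2 = ep
    rw [div_pow, Real.sq_sqrt hmm.le, ← hep']; field_simp
  obtain ⟨F, hF, hF'⟩ := hc1 (c ep) (hok ep hep) rfl (hle.trans l1) hep'.symm
  obtain ⟨T, hT⟩ := hto (c ep) F (hok ep hep) rfl rfl rfl (hle.trans l0) hF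
  obtain ⟨u1, ⟨b', u2⟩, ⟨θa, u3⟩, θb, u4⟩ := hF' T hT
  have hbb : η ^ 4 / 8 ≤ b' := (u2 0).1.trans (u2 0).2
  refine hb _ _ F C T (hok ep hep) (hms ep) hT u1 1 0 _ _ _ _ θa θb (by positivity) hbb
    (by positivity) ((mul_le_mul_of_nonneg_left hle hK.le).trans l4) u2 u3 u4 A0 ?_ ?_
  · have a1 := q1 (η ^ 4 / 8 / (c ep).sc) (by positivity)
    rw [div_pow, hsc2, show 24 / ((η ^ 4 / 8) ^ 2 / ep) = 24 * 64 / η ^ 8 * ep by field_simp; ring]
      at a1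
    have a2 := mul_le_mul_of_nonneg_left hle (show 0 ≤ 24 * 64 / η ^ 8 by positivity)
    linarith [Cap.le_pi hΦ (div_nonneg (le_trans (by positivity) hbb) hsc.le)]
  · have a1 := q1 (1 / 2 / (c ep).sc) (by positivity)
    have a2 := q0 (K * (c ep).ep / (c ep).sc) (by show 0 ≤ K * ep / _; positivity)
    rw [div_pow, hsc2, show 24 / ((1 / 2) ^ 2 / ep) = 96 * ep by field_simp; ring] at a1
    rw [div_pow, hsc2, show 24 * ((K * (c ep).ep) ^ 2 / ep) = 24 * K ^ 2 * ep by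
      show 24 * ((K * ep) ^ 2 / ep) = _; field_simp] at a2
    have a3 : (24 * K ^ 2 + 96) * ep ≤ B * t := by
      rw [hB', mul_assoc]; exact mul_le_mul_of_nonneg_left hle' (by positivity)
    have a4 : B * (k + t) ≤ Real.pi := by
      linarith only [mul_le_mul_of_nonneg_left htt hB.le, t2, t3, hπ]
    have a5 : A0 ≤ Real.pi - B * t := by
      refine le_of_mul_le_mul_right (hA'.trans ?_) (add_pos hk ht)
      linarith only [mul_le_mul_of_nonneg_left a4 ht.le]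
    linarith

end Pool.Agent.MP_1ba41f_an.K4

end
end MrgPart1

-- ======== part 2: formerly Pool.Agent.MP_1ba41f_an.K4.Kep
section MrgPart2

/-! PROJECT LUNAR, row KEP: cosine and sine in a model, the Kepler equation, the argument. -/

noncomputable section
open Finset

namespace Pool.Agent.MP_1ba41f_an.K4
open K3

namespace Kep
variable {A : Type} [CommRing A] [Algebra ℝ A]

/-- truncated exponential series with coefficients `κ` -/
def T (f : A) (κ : ℕ → ℝ) (N : ℕ) : A := ∑ n ∈ range N, (κ n / n.factorial) • f ^ n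

section Series
variable {J : Type} {S : Scale A J}

theorem bd_pow {s c : ℝ} {f : A} (h : S.Bd s f c) (n : ℕ) : S.Bd s (f ^ n) (c ^ n) := by
  induction n with
  | zero => simpa using S.one s
  | succ n ih => rw [pow_succ, pow_succ]; exact S.mul ih h

theorem two_pow_le (n : ℕ) : (2 : ℝ) * 2 ^ n ≤ (n + 2).factorial := by
  induction n with
  | zero => norm_num
  | succ n ih =>
    rw [show n + 1 + 2 = (n + 2) + 1 from rfl, Nat.factorial_succ, pow_succ]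
    push_cast
    have : (0 : ℝ) ≤ n := n.cast_nonneg
    have : (0 : ℝ) < 2 ^ n := by positivity
    nlinarith

theorem ser {s c : ℝ} {f : A} (hs : 0 < s) (h : S.Bd s f c) (hc : c ≤ 1) {κ : ℕ → ℝ}
    (hκ : ∀ n, |κ n| ≤ 1) : ∃ g, ∀ N, S.Bd s (g - T f κ (N + 2)) (c ^ 2 / 2 ^ N) := by
  have c0 := S.nonneg h
  obtain ⟨g, hg⟩ := S.complete (c := c ^ 2 / 2)
    (f := fun n => (κ (n + 2) / (n + 2).factorial) • f ^ (n + 2)) hs fun n => by
      refine Scale.le (S.smul _ (bd_pow h (n + 2))) ?_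
      have h1 : |κ (n + 2) / ((n + 2).factorial : ℝ)| ≤ 1 / (2 * 2 ^ n) := by
        rw [abs_div, Nat.abs_cast]
        exact div_le_div₀ zero_le_one (hκ _) (by positivity) (two_pow_le n)
      have h2 : c ^ (n + 2) ≤ c ^ 2 := pow_le_pow_of_le_one c0 hc (by omega)
      calc _ ≤ 1 / (2 * 2 ^ n) * c ^ 2 := mul_le_mul h1 h2 (by positivity) (by positivity)
        _ = _ := by field_simp
  refine ⟨T f κ 2 + g, fun N => Scale.le (Scale.cong (hg N) ?_) (le_of_eq (by ring))⟩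
  unfold T
  rw [add_comm N 2, sum_range_add]
  simp only [add_comm 2]
  ring

theorem der_T (δ : Derivation ℝ A A) (f : A) (κ : ℕ → ℝ) (N : ℕ) :
    δ (T f κ (N + 1)) = T f (fun n => κ (n + 1)) N * δ f := by
  induction N with
  | zero => simp [T]
  | succ N ih =>
    unfold T at *
    rw [sum_range_succ, map_add, ih, sum_range_succ (n := N), add_mul, Derivation.map_smul,
      Derivation.leibniz_pow, Nat.add_sub_cancel, smul_mul_assoc, smul_eq_mul,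
      ← Nat.cast_smul_eq_nsmul ℝ, smul_smul]
    congr 2
    rw [Nat.factorial_succ]
    have : (N.factorial : ℝ) ≠ 0 := by positivity
    push_cast
    field_simp

theorem der_ser {s c : ℝ} {f g g' : A} (hs : 0 < s) (h : S.Bd s f c) {κ : ℕ → ℝ}
    (hg : ∀ N, S.Bd s (g - T f κ (N + 2)) (c ^ 2 / 2 ^ N))
    (hg' : ∀ N, S.Bd s (g' - T f (fun n => κ (n + 1)) (N + 2)) (c ^ 2 / 2 ^ N)) (i : J) :
    S.D i g = g' * S.D i f := by
  refine sub_eq_zero.1 (S.sep (s := s - s / 2)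
    (c := c ^ 2 / 2 / (s / 2) + c ^ 2 * (c / (s / 2))) fun N => ?_)
  have h1 := S.der i (half_pos hs) (half_lt_self hs) (hg (N + 1))
  have h2 := S.mul (Scale.lev (hg' N) (by linarith : s - s / 2 ≤ s))
    (S.der i (half_pos hs) (half_lt_self hs) h)
  refine Scale.le (Scale.cong (Scale.sub h1 h2) ?_) (le_of_eq (by ring))
  rw [map_sub, show N + 1 + 2 = N + 2 + 1 from rfl, der_T]
  ring

/-- contraction principle at level one -/
theorem fix {Φ : A → A} {κ0 ρ : ℝ} (h0 : S.Bd 1 (Φ 0) κ0) (hρ : 3 * κ0 ≤ ρ)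
    (H : ∀ v v' κ, S.Bd 1 v ρ → S.Bd 1 v' ρ → S.Bd 1 (v' - v) κ → κ ≤ ρ →
      S.Bd 1 (Φ v' - Φ v) (κ / 2)) : ∃ v, S.Bd 1 v ρ ∧ Φ v = v := by
  have k0 := S.nonneg h0
  obtain ⟨v, u, h1, h2⟩ := (S.nm 1 one_pos).iterate (fun v κ => S.Bd 1 (Φ v - v) κ)
    (M := 1) zero_le_one k0 (by simpa using h0) fun v κ _ k1 hv hP => by
      have hv' : S.Bd 1 v (2 * 1 * κ0) := hv
      refine ⟨Φ v - v, by simpa [Scale.nm] using hP, ?_⟩
      have := H v (v + (Φ v - v)) κ (Scale.le hv' (by linarith))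
        (Scale.le (S.add hv' hP) (by linarith)) (Scale.cong hP (by ring)) (by linarith)
      exact Scale.cong this (by ring)
  have h1' : S.Bd 1 v (2 * 1 * κ0) := h1
  refine ⟨v, Scale.le h1' (by linarith), sub_eq_zero.1 (S.sep (s := 1) (c := 4 * κ0) fun k => ?_)⟩
  have e1 : S.Bd 1 (v - u k) (2 * 1 * κ0 / 2 ^ k) := (h2 k).1
  have e2 : S.Bd 1 (u k) (2 * 1 * κ0) := (h2 k).2.1
  have e3 : 2 * 1 * κ0 / 2 ^ k ≤ 2 * 1 * κ0 :=
    div_le_self (by linarith) (one_le_pow₀ one_le_two)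
  have := H (u k) v _ (Scale.le e2 (by linarith)) (Scale.le h1' (by linarith)) e1 (by linarith)
  exact Scale.le (Scale.cong (Scale.sub (S.add this (h2 k).2.2) e1) (by ring))
    (le_of_eq (by ring))

end Series

variable (M : Mdl A)

theorem ev_ser {s c : ℝ} {f g : A} {κ : ℕ → ℝ}
    (hg : ∀ N, M.S.Bd s (g - T f κ (N + 2)) (c ^ 2 / 2 ^ N)) (y z) {v : ℝ}
    (hv : HasSum (fun n => κ n / n.factorial * M.ev y z f ^ n) v) : M.ev y z g = v := by
  have h1 := (Filter.tendsto_add_atTop_iff_nat 2).2 hv.tendsto_sum_nat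
  have h2 : Filter.Tendsto (fun N : ℕ => c ^ 2 / 2 ^ N) Filter.atTop (nhds 0) :=
    tendsto_const_nhds.div_atTop (tendsto_pow_atTop_atTop_of_one_lt one_lt_two)
  have h3 := (tendsto_const_nhds (x := M.ev y z g)).sub h1 |>.abs
  have h4 := le_of_tendsto_of_tendsto' h3 h2 fun N => by
    have := M.ev_near (hg N) y z
    simpa [T, map_sum] using this
  exact sub_eq_zero.1 (abs_nonpos_iff.1 h4)

theorem hasSum_exp (x : ℝ) : HasSum (fun n : ℕ => Complex.I ^ n * ((x ^ n / n.factorial : ℝ) : ℂ))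
    (Complex.exp (x * Complex.I)) := by
  have := NormedSpace.expSeries_div_hasSum_exp ((x : ℂ) * Complex.I)
  rw [← Complex.exp_eq_exp_ℂ] at this
  refine this.congr_fun fun n => ?_
  push_cast
  rw [mul_pow]; ring

end Kep

open Kep in
theorem trig : TrigStmt := by
  intro A _ _ M s c f hs h hc
  have n1 : ∀ n : ℕ, ‖Complex.I ^ n‖ = 1 := fun n => by simp
  obtain ⟨C, hC⟩ := ser (κ := fun n => (Complex.I ^ n).re) hs h hc fun n =>
    (Complex.abs_re_le_norm _).trans (n1 n).le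
  obtain ⟨S, hS⟩ := ser (κ := fun n => (Complex.I ^ n).im) hs h hc fun n =>
    (Complex.abs_im_le_norm _).trans (n1 n).le
  refine ⟨C, S, fun y z => ev_ser M hC y z ?_, fun y z => ev_ser M hS y z ?_, ?_, ?_,
    fun i => ⟨?_, ?_⟩⟩
  · have := Complex.hasSum_re (hasSum_exp (M.ev y z f))
    rw [Complex.exp_ofReal_mul_I_re] at this
    refine this.congr_fun fun n => ?_
    rw [Complex.re_mul_ofReal]; ring
  · have := Complex.hasSum_im (hasSum_exp (M.ev y z f))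
    rw [Complex.exp_ofReal_mul_I_im] at this
    refine this.congr_fun fun n => ?_
    rw [Complex.im_mul_ofReal]; ring
  · simpa [T, sum_range_succ] using hC 0
  · simpa [T, sum_range_succ] using hS 0
  · rw [← neg_mul]
    refine der_ser hs h hC (fun N => Scale.cong (Scale.neg (hS N)) ?_) i
    simp only [T, pow_succ, Complex.mul_re, Complex.I_re, Complex.I_im, mul_zero, mul_one,
      zero_sub, neg_div, neg_smul, sum_neg_distrib]
    ring
  · refine der_ser hs h hS (fun N => Scale.cong (hC N) ?_) i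
    simp only [T, pow_succ, Complex.mul_im, Complex.I_re, Complex.I_im, mul_zero, mul_one,
      add_zero]

namespace Kep
variable {A : Type} [CommRing A] [Algebra ℝ A] (M : Mdl A)

/-- `C, S` are the cosine and the sine of `f` -/
def IsT (f C S : A) : Prop :=
  ∀ y z, M.ev y z C = Real.cos (M.ev y z f) ∧ M.ev y z S = Real.sin (M.ev y z f)

variable {M}

theorem IsT.spec {s c : ℝ} {f C S : A} (H : IsT M f C S) (hs : 0 < s) (h : M.S.Bd s f c)
    (hc : c ≤ 1) : M.S.Bd s (C - 1) (c ^ 2) ∧ M.S.Bd s (S - f) (c ^ 2) ∧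
      ∀ i, M.S.D i C = -(S * M.S.D i f) ∧ M.S.D i S = C * M.S.D i f := by
  obtain ⟨C', S', h1, h2, h3⟩ := trig A M s c f hs h hc
  rw [M.ext' (f := C) (g := C') fun y z => by rw [(H y z).1, h1],
    M.ext' (f := S) (g := S') fun y z => by rw [(H y z).2, h2]]
  exact h3

theorem IsT.sq {f C S : A} (H : IsT M f C S) : C * C + S * S = 1 := M.ext' fun y z => by
  rw [map_add, map_mul, map_mul, (H y z).1, (H y z).2, map_one]
  linarith [Real.cos_sq_add_sin_sq (M.ev y z f)]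

theorem IsT.add {v v' C S C' S' c s : A} (H : IsT M v C S) (H' : IsT M v' C' S')
    (h : IsT M (v' - v) c s) : C' = C * c - S * s ∧ S' = S * c + C * s := by
  refine ⟨M.ext' fun y z => ?_, M.ext' fun y z => ?_⟩
  · rw [map_sub, map_mul, map_mul, (H y z).1, (H y z).2, (h y z).1, (h y z).2, (H' y z).1,
      ← Real.cos_add, map_sub, add_sub_cancel]
  · rw [map_add, map_mul, map_mul, (H y z).1, (H y z).2, (h y z).1, (h y z).2, (H' y z).2,
      ← Real.sin_add, map_sub, add_sub_cancel]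

theorem IsT.bd {c : ℝ} {f C S : A} (H : IsT M f C S) (h : M.S.Bd 1 f c) (hc : c ≤ 1) :
    M.S.Bd 1 (C - 1) c ∧ M.S.Bd 1 C 2 ∧ M.S.Bd 1 S (2 * c) := by
  obtain ⟨h1, h2, -⟩ := H.spec one_pos h hc
  have c0 := M.S.nonneg h
  have : c ^ 2 ≤ c := by nlinarith
  exact ⟨Scale.le h1 this, Scale.le (Scale.of_sub_one h1) (by linarith),
    Scale.le (Scale.cong (M.S.add h2 h) (by ring)) (by linarith)⟩

variable (M) in
theorem exT : ∃ Cf Sf : A → A, ∀ v c, M.S.Bd 1 v c → c ≤ 1 → IsT M v (Cf v) (Sf v) := by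
  have : ∀ v : A, ∃ C S : A, M.S.Bd 1 v 1 → IsT M v C S := fun v => by
    by_cases h : M.S.Bd 1 v 1
    · obtain ⟨C, S, h1, h2, -⟩ := trig A M 1 1 v one_pos h le_rfl
      exact ⟨C, S, fun _ y z => ⟨h1 y z, h2 y z⟩⟩
    · exact ⟨0, 0, fun h' => absurd h' h⟩
  choose Cf Sf h using this
  exact ⟨Cf, Sf, fun v c hv hc => h v (Scale.le hv hc)⟩

theorem IsT.lip {κ : ℝ} {v v' C S C' S' : A} (H : IsT M v C S) (H' : IsT M v' C' S')
    (hv : M.S.Bd 1 v 1) (h : M.S.Bd 1 (v' - v) κ) (hκ : κ ≤ 1) :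
    M.S.Bd 1 (C' - C) (6 * κ) ∧ M.S.Bd 1 (S' - S) (6 * κ) := by
  obtain ⟨Cf, Sf, hT⟩ := exT M
  obtain ⟨e1, e2⟩ := H.add H' (hT _ _ h hκ)
  obtain ⟨a1, -, a2⟩ := (hT _ _ h hκ).bd h hκ
  obtain ⟨-, b1, b2⟩ := H.bd hv le_rfl
  exact ⟨Scale.le (Scale.cong (Scale.sub (M.S.mul b1 a1) (M.S.mul b2 a2)) (by rw [e1]; ring))
      (le_of_eq (by ring)),
    Scale.le (Scale.cong (M.S.add (M.S.mul b2 a1) (M.S.mul b1 a2)) (by rw [e2]; ring))
      (le_of_eq (by ring))⟩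

theorem fix_zero {x ε : ℝ} (hε : |ε| ≤ 1 / 2) (h : |x| = |ε| * (|Real.cos x| * |Real.sin x|)) :
    Real.sin x = 0 := by
  have h1 := Real.abs_cos_le_one x
  have h2 : |Real.sin x| ≤ |x| := Real.abs_sin_le_abs
  have h3 := abs_nonneg (Real.sin x)
  have h4 : |Real.cos x| * |Real.sin x| ≤ |x| := by nlinarith
  have h5 := mul_le_mul hε h4 (by positivity) (by norm_num)
  exact abs_nonpos_iff.1 (by linarith)

end Kep

open Kep in
theorem kep : KepStmt := by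
  intro A _ _ M
  refine ⟨12, 1 / 2000, by norm_num, by norm_num, fun e he => ?_⟩
  obtain ⟨Cf, Sf, hT⟩ := exT M
  have bc := M.co_bd 1
  have bs := M.si_bd 1
  set ch : A → A := fun v => M.co 1 * Cf v - M.si 1 * Sf v with hch
  set sh : A → A := fun v => M.si 1 * Cf v + M.co 1 * Sf v with hsh
  have hb : ∀ v, M.S.Bd 1 v 1 → M.S.Bd 1 (ch v) 12 ∧ M.S.Bd 1 (sh v) 12 := fun v hv => by
    obtain ⟨-, b1, b2⟩ := (hT v 1 hv le_rfl).bd hv le_rfl
    exact ⟨Scale.le (Scale.sub (M.S.mul bc b1) (M.S.mul bs b2)) (by norm_num),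
      Scale.le (M.S.add (M.S.mul bs b1) (M.S.mul bc b2)) (by norm_num)⟩
  have h0 := hb 0 (M.S.zero' 1 zero_le_one)
  obtain ⟨v, hv, hfix⟩ := fix (S := M.S) (Φ := fun v => e * (ch v * sh v)) (ρ := 1)
    (M.S.mul he (M.S.mul h0.1 h0.2)) (by norm_num) fun v v' κ hv hv' h hκ => by
      obtain ⟨l1, l2⟩ := (hT v 1 hv le_rfl).lip (hT v' 1 hv' le_rfl) hv h hκ
      have k0 := M.S.nonneg h
      have m1 : M.S.Bd 1 (ch v' - ch v) (36 * κ) := Scale.le (Scale.cong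
        (Scale.sub (M.S.mul bc l1) (M.S.mul bs l2)) (by simp only [hch]; ring))
        (le_of_eq (by ring))
      have m2 : M.S.Bd 1 (sh v' - sh v) (36 * κ) := Scale.le (Scale.cong
        (M.S.add (M.S.mul bs l1) (M.S.mul bc l2)) (by simp only [hsh]; ring))
        (le_of_eq (by ring))
      exact Scale.le (Scale.cong (M.S.mul he (M.S.add (M.S.mul m1 (hb v' hv').2)
        (M.S.mul (hb v hv).1 m2))) (by ring)) (by linarith)
  have H := hT v 1 hv le_rfl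
  obtain ⟨b1, b2⟩ := hb v hv
  obtain ⟨u, hu, bu⟩ := Scale.exists_inv (S := M.S) (f := 1 - e * (ch v * ch v - sh v * sh v))
    one_pos (Scale.le (Scale.cong (Scale.neg (M.S.mul he (Scale.sub (M.S.mul b1 b1)
      (M.S.mul b2 b2)))) (by ring)) (by norm_num : _ ≤ (1 / 2 : ℝ))) le_rfl
  have hD : ∀ i, M.S.D i (ch v) = -(sh v * ((if i = th 1 then 1 else 0) + M.S.D i v)) ∧
      M.S.D i (sh v) = ch v * ((if i = th 1 then 1 else 0) + M.S.D i v) := fun i => by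
    obtain ⟨d1, d2⟩ := (H.spec one_pos hv le_rfl).2.2 i
    simp only [hch, hsh, map_sub, map_add, Derivation.leibniz, smul_eq_mul, d1, d2, M.Dco, M.Dsi]
    split_ifs <;> constructor <;> ring
  have hE : ∀ i, (if i = th 1 then 1 else 0) + M.S.D i v =
      u * ((if i = th 1 then 1 else 0) + ch v * sh v * M.S.D i e) := fun i => by
    have d := congrArg (M.S.D i) hfix
    simp only [Derivation.leibniz, smul_eq_mul, (hD i).1, (hD i).2] at d
    linear_combination (-u) * d - ((if i = th 1 then 1 else 0) + M.S.D i v) * hu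
  have hx : ∀ y z, |M.ev y z v| = |M.ev y z e| * (|M.ev y z (ch v)| * |M.ev y z (sh v)|) :=
    fun y z => by
      have := congrArg (M.ev y z) hfix
      simp only [map_mul] at this
      rw [← abs_mul, ← abs_mul, this]
  have hε : ∀ y z, |M.ev y z e| ≤ 1 / 2 := fun y z => (M.abs_le he y z).trans (by norm_num)
  refine ⟨ch v, sh v, u, b1, b2, Scale.le (Scale.of_sub_one bu) (by norm_num), ?_,
    by rw [mul_comm]; exact hu, fun i => by rw [(hD i).1, hE], fun i => by rw [(hD i).2, hE],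
    fun y θ hθ => ?_, fun y θ hθ => ?_⟩
  · simp only [hch, hsh]
    linear_combination (M.co 1 * M.co 1 + M.si 1 * M.si 1) * H.sq + M.cs 1
  · have e1 : M.ev y (M.pt θ) (ch v) = Real.cos (M.ev y (M.pt θ) v) := by
      simp [hch, M.co_ev, M.si_ev, hθ, (H y _).1]
    have e2 : M.ev y (M.pt θ) (sh v) = Real.sin (M.ev y (M.pt θ) v) := by
      simp [hsh, M.co_ev, M.si_ev, hθ, (H y _).2]
    rw [e2]
    exact fix_zero (hε y _) (by rw [hx, e1, e2])
  · have e1 : M.ev y (M.pt θ) (ch v) = -Real.sin (M.ev y (M.pt θ) v) := by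
      simp [hch, M.co_ev, M.si_ev, hθ, (H y _).2]
    have e2 : M.ev y (M.pt θ) (sh v) = Real.cos (M.ev y (M.pt θ) v) := by
      simp [hsh, M.co_ev, M.si_ev, hθ, (H y _).1]
    rw [e1, fix_zero (hε y _) (by rw [hx, e1, e2, abs_neg, mul_comm |Real.sin _|]), neg_zero]

open Kep in
theorem arg : ArgStmt := by
  intro A _ _ M
  refine ⟨1 / 15, by norm_num, fun X1 X2 h1 h2 hX => ?_⟩
  obtain ⟨Cf, Sf, hT⟩ := exT M
  have z0 := M.S.zero' 1 (le_refl (0 : ℝ))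
  have h0 := ((hT 0 0 z0 zero_le_one).spec one_pos z0 zero_le_one).2.1
  obtain ⟨a, ha, hfix⟩ := fix (S := M.S) (Φ := fun v => v + X2 - Sf v) (ρ := 1 / 5)
    (Scale.cong (Scale.sub h2 h0) (by ring)) (by norm_num) fun v v' κ hv hv' h hκ => by
      have k0 := M.S.nonneg h
      have k1 : κ ≤ 1 := by linarith
      have H := hT v _ hv (by norm_num)
      have G := hT _ _ h k1
      obtain ⟨-, e2⟩ := H.add (hT v' _ hv' (by norm_num)) G
      obtain ⟨a1, a2, -⟩ := G.spec one_pos h k1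
      have a3 := (G.bd h k1).2.2
      have b1 := (H.spec one_pos hv (by norm_num)).1
      have b2 := (H.bd hv (by norm_num)).2.2
      exact Scale.le (Scale.cong (Scale.neg (M.S.add (M.S.add a2 (M.S.mul b2 a1))
        (M.S.mul b1 a3))) (by simp only [e2]; ring)) (by nlinarith)
  have H := hT a _ ha (by norm_num)
  have e2 : Sf a = X2 := by linear_combination -hfix
  obtain ⟨b1, -, hD⟩ := H.spec one_pos ha (by norm_num)
  have p1 : M.S.Pos (Cf a) := ⟨1, one_pos, Scale.le b1 (by norm_num)⟩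
  have p2 : M.S.Pos X1 := ⟨1, one_pos, Scale.le h1 (by norm_num)⟩
  have hs := H.sq
  have e1 : Cf a = X1 := sub_eq_zero.1 ((p1.isUnit_add p2).mul_right_eq_zero.1 (by
    rw [e2] at hs; linear_combination hs - hX))
  refine ⟨a, fun i => ?_⟩
  rw [← e1, ← e2, (hD i).1, (hD i).2]
  linear_combination (-M.S.D i a) * hs

end Pool.Agent.MP_1ba41f_an.K4

end
end MrgPart2

-- marker of a merged file
example : 731051 + 102511 = 731051 + 102511 := rfl
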