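import Mathlib.RingTheory.TotallySplit
import Mathlib.RingTheory.Etale.Weakly
import Mathlib.Topology.UniformSpace.Uniformizable
import Pool.Agent.MP_1ba41f_an.K4.Nf
import Mathlib.Analysis.Complex.ExponentialBounds

-- ======== part 0: formerly Pool.Agent.MP_1ba41f_an.K4.Mod1
section MrgPart0

/-! PROJECT LUNAR, module MOD (first file): Fourier-Taylor series with coefficients that are
continuous in all parameters and Lipschitz in the adjustable ones. -/

noncomputable section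
open Finset Complex

namespace Pool.Agent.MP_1ba41f_an.K4
open K3

namespace Mod

/-! ### Coefficients -/

/-- the sum of the uniform norm and of the Lipschitz constant is at most `b` -/
structure Cb (a : YY → ℂ) (b : ℝ) : Prop where
  cont : Continuous a
  le : ∀ y, ‖a y‖ ≤ b
  lip : ∀ y1 y p p', ‖a y1‖ * dist p p' + ‖a (y, p) - a (y, p')‖ ≤ b * dist p p'

/-- a base point of the parameter space -/
def y0 : YY := (⟨0, le_rfl, zero_le_one⟩, ⟨0, Metric.mem_closedBall_self zero_le_one⟩)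

namespace Cb
variable {a a' : YY → ℂ} {b b' : ℝ}

theorem nonneg (h : Cb a b) : 0 ≤ b := (norm_nonneg _).trans (h.le y0)

theorem lip' (h : Cb a b) (y p p') : ‖a (y, p) - a (y, p')‖ ≤ b * dist p p' :=
  le_trans (le_add_of_nonneg_left (mul_nonneg (norm_nonneg _) dist_nonneg)) (h.lip y0 y p p')

theorem const (z : ℂ) : Cb (fun _ => z) ‖z‖ :=
  ⟨continuous_const, fun _ => le_rfl, fun _ _ _ _ => by simp⟩

theorem mul (h : Cb a b) (h' : Cb a' b') : Cb (fun y => a y * a' y) (b * b') := by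
  refine ⟨h.cont.mul h'.cont, fun y => ?_, fun y1 y p p' => ?_⟩
  · rw [norm_mul]; exact mul_le_mul (h.le y) (h'.le y) (norm_nonneg _) h.nonneg
  obtain ⟨u, hu1, hu2⟩ : ∃ u, ‖a y1‖ ≤ ‖a u‖ ∧ ‖a (y, p)‖ ≤ ‖a u‖ := by
    rcases le_total ‖a y1‖ ‖a (y, p)‖ with e | e
    exacts [⟨(y, p), e, le_rfl⟩, ⟨y1, le_rfl, e⟩]
  obtain ⟨v, hv1, hv2⟩ : ∃ v, ‖a' y1‖ ≤ ‖a' v‖ ∧ ‖a' (y, p')‖ ≤ ‖a' v‖ := by
    rcases le_total ‖a' y1‖ ‖a' (y, p')‖ with e | e
    exacts [⟨(y, p'), e, le_rfl⟩, ⟨y1, le_rfl, e⟩]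
  have e : a (y, p) * a' (y, p) - a (y, p') * a' (y, p') =
      a (y, p) * (a' (y, p) - a' (y, p')) + (a (y, p) - a (y, p')) * a' (y, p') := by ring
  have n1 := norm_add_le (a (y, p) * (a' (y, p) - a' (y, p'))) ((a (y, p) - a (y, p')) * a' (y, p'))
  rw [← e, norm_mul, norm_mul] at n1
  have d0 : (0 : ℝ) ≤ dist p p' := dist_nonneg
  have q1 := mul_le_mul_of_nonneg_left (h'.lip v y p p') (norm_nonneg (a u))
  have q2 := mul_le_mul_of_nonneg_left (h.lip u y p p') h'.nonneg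
  have q3 := mul_le_mul_of_nonneg_right (mul_le_mul hu1 hv1 (norm_nonneg _) (norm_nonneg _)) d0
  have q4 := mul_le_mul_of_nonneg_right hu2 (norm_nonneg (a' (y, p) - a' (y, p')))
  have q5 := mul_le_mul_of_nonneg_left (hv2.trans (h'.le v)) (norm_nonneg (a (y, p) - a (y, p')))
  rw [norm_mul]
  linarith

theorem mono (h : Cb a b) (e : b ≤ b') : Cb a b' :=
  ⟨h.cont, fun y => (h.le y).trans e, fun y1 y p p' =>
    (h.lip y1 y p p').trans (mul_le_mul_of_nonneg_right e dist_nonneg)⟩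

theorem cmul (n : ℂ) (h : Cb a b) : Cb (fun y => n * a y) (‖n‖ * b) := (const n).mul h

theorem conj (h : Cb a b) : Cb (fun y => (starRingEnd ℂ) (a y)) b :=
  ⟨continuous_conj.comp h.cont, fun y => by simpa using h.le y, fun y1 y p p' => by
    rw [← map_sub]; simpa only [RCLike.norm_conj] using h.lip y1 y p p'⟩

theorem tsum {I : Type} {a : I → YY → ℂ} {b : I → ℝ} (h : ∀ i, Cb (a i) (b i)) (hb : Summable b) :
    Cb (fun y => ∑' i, a i y) (∑' i, b i) := by
  have s1 : ∀ y, Summable fun i => ‖a i y‖ := fun y =>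
    .of_nonneg_of_le (fun _ => norm_nonneg _) (fun i => (h i).le y) hb
  refine ⟨continuous_tsum (fun i => (h i).cont) hb fun i y => (h i).le y, fun y =>
    (norm_tsum_le_tsum_norm (s1 y)).trans ((s1 y).tsum_le_tsum (fun i => (h i).le y) hb),
    fun y1 y p p' => ?_⟩
  have s2 : Summable fun i => ‖a i (y, p) - a i (y, p')‖ :=
    .of_nonneg_of_le (fun _ => norm_nonneg _) (fun i => (h i).lip' y p p') (hb.mul_right _)
  have s3 := (s1 y1).mul_right (dist p p')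
  have q := (s3.add s2).tsum_le_tsum (fun i => (h i).lip y1 y p p') (hb.mul_right _)
  rw [s3.tsum_add s2, tsum_mul_right, tsum_mul_right] at q
  rw [← (s1 _).of_norm.tsum_sub (s1 _).of_norm]
  exact le_trans (add_le_add (mul_le_mul_of_nonneg_right (norm_tsum_le_tsum_norm (s1 y1))
    dist_nonneg) (norm_tsum_le_tsum_norm s2)) q

end Cb

/-! ### Monomials -/

/-- the domain: all angles, actions in the open unit cube -/
def Dom : Set (V6 → ℝ) := {z | ∀ j, |z (ac j)| < 1}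

/-- Fourier and Taylor indices -/
abbrev Ix : Type := (Fin 3 → ℤ) × (Fin 3 → ℕ)

def wt (κ : Ix) : ℝ := sz κ.1 + ∑ j, (κ.2 j : ℝ)
def W (s : ℝ) (κ : Ix) : ℝ := Real.exp (max s 0 * wt κ)
def mon (κ : Ix) (z : V6 → ℝ) : ℂ := ph κ.1 (fun j => z (th j)) * ∏ j, (z (ac j) : ℂ) ^ κ.2 j

theorem isOpen_Dom : IsOpen Dom := by
  have : Dom = ⋂ j, {z : V6 → ℝ | |z (ac j)| < 1} := by ext z; simp [Dom]
  rw [this]
  exact isOpen_iInter_of_finite fun j => isOpen_lt (by fun_prop) continuous_const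

theorem convex_Dom : Convex ℝ Dom := by
  intro z hz z' hz' a b ha hb hab j
  have := convex_Ioo (𝕜 := ℝ) (-1 : ℝ) 1 (abs_lt.1 (hz j)) (abs_lt.1 (hz' j)) ha hb hab
  exact abs_lt.2 this

theorem zero_mem : (0 : V6 → ℝ) ∈ Dom := fun j => by simp

theorem deg_nonneg (κ : Ix) : (0 : ℝ) ≤ ∑ j, (κ.2 j : ℝ) := sum_nonneg fun _ _ => Nat.cast_nonneg _
theorem wt_nonneg (κ : Ix) : 0 ≤ wt κ := add_nonneg (sz_nonneg _) (deg_nonneg κ)
theorem sz_le_wt (κ : Ix) : sz κ.1 ≤ wt κ := le_add_of_nonneg_right (deg_nonneg κ)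
theorem wt_zero : wt 0 = 0 := by simp [wt, sz]
theorem wt_add (κ κ' : Ix) : wt (κ + κ') ≤ wt κ + wt κ' := by
  have := sz_add κ.1 κ'.1
  simp only [wt, Prod.fst_add, Prod.snd_add, Pi.add_apply, Nat.cast_add, sum_add_distrib]
  linarith
theorem W_pos (s : ℝ) (κ : Ix) : 0 < W s κ := Real.exp_pos _
theorem one_le_W (s : ℝ) (κ : Ix) : 1 ≤ W s κ :=
  Real.one_le_exp (mul_nonneg (le_max_right _ _) (wt_nonneg κ))
theorem W_mono {s s' : ℝ} {κ κ' : Ix} (h : s' ≤ s) (h' : wt κ' ≤ wt κ) : W s' κ' ≤ W s κ :=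
  Real.exp_le_exp.2 (mul_le_mul (max_le_max h le_rfl) h' (wt_nonneg _) (le_max_right _ _))
theorem W_add (s : ℝ) (κ κ' : Ix) : W s (κ + κ') ≤ W s κ * W s κ' := by
  unfold W
  rw [← Real.exp_add, ← mul_add]
  exact Real.exp_le_exp.2 (mul_le_mul_of_nonneg_left (wt_add _ _) (le_max_right _ _))
theorem W_zero (s : ℝ) : W s 0 = 1 := by simp [W, wt_zero]
theorem W_sub {s d : ℝ} (h0 : 0 < d) (h1 : d < s) (κ : Ix) :
    W (s - d) κ * Real.exp (d * wt κ) = W s κ := by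
  unfold W
  rw [max_eq_left (by linarith), max_eq_left (by linarith), ← Real.exp_add]
  congr 1; ring
theorem wt_W {s d : ℝ} (h0 : 0 < d) (h1 : d < s) (κ : Ix) :
    wt κ * W (s - d) κ ≤ 1 / d * W s κ := by
  rw [← W_sub h0 h1 κ, one_div_mul_eq_div, le_div_iff₀ h0]
  have := Real.add_one_le_exp (d * wt κ)
  nlinarith [W_pos (s - d) κ]
theorem wt_sq_W {s d : ℝ} (h0 : 0 < d) (h1 : d < s) (κ : Ix) :
    wt κ ^ 2 * W (s - d) κ ≤ 1 / d ^ 2 * W s κ := by
  rw [← W_sub h0 h1 κ, one_div_mul_eq_div, le_div_iff₀ (by positivity)]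
  have h2 : 0 ≤ d * wt κ := mul_nonneg h0.le (wt_nonneg κ)
  have h3 : (d * wt κ) ^ 2 ≤ Real.exp (d * wt κ) := by
    have h4 := Real.sum_le_exp_of_nonneg h2 4
    simp only [sum_range_succ, sum_range_zero, Nat.factorial] at h4
    generalize d * wt κ = v at h2 h4
    norm_num at h4
    nlinarith [sq_nonneg (v - 2), mul_nonneg h2 (sq_nonneg (v - 2)), sq_nonneg (v - 3)]
  nlinarith [W_pos (s - d) κ]

theorem mon_zero (z : V6 → ℝ) : mon 0 z = 1 := by simp [mon, ph]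
theorem mon_add (κ κ' : Ix) (z : V6 → ℝ) : mon (κ + κ') z = mon κ z * mon κ' z := by
  simp only [mon, Prod.fst_add, Prod.snd_add, Pi.add_apply, pow_add, prod_mul_distrib, ph_add]
  ring
theorem norm_mon (κ : Ix) {z : V6 → ℝ} (hz : z ∈ Dom) : ‖mon κ z‖ ≤ 1 := by
  rw [mon, norm_mul, norm_ph, one_mul, norm_prod]
  refine prod_le_one (fun _ _ => norm_nonneg _) fun j _ => ?_
  rw [norm_pow, norm_real]
  exact pow_le_one₀ (norm_nonneg _) (hz j).le
theorem conj_mon (κ : Ix) (z : V6 → ℝ) : (starRingEnd ℂ) (mon κ z) = mon (-κ.1, κ.2) z := by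
  simp [mon, conj_ph]
theorem continuous_mon (κ : Ix) : Continuous (mon κ) := by
  unfold mon
  exact ((continuous_ph _).comp (by fun_prop)).mul (by fun_prop)

/-- multiplier of the coordinate derivative -/
def dn : V6 → Ix → ℂ
  | .inl j, κ => I * (κ.1 j : ℂ)
  | .inr j, κ => (κ.2 j : ℂ)
/-- index shift of the coordinate derivative -/
def dk : V6 → Ix → Ix
  | .inl _, κ => κ
  | .inr j, κ => (κ.1, κ.2 - Pi.single j 1)

theorem sum_dn (κ : Ix) : ∑ i, ‖dn i κ‖ = wt κ := by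
  simp [Fintype.sum_sum_type, dn, wt, sz]
theorem norm_dn (i : V6) (κ : Ix) : ‖dn i κ‖ ≤ wt κ :=
  sum_dn κ ▸ single_le_sum (f := fun i => ‖dn i κ‖) (fun _ _ => norm_nonneg _) (mem_univ i)
theorem wt_dk (i : V6) (κ : Ix) : wt (dk i κ) ≤ wt κ := by
  rcases i with j | j
  · exact le_rfl
  · exact add_le_add le_rfl (sum_le_sum fun i _ => Nat.cast_le.2 (Nat.sub_le _ _))
theorem dk_comm (i j : V6) (κ : Ix) : dk i (dk j κ) = dk j (dk i κ) := by
  rcases i with i | i <;> rcases j with j | j <;> simp only [dk]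
  exact congrArg _ (funext fun l => Nat.sub_right_comm _ _ _)
theorem dn_comm (i j : V6) (κ : Ix) : dn i (dk j κ) * dn j κ = dn j (dk i κ) * dn i κ := by
  rcases i with i | i <;> rcases j with j | j <;> simp only [dk, dn, mul_comm]
  by_cases e : i = j
  · rw [e]
  · simp [e, Ne.symm e, mul_comm]

theorem grad_mul {f g : (V6 → ℝ) → ℂ} {u v : V6 → ℂ} {z : V6 → ℝ} (h : HasFDerivAt f (grad u) z)
    (h' : HasFDerivAt g (grad v) z) :
    HasFDerivAt (fun z => f z * g z) (grad fun i => f z * v i + g z * u i) z :=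
  (h.fun_mul h').congr_fderiv (ContinuousLinearMap.ext fun w => by
    simp only [add_apply, smul_apply, grad_apply,
      smul_eq_mul, real_smul, mul_sum, ← sum_add_distrib]
    exact sum_congr rfl fun i _ => by ring)

theorem der_mon (κ : Ix) (a : ℂ) (z : V6 → ℝ) :
    HasFDerivAt (fun z => a * mon κ z) (grad fun i => dn i κ * a * mon (dk i κ) z) z := by
  have e : ∀ z : V6 → ℝ, ph κ.1 (fun j => z (th j)) = ph (Sum.elim κ.1 0 : V6 → ℤ) z := fun z => by
    simp [ph, Fintype.sum_sum_type]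
  have h1 := hasFDerivAt_ph (Sum.elim κ.1 0 : V6 → ℤ) a z
  have h2 : ∀ j, HasFDerivAt (fun z : V6 → ℝ => (z (ac j) : ℂ) ^ κ.2 j)
      (grad (Pi.single (ac j) ((κ.2 j : ℂ) * (z (ac j) : ℂ) ^ (κ.2 j - 1)))) z := fun j =>
    hasFDerivAt_coord (f := fun t : ℝ => (t : ℂ) ^ κ.2 j) (ac j)
      (hasDerivAt_pow (κ.2 j) (z (ac j) : ℂ)).comp_ofReal
  have h3 := grad_mul h1 (grad_mul (grad_mul (h2 0) (h2 1)) (h2 2))
  simp only [mon, e, Fin.prod_univ_three]
  simp only [← mul_assoc a]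
  refine h3.congr_fderiv (congrArg grad (funext fun i => ?_))
  rcases i with j | j
  · simp [dn, dk, e]; ring
  · fin_cases j <;> simp [dn, dk, e] <;> ring

/-! ### Series -/

/-- a formal family of terms -/
structure Ser where
  I : Type
  κ : I → Ix
  a : I → YY → ℂ

namespace Ser

/-- the sum -/
def val (P : Ser) (y : YY) (z : V6 → ℝ) : ℂ := ∑' i, P.a i y * mon (P.κ i) z

/-- the weighted norm at level `s` is at most `c` -/
def Nm (P : Ser) (s c : ℝ) : Prop := ∃ b : P.I → ℝ, (∀ i, Cb (P.a i) (b i)) ∧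
  Summable (fun i => b i * W s (P.κ i)) ∧ ∑' i, b i * W s (P.κ i) ≤ c

/-- multipliers with a change of index -/
abbrev ml (P : Ser) (n : Ix → ℂ) (t : Ix → Ix) : Ser :=
  ⟨P.I, fun i => t (P.κ i), fun i y => n (P.κ i) * P.a i y⟩
abbrev atom (κ : Ix) (a : YY → ℂ) : Ser := ⟨Unit, fun _ => κ, fun _ => a⟩
abbrev add (P Q : Ser) : Ser := ⟨P.I ⊕ Q.I, Sum.elim P.κ Q.κ, Sum.elim P.a Q.a⟩
abbrev mul (P Q : Ser) : Ser :=
  ⟨P.I × Q.I, fun i => P.κ i.1 + Q.κ i.2, fun i y => P.a i.1 y * Q.a i.2 y⟩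
abbrev conj (P : Ser) : Ser :=
  ⟨P.I, fun i => (-(P.κ i).1, (P.κ i).2), fun i y => (starRingEnd ℂ) (P.a i y)⟩
abbrev sig (P : ℕ → Ser) : Ser := ⟨Σ n, (P n).I, fun i => (P i.1).κ i.2, fun i => (P i.1).a i.2⟩

variable {P Q : Ser} {s s' c c' : ℝ} {z : V6 → ℝ}

theorem val_ml (P : Ser) (n : Ix → ℂ) (t : Ix → Ix) (y z) :
    (P.ml n t).val y z = ∑' i, n (P.κ i) * P.a i y * mon (t (P.κ i)) z := rfl
theorem val_atom (κ : Ix) (a : YY → ℂ) (y z) : (atom κ a).val y z = a y * mon κ z :=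
  by simp [val]
theorem val_conj (P : Ser) (y z) : P.conj.val y z = (starRingEnd ℂ) (P.val y z) := by
  rw [val, val, Complex.conj_tsum]
  exact tsum_congr fun i => by rw [map_mul, conj_mon]
theorem val_cmul (P : Ser) (r : ℂ) (y z) : (P.ml (fun _ => r) id).val y z = r * P.val y z := by
  rw [val_ml, val, ← tsum_mul_left]
  exact tsum_congr fun i => mul_assoc _ _ _

theorem le_W {a : YY → ℂ} {b : ℝ} (h : Cb a b) (s : ℝ) (κ : Ix) : b ≤ b * W s κ :=
  le_mul_of_one_le_right h.nonneg (one_le_W _ _)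
theorem term_le {a : YY → ℂ} {b : ℝ} (h : Cb a b) (κ : Ix) (y : YY) (hz : z ∈ Dom) :
    ‖a y * mon κ z‖ ≤ b := by
  rw [norm_mul]
  exact (mul_le_of_le_one_right (norm_nonneg _) (norm_mon κ hz)).trans (h.le y)

namespace Nm

theorem nonneg (h : P.Nm s c) : 0 ≤ c :=
  let ⟨_, h1, _, h3⟩ := h
  (tsum_nonneg fun i => mul_nonneg (h1 i).nonneg (W_pos _ _).le).trans h3

theorem summable (h : P.Nm s c) (y : YY) (hz : z ∈ Dom) :
    Summable fun i => ‖P.a i y * mon (P.κ i) z‖ :=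
  let ⟨_, h1, h2, _⟩ := h
  .of_nonneg_of_le (fun _ => norm_nonneg _)
    (fun i => (term_le (h1 i) _ y hz).trans (le_W (h1 i) _ _)) h2

theorem hasSum (h : P.Nm s c) (y : YY) (hz : z ∈ Dom) :
    HasSum (fun i => P.a i y * mon (P.κ i) z) (P.val y z) := (h.summable y hz).of_norm.hasSum

theorem ml (h : P.Nm s c) (n : Ix → ℂ) (t : Ix → Ix) {M : ℝ} (hM : 0 ≤ M)
    (hn : ∀ κ, ‖n κ‖ * W s' (t κ) ≤ M * W s κ) : (P.ml n t).Nm s' (M * c) := by
  obtain ⟨b, h1, h2, h3⟩ := h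
  have hle : ∀ i, ‖n (P.κ i)‖ * b i * W s' (t (P.κ i)) ≤ M * (b i * W s (P.κ i)) := fun i => by
    have := mul_le_mul_of_nonneg_left (hn (P.κ i)) (h1 i).nonneg
    linarith
  have sm : Summable fun i => ‖n (P.κ i)‖ * b i * W s' (t (P.κ i)) :=
    .of_nonneg_of_le (fun i => mul_nonneg (mul_nonneg (norm_nonneg _) (h1 i).nonneg)
      (W_pos _ _).le) hle (h2.mul_left M)
  refine ⟨fun i => ‖n (P.κ i)‖ * b i, fun i => (h1 i).cmul _, sm,
    (sm.tsum_le_tsum hle (h2.mul_left M)).trans ?_⟩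
  rw [tsum_mul_left]
  exact mul_le_mul_of_nonneg_left h3 hM

theorem mono (h : P.Nm s c) (hs : s' ≤ s) (hc : c ≤ c') : P.Nm s' c' := by
  obtain ⟨b, h1, h2, h3⟩ := h
  have hle : ∀ i, b i * W s' (P.κ i) ≤ b i * W s (P.κ i) := fun i =>
    mul_le_mul_of_nonneg_left (W_mono hs le_rfl) (h1 i).nonneg
  have sm : Summable fun i => b i * W s' (P.κ i) :=
    .of_nonneg_of_le (fun i => mul_nonneg (h1 i).nonneg (W_pos _ _).le) hle h2
  exact ⟨b, h1, sm, ((sm.tsum_le_tsum hle h2).trans h3).trans hc⟩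

/-- multipliers of modulus at most one -/
theorem ml1 (h : P.Nm s c) (n : Ix → ℂ) (t : Ix → Ix) (hn : ∀ κ, ‖n κ‖ ≤ 1)
    (ht : ∀ κ, wt (t κ) ≤ wt κ) : (P.ml n t).Nm s c :=
  (h.ml n t zero_le_one fun κ =>
    mul_le_mul (hn κ) (W_mono le_rfl (ht κ)) (W_pos _ _).le zero_le_one).mono le_rfl
    (one_mul c).le

theorem cmul (h : P.Nm s c) (r : ℂ) : (P.ml (fun _ => r) id).Nm s (‖r‖ * c) :=
  h.ml _ _ (norm_nonneg r) fun _ => le_rfl

theorem atom (s : ℝ) (κ : Ix) {a : YY → ℂ} {b : ℝ} (h : Cb a b) : (atom κ a).Nm s (b * W s κ) :=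
  ⟨fun _ => b, fun _ => h, (hasSum_fintype _).summable, by simp⟩

theorem conj (h : P.Nm s c) : P.conj.Nm s c := by
  obtain ⟨b, h1, h2, h3⟩ := h
  have e : ∀ i, W s (P.conj.κ i) = W s (P.κ i) := fun i => by simp [W, wt, sz_neg]
  exact ⟨b, fun i => (h1 i).conj, by simpa only [e] using h2, by simpa only [e] using h3⟩

theorem add (h : P.Nm s c) (h' : Q.Nm s c') : (P.add Q).Nm s (c + c') := by
  obtain ⟨b, h1, h2, h3⟩ := h
  obtain ⟨b', h1', h2', h3'⟩ := h'
  have hs : HasSum (fun i : P.I ⊕ Q.I => Sum.elim b b' i * W s (Sum.elim P.κ Q.κ i)) (_ + _) :=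
    HasSum.sum h2.hasSum h2'.hasSum
  refine ⟨Sum.elim b b', ?_, hs.summable, hs.tsum_eq.le.trans (add_le_add h3 h3')⟩
  rintro (i | i)
  exacts [h1 i, h1' i]

theorem val_add (h : P.Nm s c) (h' : Q.Nm s' c') (y : YY) (hz : z ∈ Dom) :
    (P.add Q).val y z = P.val y z + Q.val y z :=
  HasSum.tsum_eq (f := fun i : P.I ⊕ Q.I => Sum.elim P.a Q.a i y * mon (Sum.elim P.κ Q.κ i) z)
    (HasSum.sum (h.hasSum y hz) (h'.hasSum y hz))

theorem mul (h : P.Nm s c) (h' : Q.Nm s c') : (P.mul Q).Nm s (c * c') := by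
  have c0 := h.nonneg
  obtain ⟨b, h1, h2, h3⟩ := h
  obtain ⟨b', h1', h2', h3'⟩ := h'
  have n1 : ∀ i, 0 ≤ b i * W s (P.κ i) := fun i => mul_nonneg (h1 i).nonneg (W_pos _ _).le
  have n2 : ∀ i, 0 ≤ b' i * W s (Q.κ i) := fun i => mul_nonneg (h1' i).nonneg (W_pos _ _).le
  have hp := Summable.mul_of_nonneg h2 h2' n1 n2
  have hle : ∀ i : P.I × Q.I, b i.1 * b' i.2 * W s (P.κ i.1 + Q.κ i.2) ≤
      b i.1 * W s (P.κ i.1) * (b' i.2 * W s (Q.κ i.2)) := fun i =>
    (mul_le_mul_of_nonneg_left (W_add _ _ _) (mul_nonneg (h1 _).nonneg (h1' _).nonneg)).trans_eq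
      (by ring)
  have sm : Summable fun i : P.I × Q.I => b i.1 * b' i.2 * W s (P.κ i.1 + Q.κ i.2) :=
    .of_nonneg_of_le (fun i => mul_nonneg (mul_nonneg (h1 _).nonneg (h1' _).nonneg)
      (W_pos _ _).le) hle hp
  refine ⟨fun i => b i.1 * b' i.2, fun i => (h1 _).mul (h1' _), sm,
    (sm.tsum_le_tsum hle hp).trans ?_⟩
  rw [← h2.tsum_mul_tsum h2' hp]
  exact mul_le_mul h3 h3' (tsum_nonneg n2) c0

theorem val_mul (h : P.Nm s c) (h' : Q.Nm s' c') (y : YY) (hz : z ∈ Dom) :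
    (P.mul Q).val y z = P.val y z * Q.val y z := by
  rw [val, val, val, tsum_mul_tsum_of_summable_norm (h.summable y hz) (h'.summable y hz)]
  exact tsum_congr fun i => by simp only [mon_add]; ring

theorem sig {P : ℕ → Ser} {c : ℕ → ℝ} {C : ℝ} (h : ∀ n, (P n).Nm s (c n)) (hc : HasSum c C) :
    (sig P).Nm s C ∧ ∀ y, ∀ z ∈ Dom, HasSum (fun n => (P n).val y z) ((sig P).val y z) := by
  have h0 := h
  choose b h1 h2 h3 using h
  have n0 : ∀ x : Σ n, (P n).I, 0 ≤ b x.1 x.2 * W s ((P x.1).κ x.2) := fun x =>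
    mul_nonneg (h1 _ _).nonneg (W_pos _ _).le
  have s1 : Summable fun n => ∑' i, b n i * W s ((P n).κ i) :=
    .of_nonneg_of_le (fun n => tsum_nonneg fun i => n0 ⟨n, i⟩) h3 hc.summable
  have s2 : Summable fun x : Σ n, (P n).I => b x.1 x.2 * W s ((P x.1).κ x.2) :=
    (summable_sigma_of_nonneg n0).2 ⟨h2, s1⟩
  have k : (Ser.sig P).Nm s C := ⟨fun x => b x.1 x.2, fun x => h1 _ _, s2,
    (s2.tsum_sigma' h2).le.trans ((s1.tsum_le_tsum h3 hc.summable).trans hc.tsum_eq.le)⟩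
  exact ⟨k, fun y z hz => (k.hasSum y hz).sigma fun n => (h0 n).hasSum y hz⟩

/-- evaluation at a point of the domain -/
theorem cb (h : P.Nm s c) (hz : z ∈ Dom) : Cb (fun y => P.val y z) c := by
  obtain ⟨b, h1, h2, h3⟩ := h
  refine (Cb.tsum (fun i => ?_) h2).mono h3
  exact ((h1 i).mul (Cb.const _)).mono
    (mul_le_mul_of_nonneg_left ((norm_mon _ hz).trans (one_le_W _ _)) (h1 i).nonneg)

theorem cont (h : P.Nm s c) {X : Type} [TopologicalSpace X] {u : X → YY} {v : X → V6 → ℝ}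
    (hu : Continuous u) (hv : Continuous v) (hd : ∀ x, v x ∈ Dom) :
    Continuous fun x => P.val (u x) (v x) := by
  obtain ⟨b, h1, h2, -⟩ := h
  exact continuous_tsum (fun i => ((h1 i).cont.comp hu).mul ((continuous_mon _).comp hv)) h2
    fun i x => (term_le (h1 i) _ _ (hd x)).trans (le_W (h1 i) _ _)

/-- Cauchy estimate -/
theorem der (h : P.Nm s c) {d : ℝ} (h0 : 0 < d) (h1 : d < s) (i : V6) :
    (P.ml (dn i) (dk i)).Nm (s - d) (c / d) :=
  (h.ml (dn i) (dk i) (M := 1 / d) (by positivity) fun κ =>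
    (mul_le_mul (norm_dn i κ) (W_mono le_rfl (wt_dk i κ)) (W_pos _ _).le (wt_nonneg κ)).trans
      (wt_W h0 h1 κ)).mono le_rfl (one_div_mul_eq_div _ _).le

/-- termwise derivative -/
theorem hasF (h : P.Nm s c) (hs : 0 < s) (y : YY) (hz : z ∈ Dom) :
    HasFDerivAt (P.val y) (grad fun i => (P.ml (dn i) (dk i)).val y z) z := by
  have hsm := fun j => (h.der (half_pos hs) (half_lt_self hs) j).hasSum y hz
  have h0 := (h.hasSum y hz).summable
  obtain ⟨b, h1, h2, -⟩ := h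
  have hu : Summable fun i => wt (P.κ i) * b i :=
    .of_nonneg_of_le (fun i => mul_nonneg (wt_nonneg _) (h1 i).nonneg) (fun i => by
      have q1 := mul_le_mul_of_nonneg_left (wt_W (half_pos hs) (half_lt_self hs) (P.κ i))
        (h1 i).nonneg
      have q2 := mul_le_mul_of_nonneg_left (one_le_W (s - s / 2) (P.κ i))
        (mul_nonneg (wt_nonneg (P.κ i)) (h1 i).nonneg)
      linarith) (h2.mul_left (1 / (s / 2)))
  have := hasFDerivAt_tsum_of_isPreconnected hu isOpen_Dom convex_Dom.isPreconnected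
    (fun i z _ => der_mon (P.κ i) (P.a i y) z)
    (fun i z hz => (norm_grad_le _).trans ((sum_le_sum fun j _ =>
      term_le ((h1 i).cmul (dn j (P.κ i))) (dk j (P.κ i)) y hz).trans
      (le_of_eq (by rw [← sum_mul, sum_dn])))) hz h0 hz
  exact this.congr_fderiv (hasSum_grad hsm).tsum_eq

end Nm

end Ser

end Mod

end Pool.Agent.MP_1ba41f_an.K4

end
end MrgPart0

-- ======== part 1: formerly Pool.Agent.MP_1ba41f_an.K4.Mod2
section MrgPart1

/-! PROJECT LUNAR, module MOD (second file): the algebra, its scale and the solvers. -/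

noncomputable section
open Finset Complex Filter Topology

namespace Pool.Agent.MP_1ba41f_an.K4
open K3

namespace Mod

/-- `F` is the real part of a series of norm at most `c` -/
def BdR (s : ℝ) (F : YY → Dom → ℝ) (c : ℝ) : Prop :=
  ∃ P : Ser, P.Nm s c ∧ ∀ y z, F y z = (P.val y z.1).re

namespace BdR
variable {s s' c c' : ℝ} {F G : YY → Dom → ℝ}

theorem nonneg (h : BdR s F c) : 0 ≤ c := let ⟨_, h, _⟩ := h; h.nonneg
theorem mono (h : BdR s F c) (hs : s' ≤ s) (hc : c ≤ c') : BdR s' F c' :=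
  let ⟨P, h, e⟩ := h; ⟨P, h.mono hs hc, e⟩
theorem cst (s : ℝ) {a : YY → ℂ} {b : ℝ} (h : Cb a b) : BdR s (fun y _ => (a y).re) b :=
  ⟨_, (Ser.Nm.atom s 0 h).mono le_rfl (by rw [W_zero, mul_one]), fun y z => by
    rw [Ser.val_atom, mon_zero, mul_one]⟩
theorem const (s r : ℝ) : BdR s (fun _ _ => r) |r| := by simpa using cst s (Cb.const (r : ℂ))
theorem add (h : BdR s F c) (h' : BdR s G c') : BdR s (F + G) (c + c') :=
  let ⟨_, h, e⟩ := h; let ⟨_, h', e'⟩ := h'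
  ⟨_, h.add h', fun y z => by rw [h.val_add h' y z.2, add_re, ← e, ← e']; rfl⟩
theorem smul (r : ℝ) (h : BdR s F c) : BdR s (r • F) (|r| * c) :=
  let ⟨_, h, e⟩ := h
  ⟨_, (h.cmul r).mono le_rfl (by simp), fun y z => by
    rw [Ser.val_cmul, re_ofReal_mul, ← e]; rfl⟩
theorem mul (h : BdR s F c) (h' : BdR s G c') : BdR s (F * G) (c * c') := by
  obtain ⟨P, h, e⟩ := h
  obtain ⟨Q, h', e'⟩ := h'
  have h2 := ((h.add h.conj).cmul (1 / 2)).mono (c' := c) le_rfl (le_of_eq (by simp; ring))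
  refine ⟨_, h2.mul h', fun y z => ?_⟩
  rw [h2.val_mul h' y z.2, Ser.val_cmul, h.val_add h.conj y z.2, Ser.val_conj, add_conj,
    show (1 / 2 : ℂ) * ((2 * (P.val y z.1).re : ℝ) : ℂ) = ((P.val y z.1).re : ℂ) by
      push_cast; ring, re_ofReal_mul, ← e, ← e']
  rfl
theorem abs_le (h : BdR s F c) (y z) : |F y z| ≤ c :=
  let ⟨_, h, e⟩ := h
  e y z ▸ (abs_re_le_norm _).trans ((h.cb z.2).le y)
theorem lip (h : BdR s F c) (y p p' z) : |F (y, p) z - F (y, p') z| ≤ c * dist p p' := by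
  obtain ⟨_, h, e⟩ := h
  rw [e, e, ← sub_re]
  exact (abs_re_le_norm _).trans ((h.cb z.2).lip' y p p')

end BdR

/-- the algebra -/
def Al : Subalgebra ℝ (YY → Dom → ℝ) where
  carrier := {F | ∃ s, 0 < s ∧ ∃ c, BdR s F c}
  add_mem' := by
    rintro F G ⟨s, hs, c, h⟩ ⟨s', hs', c', h'⟩
    exact ⟨min s s', lt_min hs hs', _,
      (h.mono (min_le_left _ _) le_rfl).add (h'.mono (min_le_right _ _) le_rfl)⟩
  mul_mem' := by
    rintro F G ⟨s, hs, c, h⟩ ⟨s', hs', c', h'⟩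
    exact ⟨min s s', lt_min hs hs', _,
      (h.mono (min_le_left _ _) le_rfl).mul (h'.mono (min_le_right _ _) le_rfl)⟩
  algebraMap_mem' := fun a => ⟨1, one_pos, _, BdR.const 1 a⟩

theorem extA {f g : Al} (h : ∀ y z, f.1 y z = g.1 y z) : f = g :=
  Subtype.ext (funext fun y => funext (h y))

/-- evaluation -/
def ev (y : YY) (z : Dom) : Al →ₐ[ℝ] ℝ where
  toFun f := f.1 y z
  map_one' := rfl
  map_mul' _ _ := rfl
  map_zero' := rfl
  map_add' _ _ := rfl
  commutes' _ := rfl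

/-! ### Derivatives -/

open Classical in
/-- extension by zero -/
def ex (F : Dom → ℝ) (z : V6 → ℝ) : ℝ := if h : z ∈ Dom then F ⟨z, h⟩ else 0

theorem ex_of (F : Dom → ℝ) {z : V6 → ℝ} (h : z ∈ Dom) : ex F z = F ⟨z, h⟩ := dif_pos h
theorem ex_val (F : Dom → ℝ) (z : Dom) : ex F z.1 = F z := dif_pos z.2

theorem hasF_ex {F : Dom → ℝ} {G : (V6 → ℝ) → ℝ} {L : (V6 → ℝ) →L[ℝ] ℝ} {z : V6 → ℝ}
    (hz : z ∈ Dom) (h : HasFDerivAt G L z) (e : ∀ z, F z = G z.1) : HasFDerivAt (ex F) L z :=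
  h.congr_of_eventuallyEq (mem_of_superset (isOpen_Dom.mem_nhds hz) fun _ hw =>
    (ex_of F hw).trans (e _))

/-- coordinate derivative -/
def pd (i : V6) (F : YY → Dom → ℝ) : YY → Dom → ℝ :=
  fun y z => fderiv ℝ (ex (F y)) z.1 (Pi.single i 1)

theorem pd_eq {F : YY → Dom → ℝ} {y : YY} {z : Dom} {G : (V6 → ℝ) → ℝ} {L : (V6 → ℝ) →L[ℝ] ℝ}
    (h : HasFDerivAt G L z.1) (e : ∀ z, F y z = G z.1) (i : V6) :
    pd i F y z = L (Pi.single i 1) := by rw [pd, (hasF_ex z.2 h e).fderiv]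

section
variable {P : Ser} {s c : ℝ} {F : YY → Dom → ℝ}

theorem hasF_re (h : P.Nm s c) (hs : 0 < s) (y : YY) (z : Dom) :
    HasFDerivAt (fun z => (P.val y z).re)
      (grad fun i => ((P.ml (dn i) (dk i)).val y z.1).re) z.1 :=
  (reCLM.hasFDerivAt.comp z.1 (h.hasF hs y z.2)).congr_fderiv
    (ContinuousLinearMap.ext fun v => by simp [grad_apply])

theorem pd_re (h : P.Nm s c) (hs : 0 < s) (e : ∀ y z, F y z = (P.val y z.1).re) (i y z) :
    pd i F y z = ((P.ml (dn i) (dk i)).val y z.1).re := by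
  rw [pd_eq (hasF_re h hs y z) (e y), grad_single]

theorem BdR.der (h : BdR s F c) {d : ℝ} (h0 : 0 < d) (h1 : d < s) (i : V6) :
    BdR (s - d) (pd i F) (c / d) :=
  let ⟨_, h, e⟩ := h; ⟨_, h.der h0 h1 i, pd_re h (h0.trans h1) e i⟩

end

theorem hasF (f : Al) (y : YY) (z : Dom) :
    HasFDerivAt (ex (f.1 y)) (grad fun i => pd i f.1 y z) z.1 := by
  obtain ⟨s, hs, c, P, h, e⟩ := f.2
  simp only [pd_re h hs e]
  exact hasF_ex z.2 (hasF_re h hs y z) (e y)

theorem pd_comm (f : Al) (i j : V6) (y z) : pd i (pd j f.1) y z = pd j (pd i f.1) y z := by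
  obtain ⟨s, hs, c, P, h, e⟩ := f.2
  have k := fun i j => pd_re (h.der (half_pos hs) (half_lt_self hs) j)
    (sub_pos.2 (half_lt_self hs)) (pd_re h hs e j) i y z
  rw [k, k]
  refine congrArg re (tsum_congr fun n => ?_)
  simp only [← mul_assoc, dn_comm i j, dk_comm i j]

/-- the coordinate derivative as a derivation -/
def DD (i : V6) : Derivation ℝ Al Al := Derivation.mk'
  { toFun := fun f => ⟨pd i f.1, by
      obtain ⟨s, hs, c, h⟩ := f.2
      exact ⟨_, sub_pos.2 (half_lt_self hs), _, h.der (half_pos hs) (half_lt_self hs) i⟩⟩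
    map_add' := fun f g => extA fun y z => by
      refine (pd_eq ((hasF f y z).fun_add (hasF g y z)) (fun z => ?_) i).trans ?_
      · rw [ex_val, ex_val]; rfl
      · rw [add_apply, grad_single, grad_single]; rfl
    map_smul' := fun r f => extA fun y z => by
      refine (pd_eq ((hasF f y z).const_mul r) (fun z => ?_) i).trans ?_
      · rw [ex_val]; rfl
      · rw [smul_apply, grad_single]; rfl }
  fun f g => extA fun y z => by
    refine (pd_eq ((hasF f y z).fun_mul (hasF g y z)) (fun z => ?_) i).trans ?_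
    · rw [ex_val, ex_val]; rfl
    · rw [add_apply, smul_apply, smul_apply, grad_single, grad_single, ex_val, ex_val]; rfl

theorem DD_val (i : V6) (f : Al) : (DD i f).1 = pd i f.1 := rfl

theorem pd_zero {i : V6} {f : Al} (h : DD i f = 0) (y z) : pd i f.1 y z = 0 :=
  congrArg (fun g : Al => g.1 y z) h

/-- a function does not depend on the coordinates with vanishing derivative -/
theorem seg (f : Al) (y : YY) (z z' : Dom) (h : ∀ i, z.1 i ≠ z'.1 i → DD i f = 0) :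
    f.1 y z' = f.1 y z := by
  have k : ∀ t ∈ Set.Icc (0 : ℝ) 1,
      HasDerivAt (fun t : ℝ => ex (f.1 y) (z.1 + t • (z'.1 - z.1))) 0 t := fun t ht => by
    refine (hasDerivAt_line (hasF f y ⟨_, convex_Dom.add_smul_sub_mem z.2 z'.2 ht⟩)).congr_deriv
      (sum_eq_zero fun i _ => ?_)
    by_cases e : z.1 i = z'.1 i
    · simp [e]
    · rw [pd_zero (h i e), smul_zero]
  have := constant_of_has_deriv_right_zero
    (fun t ht => (k t ht).continuousAt.continuousWithinAt)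
    (fun t ht => (k t (Set.Ico_subset_Icc_self ht)).hasDerivWithinAt) 1 ⟨zero_le_one, le_rfl⟩
  simpa [ex_val] using this

theorem pd_cst (a : YY → ℝ) (i y z) : pd i (fun y _ => a y) y z = 0 :=
  pd_eq (hasFDerivAt_const (a y) _) (fun _ => rfl) i

theorem pd_coord {φ φ' : ℝ → ℝ} (h : ∀ t, HasDerivAt φ (φ' t) t) (l i y z) :
    pd i (fun _ z => φ (z.1 l)) y z = if i = l then φ' (z.1 l) else 0 := by
  rw [pd_eq (hasFDerivAt_coord l (h _)) (fun _ => rfl) i, grad_single, Pi.single_apply]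

/-! ### Diagonal substitutions -/

/-- factor `σ` on the angles and `ρ` on the actions -/
def sc (σ : ℤ) (ρ : ℝ) : V6 → ℝ := Sum.elim (fun _ => σ) fun _ => ρ

section
variable {σ : ℤ} {ρ : ℝ}

def tr (σ : ℤ) (hρ : |ρ| ≤ 1) (z : Dom) : Dom := ⟨sc σ ρ * z.1, fun j => by
  rw [Pi.mul_apply, abs_mul]
  exact (mul_le_of_le_one_left (abs_nonneg _) hρ).trans_lt (z.2 j)⟩

theorem mon_sc (κ : Ix) (z : V6 → ℝ) :
    mon κ (sc σ ρ * z) = (ρ : ℂ) ^ (∑ j, κ.2 j) * mon (σ • κ.1, κ.2) z := by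
  have e : ph κ.1 (fun j => (sc σ ρ * z) (th j)) = ph (σ • κ.1) fun j => z (th j) := by
    unfold ph
    congr 3
    exact sum_congr rfl fun j _ => by simp [sc]; ring
  rw [mon, mon, e, ← prod_pow_eq_pow_sum]
  simp only [Pi.mul_apply, sc, Sum.elim_inr, ofReal_mul, mul_pow, prod_mul_distrib]
  ring

theorem BdR.tr {s c : ℝ} {F : YY → Dom → ℝ} (hσ : |(σ : ℝ)| ≤ 1) (hρ : |ρ| ≤ 1) (h : BdR s F c) :
    BdR s (fun y z => F y (tr σ hρ z)) c := by
  obtain ⟨P, h, e⟩ := h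
  refine ⟨_, h.ml1 (fun κ => (ρ : ℂ) ^ (∑ j, κ.2 j)) (fun κ => (σ • κ.1, κ.2)) (fun κ => ?_)
    (fun κ => add_le_add (sum_le_sum fun j _ => ?_) le_rfl), fun y z => ?_⟩
  · rw [norm_pow, norm_real]
    exact pow_le_one₀ (norm_nonneg _) hρ
  · change |((σ * κ.1 j : ℤ) : ℝ)| ≤ _
    rw [Int.cast_mul, abs_mul]
    exact mul_le_of_le_one_left (abs_nonneg _) hσ
  · refine (e _ _).trans (congrArg re (tsum_congr fun i => ?_))
    simp only [Mod.tr, mon_sc]
    ring

/-- the substitution as an algebra map -/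
def pc (hσ : |(σ : ℝ)| ≤ 1) (hρ : |ρ| ≤ 1) : Al →ₐ[ℝ] Al where
  toFun f := ⟨fun y z => f.1 y (tr σ hρ z), by
    obtain ⟨s, hs, c, h⟩ := f.2
    exact ⟨s, hs, c, h.tr hσ hρ⟩⟩
  map_one' := rfl
  map_mul' _ _ := rfl
  map_zero' := rfl
  map_add' _ _ := rfl
  commutes' _ := rfl

theorem DD_pc (hσ : |(σ : ℝ)| ≤ 1) (hρ : |ρ| ≤ 1) (i : V6) (f : Al) :
    DD i (pc hσ hρ f) = sc σ ρ i • pc hσ hρ (DD i f) := extA fun y z => by
  have h1 := (hasF f y (tr σ hρ z)).comp (f := fun w => sc σ ρ * w) z.1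
    (ContinuousLinearMap.mul ℝ (V6 → ℝ) (sc σ ρ)).hasFDerivAt
  refine (pd_eq h1 (fun w => (ex_val (f.1 y) (tr σ hρ w)).symm) i).trans ?_
  have e : sc σ ρ * Pi.single i 1 = sc σ ρ i • Pi.single i 1 := by
    funext l
    by_cases e : l = i <;> simp [e]
  rw [ContinuousLinearMap.comp_apply, ContinuousLinearMap.mul_apply', e, map_smul, grad_single]
  rfl

end

theorem hm1 : |((-1 : ℤ) : ℝ)| ≤ 1 := by simp
theorem hm2 : |(-1 : ℝ)| ≤ 1 := by simp
theorem hz1 : |((1 : ℤ) : ℝ)| ≤ 1 := by simp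
theorem hz2 : |(0 : ℝ)| ≤ 1 := by simp

/-- the scale -/
def SS : Scale Al V6 where
  Bd s f c := BdR s f.1 c
  D := DD
  r := pc hm1 hm2
  nonneg := BdR.nonneg
  mono := BdR.mono
  one s := (BdR.const s 1).mono le_rfl abs_one.le
  add := BdR.add
  mul := BdR.mul
  smul := BdR.smul
  der i h0 h1 h := h.der h0 h1 i
  refl := BdR.tr hm1 hm2
  rr f := extA fun y z => congrArg (f.1 y) (Subtype.ext (funext fun i => by
    rcases i with j | j <;> simp [tr, sc]))
  rD i f := by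
    rw [DD_pc]
    rcases i with j | j <;> simp [sc]
  comm i j f := extA (pd_comm f i j)
  complete {s c f} hs h := by
    have s0 : ∀ N, HasSum (fun n : ℕ => c / 2 ^ (n + N)) (2 * c / 2 ^ N) := fun N => by
      have e : (fun n : ℕ => c / 2 ^ (n + N)) = fun n => c / 2 ^ N * (1 / 2) ^ n := by
        funext n
        rw [pow_add, one_div, inv_pow]
        field_simp
      rw [e, show 2 * c / 2 ^ N = c / 2 ^ N * 2 by ring]
      exact hasSum_geometric_two.mul_left _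
    choose P hP e using h
    have key : ∀ N, BdR s (fun y z => ∑' n, (f (n + N)).1 y z) (2 * c / 2 ^ N) := fun N => by
      obtain ⟨k1, k2⟩ := Ser.Nm.sig (fun n => hP (n + N)) (s0 N)
      refine ⟨_, k1, fun y z => ?_⟩
      simp only [e]
      exact (hasSum_re (k2 y z.1 z.2)).tsum_eq
    refine ⟨⟨fun y z => ∑' n, (f n).1 y z, s, hs, _, key 0⟩, fun N => ?_⟩
    convert key N using 1
    funext y z
    have s1 : Summable fun n => (f n).1 y z :=
      .of_norm_bounded (s0 0).summable fun n => BdR.abs_le ⟨_, hP n, e n⟩ y z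
    simp [← s1.sum_add_tsum_nat_add N, Finset.sum_apply]
  sep {s c f} h := extA fun y z => abs_nonpos_iff.1 (by
    have h1 : Tendsto (fun n : ℕ => c / 2 ^ n) atTop (𝓝 0) :=
      Tendsto.const_div_atTop (tendsto_pow_atTop_atTop_of_one_lt one_lt_two) c
    exact ge_of_tendsto' h1 fun n => (h n).abs_le y z)
  cst_bd {s f c} s' h hb := by
    obtain ⟨P, hP, e⟩ := hb
    convert BdR.cst s' (hP.cb zero_mem) using 1
    funext y z
    exact (seg f y ⟨0, zero_mem⟩ z fun i _ => h i).trans (e _ _)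
  cst_r {f} h := extA fun y z => seg f y _ _ fun i _ => h i

/-! ### Solvers -/

/-- the element given by a series -/
def mk {P : Ser} {s c : ℝ} (hs : 0 < s) (h : P.Nm s c) : Al :=
  ⟨fun y z => (P.val y z.1).re, s, hs, c, P, h, fun _ _ => rfl⟩

/-- the divisor -/
def dv (ω : Fin 3 → ℝ) (κ : Ix) : ℂ := I * ((∑ j, (κ.1 j : ℝ) * ω j : ℝ) : ℂ)
open Classical in
/-- indicator of the resonant modes -/
def rs (ω : Fin 3 → ℝ) (κ : Ix) : ℂ := if dv ω κ = 0 then 1 else 0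

theorem norm_dv (ω : Fin 3 → ℝ) (κ : Ix) : ‖dv ω κ‖ = |∑ j, (κ.1 j : ℝ) * ω j| := by
  rw [dv, norm_mul, norm_I, one_mul, norm_real, Real.norm_eq_abs]
theorem norm_rs (ω : Fin 3 → ℝ) (κ : Ix) : ‖rs ω κ‖ ≤ 1 := by
  unfold rs; split_ifs <;> simp
theorem dv_inv (ω : Fin 3 → ℝ) (κ : Ix) : dv ω κ * (dv ω κ)⁻¹ = 1 - rs ω κ := by
  unfold rs
  split_ifs with h
  · simp [h]
  · rw [mul_inv_cancel₀ h, sub_zero]

theorem L3_val (ω : Fin 3 → ℝ) (f : Al) (y z) :
    (L3 SS ω f).1 y z = ∑ j, ω j * pd (th j) f.1 y z := by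
  change ev y z (L3 SS ω f) = _
  rw [L3_apply, map_sum]
  rfl

theorem L3_single (j : Fin 3) (f : Al) : L3 SS (Pi.single j 1) f = DD (th j) f := by
  rw [L3_apply, sum_eq_single j]
  · rw [Pi.single_eq_same, one_smul]; rfl
  · intro l _ hl; rw [Pi.single_eq_of_ne hl, zero_smul]
  · exact fun h => absurd (mem_univ j) h

section
variable {P : Ser} {s s' c c' : ℝ} {ω : Fin 3 → ℝ}

theorem L3_mk (hs : 0 < s) (h : P.Nm s c) (ω : Fin 3 → ℝ) (y z) :
    (L3 SS ω (mk hs h)).1 y z = ((P.ml (dv ω) id).val y z.1).re := by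
  have k0 : ∀ j, HasSum (fun i : P.I => (ω j : ℂ) * (dn (th j) (P.κ i) * P.a i y * mon (P.κ i) z.1))
      (ω j * (P.ml (dn (th j)) (dk (th j))).val y z.1) := fun j =>
    ((h.der (half_pos hs) (half_lt_self hs) (th j)).hasSum y z.2).mul_left (ω j : ℂ)
  have k := hasSum_sum (s := univ) fun j _ => k0 j
  have e : (P.ml (dv ω) id).val y z.1 = _ := (tsum_congr fun i => ?_).trans k.tsum_eq
  · rw [L3_val, e, re_sum]
    exact sum_congr rfl fun j _ => by
      rw [re_ofReal_mul, pd_re (F := (mk hs h).1) h hs fun _ _ => rfl]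
  simp only [dv, dn, id, ofReal_sum, ofReal_mul, ofReal_intCast, mul_sum, sum_mul]
  exact sum_congr rfl fun j _ => by ring

theorem nm_rs (h : P.Nm s c) (ω : Fin 3 → ℝ) : (P.ml (rs ω) id).Nm s c :=
  h.ml1 _ _ (norm_rs ω) fun _ => le_rfl

theorem L3_inv {f : Al} (hs : 0 < s) (h : P.Nm s c) (e : ∀ y z, f.1 y z = (P.val y z.1).re)
    (hs' : 0 < s') (h' : (P.ml (fun κ => (dv ω κ)⁻¹) id).Nm s' c') :
    L3 SS ω (mk hs' h') = f - mk hs (nm_rs h ω) := extA fun y z => by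
  have k := (h.hasSum y z.2).sub ((nm_rs h ω).hasSum y z.2)
  have e2 : ((P.ml (fun κ => (dv ω κ)⁻¹) id).ml (dv ω) id).val y z.1 = _ :=
    (tsum_congr fun i => ?_).trans k.tsum_eq
  · rw [L3_mk, e2, sub_re, ← e]; rfl
  simp only [id]
  linear_combination (P.a i y * mon (P.κ i) z.1) * dv_inv ω (P.κ i)

theorem D_rs (hs : 0 < s) (h : P.Nm s c) (j : Fin 3) (hj : ∀ κ, dv ω κ = 0 → κ.1 j = 0) :
    DD (th j) (mk hs (nm_rs h ω)) = 0 := extA fun y z => by
  refine (pd_re (nm_rs h ω) hs (fun _ _ => rfl) _ y z).trans ?_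
  have e : ((P.ml (rs ω) id).ml (dn (th j)) (dk (th j))).val y z.1 = 0 := by
    refine (tsum_congr fun i => ?_).trans tsum_zero
    by_cases h0 : dv ω (P.κ i) = 0
    · simp [dn, hj _ h0]
    · simp [rs, h0]
  rw [e]; rfl

end

theorem lin_zero {φ : ℝ → ℝ} {c B : ℝ} (h : ∀ t, HasDerivAt φ c t) (hB : ∀ t, |φ t| ≤ B) :
    c = 0 := by
  by_contra hc
  have h1 : ∀ t, HasDerivAt (fun t => φ t - c * t) 0 t := fun t =>
    ((h t).sub ((hasDerivAt_id t).const_mul c)).congr_deriv (by ring)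
  have h2 := is_const_of_deriv_eq_zero (fun t => (h1 t).differentiableAt)
    (fun t => (h1 t).deriv) ((2 * B + 1) / c) 0
  rw [mul_div_cancel₀ _ hc] at h2
  have a := abs_le.1 (hB ((2 * B + 1) / c))
  have b := abs_le.1 (hB 0)
  linarith [a.2, b.1]

theorem uniq (ω : Fin 3 → ℝ) {m g : Al} (hm : ∀ j, ω j ≠ 0 → DD (th j) m = 0)
    (hg : L3 SS ω g = m) : m = 0 := extA fun y z => by
  obtain ⟨_, -, B, hB⟩ := g.2
  have hd : ∀ t : ℝ, z.1 + t • (Sum.elim ω 0 : V6 → ℝ) ∈ Dom := fun t j => by simpa using z.2 j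
  refine lin_zero (φ := fun t : ℝ => ex (g.1 y) (z.1 + t • (Sum.elim ω 0 : V6 → ℝ))) (B := B)
    (fun t => (hasDerivAt_line (hasF g y ⟨_, hd t⟩)).congr_deriv ?_) fun t => ?_
  · rw [← seg m y z ⟨_, hd t⟩, ← hg, L3_val]
    · simp [Fintype.sum_sum_type]
    · rintro (j | j) hj
      · exact hm j fun e => hj (by simp [e])
      · exact absurd (by simp) hj
  · rw [ex_of _ (hd t)]
    exact hB.abs_le _ _

theorem avg (j : Fin 3) {s c : ℝ} {f : Al} (hs : 0 < s) (hf : BdR s f.1 c) :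
    ∃ g m g' : Al, DD (th j) g = f - m ∧ DD (th j) m = 0 ∧ DD (th j) g' = g ∧ BdR s g.1 c ∧
      BdR s m.1 c := by
  obtain ⟨P, h, e⟩ := hf
  have e1 : ∀ κ : Ix, ‖dv (Pi.single j 1) κ‖ = |(κ.1 j : ℝ)| := fun κ => by
    rw [norm_dv, sum_eq_single j] <;> simp +contextual
  have e2 : ∀ κ : Ix, ‖(dv (Pi.single j 1) κ)⁻¹‖ ≤ 1 := fun κ => by
    rw [norm_inv, e1]
    by_cases h0 : κ.1 j = 0
    · simp [h0]
    · exact inv_le_one_of_one_le₀ (by exact_mod_cast Int.one_le_abs h0)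
  have h1 := h.ml1 (fun κ => (dv (Pi.single j 1) κ)⁻¹) id e2 fun _ => le_rfl
  have h2 := h1.ml1 (fun κ => (dv (Pi.single j 1) κ)⁻¹) id e2 fun _ => le_rfl
  refine ⟨mk hs h1, mk hs (nm_rs h (Pi.single j 1)), mk hs h2, ?_, D_rs hs h j fun κ hκ => ?_, ?_,
    ⟨_, h1, fun _ _ => rfl⟩, ⟨_, nm_rs h _, fun _ _ => rfl⟩⟩
  · rw [← L3_single]; exact L3_inv hs h e hs h1
  · have := e1 κ
    rw [hκ, norm_zero, eq_comm, abs_eq_zero] at this
    exact_mod_cast this
  · rw [← L3_single]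
    refine extA fun y z => (L3_mk hs h2 _ y z).trans (congrArg re (tsum_congr fun i => ?_))
    simp only [id]
    by_cases h0 : dv (Pi.single j 1) (P.κ i) = 0
    · simp [h0]
    · rw [mul_inv_cancel_left₀ h0]

theorem solv (ω : Fin 3 → ℝ) (γ : ℝ) (hD : Dioph3 ω γ) : Solv3 SS ω γ := by
  have hγ := hD.1
  refine ⟨hγ, fun {s f c} hs hf => ?_, fun hm hg => uniq ω (fun j _ => hm j) hg⟩
  obtain ⟨P, h, e⟩ := hf
  have hp : ∀ κ : Ix, κ.1 ≠ 0 → 0 < ‖dv ω κ‖ := fun κ hκ =>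
    lt_of_le_of_ne (norm_nonneg _) fun e => by
      have := hD.2 κ.1 hκ
      rw [← norm_dv, ← e, zero_mul] at this
      exact this.not_gt hγ
  have h3 : ∀ d, 0 < d → d < s →
      (P.ml (fun κ => (dv ω κ)⁻¹) id).Nm (s - d) (c / (γ * d ^ 2)) := fun d hd hds =>
    (h.ml _ id (M := 1 / (γ * d ^ 2)) (by positivity) fun κ => by
      have a : ‖(dv ω κ)⁻¹‖ ≤ 1 / γ * wt κ ^ 2 := by
        rw [norm_inv]
        by_cases e : κ.1 = 0
        · rw [norm_dv, e]
          simpa using mul_nonneg (inv_nonneg.2 hγ.le) (sq_nonneg _)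
        · rw [inv_le_iff_one_le_mul₀ (hp κ e), one_div_mul_eq_div, div_mul_eq_mul_div,
            le_div_iff₀ hγ, one_mul, mul_comm]
          refine (hD.2 κ.1 e).trans ?_
          rw [← norm_dv]
          exact mul_le_mul_of_nonneg_left (pow_le_pow_left₀ (sz_nonneg _) (sz_le_wt κ) 2)
            (norm_nonneg _)
      have b := mul_le_mul_of_nonneg_left (wt_sq_W hd hds κ) (one_div_pos.2 hγ).le
      refine (mul_le_mul_of_nonneg_right a (W_pos _ _).le).trans ?_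
      rw [mul_assoc]
      refine b.trans (le_of_eq ?_)
      field_simp).mono le_rfl (one_div_mul_eq_div _ _).le
  have h4 := h3 (s / 2) (half_pos hs) (half_lt_self hs)
  refine ⟨mk (sub_pos.2 (half_lt_self hs)) h4, mk hs (nm_rs h ω), fun j => D_rs hs h j fun κ hκ => ?_,
    ⟨_, nm_rs h _, fun _ _ => rfl⟩, L3_inv hs h e _ h4, fun d hd hds =>
      ⟨_, h3 d hd hds, fun _ _ => rfl⟩⟩
  by_contra h0
  have := hp κ fun e => h0 (by rw [e]; rfl)
  rw [hκ, norm_zero] at this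
  exact lt_irrefl _ this

/-! ### Special elements -/

theorem W_le {κ : Ix} (h : wt κ = 1) : W 1 κ ≤ 3 := by
  rw [W, h, max_eq_left zero_le_one, mul_one]
  exact (Real.exp_one_lt_d9.trans (by norm_num)).le

theorem bd_atom {κ : Ix} (h : wt κ = 1) {a : ℂ} (ha : ‖a‖ = 1) {F : YY → Dom → ℝ}
    (e : ∀ y z, F y z = (a * mon κ z.1).re) : BdR 1 F 3 :=
  ⟨_, (Ser.Nm.atom 1 κ (Cb.const a)).mono le_rfl (by rw [ha, one_mul]; exact W_le h),
    fun y z => by rw [Ser.val_atom, e]⟩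

theorem bd_x (j : Fin 3) : BdR 1 (fun _ z => z.1 (ac j)) 3 :=
  bd_atom (κ := (0, Pi.single j 1)) (by fin_cases j <;> simp [wt, sz, Fin.sum_univ_three])
    norm_one fun _ z => by fin_cases j <;> simp [mon, ph, Fin.prod_univ_three]

theorem wt_th (j : Fin 3) : wt (Pi.single j 1, 0) = 1 := by
  fin_cases j <;> simp [wt, sz, Fin.sum_univ_three]
theorem mon_th (j : Fin 3) (z : V6 → ℝ) : mon (Pi.single j 1, 0) z = exp (z (th j) * I) := by
  fin_cases j <;> simp [mon, ph, Fin.sum_univ_three, mul_comm]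

theorem bd_co (j : Fin 3) : BdR 1 (fun _ z => Real.cos (z.1 (th j))) 3 :=
  bd_atom (wt_th j) norm_one fun _ z => by rw [mon_th, one_mul, exp_ofReal_mul_I_re]
theorem bd_si (j : Fin 3) : BdR 1 (fun _ z => Real.sin (z.1 (th j))) 3 :=
  bd_atom (wt_th j) (a := -I) (by simp) fun _ z => by
    rw [mon_th, ← exp_ofReal_mul_I_im]; simp

theorem bd_cY (s : ℝ) (φ : C(I01, ℝ)) : BdR s (fun y _ => φ y.1) ‖φ‖ :=
  BdR.cst s (a := fun y => (φ y.1 : ℂ)) ⟨by fun_prop, fun y => by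
    rw [norm_real]; exact φ.norm_coe_le_norm _, fun y1 y p p' => by
    rw [sub_self, norm_zero, add_zero, norm_real]
    exact mul_le_mul_of_nonneg_right (φ.norm_coe_le_norm _) dist_nonneg⟩

theorem bd_par (s : ℝ) (i : Fin 4) : BdR s (fun y _ => y.2.1 i) 2 := by
  have h : ∀ y : YY, ‖((y.2.1 i : ℝ) : ℂ)‖ ≤ 1 := fun y => by
    rw [norm_real]
    exact (norm_le_pi_norm _ i).trans (mem_closedBall_zero_iff.1 y.2.2)
  refine BdR.cst s (a := fun y => ((y.2.1 i : ℝ) : ℂ)) ⟨continuous_ofReal.comp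
    ((continuous_apply i).comp (continuous_subtype_val.comp continuous_snd)),
    fun y => (h y).trans one_le_two, fun y1 y p p' => ?_⟩
  have h1 := mul_le_mul_of_nonneg_right (h y1) (dist_nonneg (x := p) (y := p'))
  have h2 : ‖((p.1 i : ℝ) : ℂ) - ((p'.1 i : ℝ) : ℂ)‖ ≤ dist p p' := by
    rw [← ofReal_sub, norm_real, ← dist_eq_norm]
    exact dist_le_pi_dist p.1 p'.1 i
  linarith

def xx (j : Fin 3) : Al := ⟨fun _ z => z.1 (ac j), 1, one_pos, 3, bd_x j⟩
def co (j : Fin 3) : Al := ⟨fun _ z => Real.cos (z.1 (th j)), 1, one_pos, 3, bd_co j⟩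
def si (j : Fin 3) : Al := ⟨fun _ z => Real.sin (z.1 (th j)), 1, one_pos, 3, bd_si j⟩
def par (i : Fin 4) : Al := ⟨fun y _ => y.2.1 i, 1, one_pos, 2, bd_par 1 i⟩
def cY : C(I01, ℝ) →ₐ[ℝ] Al where
  toFun φ := ⟨fun y _ => φ y.1, 1, one_pos, _, bd_cY 1 φ⟩
  map_one' := rfl
  map_mul' _ _ := rfl
  map_zero' := rfl
  map_add' _ _ := rfl
  commutes' _ := rfl
/-- points of the zero section -/
def pt (θ : Fin 3 → ℝ) : Dom := ⟨Sum.elim θ 0, fun j => by simp⟩

theorem D_xx (i : V6) (j : Fin 3) : DD i (xx j) = if i = ac j then 1 else 0 := extA fun y z => by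
  refine (pd_coord (φ := id) hasDerivAt_id (ac j) i y z).trans ?_
  split_ifs <;> rfl

theorem ext : Ext SS xx (pc hz1 hz2) where
  Dx i j := (D_xx _ j).trans (by simp only [Sum.inr.injEq])
  Tx i j := (D_xx _ j).trans (if_neg Sum.inl_ne_inr)
  bx := bd_x
  zb := BdR.tr hz1 hz2
  zth i f := (DD_pc hz1 hz2 _ f).trans (by rw [show sc 1 0 (th i) = 1 by simp [sc], one_smul]; rfl)
  zac i f := (DD_pc hz1 hz2 _ f).trans (zero_smul ℝ _)
  zx j := extA fun y z => zero_mul (z.1 (ac j))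
  zid {f} h := extA fun y z => seg f y _ _ (by
    rintro (j | j) hj
    · exact absurd (by simp [tr, sc]) hj
    · exact h j)
  avg j _ _ _ hs hf := avg j hs hf
  auniq j _ _ hm hg := uniq (Pi.single j 1) (fun l hl => by
    rwa [show l = j from by_contra fun e => hl (Pi.single_eq_of_ne e _)])
    ((L3_single j _).trans hg)

theorem der_pt (f : Al) (y : YY) (θ : Fin 3 → ℝ) :
    HasFDerivAt (fun θ => f.1 y (pt θ)) (grad fun j => pd (th j) f.1 y (pt θ)) θ := by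
  have e : ∀ θ : Fin 3 → ℝ,
      grad (fun j => (Pi.single (th j) 1 : V6 → ℝ)) θ = Sum.elim θ 0 := fun θ => by
    rw [grad_apply]
    funext i
    rcases i with j | j <;> simp [Finset.sum_apply, Pi.single_apply]
  have h0 : HasFDerivAt (fun θ : Fin 3 → ℝ => (pt θ).1)
      (grad fun j => (Pi.single (th j) 1 : V6 → ℝ)) θ := by
    simp only [pt, ← e]
    exact ContinuousLinearMap.hasFDerivAt _
  have h1 := (hasF f y (pt θ)).comp (f := fun θ : Fin 3 → ℝ => (pt θ).1) θ h0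
  simp only [Function.comp_def, ex_val] at h1
  refine h1.congr_fderiv (ContinuousLinearMap.ext fun v => ?_)
  rw [ContinuousLinearMap.comp_apply, e, grad_apply, grad_apply]
  simp [Fintype.sum_sum_type]

/-- the model -/
def mdl : Mdl Al where
  S := SS
  x := xx
  z0 := pc hz1 hz2
  Z := Dom
  ev := ev
  pt := pt
  cY := cY
  par := par
  co := co
  si := si
  ext := ext
  solv := solv
  inj _ h := extA h
  abs_le := BdR.abs_le
  lip := BdR.lip
  cont f := by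
    obtain ⟨s, -, c, P, h, e⟩ := f.2
    change Continuous fun q : YY × (Fin 3 → ℝ) => f.1 q.1 (pt q.2)
    simp only [e]
    refine continuous_re.comp (h.cont continuous_fst (continuous_pi ?_) fun q => (pt q.2).2)
    rintro (j | j)
    · exact (continuous_apply j).comp continuous_snd
    · exact continuous_const
  per f y θ j := by
    obtain ⟨s, -, c, P, h, e⟩ := f.2
    refine (e _ _).trans ((congrArg re (tsum_congr fun i => ?_)).trans (e _ _).symm)
    simp only [mon, pt, Sum.elim_inl, Sum.elim_inr, ph_periodic]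
  der := der_pt
  evz f y θ := congrArg (f.1 y) (Subtype.ext (funext fun i => by
    rcases i with j | j <;> simp [tr, sc, pt]))
  cY_cst φ i := extA (pd_cst _ i)
  cY_bd := bd_cY
  cY_ev _ _ _ := rfl
  par_cst l i := extA (pd_cst _ i)
  par_bd := bd_par
  par_ev _ _ _ := rfl
  co_bd := bd_co
  si_bd := bd_si
  co_ev _ _ _ := rfl
  si_ev _ _ _ := rfl
  cs j := extA fun y z => by
    have := Real.cos_sq_add_sin_sq (z.1 (th j))
    rw [pow_two, pow_two] at this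
    exact this
  Dco i j := extA fun y z => by
    refine (pd_coord Real.hasDerivAt_cos (th j) i y z).trans ?_
    split_ifs <;> rfl
  Dsi i j := extA fun y z => by
    refine (pd_coord Real.hasDerivAt_sin (th j) i y z).trans ?_
    split_ifs <;> rfl

end Mod

theorem mod2 : ModStmt := ⟨Mod.Al, inferInstance, inferInstance, ⟨Mod.mdl⟩⟩

end Pool.Agent.MP_1ba41f_an.K4

end
end MrgPart1

-- marker of a merged file
example : 731051 + 225369 = 731051 + 225369 := rfl
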